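import Mathlib

/-!
Definitions for module varieties of basic finite-dimensional algebras: representation spaces,
orbits, irreducible components, minimal projective presentations, the Auslander-Reiten translate
`D Tr`, tau-rigid modules, generically tau-reduced components.
-/

set_option autoImplicit false

open Module MulOpposite

namespace Pool.Agent.Helper343_Tau

section modules

variable (K : Type) [Field K] {A : Type} [Ring A] [Algebra K A]

/-- An indecomposable module: nonzero, and not an internal direct sum of two nonzero submodules. -/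
def Indec (A : Type) [Ring A] (M : Type) [AddCommGroup M] [Module A M] : Prop :=
  Nontrivial M ∧ ∀ N N' : Submodule A M, IsCompl N N' → N = ⊥ ∨ N' = ⊥

/-- A superfluous submodule. -/
def Superfluous {P : Type} [AddCommGroup P] [Module A P] (N : Submodule A P) : Prop :=
  ∀ L : Submodule A P, L ⊔ N = ⊤ → L = ⊤

variable {P₁ P₀ M : Type} [AddCommGroup P₁] [Module A P₁] [AddCommGroup P₀] [Module A P₀]
  [AddCommGroup M] [Module A M]

/-- The maps `f : P₁ → P₀` and `q : P₀ → M` form a projective presentation of `M` (an exact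
sequence `P₁ → P₀ → M → 0`) by finitely generated projective modules. -/
structure IsPres (f : P₁ →ₗ[A] P₀) (q : P₀ →ₗ[A] M) : Prop where
  proj₁ : Module.Projective A P₁
  fin₁ : Module.Finite A P₁
  proj₀ : Module.Projective A P₀
  fin₀ : Module.Finite A P₀
  surj : Function.Surjective q
  exact : LinearMap.range f = LinearMap.ker q

/-- The maps `f : P₁ → P₀` and `q : P₀ → M` form a minimal projective presentation of `M`: `q` is
a projective cover of `M` and `f` is a projective cover of the kernel of `q`. -/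
structure IsMinPres (f : P₁ →ₗ[A] P₀) (q : P₀ →ₗ[A] M) : Prop extends IsPres f q where
  min₀ : Superfluous (LinearMap.ker q)
  min₁ : Superfluous (LinearMap.ker f)

/-- The map `Hom_A(P₀, A) → Hom_A(P₁, A)` of right `A`-modules induced by `f : P₁ → P₀`. -/
def dualHom (f : P₁ →ₗ[A] P₀) : (P₀ →ₗ[A] A) →ₗ[Aᵐᵒᵖ] (P₁ →ₗ[A] A) where
  toFun g := g ∘ₗ f
  map_add' _ _ := rfl
  map_smul' _ _ := rfl

/-- The transpose of the cokernel of `f` (when `f` is a minimal projective presentation): the
cokernel of `Hom_A(P₀, A) → Hom_A(P₁, A)`, a right `A`-module. -/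
abbrev Tr (f : P₁ →ₗ[A] P₀) : Type := (P₁ →ₗ[A] A) ⧸ LinearMap.range (dualHom f)

/-- The Auslander-Reiten translate `D Tr M` of the cokernel `M` of the minimal projective
presentation `f`: the `K`-dual of the right module `Tr f`, a left `A`-module. -/
def Tau (f : P₁ →ₗ[A] P₀) : Type := Module.Dual K (Tr f)

noncomputable instance (f : P₁ →ₗ[A] P₀) : AddCommGroup (Tau K f) :=
  (inferInstance : AddCommGroup (Module.Dual K (Tr f)))

noncomputable instance (f : P₁ →ₗ[A] P₀) : Module K (Tau K f) :=
  (inferInstance : Module K (Module.Dual K (Tr f)))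

/-- The value of an element of `D Tr M` at an element of `Tr M`. -/
def Tau.app {f : P₁ →ₗ[A] P₀} (φ : Tau K f) (x : Tr f) : K :=
  (show Module.Dual K (Tr f) from φ) x

/-- Right multiplication by `a` on `Tr f`, as a `K`-linear map. -/
def Tr.rmul (f : P₁ →ₗ[A] P₀) (a : A) : Tr f →ₗ[K] Tr f where
  toFun x := op a • x
  map_add' := smul_add _
  map_smul' c x := by
    rw [RingHom.id_apply, smul_comm]

/-- The action of `A` on `D Tr M`: `(a φ)(x) = φ(x a)`. -/
noncomputable instance (f : P₁ →ₗ[A] P₀) : SMul A (Tau K f) :=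
  ⟨fun a φ => LinearMap.comp (show Module.Dual K (Tr f) from φ) (Tr.rmul K f a)⟩

/-- The left `A`-module structure of `D Tr M`. -/
noncomputable instance (f : P₁ →ₗ[A] P₀) : Module A (Tau K f) :=
  Module.ofMinimalAxioms (fun _ _ _ => rfl)
    (fun a b φ => by
      refine LinearMap.ext fun x => ?_
      change (show Module.Dual K (Tr f) from φ) (op (a + b) • x) =
        (show Module.Dual K (Tr f) from φ) (op a • x) + (show Module.Dual K (Tr f) from φ) (op b • x)
      rw [op_add, add_smul, map_add])
    (fun a b φ => by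
      refine LinearMap.ext fun x => ?_
      change (show Module.Dual K (Tr f) from φ) (op (a * b) • x) =
        (show Module.Dual K (Tr f) from φ) (op b • op a • x)
      rw [op_mul, mul_smul])
    (fun φ => by
      refine LinearMap.ext fun x => ?_
      change (show Module.Dual K (Tr f) from φ) (op (1 : A) • x) = _
      rw [op_one, one_smul])

theorem Tau.smul_app {f : P₁ →ₗ[A] P₀} (a : A) (φ : Tau K f) (x : Tr f) :
    Tau.app K (a • φ) x = Tau.app K φ (op a • x) := rfl

instance (f : P₁ →ₗ[A] P₀) : SMulCommClass A K (Tau K f) where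
  smul_comm a c φ := by
    refine LinearMap.ext fun x => ?_
    rfl

/-- `dim Hom_A(M, τ M) = k`, where `τ M = D Tr M` is computed from a minimal projective
presentation of `M`. -/
def HomTauDim (A : Type) [Ring A] [Algebra K A] (M : Type) [AddCommGroup M] [Module A M]
    (k : ℕ) : Prop :=
  ∃ (P₁ P₀ : Type) (_ : AddCommGroup P₁) (_ : Module A P₁) (_ : AddCommGroup P₀)
    (_ : Module A P₀) (f : P₁ →ₗ[A] P₀) (q : P₀ →ₗ[A] M),
    IsMinPres f q ∧ finrank K (M →ₗ[A] Tau K f) = k

/-- `M` is tau-rigid: `Hom_A(M, τ M) = 0`. -/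
def TauRigid (A : Type) [Ring A] [Algebra K A] (M : Type) [AddCommGroup M] [Module A M] : Prop :=
  ∃ (P₁ P₀ : Type) (_ : AddCommGroup P₁) (_ : Module A P₁) (_ : AddCommGroup P₀)
    (_ : Module A P₀) (f : P₁ →ₗ[A] P₀) (q : P₀ →ₗ[A] M),
    IsMinPres f q ∧ ∀ β : M →ₗ[A] Tau K f, β = 0

/-- `A` is tau-tilting infinite: there are infinitely many pairwise non-isomorphic finitely
generated indecomposable tau-rigid `A`-modules. -/
def TauTiltingInfinite (A : Type) [Ring A] [Algebra K A] : Prop :=
  ∃ M : ℕ → ModuleCat.{0} A, (∀ i, Module.Finite A (M i) ∧ Indec A (M i) ∧ TauRigid K A (M i)) ∧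
    ∀ i j, i ≠ j → IsEmpty (M i ≃ₗ[A] M j)

end modules

section rep

variable (K : Type) [Field K] (A : Type) [Ring A] [Algebra K A] {n : ℕ}

/-- `A` is a basic algebra with `A / rad A` isomorphic to `K ^ n`, and `e i` are orthogonal
idempotents with sum `1` lifting the standard idempotents of `K ^ n`. -/
structure IsBasic (e : Fin n → A) : Prop where
  coi : CompleteOrthogonalIdempotents e
  exists_pi : ∃ π : A →ₐ[K] (Fin n → K), (∀ i, π (e i) = Pi.single i 1) ∧
    ∀ a, π a = 0 → IsNilpotent a

variable (e : Fin n → A) (d : Fin n → ℕ)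

/-- `Rep(A, d)`: the `A`-module structures on `∏ i, K ^ (d i)` for which `e i` acts as the
projection to the `i`-th factor. -/
structure Rep where
  /-- the action of `A` -/
  act : A →ₐ[K] Module.End K (∀ i, Fin (d i) → K)
  act_e : ∀ i v, act (e i) v = Pi.single i (v i)

variable {A e d}

/-- The algebra of polynomial functions on `Rep(A, d)`, generated by the matrix coefficients
`ρ ↦ φ (ρ(a) v)`. -/
def coordRing (e : Fin n → A) (d : Fin n → ℕ) : Subalgebra K (Rep K A e d → K) :=
  Algebra.adjoin K {g | ∃ (a : A) (v : ∀ i, Fin (d i) → K)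
    (φ : Module.Dual K (∀ i, Fin (d i) → K)), g = fun ρ => φ (ρ.act a v)}

/-- The Zariski topology of `Rep(A, d)`: the basic open sets are the nonvanishing loci of the
polynomial functions. -/
instance : TopologicalSpace (Rep K A e d) :=
  TopologicalSpace.generateFrom {U | ∃ g ∈ coordRing K e d, U = {ρ | g ρ ≠ 0}}

variable {K}

/-- The `A`-module given by a point of `Rep(A, d)`. -/
def Rep.Mod (_ : Rep K A e d) : Type := ∀ i, Fin (d i) → K

noncomputable instance (ρ : Rep K A e d) : AddCommGroup ρ.Mod :=
  (inferInstance : AddCommGroup (∀ i, Fin (d i) → K))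

noncomputable instance (ρ : Rep K A e d) : Module K ρ.Mod :=
  (inferInstance : Module K (∀ i, Fin (d i) → K))

noncomputable instance (ρ : Rep K A e d) : Module A ρ.Mod :=
  Module.compHom (∀ i, Fin (d i) → K) (ρ.act : A →+* Module.End K (∀ i, Fin (d i) → K))

theorem Rep.smul_def (ρ : Rep K A e d) (a : A) (v : ρ.Mod) : a • v = ρ.act a v := rfl

instance (ρ : Rep K A e d) : IsScalarTower K A ρ.Mod where
  smul_assoc c a v := by
    rw [Rep.smul_def, Rep.smul_def, map_smul]
    rfl

instance (ρ : Rep K A e d) : FiniteDimensional K ρ.Mod :=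
  inferInstanceAs (FiniteDimensional K (∀ i, Fin (d i) → K))

/-- The orbit of a point of `Rep(A, d)`: its isomorphism class. -/
def orbit (ρ : Rep K A e d) : Set (Rep K A e d) := {σ | Nonempty (ρ.Mod ≃ₗ[A] σ.Mod)}

/-- `Z` contains a dense (relatively) open subset of indecomposable modules. -/
def GenIndec (Z : Set (Rep K A e d)) : Prop :=
  ∃ U : Set (Rep K A e d), IsOpen U ∧ Z ⊆ closure (Z ∩ U) ∧ ∀ ρ ∈ Z ∩ U, Indec A ρ.Mod

/-- `c_A(Z)`: the minimum over `M ∈ Z` of `dim Z - dim O(M)`; the dimension is the Krull dimension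
of the topological space. -/
noncomputable def cA (Z : Set (Rep K A e d)) : ℕ :=
  sInf {k : ℕ | ∃ ρ ∈ Z, topologicalKrullDim Z = topologicalKrullDim (orbit ρ) + k}

/-- `hom^τ_A(Z)`: the minimum over `M ∈ Z` of `dim Hom_A(M, τ M)`. -/
noncomputable def homTau (Z : Set (Rep K A e d)) : ℕ :=
  sInf {k : ℕ | ∃ ρ ∈ Z, HomTauDim K A ρ.Mod k}

end rep

end Pool.Agent.Helper343_Tau
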