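import Mathlib
import Pool.Agent.Helper343_Tau.Defs
import Pool.Agent.Helper793_Bricks.Numeric

/-!
Basic notions used in the proof: the dimension of the cokernel of `Hom(f, M)`, decomposable maps.
-/

set_option autoImplicit false

open Module Pool.Agent.Helper793Bricks

namespace Pool.Agent.Helper343_Tau

variable (K : Type) [Field K] {A : Type} [Ring A] [Algebra K A]
  {P₁ P₀ : Type} [AddCommGroup P₁] [Module A P₁] [AddCommGroup P₀] [Module A P₀]

/-- The cokernel of `Hom(P₀, M) → Hom(P₁, M)`. -/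
abbrev ECoker (f : P₁ →ₗ[A] P₀) (M : Type) [AddCommGroup M] [Module A M] [Module K M]
    [IsScalarTower K A M] : Type :=
  (P₁ →ₗ[A] M) ⧸ LinearMap.range (preC K f M)

/-- The dimension of the cokernel of `Hom(P₀, M) → Hom(P₁, M)`. -/
noncomputable def eDim (f : P₁ →ₗ[A] P₀) (M : Type) [AddCommGroup M] [Module A M] [Module K M]
    [IsScalarTower K A M] : ℕ :=
  finrank K (ECoker K f M)

/-- The map `f`, viewed as a two-term complex, is a direct sum of two nonzero complexes. -/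
def MapDec (f : P₁ →ₗ[A] P₀) : Prop :=
  ∃ (X₀ X₀' : Submodule A P₀) (X₁ X₁' : Submodule A P₁), IsCompl X₀ X₀' ∧ IsCompl X₁ X₁' ∧
    X₁.map f ≤ X₀ ∧ X₁'.map f ≤ X₀' ∧ ¬(X₀ = ⊥ ∧ X₁ = ⊥) ∧ ¬(X₀' = ⊥ ∧ X₁' = ⊥)

end Pool.Agent.Helper343_Tau
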