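import Mathlib
import Pool.Agent.Helper343_Tau.Basic

set_option autoImplicit false

open Module Pool.Agent.Helper793Bricks

namespace Pool.Agent.Helper343_Tau

variable (K : Type) [Field K] {A : Type} [Ring A] [Algebra K A]
  {P₁ P₀ : Type} [AddCommGroup P₁] [Module A P₁] [AddCommGroup P₀] [Module A P₀]

/-- a dual basis of a finitely generated projective module -/
theorem exists_dual_basis_fin (P : Type) [AddCommGroup P] [Module A P] [Module.Projective A P]
    [Module.Finite A P] : ∃ (n : ℕ) (x : Fin n → (P →ₗ[A] A)) (u : Fin n → P),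
      ∀ y, ∑ j, x j y • u j = y := by
  obtain ⟨n, p, hp⟩ := Module.Finite.exists_fin' A P
  obtain ⟨s, hs⟩ := Module.projective_lifting_property p LinearMap.id hp
  refine ⟨n, fun j => LinearMap.proj j ∘ₗ s, fun j => p (Pi.single j 1), fun y => ?_⟩
  have h1 : p (s y) = y := LinearMap.congr_fun hs y
  conv_rhs => rw [← h1]
  have h2 : s y = ∑ j, (s y) j • (Pi.single j (1 : A) : Fin n → A) := by
    ext i
    simp [Finset.sum_apply, Pi.single_apply]
  conv_rhs => rw [h2, map_sum]
  simp [map_smul]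

/-- class of a functional in `Tr f` -/
def trMk (f : P₁ →ₗ[A] P₀) (x : P₁ →ₗ[A] A) : Tr f := Submodule.Quotient.mk x

theorem trMk_comp (f : P₁ →ₗ[A] P₀) (g : P₀ →ₗ[A] A) : trMk f (g ∘ₗ f) = 0 :=
  (Submodule.Quotient.mk_eq_zero _).2 ⟨g, rfl⟩

theorem trMk_add (f : P₁ →ₗ[A] P₀) (x y : P₁ →ₗ[A] A) : trMk f (x + y) = trMk f x + trMk f y :=
  rfl

theorem trMk_smul (f : P₁ →ₗ[A] P₀) (c : K) (x : P₁ →ₗ[A] A) :
    trMk f (c • x) = c • trMk f x := rfl

theorem trMk_op (f : P₁ →ₗ[A] P₀) (a : A) (x : P₁ →ₗ[A] A) :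
    trMk f (MulOpposite.op a • x) = MulOpposite.op a • trMk f x := rfl

theorem trMk_sum (f : P₁ →ₗ[A] P₀) {ι : Type} (s : Finset ι) (x : ι → (P₁ →ₗ[A] A)) :
    trMk f (∑ i ∈ s, x i) = ∑ i ∈ s, trMk f (x i) :=
  map_sum (Submodule.mkQ (LinearMap.range (dualHom f))) x s

theorem Tau.app_add {f : P₁ →ₗ[A] P₀} (φ : Tau K f) (x y : Tr f) :
    Tau.app K φ (x + y) = Tau.app K φ x + Tau.app K φ y :=
  map_add (show Module.Dual K (Tr f) from φ) x y

theorem Tau.app_zero {f : P₁ →ₗ[A] P₀} (φ : Tau K f) :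
    Tau.app K φ 0 = 0 :=
  map_zero (show Module.Dual K (Tr f) from φ)

theorem Tau.app_sum {f : P₁ →ₗ[A] P₀} (φ : Tau K f) {ι : Type} (s : Finset ι) (x : ι → Tr f) :
    Tau.app K φ (∑ i ∈ s, x i) = ∑ i ∈ s, Tau.app K φ (x i) :=
  map_sum (show Module.Dual K (Tr f) from φ) x s

theorem Tau.add_app {f : P₁ →ₗ[A] P₀} (φ ψ : Tau K f) (x : Tr f) :
    Tau.app K (φ + ψ) x = Tau.app K φ x + Tau.app K ψ x := rfl

theorem Tau.zero_app {f : P₁ →ₗ[A] P₀} (x : Tr f) :
    Tau.app K (0 : Tau K f) x = 0 := rfl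

theorem Tau.smulK_app {f : P₁ →ₗ[A] P₀} (c : K) (φ : Tau K f) (x : Tr f) :
    Tau.app K (c • φ) x = c * Tau.app K φ x := rfl

theorem Tau.sum_app {f : P₁ →ₗ[A] P₀} {ι : Type} (s : Finset ι) (φ : ι → Tau K f) (x : Tr f) :
    Tau.app K (∑ i ∈ s, φ i) x = ∑ i ∈ s, Tau.app K (φ i) x := by
  classical
  induction s using Finset.induction_on with
  | empty => simp [Tau.zero_app]
  | insert a s ha ih => rw [Finset.sum_insert ha, Finset.sum_insert ha, Tau.add_app, ih]

theorem Tau.ext' {f : P₁ →ₗ[A] P₀} {φ ψ : Tau K f}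
    (h : ∀ x : P₁ →ₗ[A] A, Tau.app K φ (trMk f x) = Tau.app K ψ (trMk f x)) : φ = ψ := by
  refine LinearMap.ext (f := (show Module.Dual K (Tr f) from φ))
    (g := (show Module.Dual K (Tr f) from ψ)) fun x => ?_
  obtain ⟨y, rfl⟩ := Submodule.Quotient.mk_surjective _ x
  exact h y

/-- the element of `D Tr` given by a `K`-linear functional on `Hom(P₁, A)` killing `Hom(P₀, A)` -/
def tauMk (f : P₁ →ₗ[A] P₀) (L : (P₁ →ₗ[A] A) →ₗ[K] K)
    (h : ∀ g : P₀ →ₗ[A] A, L (g ∘ₗ f) = 0) : Tau K f :=
  (show Module.Dual K (Tr f) from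
    { toFun := fun x => Quotient.liftOn' x (fun y => L y) (by
        intro a b hab
        rw [Submodule.quotientRel_def] at hab
        obtain ⟨g, hg⟩ := hab
        have h1 := h g
        have h2 : g ∘ₗ f = a - b := hg
        rw [h2, map_sub] at h1
        exact sub_eq_zero.1 h1)
      map_add' := by
        intro x y
        obtain ⟨a, rfl⟩ := Submodule.Quotient.mk_surjective _ x
        obtain ⟨b, rfl⟩ := Submodule.Quotient.mk_surjective _ y
        exact map_add L a b
      map_smul' := by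
        intro c x
        obtain ⟨a, rfl⟩ := Submodule.Quotient.mk_surjective _ x
        exact map_smul L c a })

theorem tauMk_app (f : P₁ →ₗ[A] P₀) (L : (P₁ →ₗ[A] A) →ₗ[K] K)
    (h : ∀ g : P₀ →ₗ[A] A, L (g ∘ₗ f) = 0) (x : P₁ →ₗ[A] A) :
    Tau.app K (tauMk K f L h) (trMk f x) = L x := rfl

/-- TARGET -/
theorem ar_formula [Module.Projective A P₁] [Module.Finite A P₁] [Module.Projective A P₀]
    [Module.Finite A P₀] (f : P₁ →ₗ[A] P₀) (M : Type) [AddCommGroup M] [Module A M] [Module K M]
    [IsScalarTower K A M] :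
    Nonempty ((M →ₗ[A] Tau K f) ≃ₗ[K] Module.Dual K (ECoker K f M)) := by
  obtain ⟨n, x, u, hxu⟩ := exists_dual_basis_fin (A := A) P₁
  obtain ⟨m, z, w, hzw⟩ := exists_dual_basis_fin (A := A) P₀
  -- forward
  have fwd0 : ∀ (β : M →ₗ[A] Tau K f) (ψ : P₀ →ₗ[A] M),
      ∑ j, Tau.app K (β ((ψ ∘ₗ f) (u j))) (trMk f (x j)) = 0 := by
    intro β ψ
    have h1 : ∀ j, (ψ ∘ₗ f) (u j) = ∑ k, z k (f (u j)) • ψ (w k) := by
      intro j
      rw [LinearMap.comp_apply]
      conv_lhs => rw [← hzw (f (u j)), map_sum]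
      simp
    have h2 : ∀ j, Tau.app K (β ((ψ ∘ₗ f) (u j))) (trMk f (x j)) =
        ∑ k, Tau.app K (β (ψ (w k))) (trMk f (MulOpposite.op (z k (f (u j))) • x j)) := by
      intro j
      rw [h1 j, map_sum, Tau.sum_app]
      refine Finset.sum_congr rfl fun k _ => ?_
      rw [map_smul, Tau.smul_app, trMk_op]
    rw [Finset.sum_congr rfl fun j _ => h2 j, Finset.sum_comm]
    refine Finset.sum_eq_zero fun k _ => ?_
    rw [← Tau.app_sum, ← trMk_sum]
    have h3 : ∑ j, MulOpposite.op (z k (f (u j))) • x j = z k ∘ₗ f := by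
      ext y
      rw [LinearMap.sum_apply, LinearMap.comp_apply]
      conv_rhs => rw [← hxu y, map_sum, map_sum]
      refine Finset.sum_congr rfl fun j _ => ?_
      simp [MulOpposite.smul_eq_mul_unop]
    rw [h3, trMk_comp, Tau.app_zero]
  let F : (M →ₗ[A] Tau K f) → Module.Dual K (ECoker K f M) := fun β =>
    Submodule.liftQ _
      { toFun := fun φ => ∑ j, Tau.app K (β (φ (u j))) (trMk f (x j))
        map_add' := by
          intro φ ψ
          simp only [LinearMap.add_apply, map_add, Tau.add_app, Finset.sum_add_distrib]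
        map_smul' := by
          intro c φ
          rw [RingHom.id_apply, smul_eq_mul, Finset.mul_sum]
          refine Finset.sum_congr rfl fun j _ => ?_
          rw [LinearMap.smul_apply, ← algebraMap_smul A c (φ (u j)), map_smul, Tau.smul_app,
            ← trMk_op, ← Tau.smulK_app]
          have h1 : MulOpposite.op (algebraMap K A c) • x j = c • x j := by
            ext y
            simp [MulOpposite.smul_eq_mul_unop, Algebra.smul_def, Algebra.commutes]
          rw [h1, trMk_smul]
          exact map_smul (show Module.Dual K (Tr f) from β (φ (u j))) c (trMk f (x j)) }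
      (by
        rintro _ ⟨ψ, rfl⟩
        exact fwd0 β ψ)
  -- backward
  have bwd0 : ∀ (Λ : Module.Dual K (ECoker K f M)) (v : M) (g : P₀ →ₗ[A] A),
      Λ (Submodule.Quotient.mk ((g ∘ₗ f).smulRight v)) = 0 := by
    intro Λ v g
    have h1 : (Submodule.Quotient.mk ((g ∘ₗ f).smulRight v) : ECoker K f M) = 0 := by
      rw [Submodule.Quotient.mk_eq_zero]
      exact ⟨g.smulRight v, rfl⟩
    rw [h1, map_zero]
  let G : Module.Dual K (ECoker K f M) → (M →ₗ[A] Tau K f) := fun Λ =>
    { toFun := fun v => tauMk K f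
        { toFun := fun y => Λ (Submodule.Quotient.mk (y.smulRight v))
          map_add' := by
            intro y y'
            rw [← map_add, ← Submodule.Quotient.mk_add]
            congr 2
            ext p
            simp [add_smul]
          map_smul' := by
            intro c y
            rw [RingHom.id_apply, ← map_smul, ← Submodule.Quotient.mk_smul]
            congr 2
            ext p
            simp }
        (bwd0 Λ v)
      map_add' := by
        intro v v'
        refine Tau.ext' K fun y => ?_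
        rw [Tau.add_app, tauMk_app, tauMk_app, tauMk_app]
        change Λ _ = Λ _ + Λ _
        rw [← map_add, ← Submodule.Quotient.mk_add]
        congr 2
        ext p
        simp
      map_smul' := by
        intro a v
        refine Tau.ext' K fun y => ?_
        rw [RingHom.id_apply, Tau.smul_app, ← trMk_op, tauMk_app, tauMk_app]
        change Λ _ = Λ _
        congr 2
        ext p
        simp [mul_smul, MulOpposite.smul_eq_mul_unop] }
  have hGF : ∀ β, G (F β) = β := by
    intro β
    ext v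
    refine Tau.ext' K fun y => ?_
    change ∑ j, Tau.app K (β ((y.smulRight v) (u j))) (trMk f (x j)) = _
    have h1 : ∀ j, Tau.app K (β ((y.smulRight v) (u j))) (trMk f (x j)) =
        Tau.app K (β v) (trMk f (MulOpposite.op (y (u j)) • x j)) := by
      intro j
      rw [LinearMap.smulRight_apply, map_smul, Tau.smul_app, trMk_op]
    rw [Finset.sum_congr rfl fun j _ => h1 j, ← Tau.app_sum, ← trMk_sum]
    congr 2
    ext p
    rw [LinearMap.sum_apply]
    conv_rhs => rw [← hxu p, map_sum]
    refine Finset.sum_congr rfl fun j _ => ?_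
    simp [MulOpposite.smul_eq_mul_unop]
  have hFG : ∀ Λ, F (G Λ) = Λ := by
    intro Λ
    refine LinearMap.ext fun q => ?_
    obtain ⟨φ, rfl⟩ := Submodule.Quotient.mk_surjective _ q
    change ∑ j, Λ (Submodule.Quotient.mk ((x j).smulRight (φ (u j)))) = _
    rw [← map_sum]
    congr 1
    have h2 : (∑ j, (x j).smulRight (φ (u j))) = φ := by
      ext p
      rw [LinearMap.sum_apply]
      conv_rhs => rw [← hxu p, map_sum]
      refine Finset.sum_congr rfl fun j _ => ?_
      simp
    conv_rhs => rw [← h2]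
    exact (map_sum (Submodule.mkQ (LinearMap.range (preC K f M)))
      (fun j => (x j).smulRight (φ (u j))) Finset.univ).symm
  refine ⟨{ toFun := F, map_add' := ?_, map_smul' := ?_, invFun := G, left_inv := hGF,
            right_inv := hFG }⟩
  · intro β β'
    refine LinearMap.ext fun q => ?_
    obtain ⟨φ, rfl⟩ := Submodule.Quotient.mk_surjective _ q
    change ∑ j, Tau.app K (β (φ (u j)) + β' (φ (u j))) (trMk f (x j)) = _ + _
    simp only [Tau.add_app, Finset.sum_add_distrib]
    rfl
  · intro c β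
    refine LinearMap.ext fun q => ?_
    obtain ⟨φ, rfl⟩ := Submodule.Quotient.mk_surjective _ q
    change ∑ j, Tau.app K (c • β (φ (u j))) (trMk f (x j)) = c • _
    simp only [Tau.smulK_app]
    rw [← Finset.mul_sum]
    rfl

end Pool.Agent.Helper343_Tau
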