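import Mathlib
import Pool.Agent.Helper343_Tau.Basic

set_option autoImplicit false

open Module Pool.Agent.Helper793Bricks

namespace Pool.Agent.Helper343_Tau

/-- projective covers over artinian rings -/
theorem exists_projCover {A : Type} [Ring A] [IsArtinianRing A] (M : Type) [AddCommGroup M]
    [Module A M] [Module.Finite A M] :
    ∃ (P : ModuleCat.{0} A) (q : P →ₗ[A] M), Module.Finite A P ∧ Module.Projective A P ∧
      Function.Surjective q ∧ Superfluous (LinearMap.ker q) := by
  classical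
  let Pr : ℕ → Prop := fun n => ∃ (P : ModuleCat.{0} A) (q : P →ₗ[A] M), Module.Finite A P ∧
      Module.Projective A P ∧ Function.Surjective q ∧ len A P = n
  have hP : ∃ n, Pr n := by
    obtain ⟨n, f, hf⟩ := Module.Finite.exists_fin' A M
    exact ⟨_, ModuleCat.of A (Fin n → A), f, inferInstanceAs (Module.Finite A (Fin n → A)),
      inferInstanceAs (Module.Projective A (Fin n → A)), hf, rfl⟩
  obtain ⟨P, q, hPf, hPp, hq, hn⟩ := Nat.find_spec hP
  refine ⟨P, q, hPf, hPp, hq, fun L hL => ?_⟩
  by_contra hne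
  have hsurj : Function.Surjective (q ∘ₗ L.subtype) := by
    intro m
    obtain ⟨p, rfl⟩ := hq m
    have hp : p ∈ L ⊔ LinearMap.ker q := by rw [hL]; trivial
    obtain ⟨l, hl, k, hk, rfl⟩ := Submodule.mem_sup.mp hp
    refine ⟨⟨l, hl⟩, ?_⟩
    have hk' : q k = 0 := hk
    change q l = q (l + k)
    rw [map_add, hk', add_zero]
  obtain ⟨h, hh⟩ := Module.projective_lifting_property (q ∘ₗ L.subtype) q hsurj
  let φ : P →ₗ[A] P := L.subtype ∘ₗ h
  have hφq : ∀ x, q (φ x) = q x := fun x => LinearMap.congr_fun hh x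
  have hφL : ∀ x, φ x ∈ L := fun x => (h x).2
  obtain ⟨n, hn0, hn2⟩ := ((LinearMap.eventually_isCompl_ker_pow_range_pow φ).and
    (Filter.eventually_ge_atTop 1)).exists
  have hfn : ∀ (m : ℕ) (x : P), q ((φ ^ m) x) = q x := by
    intro m
    induction m with
    | zero => intro x; rfl
    | succ m ih =>
      intro x
      rw [pow_succ', Module.End.mul_apply, hφq, ih]
  have hlt : LinearMap.range (φ ^ n) ≠ ⊤ := by
    intro htop
    apply hne
    rw [eq_top_iff, ← htop]
    rintro _ ⟨y, rfl⟩
    obtain ⟨m, rfl⟩ : ∃ m, n = m + 1 := ⟨n - 1, by omega⟩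
    rw [pow_succ', Module.End.mul_apply]
    exact hφL _
  have hlen := len_submodule_lt hlt
  have hmin := Nat.find_min hP (m := len A (LinearMap.range (φ ^ n))) (by rw [← hn]; exact hlen)
  apply hmin
  refine ⟨ModuleCat.of A (LinearMap.range (φ ^ n)), q ∘ₗ (LinearMap.range (φ ^ n)).subtype,
    inferInstanceAs (Module.Finite A (LinearMap.range (φ ^ n))), ?_, ?_, rfl⟩
  · exact Module.Projective.of_split (LinearMap.range (φ ^ n)).subtype
      ((LinearMap.range (φ ^ n)).projectionOnto (LinearMap.ker (φ ^ n)) hn0.symm)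
      (LinearMap.ext fun x => Submodule.projectionOnto_apply_left hn0.symm x)
  · intro m
    obtain ⟨p, rfl⟩ := hq m
    exact ⟨⟨(φ ^ n) p, p, rfl⟩, hfn n p⟩

/-- TARGET -/
theorem exists_minPres (K : Type) [Field K] {A : Type} [Ring A] [Algebra K A]
    [FiniteDimensional K A] (M : Type) [AddCommGroup M] [Module A M] [Module.Finite A M] :
    ∃ (P₁ P₀ : Type) (_ : AddCommGroup P₁) (_ : Module A P₁) (_ : AddCommGroup P₀)
      (_ : Module A P₀) (f : P₁ →ₗ[A] P₀) (q : P₀ →ₗ[A] M), IsMinPres f q := by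
  have : IsArtinianRing A := isArtinian_of_tower K inferInstance
  obtain ⟨P₀, q, h1, h2, h3, h4⟩ := exists_projCover (A := A) M
  have : Module.Finite A (LinearMap.ker q) := inferInstance
  obtain ⟨P₁, p, g1, g2, g3, g4⟩ := exists_projCover (A := A) (LinearMap.ker q)
  have hker : LinearMap.ker ((LinearMap.ker q).subtype ∘ₗ p) = LinearMap.ker p :=
    LinearMap.ker_comp_of_ker_eq_bot p (Submodule.ker_subtype _)
  refine ⟨P₁, P₀, inferInstance, inferInstance, inferInstance, inferInstance,
    (LinearMap.ker q).subtype ∘ₗ p, q, ?_⟩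
  refine { proj₁ := g2, fin₁ := g1, proj₀ := h2, fin₀ := h1, surj := h3, exact := ?_, min₀ := h4,
           min₁ := ?_ }
  · rw [LinearMap.range_comp, LinearMap.range_eq_top.mpr g3, Submodule.map_top,
      Submodule.range_subtype]
  · rw [hker]; exact g4

end Pool.Agent.Helper343_Tau
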