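import Mathlib
import Pool.Agent.Helper343_Tau.Basic

/-
JOB D (for MP_50148c_al, owner helper343): for P f.g. projective over a basic finite-dimensional
algebra, dim Hom_A(P, M) depends only on the dimension vector d of M.
All definitions are in Pool/Agent/Helper343_Tau/{Defs,Basic}.lean and
Pool/Agent/Helper793_Bricks/*.lean on origin/main (copy them to the same paths in /workdir/pool
and run: lake build Pool.Agent.Helper343_Tau.Basic).
PROOF in words. Let π : A → K^n be the map of IsBasic, J = ker π, S_i = K with A acting through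
π(·) i. Every simple A-module T is isomorphic to some S_i: J T ≠ T as J is nilpotent (nil ideal of
a finite-dimensional algebra), so J T = 0; some e_i acts nontrivially on T (Σ e_i = 1), take
t ≠ 0 in e_i T; a t = π(a) i t (since a e_i - π(a) i e_i ∈ J); so T = K t ≃ S_i.
Claim: for every f.d. M, hd K P M = Σ_i hd K P S_i * finrank K (e_i M), where e_i M is the range of
v ↦ e_i • v (as K-subspace). Induction on dim M: M = 0 clear; otherwise take a simple submodule
S ≤ M (exists_simple_sub in Helper793_Bricks/Numeric.lean), hd is additive (hd_add there), and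
dim e_i M = dim e_i S + dim e_i (M/S) (multiplication by an idempotent is exact). For M simple both
sides agree since dim e_j S_i = δ_ij.
Finally for ρ : Rep K A e d, e_i acts on ρ.Mod as the i-th block projection (Rep.act_e), so
finrank K (e_i ρ.Mod) = d i for every ρ. (The exact form of the claim is up to you; only the TARGET
statement matters.)
-/

set_option autoImplicit false

open Module Pool.Agent.Helper793Bricks

namespace Pool.Agent.Helper343_Tau

section aux

variable (K : Type) [Field K] {A : Type} [Ring A] [Algebra K A]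

/-- the left ideal generated by an element -/
abbrev hd_rep_eq_Q (e : A) : Submodule A A := Submodule.span A {e}

theorem hd_rep_eq_proj (e : A) (he : e * e = e) : Module.Projective A (hd_rep_eq_Q e) := by
  refine Module.Projective.of_split (hd_rep_eq_Q e).subtype
    ((LinearMap.toSpanSingleton A A e).codRestrict _
      fun a => Submodule.smul_mem _ a (Submodule.mem_span_singleton_self e)) ?_
  refine LinearMap.ext fun x => Subtype.ext ?_
  obtain ⟨x, hx⟩ := x
  obtain ⟨a, rfl⟩ := Submodule.mem_span_singleton.1 hx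
  change (a * e) * e = a * e
  rw [mul_assoc, he]

theorem hd_rep_eq_hd (e : A) (he : e * e = e) (M : Type) [AddCommGroup M] [Module A M]
    [Module K M] [IsScalarTower K A M] :
    hd K (A := A) (hd_rep_eq_Q e) M = finrank K (LinearMap.range (Algebra.lsmul K K M e)) := by
  have hmem : e ∈ hd_rep_eq_Q e := Submodule.mem_span_singleton_self e
  let T : (hd_rep_eq_Q e →ₗ[A] M) →ₗ[K] M :=
    { toFun := fun φ => φ ⟨e, hmem⟩
      map_add' := fun _ _ => rfl
      map_smul' := fun _ _ => rfl }
  have hinj : Function.Injective T := by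
    intro φ ψ h
    ext ⟨x, hx⟩
    obtain ⟨a, rfl⟩ := Submodule.mem_span_singleton.1 hx
    have h1 : (⟨a • e, hx⟩ : hd_rep_eq_Q e) = a • ⟨e, hmem⟩ := rfl
    rw [h1, map_smul, map_smul]
    exact congrArg (a • ·) h
  have hran : LinearMap.range T = LinearMap.range (Algebra.lsmul K K M e) := by
    ext v
    constructor
    · rintro ⟨φ, rfl⟩
      refine ⟨φ ⟨e, hmem⟩, ?_⟩
      change e • φ ⟨e, hmem⟩ = φ ⟨e, hmem⟩
      rw [← map_smul]
      congr 1
      exact Subtype.ext he
    · rintro ⟨w, rfl⟩
      refine ⟨(LinearMap.toSpanSingleton A M (e • w)) ∘ₗ (hd_rep_eq_Q e).subtype, ?_⟩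
      change e • (e • w) = e • w
      rw [← mul_smul, he]
  unfold hd
  rw [← LinearMap.finrank_range_of_inj hinj, hran]

variable {K} in
/-- the simple module attached to a coordinate of `π` -/
def hd_rep_eq_S {n : ℕ} (_ : A →ₐ[K] (Fin n → K)) (_ : Fin n) : Type := K

noncomputable instance {n : ℕ} (π : A →ₐ[K] (Fin n → K)) (i : Fin n) :
    AddCommGroup (hd_rep_eq_S π i) := inferInstanceAs (AddCommGroup K)

noncomputable instance {n : ℕ} (π : A →ₐ[K] (Fin n → K)) (i : Fin n) :
    Module K (hd_rep_eq_S π i) := inferInstanceAs (Module K K)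

noncomputable instance {n : ℕ} (π : A →ₐ[K] (Fin n → K)) (i : Fin n) :
    Module A (hd_rep_eq_S π i) :=
  Module.compHom K ((Pi.evalRingHom (fun _ => K) i).comp (π : A →+* (Fin n → K)))

theorem hd_rep_eq_S_smul {n : ℕ} (π : A →ₐ[K] (Fin n → K)) (i : Fin n) (a : A)
    (c : hd_rep_eq_S π i) : a • c = (π a i) • c := rfl

instance {n : ℕ} (π : A →ₐ[K] (Fin n → K)) (i : Fin n) : IsScalarTower K A (hd_rep_eq_S π i) where
  smul_assoc c a v := by
    rw [hd_rep_eq_S_smul, hd_rep_eq_S_smul, map_smul, Pi.smul_apply, smul_assoc]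

instance {n : ℕ} (π : A →ₐ[K] (Fin n → K)) (i : Fin n) :
    FiniteDimensional K (hd_rep_eq_S π i) := inferInstanceAs (FiniteDimensional K K)

variable {K}

/-- classification of the simple modules -/
theorem hd_rep_eq_simple {n : ℕ} (e : Fin n → A) (he : CompleteOrthogonalIdempotents e)
    (π : A →ₐ[K] (Fin n → K)) (hπ : ∀ i, π (e i) = Pi.single i 1)
    (hnil : ∀ a, π a = 0 → IsNilpotent a) (T : Type) [AddCommGroup T] [Module A T] [Module K T]
    [IsScalarTower K A T] [IsSimpleModule A T] : ∃ i, Nonempty (T ≃ₗ[A] hd_rep_eq_S π i) := by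
  have hzero : ∀ a, π a = 0 → ∀ t : T, a • t = 0 := by
    intro a ha t
    by_contra hne
    have ht : t ≠ 0 := by rintro rfl; exact hne (smul_zero a)
    obtain ⟨b, hb⟩ := IsSimpleModule.toSpanSingleton_surjective A hne t
    have h1 : b • a • t = t := hb
    have h2 : IsNilpotent (b * a) := hnil _ (by rw [map_mul, ha, mul_zero])
    have h3 : IsUnit (1 - b * a) := h2.isUnit_one_sub
    obtain ⟨u, hu⟩ := h3
    have h4 : (u : A) • t = 0 := by rw [hu, sub_smul, one_smul, mul_smul, h1, sub_self]
    apply ht
    have h5 : ((u⁻¹ : Aˣ) : A) • (u : A) • t = t := by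
      rw [← mul_smul, Units.inv_mul, one_smul]
    rw [← h5, h4, smul_zero]
  obtain ⟨t, ht⟩ : ∃ t : T, t ≠ 0 := by
    have := IsSimpleModule.nontrivial A T
    exact exists_ne 0
  obtain ⟨i, hi⟩ : ∃ i, e i • t ≠ 0 := by
    by_contra hc
    push Not at hc
    apply ht
    rw [← one_smul A t, ← he.complete, Finset.sum_smul]
    exact Finset.sum_eq_zero fun i _ => hc i
  have hact : ∀ a : A, a • e i • t = (π a i) • e i • t := by
    intro a
    have h1 : π (a * e i - (π a i) • e i) = 0 := by
      rw [map_sub, map_mul, map_smul, hπ]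
      ext j
      simp only [Pi.sub_apply, Pi.mul_apply, Pi.smul_apply, smul_eq_mul, Pi.zero_apply]
      by_cases hj : j = i
      · subst hj; simp
      · simp [Pi.single_eq_of_ne hj]
    have h2 := hzero _ h1 t
    rw [sub_smul, sub_eq_zero, mul_smul] at h2
    rw [h2, smul_assoc]
  refine ⟨i, ⟨(LinearEquiv.ofBijective
    ({ toFun := fun c => (show K from c) • e i • t
       map_add' := fun c c' => add_smul _ _ _
       map_smul' := fun a c => by
        rw [hd_rep_eq_S_smul, RingHom.id_apply]
        change ((π a i) * (show K from c)) • e i • t = a • (show K from c) • e i • t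
        rw [smul_comm a, hact, smul_smul, mul_comm] } : hd_rep_eq_S π i →ₗ[A] T) ?_).symm⟩⟩
  constructor
  · intro c c' h
    exact smul_left_injective K hi h
  · intro s
    obtain ⟨b, hb⟩ := IsSimpleModule.toSpanSingleton_surjective A hi s
    refine ⟨π b i, ?_⟩
    rw [← hb]
    exact (hact b).symm

theorem hd_rep_eq_SQ {n : ℕ} (e : Fin n → A) (he : CompleteOrthogonalIdempotents e)
    (π : A →ₐ[K] (Fin n → K)) (hπ : ∀ i, π (e i) = Pi.single i 1) (i j : Fin n) :
    hd K (A := A) (hd_rep_eq_Q (e i)) (hd_rep_eq_S π j) = if i = j then 1 else 0 := by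
  rw [hd_rep_eq_hd K (e i) (he.idem i)]
  have h1 : ∀ v : hd_rep_eq_S π j, e i • v = (Pi.single i (1 : K) : Fin n → K) j • v := by
    intro v
    rw [hd_rep_eq_S_smul, hπ]
  split_ifs with h
  · subst h
    have h2 : LinearMap.range (Algebra.lsmul K K (hd_rep_eq_S π i) (e i)) = ⊤ := by
      rw [LinearMap.range_eq_top]
      intro v
      refine ⟨v, ?_⟩
      change e i • v = v
      rw [h1, Pi.single_eq_same, one_smul]
    rw [h2, finrank_top]
    exact Module.finrank_self K
  · have h2 : LinearMap.range (Algebra.lsmul K K (hd_rep_eq_S π j) (e i)) = ⊥ := by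
      rw [LinearMap.range_eq_bot]
      refine LinearMap.ext fun v => ?_
      change e i • v = 0
      rw [h1, Pi.single_eq_of_ne (Ne.symm h), zero_smul]
    rw [h2, finrank_bot]

theorem hd_rep_eq_main {n : ℕ} (e : Fin n → A) (he : CompleteOrthogonalIdempotents e)
    (π : A →ₐ[K] (Fin n → K)) (hπ : ∀ i, π (e i) = Pi.single i 1)
    (hnil : ∀ a, π a = 0 → IsNilpotent a)
    (P : Type) [AddCommGroup P] [Module A P] [Module.Finite A P] [Module.Projective A P] :
    ∀ (m : ℕ) (M : Type) [AddCommGroup M] [Module A M] [Module K M] [IsScalarTower K A M]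
      [FiniteDimensional K M], finrank K M = m →
      hd K (A := A) P M = ∑ i, hd K (A := A) P (hd_rep_eq_S π i) *
        hd K (A := A) (hd_rep_eq_Q (e i)) M := by
  intro m
  induction m using Nat.strong_induction_on with
  | _ m ih =>
  intro M _ _ _ _ _ hm
  have hproj : ∀ i, Module.Projective A (hd_rep_eq_Q (e i)) := fun i =>
    hd_rep_eq_proj (e i) (he.idem i)
  have hart : IsArtinian A M := isArtinian_of_tower K inferInstance
  rcases subsingleton_or_nontrivial M with hs | hs
  · rw [hd_zero K fun f => by ext x; exact Subsingleton.elim _ _]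
    symm
    refine Finset.sum_eq_zero fun i _ => ?_
    have h0 : hd K (A := A) (hd_rep_eq_Q (e i)) M = 0 :=
      hd_zero K fun f => LinearMap.ext fun x => Subsingleton.elim _ _
    rw [h0, mul_zero]
  · obtain ⟨S, hS⟩ := exists_simple_sub (A := A) M
    obtain ⟨j, ⟨ej⟩⟩ := hd_rep_eq_simple e he π hπ hnil S
    have h1 : hd K (A := A) P S = ∑ i, hd K (A := A) P (hd_rep_eq_S π i) *
        hd K (A := A) (hd_rep_eq_Q (e i)) S := by
      rw [hd_congr K ej]
      have h2 : ∀ i, hd K (A := A) (hd_rep_eq_Q (e i)) S = if i = j then 1 else 0 := fun i => by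
        rw [hd_congr K ej, hd_rep_eq_SQ e he π hπ]
      simp [h2]
    have hpos : 0 < finrank K S := by
      have h5 : Nontrivial S := IsSimpleModule.nontrivial A S
      have h6 : FiniteDimensional K S :=
        inferInstanceAs (FiniteDimensional K (S.restrictScalars K))
      exact Module.finrank_pos (R := K)
    have hadd : finrank K (M ⧸ S) + finrank K S = finrank K M :=
      Submodule.finrank_quotient_add_finrank (S.restrictScalars K)
    have h3 := ih (finrank K (M ⧸ S)) (by omega) (M ⧸ S) rfl
    rw [hd_add K S, h1, h3, ← Finset.sum_add_distrib]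
    refine Finset.sum_congr rfl fun i _ => ?_
    rw [hd_add K (X := hd_rep_eq_Q (e i)) S]
    ring

theorem hd_rep_eq_rank {n : ℕ} (e : Fin n → A) (he : CompleteOrthogonalIdempotents e)
    (d : Fin n → ℕ) (ρ : Rep K A e d) (i : Fin n) :
    hd K (A := A) (hd_rep_eq_Q (e i)) ρ.Mod = d i := by
  rw [hd_rep_eq_hd K (e i) (he.idem i)]
  let f : (Fin (d i) → K) →ₗ[K] ρ.Mod :=
    LinearMap.single K (fun i => Fin (d i) → K) i
  have hinj : Function.Injective f := fun a b h =>
    Pi.single_injective (M := fun i => Fin (d i) → K) i h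
  have hran : LinearMap.range (Algebra.lsmul K K ρ.Mod (e i)) = LinearMap.range f := by
    ext v
    constructor
    · rintro ⟨w, rfl⟩
      refine ⟨(show (∀ i, Fin (d i) → K) from w) i, ?_⟩
      exact (ρ.act_e i w).symm
    · rintro ⟨w, rfl⟩
      refine ⟨f w, ?_⟩
      refine (ρ.act_e i (f w)).trans ?_
      have h1 : (Pi.single i w : ∀ i, Fin (d i) → K) i = w :=
        Pi.single_eq_same (M := fun i => Fin (d i) → K) i w
      exact congrArg (fun z => (Pi.single i z : ∀ i, Fin (d i) → K)) h1
  rw [hran, LinearMap.finrank_range_of_inj hinj]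
  simp

end aux

/-- TARGET -/
theorem hd_rep_eq (K : Type) [Field K] {A : Type} [Ring A] [Algebra K A]
    [FiniteDimensional K A] {n : ℕ} (e : Fin n → A) (he : IsBasic K A e) (d : Fin n → ℕ)
    (P : Type) [AddCommGroup P] [Module A P] [Module.Finite A P] [Module.Projective A P]
    (ρ σ : Rep K A e d) : hd K (A := A) P ρ.Mod = hd K (A := A) P σ.Mod := by
  obtain ⟨π, hπ, hnil⟩ := he.exists_pi
  rw [hd_rep_eq_main e he.coi π hπ hnil P _ ρ.Mod rfl, hd_rep_eq_main e he.coi π hπ hnil P _ σ.Mod rfl]
  simp only [hd_rep_eq_rank e he.coi]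

end Pool.Agent.Helper343_Tau
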