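import Mathlib
import Pool.Agent.Helper343_Tau.Basic

/-!
A presentation by an indecomposable map of projectives is minimal and presents an indecomposable
module (job 1334, helper149).
-/

set_option autoImplicit false

open Module Pool.Agent.Helper793Bricks

namespace Pool.Agent.Helper343_Tau

/-- Fitting's lemma for an endomorphism of an indecomposable map. -/
theorem fitting_of_not_mapDec {A : Type} [Ring A]
    {P₁ P₀ : Type} [AddCommGroup P₁] [Module A P₁] [AddCommGroup P₀] [Module A P₀]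
    [IsArtinian A P₁] [IsNoetherian A P₁] [IsArtinian A P₀] [IsNoetherian A P₀]
    (f : P₁ →ₗ[A] P₀) (hdec : ¬ MapDec f) (x₀ : P₀ →ₗ[A] P₀) (x₁ : P₁ →ₗ[A] P₁)
    (h : ∀ v, x₀ (f v) = f (x₁ v)) :
    (LinearMap.range x₀ = ⊤ ∧ LinearMap.range x₁ = ⊤) ∨
      ∃ k : ℕ, 1 ≤ k ∧ x₀ ^ k = 0 ∧ x₁ ^ k = 0 := by
  obtain ⟨k, ⟨h₀, h₁⟩, hk⟩ := (((LinearMap.eventually_isCompl_ker_pow_range_pow x₀).and
    (LinearMap.eventually_isCompl_ker_pow_range_pow x₁)).and
    (Filter.eventually_ge_atTop 1)).exists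
  have hpow : ∀ n : ℕ, ∀ v, (x₀ ^ n) (f v) = f ((x₁ ^ n) v) := by
    intro n
    induction n with
    | zero => intro v; simp
    | succ n ih =>
      intro v
      rw [pow_succ', pow_succ', Module.End.mul_apply, Module.End.mul_apply, ih, h]
  have hm1 : (LinearMap.ker (x₁ ^ k)).map f ≤ LinearMap.ker (x₀ ^ k) := by
    rintro _ ⟨v, hv, rfl⟩
    rw [LinearMap.mem_ker, hpow, LinearMap.mem_ker.1 hv, map_zero]
  have hm2 : (LinearMap.range (x₁ ^ k)).map f ≤ LinearMap.range (x₀ ^ k) := by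
    rintro _ ⟨_, ⟨v, rfl⟩, rfl⟩
    exact ⟨f v, hpow k v⟩
  by_cases hA : LinearMap.ker (x₀ ^ k) = ⊥ ∧ LinearMap.ker (x₁ ^ k) = ⊥
  · left
    obtain ⟨m, rfl⟩ : ∃ m, k = m + 1 := ⟨k - 1, by omega⟩
    have e0 : LinearMap.range (x₀ ^ (m + 1)) = ⊤ := by
      have := h₀.sup_eq_top
      rwa [hA.1, bot_sup_eq] at this
    have e1 : LinearMap.range (x₁ ^ (m + 1)) = ⊤ := by
      have := h₁.sup_eq_top
      rwa [hA.2, bot_sup_eq] at this
    constructor
    · rw [eq_top_iff, ← e0]
      rintro _ ⟨v, rfl⟩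
      exact ⟨(x₀ ^ m) v, by rw [pow_succ', Module.End.mul_apply]⟩
    · rw [eq_top_iff, ← e1]
      rintro _ ⟨v, rfl⟩
      exact ⟨(x₁ ^ m) v, by rw [pow_succ', Module.End.mul_apply]⟩
  · right
    refine ⟨k, hk, ?_⟩
    by_contra hB
    apply hdec
    refine ⟨_, _, _, _, h₀, h₁, hm1, hm2, hA, ?_⟩
    rintro ⟨h1, h2⟩
    exact hB ⟨LinearMap.range_eq_bot.1 h1, LinearMap.range_eq_bot.1 h2⟩

/-- lift of an endomorphism of `P₀` which preserves the range of `f` -/
theorem exists_lift {A : Type} [Ring A]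
    {P₁ P₀ : Type} [AddCommGroup P₁] [Module A P₁] [AddCommGroup P₀] [Module A P₀]
    [Module.Projective A P₁] (f : P₁ →ₗ[A] P₀) (x₀ : P₀ →ₗ[A] P₀)
    (h : ∀ v, x₀ (f v) ∈ LinearMap.range f) : ∃ x₁ : P₁ →ₗ[A] P₁, ∀ v, x₀ (f v) = f (x₁ v) := by
  obtain ⟨x₁, hx₁⟩ := Module.projective_lifting_property f.rangeRestrict
    (LinearMap.codRestrict (LinearMap.range f) (x₀ ∘ₗ f) h) f.surjective_rangeRestrict
  refine ⟨x₁, fun v => ?_⟩
  have := congrArg Subtype.val (LinearMap.congr_fun hx₁ v)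
  exact this.symm

/-- A presentation by an indecomposable map of projectives is minimal and presents an indecomposable
module. -/
theorem isMinPres_and_indec_of_not_mapDec (K : Type) [Field K] {A : Type} [Ring A] [Algebra K A]
    [FiniteDimensional K A] {M P₁ P₀ : Type} [AddCommGroup M] [Module A M] [Nontrivial M]
    [AddCommGroup P₁] [Module A P₁] [AddCommGroup P₀] [Module A P₀]
    (f : P₁ →ₗ[A] P₀) (q : P₀ →ₗ[A] M) (hf : IsPres f q) (hdec : ¬ MapDec f) :
    IsMinPres f q ∧ Indec A M := by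
  have := hf.proj₁
  have := hf.fin₁
  have := hf.proj₀
  have := hf.fin₀
  have : IsArtinianRing A := IsArtinianRing.of_finite K A
  have : IsNoetherianRing A := inferInstance
  have : IsArtinian A P₁ := inferInstance
  have : IsNoetherian A P₁ := inferInstance
  have : IsArtinian A P₀ := inferInstance
  have : IsNoetherian A P₀ := inferInstance
  have hqf : ∀ v, q (f v) = 0 := by
    intro v
    have : f v ∈ LinearMap.ker q := hf.exact ▸ ⟨v, rfl⟩
    exact this
  have hker : ∀ v, q v = 0 → v ∈ LinearMap.range f := by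
    intro v hv
    rw [hf.exact]
    exact hv
  have hq0 : q ≠ 0 := by
    intro h
    obtain ⟨a, b, hab⟩ := exists_pair_ne M
    obtain ⟨a', rfl⟩ := hf.surj a
    obtain ⟨b', rfl⟩ := hf.surj b
    rw [h] at hab
    exact hab rfl
  refine ⟨⟨hf, ?_, ?_⟩, inferInstance, ?_⟩
  · -- min₀
    intro L hL
    have hs : Function.Surjective (q ∘ₗ L.subtype) := by
      intro m
      obtain ⟨v, rfl⟩ := hf.surj m
      have hv : v ∈ L ⊔ LinearMap.ker q := by rw [hL]; trivial
      obtain ⟨a, ha, b, hb, rfl⟩ := Submodule.mem_sup.1 hv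
      refine ⟨⟨a, ha⟩, ?_⟩
      have hb' : q b = 0 := hb
      simp [hb']
    obtain ⟨g, hg⟩ := Module.projective_lifting_property (q ∘ₗ L.subtype) q hs
    have hg' : ∀ v, q ((L.subtype ∘ₗ g) v) = q v := fun v => LinearMap.congr_fun hg v
    obtain ⟨x₁, hx₁⟩ := exists_lift f (L.subtype ∘ₗ g) (fun v => hker _ (by rw [hg', hqf]))
    rcases fitting_of_not_mapDec f hdec _ x₁ hx₁ with ⟨h1, -⟩ | ⟨k, -, h1, -⟩
    · rw [eq_top_iff, ← h1]
      rintro _ ⟨v, rfl⟩
      exact (g v).2
    · exfalso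
      apply hq0
      have hpow : ∀ n : ℕ, ∀ v, q (((L.subtype ∘ₗ g) ^ n) v) = q v := by
        intro n
        induction n with
        | zero => intro v; simp
        | succ n ih =>
          intro v
          rw [pow_succ', Module.End.mul_apply, hg', ih]
      ext v
      rw [← hpow k v, h1]
      simp
  · -- min₁
    intro L hL
    have hs : Function.Surjective (f.rangeRestrict ∘ₗ L.subtype) := by
      rintro ⟨_, ⟨v, rfl⟩⟩
      have hv : v ∈ L ⊔ LinearMap.ker f := by rw [hL]; trivial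
      obtain ⟨a, ha, b, hb, rfl⟩ := Submodule.mem_sup.1 hv
      refine ⟨⟨a, ha⟩, ?_⟩
      have hb' : f b = 0 := hb
      apply Subtype.ext
      show f a = f (a + b)
      rw [map_add, hb', add_zero]
    obtain ⟨g, hg⟩ := Module.projective_lifting_property (f.rangeRestrict ∘ₗ L.subtype)
      f.rangeRestrict hs
    have hg' : ∀ v, f ((L.subtype ∘ₗ g) v) = f v := fun v =>
      congrArg Subtype.val (LinearMap.congr_fun hg v)
    rcases fitting_of_not_mapDec f hdec LinearMap.id (L.subtype ∘ₗ g)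
      (fun v => (hg' v).symm) with ⟨-, h1⟩ | ⟨k, -, h1, -⟩
    · rw [eq_top_iff, ← h1]
      rintro _ ⟨v, rfl⟩
      exact (g v).2
    · exfalso
      apply hq0
      have h2 : (LinearMap.id : P₀ →ₗ[A] P₀) ^ k = LinearMap.id := one_pow (M := Module.End A P₀) k
      rw [h2] at h1
      ext v
      have h3 : v = 0 := LinearMap.congr_fun h1 v
      rw [h3, map_zero, map_zero]
  · -- indecomposable
    intro N N' hN
    set ε : M →ₗ[A] M := N.subtype ∘ₗ N.projectionOnto N' hN with hε
    have hεN : ∀ n ∈ N, ε n = n := by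
      intro n hn
      rw [hε]
      have := Submodule.projectionOnto_apply_left hN ⟨n, hn⟩
      simp only [LinearMap.comp_apply, Submodule.subtype_apply]
      exact congrArg Subtype.val this
    have hεr : ∀ m, ε m ∈ N := fun m => (N.projectionOnto N' hN m).2
    have hεε : ∀ m, ε (ε m) = ε m := fun m => hεN _ (hεr m)
    obtain ⟨x₀, hx₀⟩ := Module.projective_lifting_property q (ε ∘ₗ q) hf.surj
    have hx₀' : ∀ v, q (x₀ v) = ε (q v) := fun v => LinearMap.congr_fun hx₀ v
    obtain ⟨x₁, hx₁⟩ := exists_lift f x₀ (fun v => hker _ (by rw [hx₀', hqf, map_zero]))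
    rcases fitting_of_not_mapDec f hdec x₀ x₁ hx₁ with ⟨h1, -⟩ | ⟨k, hk, h1, -⟩
    · right
      have hNtop : N = ⊤ := by
        rw [eq_top_iff]
        rintro m -
        obtain ⟨v, rfl⟩ := hf.surj m
        have hv : v ∈ LinearMap.range x₀ := by rw [h1]; trivial
        obtain ⟨w, rfl⟩ := hv
        rw [hx₀']
        exact hεr _
      have := hN.inf_eq_bot
      rwa [hNtop, top_inf_eq] at this
    · left
      have hpow : ∀ n : ℕ, ∀ v, q ((x₀ ^ (n + 1)) v) = ε (q v) := by
        intro n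
        induction n with
        | zero => intro v; rw [zero_add, pow_one, hx₀']
        | succ n ih =>
          intro v
          rw [pow_succ', Module.End.mul_apply, hx₀', ih, hεε]
      obtain ⟨m, rfl⟩ : ∃ m, k = m + 1 := ⟨k - 1, by omega⟩
      rw [eq_bot_iff]
      intro n hn
      obtain ⟨v, rfl⟩ := hf.surj n
      have h2 := hpow m v
      rw [h1, hεN _ hn] at h2
      rw [← h2]
      simp

end Pool.Agent.Helper343_Tau
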