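import Mathlib
import Pool.Agent.Helper343_Tau.Basic

set_option autoImplicit false

open Module Pool.Agent.Helper793Bricks

namespace Pool.Agent.Helper343_Tau

lemma exists_lift_range {A : Type} [Ring A] {P X Y : Type} [AddCommGroup P] [Module A P]
    [AddCommGroup X] [Module A X] [AddCommGroup Y] [Module A Y] [Module.Projective A P]
    (g : X →ₗ[A] Y) (h : P →ₗ[A] Y) (hr : ∀ p, h p ∈ LinearMap.range g) :
    ∃ l : P →ₗ[A] X, g ∘ₗ l = h := by
  obtain ⟨l, hl⟩ := Module.projective_lifting_property g.rangeRestrict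
    (h.codRestrict (LinearMap.range g) hr) g.surjective_rangeRestrict
  refine ⟨l, LinearMap.ext fun p => ?_⟩
  have := congrArg Subtype.val (LinearMap.congr_fun hl p)
  exact this

lemma exists_lift_pres {A : Type} [Ring A] {M P₁ P₀ P₁' P₀' : Type} [AddCommGroup M] [Module A M]
    [AddCommGroup P₁] [Module A P₁] [AddCommGroup P₀] [Module A P₀]
    [AddCommGroup P₁'] [Module A P₁'] [AddCommGroup P₀'] [Module A P₀']
    (f : P₁ →ₗ[A] P₀) (q : P₀ →ₗ[A] M) (hf : IsPres f q)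
    (f' : P₁' →ₗ[A] P₀') (q' : P₀' →ₗ[A] M) (hf' : IsPres f' q') :
    ∃ (i₁ : P₁ →ₗ[A] P₁') (i₀ : P₀ →ₗ[A] P₀'), q' ∘ₗ i₀ = q ∧ f' ∘ₗ i₁ = i₀ ∘ₗ f := by
  have := hf.proj₁
  have := hf.proj₀
  obtain ⟨i₀, h0⟩ := Module.projective_lifting_property q' q hf'.surj
  obtain ⟨i₁, h1⟩ := exists_lift_range f' (i₀ ∘ₗ f) (by
    intro p
    rw [hf'.exact, LinearMap.mem_ker, LinearMap.comp_apply, ← LinearMap.comp_apply q' i₀, h0,
      ← LinearMap.mem_ker, ← hf.exact]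
    exact LinearMap.mem_range_self f p)
  exact ⟨i₁, i₀, h0, h1⟩

/-- TARGET -/
theorem eDim_le_of_isMinPres (K : Type) [Field K] {A : Type} [Ring A] [Algebra K A]
    [FiniteDimensional K A] {M P₁ P₀ P₁' P₀' : Type} [AddCommGroup M] [Module A M]
    [AddCommGroup P₁] [Module A P₁] [AddCommGroup P₀] [Module A P₀]
    [AddCommGroup P₁'] [Module A P₁'] [AddCommGroup P₀'] [Module A P₀']
    (f : P₁ →ₗ[A] P₀) (q : P₀ →ₗ[A] M) (hf : IsMinPres f q)
    (f' : P₁' →ₗ[A] P₀') (q' : P₀' →ₗ[A] M) (hf' : IsPres f' q')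
    (N : Type) [AddCommGroup N] [Module A N] [Module K N] [IsScalarTower K A N]
    [FiniteDimensional K N] : eDim K f N ≤ eDim K f' N := by
  have hArt : IsArtinianRing A := isArtinian_of_tower K inferInstance
  have hNoe : IsNoetherianRing A := isNoetherian_of_tower K inferInstance
  have := hf.fin₁
  have := hf.fin₀
  have := hf'.fin₁
  have := hf'.fin₀
  have : IsArtinian A P₁ := inferInstance
  have : IsNoetherian A P₁ := inferInstance
  have : IsArtinian A P₀ := inferInstance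
  have : IsNoetherian A P₀ := inferInstance
  obtain ⟨i₁, i₀, hi0, hi1⟩ := exists_lift_pres f q hf.toIsPres f' q' hf'
  obtain ⟨r₁, r₀, hr0, hr1⟩ := exists_lift_pres f' q' hf' f q hf.toIsPres
  have qi : ∀ x, q' (i₀ x) = q x := fun x => LinearMap.congr_fun hi0 x
  have qr : ∀ x, q (r₀ x) = q' x := fun x => LinearMap.congr_fun hr0 x
  have fi : ∀ x, f' (i₁ x) = i₀ (f x) := fun x => LinearMap.congr_fun hi1 x
  have fr : ∀ x, f (r₁ x) = r₀ (f' x) := fun x => LinearMap.congr_fun hr1 x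
  -- `s₀ = r₀ i₀` is bijective
  have hs0r : LinearMap.range (r₀ ∘ₗ i₀) = ⊤ := by
    apply hf.min₀
    rw [eq_top_iff]
    intro y _
    have h1 : y = (r₀ ∘ₗ i₀) y + (y - (r₀ ∘ₗ i₀) y) := by abel
    rw [h1]
    refine Submodule.add_mem_sup (LinearMap.mem_range_self _ _) ?_
    rw [LinearMap.mem_ker, map_sub, LinearMap.comp_apply, qr, qi, sub_self]
  have hs0 : Function.Bijective (r₀ ∘ₗ i₀) :=
    IsNoetherian.bijective_of_surjective_endomorphism _ (LinearMap.range_eq_top.1 hs0r)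
  have hq0 : ∀ x, q ((r₀ ∘ₗ i₀) x) = q x := fun x => by
    rw [LinearMap.comp_apply, qr, qi]
  -- `s₀` maps the kernel of `q` onto itself
  have hker : ∀ k ∈ LinearMap.ker q, ∃ k' ∈ LinearMap.ker q, (r₀ ∘ₗ i₀) k' = k := by
    intro k hk
    obtain ⟨k', hk'⟩ := hs0.2 k
    refine ⟨k', ?_, hk'⟩
    rw [LinearMap.mem_ker, ← hq0, hk']
    exact hk
  have hs1f : ∀ x, f ((r₁ ∘ₗ i₁) x) = (r₀ ∘ₗ i₀) (f x) := fun x => by
    rw [LinearMap.comp_apply, fr, fi, LinearMap.comp_apply]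
  have hs1r : LinearMap.range (r₁ ∘ₗ i₁) = ⊤ := by
    apply hf.min₁
    rw [eq_top_iff]
    intro y _
    obtain ⟨k, hk, hk2⟩ := hker (f y) (by rw [← hf.exact]; exact LinearMap.mem_range_self _ _)
    rw [← hf.exact] at hk
    obtain ⟨y', rfl⟩ := hk
    have h1 : y = (r₁ ∘ₗ i₁) y' + (y - (r₁ ∘ₗ i₁) y') := by abel
    rw [h1]
    refine Submodule.add_mem_sup (LinearMap.mem_range_self _ _) ?_
    rw [LinearMap.mem_ker, map_sub, hs1f, hk2, sub_self]
  have hs1 : Function.Bijective (r₁ ∘ₗ i₁) :=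
    IsNoetherian.bijective_of_surjective_endomorphism _ (LinearMap.range_eq_top.1 hs1r)
  have : FiniteDimensional K (P₁ →ₗ[A] N) := finDimHom K
  have : FiniteDimensional K (P₁' →ₗ[A] N) := finDimHom K
  let e1 := LinearEquiv.ofBijective (r₁ ∘ₗ i₁) hs1
  let e0 := LinearEquiv.ofBijective (r₀ ∘ₗ i₀) hs0
  have hle : LinearMap.range (preC K f N) ≤
      (LinearMap.range (preC K f' N)).comap (preC K r₁ N) := by
    rintro _ ⟨ψ, rfl⟩
    refine ⟨ψ ∘ₗ r₀, ?_⟩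
    ext x
    change ψ (r₀ (f' x)) = ψ (f (r₁ x))
    rw [fr]
  refine LinearMap.finrank_le_finrank_of_injective
    (f := Submodule.mapQ (LinearMap.range (preC K f N)) (LinearMap.range (preC K f' N))
      (preC K r₁ N) hle) ?_
  rw [← LinearMap.ker_eq_bot, LinearMap.ker_eq_bot']
  intro z hz
  obtain ⟨φ, rfl⟩ := Submodule.Quotient.mk_surjective _ z
  rw [Submodule.mapQ_apply, Submodule.Quotient.mk_eq_zero] at hz
  rw [Submodule.Quotient.mk_eq_zero]
  obtain ⟨χ, hχ⟩ := hz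
  have hχ' : ∀ x, χ (f' x) = φ (r₁ x) := fun x => LinearMap.congr_fun hχ x
  refine ⟨χ ∘ₗ i₀ ∘ₗ e0.symm.toLinearMap, ?_⟩
  ext x
  obtain ⟨y, rfl⟩ := hs1.2 x
  change χ (i₀ (e0.symm (f ((r₁ ∘ₗ i₁) y)))) = φ ((r₁ ∘ₗ i₁) y)
  have h1 : e0.symm ((r₀ ∘ₗ i₀) (f y)) = f y := e0.symm_apply_apply (f y)
  rw [hs1f, h1, ← fi, hχ', LinearMap.comp_apply]

end Pool.Agent.Helper343_Tau
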