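import Mathlib

/-!
Polynomial functions on vector spaces, regular functions on Zariski open subsets, neighbourhoods,
density.
-/

set_option autoImplicit false

open Module

namespace Pool.Agent.Helper343_Tau

variable {K : Type} [Field K]

section poly

variable (K) (V : Type) [AddCommGroup V] [Module K V]

/-- Polynomial functions on a vector space. -/
def polyFun : Subalgebra K (V → K) :=
  Algebra.adjoin K (Set.range fun l : Module.Dual K V => (l : V → K))

variable {K V}

theorem polyFun_lin (l : Module.Dual K V) : (fun x => l x) ∈ polyFun K V :=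
  Algebra.subset_adjoin ⟨l, rfl⟩

theorem polyFun_const (c : K) : (fun _ => c) ∈ polyFun K V := (polyFun K V).algebraMap_mem c

variable {W : Type} [AddCommGroup W] [Module K W]

theorem polyFun_comp {f : V → K} (hf : f ∈ polyFun K V) (g : W → V)
    (hg : ∀ l : Module.Dual K V, (fun w => l (g w)) ∈ polyFun K W) :
    (fun w => f (g w)) ∈ polyFun K W := by
  induction hf using Algebra.adjoin_induction with
  | mem f hf => obtain ⟨l, rfl⟩ := hf; exact hg l
  | algebraMap c => exact polyFun_const c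
  | add f f' _ _ h h' => exact (polyFun K W).add_mem h h'
  | mul f f' _ _ h h' => exact (polyFun K W).mul_mem h h'

theorem polyFun_comp_affine {f : V → K} (hf : f ∈ polyFun K V) (v : V) (g : W →ₗ[K] V) :
    (fun w => f (v + g w)) ∈ polyFun K W := by
  refine polyFun_comp hf _ fun l => ?_
  have : (fun w => l (v + g w)) = (fun _ => l v) + (fun w => (l ∘ₗ g) w) := by
    funext w; simp
  rw [this]
  exact (polyFun K W).add_mem (polyFun_const _) (polyFun_lin _)

theorem polyFun_line {f : V → K} (hf : f ∈ polyFun K V) (x y : V) :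
    ∃ P : Polynomial K, ∀ t : K, f (x + t • y) = P.eval t := by
  induction hf using Algebra.adjoin_induction with
  | mem f hf =>
    obtain ⟨l, rfl⟩ := hf
    exact ⟨Polynomial.C (l x) + Polynomial.C (l y) * Polynomial.X, fun t => by simp; ring⟩
  | algebraMap c => exact ⟨Polynomial.C c, fun t => by simp⟩
  | add f f' _ _ h h' =>
    obtain ⟨P, hP⟩ := h
    obtain ⟨P', hP'⟩ := h'
    exact ⟨P + P', fun t => by simp [hP, hP']⟩
  | mul f f' _ _ h h' =>
    obtain ⟨P, hP⟩ := h
    obtain ⟨P', hP'⟩ := h'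
    exact ⟨P * P', fun t => by simp [hP, hP']⟩

/-- expansion in homogeneous components -/
theorem polyFun_expand {f : V → K} (hf : f ∈ polyFun K V) :
    ∃ (N : ℕ) (c : ℕ → V → K), (∀ j, c j ∈ polyFun K V) ∧
      ∀ (t : K) (w : V), f (t • w) = ∑ j ∈ Finset.range N, t ^ j * c j w := by
  induction hf using Algebra.adjoin_induction with
  | mem f hf =>
    obtain ⟨l, rfl⟩ := hf
    refine ⟨2, fun j => if j = 1 then (fun w => l w) else 0, fun j => ?_, fun t w => ?_⟩
    · dsimp only
      split_ifs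
      · exact polyFun_lin l
      · exact (polyFun K V).zero_mem
    · simp [Finset.sum_range_succ]
  | algebraMap c =>
    refine ⟨1, fun j => fun _ => c, fun j => polyFun_const c, fun t w => ?_⟩
    simp
  | add f f' _ _ h h' =>
    obtain ⟨N, c, hc, h⟩ := h
    obtain ⟨N', c', hc', h'⟩ := h'
    refine ⟨max N N', fun j => (if j < N then c j else 0) + (if j < N' then c' j else 0),
      fun j => ?_, fun t w => ?_⟩
    · refine (polyFun K V).add_mem ?_ ?_
      · split_ifs
        · exact hc j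
        · exact (polyFun K V).zero_mem
      · split_ifs
        · exact hc' j
        · exact (polyFun K V).zero_mem
    · rw [Pi.add_apply, h, h']
      have e1 : ∀ (M : ℕ) (g : ℕ → V → K), M ≤ max N N' →
          ∑ j ∈ Finset.range M, t ^ j * g j w =
          ∑ j ∈ Finset.range (max N N'), t ^ j * (if j < M then g j else 0) w := by
        intro M g hM
        rw [← Finset.sum_subset (Finset.range_mono hM)]
        · refine Finset.sum_congr rfl fun j hj => ?_
          rw [if_pos (Finset.mem_range.mp hj)]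
        · intro j _ hj
          rw [if_neg (fun h => hj (Finset.mem_range.mpr h))]
          simp
      rw [e1 N c (le_max_left _ _), e1 N' c' (le_max_right _ _), ← Finset.sum_add_distrib]
      refine Finset.sum_congr rfl fun j _ => ?_
      simp only [Pi.add_apply]
      ring
  | mul f f' _ _ h h' =>
    obtain ⟨N, c, hc, h⟩ := h
    obtain ⟨N', c', hc', h'⟩ := h'
    refine ⟨N + N', fun j => ∑ i ∈ Finset.range N, ∑ i' ∈ Finset.range N',
      if i + i' = j then c i * c' i' else 0, fun j => ?_, fun t w => ?_⟩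
    · refine (polyFun K V).sum_mem fun i _ => (polyFun K V).sum_mem fun i' _ => ?_
      split_ifs
      · exact (polyFun K V).mul_mem (hc i) (hc' i')
      · exact (polyFun K V).zero_mem
    · rw [Pi.mul_apply, h, h', Finset.sum_mul_sum]
      have : ∀ j ∈ Finset.range (N + N'), t ^ j * (∑ i ∈ Finset.range N,
          ∑ i' ∈ Finset.range N', if i + i' = j then c i * c' i' else 0 : V → K) w =
          ∑ i ∈ Finset.range N, ∑ i' ∈ Finset.range N',
            if i + i' = j then (t ^ i * c i w) * (t ^ i' * c' i' w) else 0 := by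
        intro j _
        rw [Finset.sum_apply, Finset.mul_sum]
        refine Finset.sum_congr rfl fun i _ => ?_
        rw [Finset.sum_apply, Finset.mul_sum]
        refine Finset.sum_congr rfl fun i' _ => ?_
        split_ifs with hij
        · rw [← hij, Pi.mul_apply, pow_add]; ring
        · simp
      symm
      rw [Finset.sum_congr rfl this, Finset.sum_comm]
      refine Finset.sum_congr rfl fun i hi => ?_
      rw [Finset.sum_comm]
      refine Finset.sum_congr rfl fun i' hi' => ?_
      rw [Finset.sum_ite_eq, if_pos]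
      rw [Finset.mem_range] at *
      omega

/-- the polynomial functions form a domain -/
theorem polyFun_mul_ne [Infinite K] {f g : V → K} (hf : f ∈ polyFun K V) (hg : g ∈ polyFun K V)
    {x y : V} (hx : f x ≠ 0) (hy : g y ≠ 0) : ∃ z, f z ≠ 0 ∧ g z ≠ 0 := by
  obtain ⟨P, hP⟩ := polyFun_line hf x (y - x)
  obtain ⟨Q, hQ⟩ := polyFun_line hg x (y - x)
  have h0 : P.eval 0 ≠ 0 := by rw [← hP]; simpa using hx
  have h1 : Q.eval 1 ≠ 0 := by rw [← hQ]; simpa using hy
  have hPQ : P * Q ≠ 0 := by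
    refine mul_ne_zero ?_ ?_
    · rintro rfl; simp at h0
    · rintro rfl; simp at h1
  have : ∃ t, (P * Q).eval t ≠ 0 := by
    by_contra hcon
    push Not at hcon
    exact hPQ (Polynomial.funext fun t => by rw [hcon t, Polynomial.eval_zero])
  obtain ⟨t, ht⟩ := this
  rw [Polynomial.eval_mul] at ht
  refine ⟨x + t • (y - x), ?_, ?_⟩
  · rw [hP]; exact left_ne_zero_of_mul ht
  · rw [hQ]; exact right_ne_zero_of_mul ht

end poly

section nb

variable {V : Type} [AddCommGroup V] [Module K V]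

/-- `U` contains a basic Zariski open set containing `x`. -/
def Nb (K : Type) [Field K] {V : Type} [AddCommGroup V] [Module K V] (x : V) (U : Set V) : Prop :=
  ∃ h ∈ polyFun K V, h x ≠ 0 ∧ ∀ y, h y ≠ 0 → y ∈ U

theorem Nb.mem {x : V} {U : Set V} (h : Nb K x U) : x ∈ U := by
  obtain ⟨h, _, h1, h2⟩ := h
  exact h2 x h1

theorem Nb.mono {x : V} {U U' : Set V} (h : Nb K x U) (hU : U ⊆ U') : Nb K x U' := by
  obtain ⟨h, h0, h1, h2⟩ := h
  exact ⟨h, h0, h1, fun y hy => hU (h2 y hy)⟩

theorem Nb.inter {x : V} {U U' : Set V} (h : Nb K x U) (h' : Nb K x U') : Nb K x (U ∩ U') := by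
  obtain ⟨h, h0, h1, h2⟩ := h
  obtain ⟨h', h0', h1', h2'⟩ := h'
  refine ⟨h * h', (polyFun K V).mul_mem h0 h0', mul_ne_zero h1 h1', fun y hy => ?_⟩
  rw [Pi.mul_apply] at hy
  exact ⟨h2 y (left_ne_zero_of_mul hy), h2' y (right_ne_zero_of_mul hy)⟩

theorem Nb.univ (x : V) : Nb K x Set.univ :=
  ⟨fun _ => 1, polyFun_const 1, one_ne_zero, fun _ _ => trivial⟩

theorem Nb.of_poly {x : V} {f : V → K} (hf : f ∈ polyFun K V) (hx : f x ≠ 0) :
    Nb K x {y | f y ≠ 0} := ⟨f, hf, hx, fun _ h => h⟩

/-- The point can be moved inside `U`: there is a smaller open set all of whose points work. -/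
theorem Nb.exists_open {x : V} {U : Set V} (h : Nb K x U) :
    ∃ U' ⊆ U, x ∈ U' ∧ ∀ y ∈ U', Nb K y U' := by
  obtain ⟨h, h0, h1, h2⟩ := h
  exact ⟨{y | h y ≠ 0}, h2, h1, fun y hy => ⟨h, h0, hy, fun _ h => h⟩⟩

theorem Nb.inter_of_ne [Infinite K] {x y : V} {U U' : Set V} (h : Nb K x U) (h' : Nb K y U') :
    ∃ z, Nb K z (U ∩ U') := by
  obtain ⟨h, h0, h1, h2⟩ := h
  obtain ⟨h', h0', h1', h2'⟩ := h'
  obtain ⟨z, hz, hz'⟩ := polyFun_mul_ne h0 h0' h1 h1'
  exact ⟨z, Nb.inter ⟨h, h0, hz, h2⟩ ⟨h', h0', hz', h2'⟩⟩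

variable {W : Type} [AddCommGroup W] [Module K W]

theorem Nb.comap {U : Set V} (v : V) (g : W →ₗ[K] V) {w : W} (h : Nb K (v + g w) U) :
    Nb K w {w | v + g w ∈ U} := by
  obtain ⟨h, h0, h1, h2⟩ := h
  exact ⟨_, polyFun_comp_affine h0 v g, h1, fun y hy => h2 _ hy⟩

/-- Zariski dense subsets. -/
def ZDense (K : Type) [Field K] {V : Type} [AddCommGroup V] [Module K V] (D : Set V) : Prop :=
  ∀ f ∈ polyFun K V, (∀ x ∈ D, f x = 0) → f = 0

theorem ZDense.mono {D D' : Set V} (h : ZDense K D) (hD : D ⊆ D') : ZDense K D' :=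
  fun f hf h0 => h f hf fun x hx => h0 x (hD hx)

theorem ZDense.inter_nb [Infinite K] {D U : Set V} {x : V} (h : ZDense K D) (hU : Nb K x U) :
    ZDense K (D ∩ U) := by
  intro f hf h0
  obtain ⟨g, hg, hgx, hgU⟩ := hU
  have h1 : f * g = 0 := by
    refine h _ ((polyFun K V).mul_mem hf hg) fun y hy => ?_
    rw [Pi.mul_apply]
    by_cases hgy : g y = 0
    · rw [hgy, mul_zero]
    · rw [h0 y ⟨hy, hgU y hgy⟩, zero_mul]
  by_contra hne
  have : ∃ y, f y ≠ 0 := by
    by_contra hcon
    push Not at hcon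
    exact hne (funext hcon)
  obtain ⟨y, hy⟩ := this
  obtain ⟨z, hz, hz'⟩ := polyFun_mul_ne hf hg hy hgx
  exact mul_ne_zero hz hz' (congrFun h1 z)

theorem ZDense.univ : ZDense K (Set.univ : Set V) := fun _ _ h => funext fun x => h x trivial

theorem Nb.zDense [Infinite K] {U : Set V} {x : V} (hU : Nb K x U) : ZDense K U := by
  have := (ZDense.univ (K := K) (V := V)).inter_nb hU
  rwa [Set.univ_inter] at this

theorem ZDense.nonempty_inter [Infinite K] {D U : Set V} {x : V} (h : ZDense K D)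
    (hU : Nb K x U) : (D ∩ U).Nonempty := by
  by_contra hcon
  rw [Set.not_nonempty_iff_eq_empty] at hcon
  have h1 := (h.inter_nb hU) (fun _ => 1) (polyFun_const 1) (by
    intro y hy; rw [hcon] at hy; exact hy.elim)
  exact one_ne_zero (congrFun h1 x)

theorem ZDense.image [Infinite K] {D : Set V} (h : ZDense K D) (g : V →ₗ[K] W)
    (hg : Function.Surjective g) : ZDense K (g '' D) := by
  intro f hf h0
  have h1 : (fun v => f (0 + g v)) = 0 := by
    refine h _ (polyFun_comp_affine hf 0 g) fun x hx => ?_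
    rw [zero_add]
    exact h0 _ ⟨x, hx, rfl⟩
  funext w
  obtain ⟨v, rfl⟩ := hg w
  have := congrFun h1 v
  simpa using this

end nb

section regon

variable {V : Type} [AddCommGroup V] [Module K V]

/-- Regular functions on `U`: quotients of polynomial functions with denominator nonvanishing on
`U` (the values outside of `U` are irrelevant). -/
def regOn (K : Type) [Field K] {V : Type} [AddCommGroup V] [Module K V] (U : Set V) :
    Subalgebra K (V → K) where
  carrier := {f | ∃ p ∈ polyFun K V, ∃ q ∈ polyFun K V, ∀ x ∈ U, q x ≠ 0 ∧ f x * q x = p x}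
  mul_mem' := by
    rintro f g ⟨p, hp, q, hq, h⟩ ⟨p', hp', q', hq', h'⟩
    refine ⟨p * p', (polyFun K V).mul_mem hp hp', q * q', (polyFun K V).mul_mem hq hq',
      fun x hx => ⟨mul_ne_zero (h x hx).1 (h' x hx).1, ?_⟩⟩
    simp only [Pi.mul_apply]
    rw [← (h x hx).2, ← (h' x hx).2]
    ring
  add_mem' := by
    rintro f g ⟨p, hp, q, hq, h⟩ ⟨p', hp', q', hq', h'⟩
    refine ⟨p * q' + p' * q, (polyFun K V).add_mem ((polyFun K V).mul_mem hp hq')
      ((polyFun K V).mul_mem hp' hq), q * q', (polyFun K V).mul_mem hq hq',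
      fun x hx => ⟨mul_ne_zero (h x hx).1 (h' x hx).1, ?_⟩⟩
    simp only [Pi.mul_apply, Pi.add_apply]
    rw [← (h x hx).2, ← (h' x hx).2]
    ring
  algebraMap_mem' c := ⟨fun _ => c, polyFun_const c, fun _ => 1, polyFun_const 1,
    fun x _ => ⟨one_ne_zero, mul_one _⟩⟩

theorem mem_regOn {U : Set V} {f : V → K} : f ∈ regOn K U ↔
    ∃ p ∈ polyFun K V, ∃ q ∈ polyFun K V, ∀ x ∈ U, q x ≠ 0 ∧ f x * q x = p x := Iff.rfl

theorem regOn_mono {U U' : Set V} (h : U' ⊆ U) {f : V → K} (hf : f ∈ regOn K U) :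
    f ∈ regOn K U' := by
  obtain ⟨p, hp, q, hq, h'⟩ := hf
  exact ⟨p, hp, q, hq, fun x hx => h' x (h hx)⟩

theorem regOn_congr {U : Set V} {f g : V → K} (hf : f ∈ regOn K U) (h : ∀ x ∈ U, f x = g x) :
    g ∈ regOn K U := by
  obtain ⟨p, hp, q, hq, h'⟩ := hf
  exact ⟨p, hp, q, hq, fun x hx => ⟨(h' x hx).1, by rw [← h x hx]; exact (h' x hx).2⟩⟩

theorem regOn_poly {U : Set V} {f : V → K} (hf : f ∈ polyFun K V) : f ∈ regOn K U :=
  ⟨f, hf, fun _ => 1, polyFun_const 1, fun _ _ => ⟨one_ne_zero, mul_one _⟩⟩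

theorem regOn_const {U : Set V} (c : K) : (fun _ => c) ∈ regOn K U := regOn_poly (polyFun_const c)

theorem regOn_inv {U : Set V} {f : V → K} (hf : f ∈ regOn K U) (h0 : ∀ x ∈ U, f x ≠ 0) :
    (fun x => (f x)⁻¹) ∈ regOn K U := by
  obtain ⟨p, hp, q, hq, h⟩ := hf
  refine ⟨q, hq, p, hp, fun x hx => ⟨?_, ?_⟩⟩
  · rw [← (h x hx).2]
    exact mul_ne_zero (h0 x hx) (h x hx).1
  · rw [← (h x hx).2, inv_mul_cancel_left₀ (h0 x hx)]

/-- The nonvanishing locus of a regular function. -/
theorem Nb.of_reg {U : Set V} {f : V → K} {x : V} (hU : Nb K x U) (hf : f ∈ regOn K U)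
    (hx : f x ≠ 0) : Nb K x {y | y ∈ U ∧ f y ≠ 0} := by
  obtain ⟨p, hp, q, hq, h⟩ := hf
  have hpx : p x ≠ 0 := by
    rw [← (h x hU.mem).2]
    exact mul_ne_zero hx (h x hU.mem).1
  refine ((Nb.of_poly hp hpx).inter hU).mono ?_
  rintro y ⟨hy, hyU⟩
  refine ⟨hyU, fun h0 => hy ?_⟩
  rw [← (h y hyU).2, h0, zero_mul]

/-- A regular function vanishing on a dense set vanishes. -/
theorem regOn_eq_zero [Infinite K] {U D : Set V} {f : V → K} (hf : f ∈ regOn K U)
    {x₀ : V} (hU : Nb K x₀ U) (hD : ZDense K D) (h0 : ∀ x ∈ D, x ∈ U → f x = 0) {x : V}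
    (hx : x ∈ U) : f x = 0 := by
  obtain ⟨p, hp, q, hq, h⟩ := hf
  have hp0 : p = 0 := by
    refine (hD.inter_nb hU) p hp fun y hy => ?_
    rw [← (h y hy.2).2, h0 y hy.1 hy.2, zero_mul]
  have := (h x hx).2
  rw [hp0, Pi.zero_apply] at this
  exact (mul_eq_zero.mp this).resolve_right (h x hx).1

variable {W : Type} [AddCommGroup W] [Module K W]

theorem regOn_comp_poly {S : Set W} {f : V → K} (hf : f ∈ polyFun K V) (g : W → V)
    (hg : ∀ l : Module.Dual K V, (fun w => l (g w)) ∈ regOn K S) :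
    (fun w => f (g w)) ∈ regOn K S := by
  induction hf using Algebra.adjoin_induction with
  | mem f hf => obtain ⟨l, rfl⟩ := hf; exact hg l
  | algebraMap c => exact regOn_const c
  | add f f' _ _ h h' => exact (regOn K S).add_mem h h'
  | mul f f' _ _ h h' => exact (regOn K S).mul_mem h h'

theorem regOn_comp {U : Set V} {S : Set W} {f : V → K} (hf : f ∈ regOn K U) (g : W → V)
    (hg : ∀ l : Module.Dual K V, (fun w => l (g w)) ∈ regOn K S) (hS : ∀ w ∈ S, g w ∈ U) :
    (fun w => f (g w)) ∈ regOn K S := by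
  obtain ⟨p, hp, q, hq, h⟩ := hf
  have h1 := regOn_comp_poly hp g hg
  have h2 := regOn_inv (regOn_comp_poly hq g hg) (fun w hw => (h _ (hS w hw)).1)
  refine regOn_congr ((regOn K S).mul_mem h1 h2) fun w hw => ?_
  simp only [Pi.mul_apply]
  rw [← (h _ (hS w hw)).2, mul_inv_cancel_right₀ (h _ (hS w hw)).1]

end regon

section regv

variable {V : Type} [AddCommGroup V] [Module K V]

/-- Regular vector-valued maps on `U`. -/
def RegV {V : Type} [AddCommGroup V] [Module K V] (U : Set V) {E : Type} [AddCommGroup E]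
    [Module K E] (w : V → E) : Prop :=
  ∀ φ : Module.Dual K E, (fun x => φ (w x)) ∈ regOn K U

variable {U : Set V} {E E₁ E₂ E₃ : Type} [AddCommGroup E] [Module K E] [AddCommGroup E₁]
  [Module K E₁] [AddCommGroup E₂] [Module K E₂] [AddCommGroup E₃] [Module K E₃]

theorem RegV.mono {U' : Set V} {w : V → E} (h : RegV (K := K) U w) (hU : U' ⊆ U) :
    RegV (K := K) U' w := fun φ => regOn_mono hU (h φ)

theorem RegV.congr {w w' : V → E} (h : RegV (K := K) U w) (hw : ∀ x ∈ U, w x = w' x) :
    RegV (K := K) U w' := fun φ => regOn_congr (h φ) (fun x hx => by rw [hw x hx])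

theorem RegV.const (e : E) : RegV (K := K) U (fun _ => e) := fun φ => regOn_const (φ e)

theorem RegV.linear (g : V →ₗ[K] E) : RegV (K := K) U (fun x => g x) :=
  fun φ => regOn_poly (polyFun_lin (φ ∘ₗ g))

theorem RegV.id : RegV (K := K) U (fun x => x) := fun φ => regOn_poly (polyFun_lin φ)

theorem RegV.add {w w' : V → E} (h : RegV (K := K) U w) (h' : RegV (K := K) U w') :
    RegV (K := K) U (fun x => w x + w' x) := by
  intro φ
  have := (regOn K U).add_mem (h φ) (h' φ)
  refine regOn_congr this fun x _ => ?_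
  simp

theorem RegV.sub {w w' : V → E} (h : RegV (K := K) U w) (h' : RegV (K := K) U w') :
    RegV (K := K) U (fun x => w x - w' x) := by
  intro φ
  have := (regOn K U).sub_mem (h φ) (h' φ)
  refine regOn_congr this fun x _ => ?_
  simp

theorem RegV.smul {f : V → K} {w : V → E} (hf : f ∈ regOn K U) (h : RegV (K := K) U w) :
    RegV (K := K) U (fun x => f x • w x) := by
  intro φ
  refine regOn_congr ((regOn K U).mul_mem hf (h φ)) fun x _ => ?_
  simp

theorem RegV.sum {ι : Type*} (s : Finset ι) {w : ι → V → E} (h : ∀ i ∈ s, RegV (K := K) U (w i)) :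
    RegV (K := K) U (fun x => ∑ i ∈ s, w i x) := by
  intro φ
  have := (regOn K U).sum_mem (t := s) (fun i hi => h i hi φ)
  refine regOn_congr this fun x _ => ?_
  simp [Finset.sum_apply]

theorem RegV.lin {w : V → E₁} (h : RegV (K := K) U w) (g : E₁ →ₗ[K] E₂) :
    RegV (K := K) U (fun x => g (w x)) := fun φ => h (φ ∘ₗ g)

theorem RegV.bilin [FiniteDimensional K E₁] {w₁ : V → E₁} {w₂ : V → E₂}
    (h₁ : RegV (K := K) U w₁) (h₂ : RegV (K := K) U w₂) (β : E₁ →ₗ[K] E₂ →ₗ[K] E₃) :
    RegV (K := K) U (fun x => β (w₁ x) (w₂ x)) := by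
  let b := Module.finBasis K E₁
  have h3 : RegV (K := K) U (fun x => ∑ i, b.coord i (w₁ x) • β (b i) (w₂ x)) :=
    RegV.sum _ fun i _ => RegV.smul (h₁ (b.coord i)) (h₂.lin (β (b i)))
  refine h3.congr fun x _ => ?_
  conv_rhs => rw [← b.sum_repr (w₁ x)]
  rw [map_sum, LinearMap.sum_apply]
  refine Finset.sum_congr rfl fun i _ => ?_
  rw [map_smul, LinearMap.smul_apply]
  rfl

theorem RegV.apply [FiniteDimensional K E₁] {B : V → (E₁ →ₗ[K] E₂)} {w : V → E₁}
    (hB : RegV (K := K) U B) (hw : RegV (K := K) U w) : RegV (K := K) U (fun x => B x (w x)) :=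
  hw.bilin hB (LinearMap.applyₗ (R := K) (M := E₁) (M₂ := E₂))

theorem RegV.of_apply [FiniteDimensional K E₁] {B : V → (E₁ →ₗ[K] E₂)}
    (hB : ∀ v, RegV (K := K) U (fun x => B x v)) : RegV (K := K) U B := by
  let b := Module.finBasis K E₁
  have h3 : RegV (K := K) U (fun x => ∑ i, LinearMap.smulRightₗ (b.coord i) (B x (b i))) :=
    RegV.sum _ fun i _ => (hB (b i)).lin _
  refine h3.congr fun x _ => ?_
  refine b.ext fun j => ?_
  simp [Finsupp.single_apply]

theorem RegV.comp [FiniteDimensional K E₁] [FiniteDimensional K E₂] {B : V → (E₁ →ₗ[K] E₂)}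
    {C : V → (E₂ →ₗ[K] E₃)} (hB : RegV (K := K) U B) (hC : RegV (K := K) U C) :
    RegV (K := K) U (fun x => C x ∘ₗ B x) :=
  RegV.of_apply fun v => hC.apply (hB.lin (LinearMap.applyₗ v))

theorem RegV.pair {w₁ : V → E₁} {w₂ : V → E₂} (h₁ : RegV (K := K) U w₁)
    (h₂ : RegV (K := K) U w₂) : RegV (K := K) U (fun x => (w₁ x, w₂ x)) := by
  have := (h₁.lin (LinearMap.inl K E₁ E₂)).add (h₂.lin (LinearMap.inr K E₁ E₂))
  refine this.congr fun x _ => ?_
  simp

end regv

section inverse

variable {V : Type} [AddCommGroup V] [Module K V] {U : Set V}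

theorem regOn_det {n : Type} [Fintype n] [DecidableEq n] {M : V → Matrix n n K}
    (hM : ∀ i j, (fun x => M x i j) ∈ regOn K U) : (fun x => (M x).det) ∈ regOn K U := by
  have : (fun x => (M x).det) = ∑ σ : Equiv.Perm n, (fun _ => ((Equiv.Perm.sign σ : ℤ) : K)) *
      ∏ i, (fun x => M x (σ i) i) := by
    funext x
    rw [Matrix.det_apply']
    simp [Finset.sum_apply, Finset.prod_apply]
  rw [this]
  refine (regOn K U).sum_mem fun σ _ => (regOn K U).mul_mem (regOn_const _) ?_
  exact (regOn K U).prod_mem fun i _ => hM _ _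

theorem regOn_inverse {n : Type} [Fintype n] [DecidableEq n] {M : V → Matrix n n K}
    (hM : ∀ i j, (fun x => M x i j) ∈ regOn K U) (h0 : ∀ x ∈ U, (M x).det ≠ 0) (i j : n) :
    (fun x => (M x)⁻¹ i j) ∈ regOn K U := by
  have h1 : (fun x => ((M x).det)⁻¹ * (M x).adjugate i j) ∈ regOn K U := by
    refine (regOn K U).mul_mem (regOn_inv (regOn_det hM) h0) ?_
    have : (fun x => (M x).adjugate i j) = fun x => ((M x).updateRow j (Pi.single i 1)).det := by
      funext x
      rw [Matrix.adjugate_apply]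
    rw [this]
    refine regOn_det fun i' j' => ?_
    by_cases h : i' = j
    · subst h
      simp only [Matrix.updateRow_self]
      exact regOn_const _
    · simp only [Matrix.updateRow_ne h]
      exact hM _ _
  refine regOn_congr h1 fun x _ => ?_
  rw [Matrix.inv_def, Ring.inverse_eq_inv', Matrix.smul_apply, smul_eq_mul]

theorem regOn_lmdet {E : Type} [AddCommGroup E] [Module K E] [FiniteDimensional K E]
    {B : V → Module.End K E} (hB : RegV (K := K) U B) :
    (fun x => LinearMap.det (B x)) ∈ regOn K U := by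
  let b := Module.finBasis K E
  have h1 : ∀ i j, (fun x => LinearMap.toMatrix b b (B x) i j) ∈ regOn K U := by
    intro i j
    have := hB ((b.coord i) ∘ₗ (LinearMap.applyₗ (b j)))
    refine regOn_congr this fun x _ => ?_
    rw [LinearMap.toMatrix_apply]
    rfl
  refine regOn_congr (regOn_det h1) fun x _ => ?_
  rw [LinearMap.det_toMatrix]

/-- Inverses of regular endomorphism-valued maps are regular. -/
theorem RegV.exists_inverse {E : Type} [AddCommGroup E] [Module K E] [FiniteDimensional K E]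
    {B : V → Module.End K E} (hB : RegV (K := K) U B) (h0 : ∀ x ∈ U, LinearMap.det (B x) ≠ 0) :
    ∃ G : V → Module.End K E, RegV (K := K) U G ∧ ∀ x ∈ U, G x * B x = 1 ∧ B x * G x = 1 := by
  let b := Module.finBasis K E
  have h1 : ∀ i j, (fun x => LinearMap.toMatrix b b (B x) i j) ∈ regOn K U := by
    intro i j
    have := hB ((b.coord i) ∘ₗ (LinearMap.applyₗ (b j)))
    refine regOn_congr this fun x _ => ?_
    rw [LinearMap.toMatrix_apply]
    rfl
  have h2 : ∀ x ∈ U, (LinearMap.toMatrix b b (B x)).det ≠ 0 := by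
    intro x hx
    rw [LinearMap.det_toMatrix]
    exact h0 x hx
  refine ⟨fun x => Matrix.toLin b b (LinearMap.toMatrix b b (B x))⁻¹, ?_, ?_⟩
  · have h3 : RegV (K := K) U (fun x => ∑ i, ∑ j, ((LinearMap.toMatrix b b (B x))⁻¹ i j) •
        Matrix.toLin b b (Matrix.single i j 1)) :=
      RegV.sum _ fun i _ => RegV.sum _ fun j _ => RegV.smul (regOn_inverse h1 h2 i j)
        (RegV.const _)
    refine h3.congr fun x _ => ?_
    conv_rhs => rw [Matrix.matrix_eq_sum_single (LinearMap.toMatrix b b (B x))⁻¹]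
    rw [map_sum]
    refine Finset.sum_congr rfl fun i _ => ?_
    rw [map_sum]
    refine Finset.sum_congr rfl fun j _ => ?_
    rw [← map_smul, Matrix.smul_single, smul_eq_mul, mul_one]
  · intro x hx
    have hu : IsUnit (LinearMap.toMatrix b b (B x)).det := (h2 x hx).isUnit
    constructor
    · apply (LinearMap.toMatrix b b).injective
      rw [LinearMap.toMatrix_mul, LinearMap.toMatrix_toLin, Matrix.nonsing_inv_mul _ hu,
        LinearMap.toMatrix_one]
    · apply (LinearMap.toMatrix b b).injective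
      rw [LinearMap.toMatrix_mul, LinearMap.toMatrix_toLin, Matrix.mul_nonsing_inv _ hu,
        LinearMap.toMatrix_one]

end inverse

end Pool.Agent.Helper343_Tau
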