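import Mathlib
import Pool.Agent.Helper819.Zar
import Pool.Agent.Helper343_Tau.Reg

/-!
Zariski topologies given by an algebra of functions; images of regular maps: irreducibility,
closures, upper and lower bounds for the Krull dimension.
-/

set_option autoImplicit false

open Module

namespace Pool.Agent.Helper343_Tau

variable {K : Type} [Field K]

section top

variable {X : Type} [TopologicalSpace X]

/-- The topology of `X` is generated by the nonvanishing loci of the functions in `R`. -/
structure IsZ (R : Subalgebra K (X → K)) : Prop where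
  eq : ‹TopologicalSpace X› = TopologicalSpace.generateFrom {U | ∃ g ∈ R, U = {x | g x ≠ 0}}

variable {R : Subalgebra K (X → K)}

theorem IsZ.isTopologicalBasis (hX : IsZ R) : TopologicalSpace.IsTopologicalBasis
    {U : Set X | ∃ g ∈ R, U = {x | g x ≠ 0}} where
  exists_subset_inter := by
    rintro _ ⟨p, hp, rfl⟩ _ ⟨q, hq, rfl⟩ x ⟨hpx, hqx⟩
    refine ⟨_, ⟨p * q, R.mul_mem hp hq, rfl⟩, ?_, ?_⟩
    · exact mul_ne_zero hpx hqx
    · intro y hy
      exact ⟨left_ne_zero_of_mul hy, right_ne_zero_of_mul hy⟩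
  sUnion_eq := by
    apply Set.eq_univ_of_forall
    intro x
    exact ⟨_, ⟨1, R.one_mem, rfl⟩, one_ne_zero⟩
  eq_generateFrom := hX.eq

theorem IsZ.isOpen_ne (hX : IsZ R) {g : X → K} (hg : g ∈ R) : IsOpen {x | g x ≠ 0} :=
  hX.isTopologicalBasis.isOpen ⟨g, hg, rfl⟩

theorem IsZ.mem_closure_iff (hX : IsZ R) (T : Set X) (x : X) :
    x ∈ closure T ↔ ∀ g ∈ R, (∀ y ∈ T, g y = 0) → g x = 0 := by
  rw [hX.isTopologicalBasis.mem_closure_iff]
  constructor
  · intro h g hg h0
    by_contra hne
    obtain ⟨y, hy1, hy2⟩ := h _ ⟨g, hg, rfl⟩ hne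
    exact hy1 (h0 y hy2)
  · rintro h _ ⟨g, hg, rfl⟩ hx
    by_contra hne
    rw [Set.not_nonempty_iff_eq_empty] at hne
    apply hx
    apply h g hg
    intro y hy
    by_contra hy'
    exact Set.eq_empty_iff_forall_notMem.mp hne y ⟨hy', hy⟩

/-- The ideal of functions vanishing on `T`. -/
def vanish (R : Subalgebra K (X → K)) (T : Set X) : Ideal R where
  carrier := {g | ∀ x ∈ T, g.1 x = 0}
  add_mem' := by
    intro a b ha hb x hx
    change a.1 x + b.1 x = 0
    rw [ha x hx, hb x hx, add_zero]
  zero_mem' := fun _ _ => rfl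
  smul_mem' := by
    intro a b hb x hx
    change a.1 x * b.1 x = 0
    rw [hb x hx, mul_zero]

omit [TopologicalSpace X] in
theorem mem_vanish {T : Set X} {g : R} : g ∈ vanish R T ↔ ∀ x ∈ T, g.1 x = 0 := Iff.rfl

theorem vanish_isPrime (hX : IsZ R) {T : Set X} (hT : IsIrreducible T) :
    (vanish R T).IsPrime := by
  refine ⟨?_, ?_⟩
  · intro h
    obtain ⟨x, hx⟩ := hT.nonempty
    have : (1 : R) ∈ vanish R T := by rw [h]; trivial
    exact one_ne_zero (this x hx)
  · intro p q hpq
    by_contra hcon
    rw [not_or] at hcon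
    obtain ⟨hp, hq⟩ := hcon
    rw [mem_vanish] at hp hq
    push Not at hp hq
    obtain ⟨x, hx, hxp⟩ := hp
    obtain ⟨y, hy, hyq⟩ := hq
    obtain ⟨z, hz, hzp, hzq⟩ := hT.isPreirreducible _ _ (hX.isOpen_ne p.2) (hX.isOpen_ne q.2)
      ⟨x, hx, hxp⟩ ⟨y, hy, hyq⟩
    have h1 : p.1 z * q.1 z = 0 := hpq z hz
    exact (mul_eq_zero.mp h1).elim hzp hzq

theorem vanish_lt (hX : IsZ R) {S T : Set X} (hS : IsClosed S) (h : S < T) :
    vanish R T < vanish R S := by
  refine lt_of_le_of_ne (fun p hp x hx => hp x (h.le hx)) ?_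
  intro heq
  apply h.not_ge
  intro x hx
  rw [← hS.closure_eq, hX.mem_closure_iff]
  intro p hp h0
  have : (⟨p, hp⟩ : R) ∈ vanish R T := by rw [heq]; exact h0
  exact this x hx

/-- Restriction of functions to a subset. -/
def restr (S : Set X) : (X → K) →ₐ[K] (S → K) where
  toFun f x := f x.1
  map_one' := rfl
  map_mul' _ _ := rfl
  map_zero' := rfl
  map_add' _ _ := rfl
  commutes' _ := rfl

theorem IsZ.subtype (hX : IsZ R) (S : Set X) : IsZ (R.map (restr S)) where
  eq := by
    have h1 : (inferInstance : TopologicalSpace S) =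
        TopologicalSpace.induced Subtype.val ‹TopologicalSpace X› := rfl
    change instTopologicalSpaceSubtype = _
    rw [show (instTopologicalSpaceSubtype : TopologicalSpace S) =
        TopologicalSpace.induced Subtype.val ‹TopologicalSpace X› from rfl]
    conv_lhs => rw [hX.eq]
    rw [induced_generateFrom_eq]
    congr 1
    ext U
    constructor
    · rintro ⟨_, ⟨g, hg, rfl⟩, rfl⟩
      exact ⟨restr S g, ⟨g, hg, rfl⟩, rfl⟩
    · rintro ⟨_, ⟨g, hg, rfl⟩, rfl⟩
      exact ⟨_, ⟨g, hg, rfl⟩, rfl⟩

end top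

theorem aeval_eq_eval' {m : ℕ} (g : Fin m → K) (f : MvPolynomial (Fin m) K) :
    MvPolynomial.aeval g f = MvPolynomial.eval g f := by
  rw [← MvPolynomial.coe_aeval_eq_eval]
  rfl

section reg

variable {V : Type} [AddCommGroup V] [Module K V] {U : Set V}

/-- Regular functions as an algebra of functions on `U`. -/
def regAlg (U : Set V) : Subalgebra K (U → K) := (regOn K U).map (restr U)

theorem regAlg_mem {f : V → K} (hf : f ∈ regOn K U) : restr U f ∈ regAlg (K := K) U :=
  ⟨f, hf, rfl⟩

theorem regAlg_noZeroDiv [Infinite K] {x₀ : V} (hU : Nb K x₀ U) :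
    IsDomain (regAlg (K := K) U) := by
  have hnt : Nontrivial (regAlg (K := K) U) := by
    refine ⟨⟨0, 1, fun h => ?_⟩⟩
    have := congrFun (congrArg Subtype.val h) ⟨x₀, hU.mem⟩
    exact zero_ne_one this
  have hz : NoZeroDivisors (regAlg (K := K) U) := by
    refine ⟨?_⟩
    rintro ⟨_, f, hf, rfl⟩ ⟨_, g, hg, rfl⟩ hfg
    by_contra hcon
    rw [not_or] at hcon
    obtain ⟨h1, h2⟩ := hcon
    have h1' : ∃ x ∈ U, f x ≠ 0 := by
      by_contra hc
      push Not at hc
      exact h1 (Subtype.ext (funext fun x => hc x.1 x.2))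
    have h2' : ∃ x ∈ U, g x ≠ 0 := by
      by_contra hc
      push Not at hc
      exact h2 (Subtype.ext (funext fun x => hc x.1 x.2))
    obtain ⟨x, hx, hfx⟩ := h1'
    obtain ⟨y, hy, hgy⟩ := h2'
    obtain ⟨p, hp, q, hq, h⟩ := hf
    obtain ⟨p', hp', q', hq', h'⟩ := hg
    obtain ⟨u, hu, hux, huU⟩ := hU
    have e1 : p x ≠ 0 := by
      rw [← (h x hx).2]
      exact mul_ne_zero hfx (h x hx).1
    have e2 : p' y ≠ 0 := by
      rw [← (h' y hy).2]
      exact mul_ne_zero hgy (h' y hy).1
    obtain ⟨z, hz1, hz2⟩ := polyFun_mul_ne hp hp' e1 e2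
    obtain ⟨z', hz1', hz2'⟩ := polyFun_mul_ne ((polyFun K V).mul_mem hp hp') hu
      (mul_ne_zero hz1 hz2) hux
    have hz'U := huU z' hz2'
    have e3 := congrFun (congrArg Subtype.val hfg) ⟨z', hz'U⟩
    have e4 : f z' * g z' = 0 := e3
    have e5 : f z' ≠ 0 := by
      intro h0
      have := (h z' hz'U).2
      rw [h0, zero_mul] at this
      exact left_ne_zero_of_mul hz1' this.symm
    have e6 : g z' ≠ 0 := by
      intro h0
      have := (h' z' hz'U).2
      rw [h0, zero_mul] at this
      exact right_ne_zero_of_mul hz1' this.symm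
    exact mul_ne_zero e5 e6 e4
  exact @IsDomain.mk _ _ (by infer_instance) hnt

open Algebra in
/-- Algebraically independent regular functions on an open subset of `V` are at most `dim V` in
number. -/
theorem card_le_of_indep [Infinite K] [FiniteDimensional K V] {x₀ : V} (hU : Nb K x₀ U) {m : ℕ}
    (y : Fin m → V → K) (hy : ∀ i, y i ∈ regOn K U)
    (hind : ∀ f : MvPolynomial (Fin m) K, (∀ x ∈ U, MvPolynomial.eval (fun i => y i x) f = 0) →
      f = 0) : m ≤ finrank K V := by
  have hdom := regAlg_noZeroDiv hU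
  let b := Module.finBasis K V
  let cf : Fin (finrank K V) → regAlg (K := K) U := fun i =>
    ⟨restr U (fun x => b.coord i x), regAlg_mem (regOn_poly (polyFun_lin (b.coord i)))⟩
  have hpoly : ∀ f ∈ polyFun K V, ∃ g : regAlg (K := K) U, g.1 = restr U f ∧
      g ∈ adjoin K (Set.range cf) := by
    intro f hf
    induction hf using Algebra.adjoin_induction with
    | mem f hf =>
      obtain ⟨l, rfl⟩ := hf
      refine ⟨∑ i, l (b i) • cf i, ?_, ?_⟩
      · funext x
        have : ((∑ i, l (b i) • cf i : regAlg (K := K) U) : U → K) =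
            ∑ i, l (b i) • (cf i : U → K) := by
          simp
        rw [this, Finset.sum_apply]
        change ∑ i, l (b i) * b.coord i x.1 = l x.1
        conv_rhs => rw [← b.sum_repr x.1]
        rw [map_sum]
        refine Finset.sum_congr rfl fun i _ => ?_
        rw [map_smul, smul_eq_mul, mul_comm]
        rfl
      · exact sum_mem fun i _ => Subalgebra.smul_mem _ (subset_adjoin (Set.mem_range_self i)) _
    | algebraMap c =>
      exact ⟨algebraMap K _ c, rfl, Subalgebra.algebraMap_mem _ c⟩
    | add f f' _ _ h h' =>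
      obtain ⟨g, hg, hg2⟩ := h
      obtain ⟨g', hg', hg2'⟩ := h'
      exact ⟨g + g', by rw [map_add, ← hg, ← hg']; rfl, add_mem hg2 hg2'⟩
    | mul f f' _ _ h h' =>
      obtain ⟨g, hg, hg2⟩ := h
      obtain ⟨g', hg', hg2'⟩ := h'
      exact ⟨g * g', by rw [map_mul, ← hg, ← hg']; rfl, mul_mem hg2 hg2'⟩
  have halg : Algebra.IsAlgebraic (adjoin K (Set.range cf)) (regAlg (K := K) U) := by
    refine ⟨?_⟩
    rintro ⟨_, f, hf, rfl⟩
    obtain ⟨p, hp, q, hq, h⟩ := hf
    obtain ⟨P, hP, hP2⟩ := hpoly p hp
    obtain ⟨Q, hQ, hQ2⟩ := hpoly q hq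
    refine ⟨Polynomial.C ⟨Q, hQ2⟩ * Polynomial.X - Polynomial.C ⟨P, hP2⟩, ?_, ?_⟩
    · intro h0
      have h1 := congrArg (fun r => Polynomial.coeff r 1) h0
      simp only [Polynomial.coeff_sub, Polynomial.coeff_C_mul, Polynomial.coeff_X_one, mul_one,
        Polynomial.coeff_C_succ, Polynomial.coeff_zero] at h1
      have h2 : Q = 0 := by
        have h4 := congrArg Subtype.val h1
        have h5 : Q - 0 = 0 := h4
        rwa [sub_zero] at h5
      have h3 := congrFun hQ ⟨x₀, hU.mem⟩
      rw [h2] at h3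
      exact (h x₀ hU.mem).1 h3.symm
    · rw [map_sub, map_mul, Polynomial.aeval_C, Polynomial.aeval_X, Polynomial.aeval_C]
      apply Subtype.ext
      change Q.1 * restr U f - P.1 = 0
      rw [hQ, hP]
      funext x
      change q x.1 * f x.1 - p x.1 = 0
      rw [← (h x.1 x.2).2]
      ring
  have hle : Algebra.trdeg K (regAlg (K := K) U) ≤ Cardinal.mk (Set.range cf) :=
    Algebra.IsAlgebraic.trdeg_le_cardinalMk (R := K) (s := Set.range cf)
  have hle2 : Cardinal.mk (Set.range cf) ≤ finrank K V := by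
    refine Cardinal.mk_range_le.trans ?_
    rw [Cardinal.mk_fin]
  have hai : AlgebraicIndependent K (fun i => (⟨restr U (y i), regAlg_mem (hy i)⟩ :
      regAlg (K := K) U)) := by
    rw [algebraicIndependent_iff]
    intro f hf
    apply hind f
    intro x hx
    let ev : regAlg (K := K) U →ₐ[K] K :=
      (Pi.evalAlgHom K (fun _ : U => K) ⟨x, hx⟩).comp (regAlg (K := K) U).val
    have h1 := congrArg ev hf
    rw [map_zero, MvPolynomial.comp_aeval_apply, aeval_eq_eval'] at h1
    exact h1
  have h1 := hai.lift_cardinalMk_le_trdeg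
  rw [Cardinal.mk_fin] at h1
  rw [Cardinal.lift_natCast, Cardinal.lift_id] at h1
  exact_mod_cast h1.trans (hle.trans hle2)

end reg

section curves

variable {V : Type} [AddCommGroup V] [Module K V]

theorem polyFun_id : (fun t : K => t) ∈ polyFun K K :=
  polyFun_lin (V := K) LinearMap.id

theorem nb_ne_zero [Infinite K] : ZDense K {t : K | t ≠ 0} :=
  (Nb.of_poly (x := (1 : K)) (f := fun t => t) polyFun_id one_ne_zero).zDense

/-- Density from curves: if every tangent direction `v` at `y₀` is realised by a curve in `D`,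
then `D` is Zariski dense. -/
theorem zDense_of_curves [Infinite K] (D : Set V) (y₀ : V)
    (h : ∀ v : V, ∃ (w : K → V) (S : Set K), Nb K 0 S ∧ RegV (K := K) S w ∧ w 0 = v ∧
      ∀ t ∈ S, t ≠ 0 → y₀ + t • w t ∈ D) : ZDense K D := by
  intro f hf h0
  by_contra hne
  have hQ : (fun y => f (y₀ + LinearMap.id (R := K) (M := V) y)) ∈ polyFun K V :=
    polyFun_comp_affine hf y₀ LinearMap.id
  obtain ⟨N, c, hc, hexp⟩ := polyFun_expand hQ
  have hex : ∃ j, c j ≠ 0 := by
    by_contra hcon
    push Not at hcon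
    apply hne
    funext y
    have := hexp 1 (y - y₀)
    simpa [hcon] using this
  classical
  let d := Nat.find hex
  have hd : c d ≠ 0 := Nat.find_spec hex
  have hmin : ∀ j < d, c j = 0 := fun j hj => by
    by_contra hc0
    exact Nat.find_min hex hj hc0
  apply hd
  funext v
  obtain ⟨w, S, hS, hw, hwv, hD⟩ := h v
  -- the function t ↦ Σ_{d ≤ j < N} t^(j-d) c_j(w t)
  let G : K → K := fun t => ∑ j ∈ Finset.range N, if d ≤ j then t ^ (j - d) * c j (w t) else 0
  have hG : G ∈ regOn K S := by
    have : G = ∑ j ∈ Finset.range N, if d ≤ j then (fun t => t ^ (j - d)) *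
        (fun t => c j (w t)) else 0 := by
      funext t
      simp only [G, Finset.sum_apply]
      refine Finset.sum_congr rfl fun j _ => ?_
      split_ifs <;> rfl
    rw [this]
    refine (regOn K S).sum_mem fun j _ => ?_
    split_ifs
    · refine (regOn K S).mul_mem ?_ (regOn_comp_poly (hc j) w hw)
      have h2 : (fun t : K => t) ∈ regOn K S := regOn_poly polyFun_id
      exact (regOn K S).pow_mem h2 _
    · exact (regOn K S).zero_mem
  have hG0 : ∀ t ∈ {t : K | t ≠ 0}, t ∈ S → G t = 0 := by
    intro t ht htS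
    have h1 := h0 _ (hD t htS ht)
    have h2 : ∑ j ∈ Finset.range N, t ^ j * c j (w t) = 0 := by
      rw [← hexp t (w t)]
      simpa using h1
    have h3 : t ^ d * G t = 0 := by
      rw [← h2, Finset.mul_sum]
      refine Finset.sum_congr rfl fun j _ => ?_
      split_ifs with hdj
      · rw [← mul_assoc, ← pow_add, Nat.add_sub_cancel' hdj]
      · rw [mul_zero, hmin j (not_le.mp hdj)]
        simp
    exact (mul_eq_zero.mp h3).resolve_left (pow_ne_zero d ht)
  have hG00 := regOn_eq_zero hG hS nb_ne_zero hG0 hS.mem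
  have hG01 : G 0 = c d v := by
    have hdN : d ∈ Finset.range N := by
      by_contra hdN
      rw [Finset.mem_range, not_lt] at hdN
      apply hne
      funext y
      have h5 := hexp 1 (y - y₀)
      have h6 : f y = ∑ j ∈ Finset.range N, c j (y - y₀) := by simpa using h5
      rw [h6]
      refine Finset.sum_eq_zero fun j hj => ?_
      rw [hmin j (lt_of_lt_of_le (Finset.mem_range.mp hj) hdN)]
      rfl
    change (∑ j ∈ Finset.range N, if d ≤ j then (0 : K) ^ (j - d) * c j (w 0) else 0) = c d v
    rw [Finset.sum_eq_single_of_mem d hdN]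
    · rw [if_pos le_rfl, Nat.sub_self, pow_zero, one_mul, hwv]
    · intro j _ hjd
      split_ifs with hdj
      · rw [zero_pow (by omega), zero_mul]
      · rfl
  rw [← hG01, hG00]
  rfl

end curves

section maps

variable {X : Type} [TopologicalSpace X] {R : Subalgebra K (X → K)}
  {V : Type} [AddCommGroup V] [Module K V] {U : Set V}

/-- `F` is a regular map on `U`. -/
def RegMap (R : Subalgebra K (X → K)) (U : Set V) (F : V → X) : Prop :=
  ∀ g ∈ R, (fun x => g (F x)) ∈ regOn K U

omit [TopologicalSpace X] in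
theorem RegMap.mono {F : V → X} {U' : Set V} (h : RegMap R U F) (hU : U' ⊆ U) :
    RegMap R U' F := fun g hg => regOn_mono hU (h g hg)

theorem RegMap.isIrreducible [Infinite K] (hX : IsZ R) {F : V → X} {x₀ : V} (hU : Nb K x₀ U)
    (hF : RegMap R U F) : IsIrreducible (F '' U) := by
  refine ⟨⟨F x₀, x₀, hU.mem, rfl⟩, ?_⟩
  rintro O O' hO hO' ⟨_, ⟨x, hx, rfl⟩, hxO⟩ ⟨_, ⟨y, hy, rfl⟩, hyO⟩
  obtain ⟨_, ⟨g, hg, rfl⟩, hgx, hgO⟩ := hX.isTopologicalBasis.exists_subset_of_mem_open hxO hO
  obtain ⟨_, ⟨g', hg', rfl⟩, hgy, hgO'⟩ := hX.isTopologicalBasis.exists_subset_of_mem_open hyO hO'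
  have hdom := regAlg_noZeroDiv hU
  have h1 : (⟨_, regAlg_mem (hF g hg)⟩ : regAlg (K := K) U) ≠ 0 := fun h =>
    hgx (congrFun (congrArg Subtype.val h) ⟨x, hx⟩)
  have h2 : (⟨_, regAlg_mem (hF g' hg')⟩ : regAlg (K := K) U) ≠ 0 := fun h =>
    hgy (congrFun (congrArg Subtype.val h) ⟨y, hy⟩)
  have h3 := mul_ne_zero h1 h2
  have h4 : ∃ z ∈ U, g (F z) * g' (F z) ≠ 0 := by
    by_contra hcon
    push Not at hcon
    exact h3 (Subtype.ext (funext fun z => hcon z.1 z.2))
  obtain ⟨z, hz, hgz⟩ := h4
  exact ⟨F z, ⟨z, hz, rfl⟩, hgO (left_ne_zero_of_mul hgz), hgO' (right_ne_zero_of_mul hgz)⟩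

/-- Continuity of regular maps, in the form of a density statement. -/
theorem RegMap.mem_closure [Infinite K] (hX : IsZ R) {F : V → X} {x₀ : V} (hU : Nb K x₀ U)
    (hF : RegMap R U F) {D : Set V} (hD : ZDense K D) {x : V} (hx : x ∈ U) :
    F x ∈ closure (F '' (D ∩ U)) := by
  rw [hX.mem_closure_iff]
  intro g hg h0
  exact regOn_eq_zero (hF g hg) hU hD (fun y hy hyU => h0 _ ⟨y, ⟨hy, hyU⟩, rfl⟩) hx

/-- Upper bound for the dimension of (subsets of) the closure of an image. -/
theorem RegMap.krullDim_le [Infinite K] [FiniteDimensional K V] (hX : IsZ R) {F : V → X} {x₀ : V}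
    (hU : Nb K x₀ U) (hF : RegMap R U F) {T : Set X} (hT : T ⊆ closure (F '' U)) :
    topologicalKrullDim T ≤ finrank K V := by
  unfold topologicalKrullDim Order.krullDim
  refine iSup_le fun s => ?_
  have hemb : Topology.IsInducing (Subtype.val : T → X) := Topology.IsInducing.subtypeVal
  let Z : Fin (s.length + 1) → TopologicalSpace.IrreducibleCloseds X := fun i =>
    TopologicalSpace.IrreducibleCloseds.map Subtype.val hemb.continuous (s.toFun i)
  have hZ : StrictMono Z :=
    (TopologicalSpace.IrreducibleCloseds.map_strictMono_of_isInducing hemb).comp s.strictMono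
  have hZT : ∀ i, (Z i : Set X) ⊆ closure (F '' U) := by
    intro i
    have : (Z i : Set X) = closure (Subtype.val '' (s.toFun i : Set T)) := rfl
    rw [this]
    refine closure_minimal ?_ isClosed_closure
    rintro _ ⟨y, _, rfl⟩
    exact hT y.2
  let P : Fin (s.length + 1) → PrimeSpectrum R := fun i =>
    ⟨vanish R (Z i.rev : Set X), vanish_isPrime hX (Z i.rev).isIrreducible⟩
  have hP : StrictMono P := by
    intro i j hij
    have h1 : Z j.rev < Z i.rev := hZ (Fin.rev_lt_rev.mpr hij)
    exact vanish_lt hX (Z j.rev).isClosed h1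
  obtain ⟨x, hx⟩ := Pool.Agent.Helper819.Zar.exists_indep (k := K) s.length P hP
  have hlen : s.length ≤ finrank K V := by
    refine card_le_of_indep hU (fun i v => (x i).1 (F v)) (fun i => hF _ (x i).2) ?_
    intro f hf
    apply hx f
    change ∀ y ∈ (Z (Fin.rev 0) : Set X), (MvPolynomial.aeval x f : R).1 y = 0
    intro y hy
    have hy' := hZT _ hy
    rw [hX.mem_closure_iff] at hy'
    refine hy' _ (MvPolynomial.aeval x f : R).2 ?_
    rintro _ ⟨v, hv, rfl⟩
    rw [← hf v hv]
    let ev : R →ₐ[K] K := (Pi.evalAlgHom K (fun _ : X => K) (F v)).comp R.val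
    have h1 : (MvPolynomial.aeval x f : R).1 (F v) = ev (MvPolynomial.aeval x f) := rfl
    rw [h1, MvPolynomial.comp_aeval_apply, aeval_eq_eval']
    rfl
  exact_mod_cast hlen

theorem polyFun_eval {m : ℕ} (f : MvPolynomial (Fin m) K) :
    (fun v => MvPolynomial.eval v f) ∈ polyFun K (Fin m → K) := by
  induction f using MvPolynomial.induction_on with
  | C a => simpa using polyFun_const (V := Fin m → K) a
  | add f g hf hg =>
    have := (polyFun K (Fin m → K)).add_mem hf hg
    convert this using 1
    funext v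
    simp
  | mul_X f i hf =>
    have := (polyFun K (Fin m → K)).mul_mem hf (polyFun_lin (LinearMap.proj i))
    convert this using 1
    funext v
    simp

/-- Lower bound for the dimension of the whole space: a regular map near `0 ∈ V` whose
differential at `0` (composed with a linear coordinate map `G`) is the identity. -/
theorem le_krullDim_univ [Infinite K] [FiniteDimensional K V] (hX : IsZ R) {F : V → X}
    (hU : Nb K 0 U) (hF : RegMap R U F) (G : X → V)
    (hG : ∀ l : Module.Dual K V, (fun x => l (G x)) ∈ R)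
    (hcurve : ∀ v : V, ∃ (w : K → V) (S : Set K), Nb K 0 S ∧ RegV (K := K) S w ∧ w 0 = v ∧
      ∀ t ∈ S, t • v ∈ U ∧ G (F (t • v)) = G (F 0) + t • w t) :
    (finrank K V : WithBot ℕ∞) ≤ topologicalKrullDim X := by
  classical
  let m := finrank K V
  let b : Basis (Fin m) K V := Module.finBasis K V
  let L : ℕ → Submodule K V := fun i => Submodule.span K (b '' {j | (j : ℕ) < i})
  have hLfr : ∀ i ≤ m, finrank K (L i) = i := by
    intro i hi
    have hli : LinearIndependent K (fun j : {j : Fin m // (j : ℕ) < i} => b j.1) :=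
      b.linearIndependent.comp _ Subtype.val_injective
    have h1 := finrank_span_eq_card hli
    have h2 : Set.range (fun j : {j : Fin m // (j : ℕ) < i} => b j.1) =
        b '' {j | (j : ℕ) < i} := by
      ext x
      constructor
      · rintro ⟨j, rfl⟩; exact ⟨j.1, j.2, rfl⟩
      · rintro ⟨j, hj, rfl⟩; exact ⟨⟨j, hj⟩, rfl⟩
    rw [h2] at h1
    change finrank K (Submodule.span K (b '' {j | (j : ℕ) < i})) = i
    rw [h1]
    rw [Fintype.card_subtype]
    have h3 : (Finset.univ.filter fun j : Fin m => (j : ℕ) < i).card = i := by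
      have : (Finset.univ.filter fun j : Fin m => (j : ℕ) < i) =
          (Finset.univ : Finset (Fin i)).map (Fin.castLEEmb hi) := by
        ext j
        simp only [Finset.mem_filter, Finset.mem_univ, true_and, Finset.mem_map,
          Fin.castLEEmb_apply]
        constructor
        · intro hj; exact ⟨⟨j, hj⟩, by ext; rfl⟩
        · rintro ⟨k, rfl⟩; exact k.2
      rw [this, Finset.card_map, Finset.card_univ, Fintype.card_fin]
    exact h3
  have hLmono : ∀ i, L i ≤ L (i + 1) := by
    intro i
    apply Submodule.span_mono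
    apply Set.image_mono
    intro j hj
    change (j : ℕ) < i + 1
    have : (j : ℕ) < i := hj
    omega
  let Ui : ∀ i, Set (L i) := fun i => {x | 0 + (L i).subtype x ∈ U}
  have hUi : ∀ i, Nb K (0 : L i) (Ui i) := by
    intro i
    refine Nb.comap 0 (L i).subtype ?_
    rw [map_zero, add_zero]
    exact hU
  have hFi : ∀ i, RegMap R (Ui i) (fun x : L i => F x.1) := by
    intro i g hg
    refine regOn_comp (hF g hg) (fun x : L i => (x : V)) (fun l => ?_) ?_
    · exact regOn_poly (polyFun_lin (l ∘ₗ (L i).subtype))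
    · intro x hx
      have : 0 + (L i).subtype x ∈ U := hx
      simpa using this
  let T : ℕ → Set X := fun i => (fun x : L i => F x.1) '' (Ui i)
  have hTirr : ∀ i, IsIrreducible (T i) := fun i => RegMap.isIrreducible hX (hUi i) (hFi i)
  have hTmono : ∀ i, T i ⊆ T (i + 1) := by
    rintro i _ ⟨x, hx, rfl⟩
    exact ⟨⟨x.1, hLmono i x.2⟩, hx, rfl⟩
  have hstrict : ∀ i < m, ¬ T (i + 1) ⊆ closure (T i) := by
    intro i hi hsub
    -- an algebraic relation on T i
    have hdep : ∃ f : MvPolynomial (Fin (i + 1)) K, f ≠ 0 ∧ ∀ x ∈ Ui i, MvPolynomial.eval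
        (fun j : Fin (i + 1) => b.coord (Fin.castLE hi j) (G (F x.1))) f = 0 := by
      by_contra hcon
      push Not at hcon
      have h1 := card_le_of_indep (hUi i)
        (fun (j : Fin (i + 1)) (x : L i) => b.coord (Fin.castLE hi j) (G (F x.1)))
        (fun j => hFi i _ (hG (b.coord (Fin.castLE hi j)))) (by
          intro f hf
          by_contra hf0
          obtain ⟨x, hx, hne⟩ := hcon f hf0
          exact hne (hf x hx))
      rw [hLfr i hi.le] at h1
      omega
    obtain ⟨f, hf0, hf⟩ := hdep
    have hgR : (fun x : X => MvPolynomial.eval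
        (fun j : Fin (i + 1) => b.coord (Fin.castLE hi j) (G x)) f) ∈ R := by
      clear hf hf0
      induction f using MvPolynomial.induction_on with
      | C a =>
        have := R.algebraMap_mem a
        convert this using 1
        funext v
        simp
      | add f g hf hg =>
        have := R.add_mem hf hg
        convert this using 1
        funext v
        simp
      | mul_X f j hf =>
        have := R.mul_mem hf (hG (b.coord (Fin.castLE hi j)))
        convert this using 1
        funext v
        simp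
    have hvan : ∀ x ∈ T (i + 1), MvPolynomial.eval
        (fun j : Fin (i + 1) => b.coord (Fin.castLE hi j) (G x)) f = 0 := by
      intro x hx
      have h1 := hsub hx
      rw [hX.mem_closure_iff] at h1
      refine h1 _ hgR ?_
      rintro _ ⟨y, hy, rfl⟩
      exact hf y hy
    have hdense : ZDense K {v : Fin (i + 1) → K | ∃ x ∈ T (i + 1),
        v = fun j => b.coord (Fin.castLE hi j) (G x)} := by
      refine zDense_of_curves _ (fun j => b.coord (Fin.castLE hi j) (G (F 0))) fun v' => ?_
      let v : V := ∑ j : Fin (i + 1), v' j • b (Fin.castLE hi j)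
      have hv : v ∈ L (i + 1) := by
        refine Submodule.sum_mem _ fun j _ => Submodule.smul_mem _ _ ?_
        exact Submodule.subset_span ⟨_, j.2, rfl⟩
      obtain ⟨w, S, hS, hw, hw0, hwt⟩ := hcurve v
      refine ⟨fun t j => b.coord (Fin.castLE hi j) (w t), S, hS, ?_, ?_, ?_⟩
      · exact hw.lin (LinearMap.pi fun j => b.coord (Fin.castLE hi j))
      · funext j
        change b.coord (Fin.castLE hi j) (w 0) = v' j
        rw [hw0, map_sum, Finset.sum_eq_single j]
        · simp
        · intro j' _ hj'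
          rw [map_smul, Basis.coord_apply, Basis.repr_self, Finsupp.single_apply, if_neg, smul_zero]
          intro h
          exact hj' (Fin.castLE_injective hi h)
        · simp
      · intro t ht _
        obtain ⟨h1, h2⟩ := hwt t ht
        refine ⟨F (t • v), ⟨⟨t • v, (L (i + 1)).smul_mem t hv⟩, ?_, rfl⟩, ?_⟩
        · change 0 + t • v ∈ U
          rw [zero_add]
          exact h1
        · funext j
          rw [h2, map_add, map_smul]
          rfl
    apply hf0
    have h5 := hdense _ (polyFun_eval f) (by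
      rintro _ ⟨x, hx, rfl⟩
      exact hvan x hx)
    refine MvPolynomial.funext fun v => ?_
    rw [map_zero]
    exact congrFun h5 v
  let Z : Fin (m + 1) → TopologicalSpace.IrreducibleCloseds X := fun i =>
    { carrier := closure (T i)
      isIrreducible' := (hTirr i).closure
      isClosed' := isClosed_closure }
  have hZ : StrictMono Z := by
    rw [Fin.strictMono_iff_lt_succ]
    intro i
    refine lt_of_le_of_ne ?_ ?_
    · exact closure_mono (hTmono i)
    · intro heq
      apply hstrict i i.2
      have h1 : (Z i.castSucc : Set X) = Z i.succ := by rw [heq]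
      have h2 : closure (T i) = closure (T (i + 1)) := h1
      rw [h2]
      exact subset_closure
  exact Order.LTSeries.length_le_krullDim (LTSeries.mk m Z hZ)

/-- Lower bound for the dimension of a subset `S` containing the image of the regular map. -/
theorem le_krullDim [Infinite K] [FiniteDimensional K V] (hX : IsZ R) {F : V → X}
    (hU : Nb K 0 U) (hF : RegMap R U F) {T : Set X} (hT : ∀ x ∈ U, F x ∈ T) (G : X → V)
    (hG : ∀ l : Module.Dual K V, (fun x => l (G x)) ∈ R)
    (hcurve : ∀ v : V, ∃ (w : K → V) (S : Set K), Nb K 0 S ∧ RegV (K := K) S w ∧ w 0 = v ∧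
      ∀ t ∈ S, t • v ∈ U ∧ G (F (t • v)) = G (F 0) + t • w t) :
    (finrank K V : WithBot ℕ∞) ≤ topologicalKrullDim T := by
  classical
  let F' : V → T := fun x => if h : x ∈ U then ⟨F x, hT x h⟩ else ⟨F 0, hT 0 hU.mem⟩
  have hF' : ∀ x ∈ U, (F' x : X) = F x := by
    intro x hx
    simp only [F', dif_pos hx]
  refine le_krullDim_univ (hX.subtype T) (F := F') hU ?_ (fun x => G x.1) ?_ ?_
  · rintro _ ⟨g, hg, rfl⟩
    refine regOn_congr (hF g hg) fun x hx => ?_
    change g (F x) = g (F' x : X)
    rw [hF' x hx]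
  · intro l
    exact ⟨_, hG l, rfl⟩
  · intro v
    obtain ⟨w, S, hS, hw, hw0, hwt⟩ := hcurve v
    refine ⟨w, S, hS, hw, hw0, fun t ht => ⟨(hwt t ht).1, ?_⟩⟩
    rw [hF' _ (hwt t ht).1, hF' _ hU.mem]
    exact (hwt t ht).2

end maps

end Pool.Agent.Helper343_Tau
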