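import Mathlib
import Pool.Agent.Helper343_Tau.Basic
import Pool.Agent.Helper343_Tau.Geom

/-!
Regular maps to `Rep(A, d)`, the set of modules with a presentation by given projectives, graded
endomorphisms, conjugation.
-/

set_option autoImplicit false

open Module Pool.Agent.Helper793Bricks

namespace Pool.Agent.Helper343_Tau

/-- The vector space underlying the points of `Rep(A, d)`. -/
abbrev Vec (K : Type) [Field K] {n : ℕ} (d : Fin n → ℕ) : Type := ∀ i, Fin (d i) → K

variable {K : Type} [Field K] {A : Type} [Ring A] [Algebra K A] {n : ℕ} {e : Fin n → A}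
  {d : Fin n → ℕ}

/-- The action as a linear map. -/
def Rep.lin (ρ : Rep K A e d) : A →ₗ[K] Module.End K (Vec K d) := ρ.act.toLinearMap

theorem Rep.lin_apply (ρ : Rep K A e d) (a : A) : ρ.lin a = ρ.act a := rfl

theorem Rep.ext' {ρ σ : Rep K A e d} (h : ρ.lin = σ.lin) : ρ = σ := by
  cases ρ with
  | mk f hf =>
    cases σ with
    | mk g hg =>
      have : f = g := AlgHom.ext fun a => LinearMap.congr_fun h a
      subst this
      rfl

theorem isZ_coordRing : IsZ (coordRing K e d) := ⟨rfl⟩

theorem coordRing_coeff (a : A) (v : Vec K d) (φ : Module.Dual K (Vec K d)) :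
    (fun ρ : Rep K A e d => φ (ρ.lin a v)) ∈ coordRing K e d :=
  Algebra.subset_adjoin ⟨a, v, φ, rfl⟩

theorem coordRing_lin [FiniteDimensional K A]
    (φ : Module.Dual K (A →ₗ[K] Module.End K (Vec K d))) :
    (fun ρ : Rep K A e d => φ ρ.lin) ∈ coordRing K e d := by
  let b := Module.finBasis K A
  let c := Module.finBasis K (Vec K d)
  have key : ∀ T : A →ₗ[K] Module.End K (Vec K d), T = ∑ i, ∑ j, ∑ k,
      (c.coord k (T (b i) (c j))) •
        LinearMap.smulRight (b.coord i) (LinearMap.smulRight (c.coord j) (c k)) := by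
    intro T
    refine b.ext fun i => c.ext fun j => ?_
    simp only [LinearMap.sum_apply, LinearMap.smul_apply, LinearMap.smulRight_apply,
      Basis.coord_apply, Basis.repr_self]
    rw [Finset.sum_eq_single i, Finset.sum_eq_single j]
    · simp only [Finsupp.single_eq_same, one_smul]
      conv_lhs => rw [← c.sum_repr (T (b i) (c j))]
    · intro j' _ hj'
      refine Finset.sum_eq_zero fun k _ => ?_
      have h0 : (Finsupp.single j (1 : K)) j' = 0 := by
        rw [Finsupp.single_apply, if_neg (fun h => hj' h.symm)]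
      rw [h0]
      simp
    · simp
    · intro i' _ hi'
      refine Finset.sum_eq_zero fun j' _ => Finset.sum_eq_zero fun k _ => ?_
      have h0 : (Finsupp.single i (1 : K)) i' = 0 := by
        rw [Finsupp.single_apply, if_neg (fun h => hi' h.symm)]
      rw [h0]
      simp
    · simp
  have h2 : (fun ρ : Rep K A e d => φ ρ.lin) = ∑ i, ∑ j, ∑ k,
      φ (LinearMap.smulRight (b.coord i) (LinearMap.smulRight (c.coord j) (c k))) •
        (fun ρ : Rep K A e d => c.coord k (ρ.lin (b i) (c j))) := by
    funext ρ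
    conv_lhs => rw [key ρ.lin]
    simp only [map_sum, map_smul, Finset.sum_apply, Pi.smul_apply, smul_eq_mul]
    refine Finset.sum_congr rfl fun i _ => Finset.sum_congr rfl fun j _ =>
      Finset.sum_congr rfl fun k _ => mul_comm _ _
  rw [h2]
  exact Subalgebra.sum_mem _ fun i _ => Subalgebra.sum_mem _ fun j _ =>
    Subalgebra.sum_mem _ fun k _ => Subalgebra.smul_mem _ (coordRing_coeff _ _ _) _

theorem coordRing_poly [FiniteDimensional K A]
    {h : (A →ₗ[K] Module.End K (Vec K d)) → K}
    (hh : h ∈ polyFun K (A →ₗ[K] Module.End K (Vec K d))) :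
    (fun ρ : Rep K A e d => h ρ.lin) ∈ coordRing K e d := by
  induction hh using Algebra.adjoin_induction with
  | mem f hf => obtain ⟨l, rfl⟩ := hf; exact coordRing_lin l
  | algebraMap c => exact Subalgebra.algebraMap_mem _ c
  | add f f' _ _ h h' => exact Subalgebra.add_mem _ h h'
  | mul f f' _ _ h h' => exact Subalgebra.mul_mem _ h h'

/-- Zariski neighbourhoods of the action map give neighbourhoods in `Rep(A, d)`. -/
theorem exists_open_of_nb [FiniteDimensional K A] {ρ₀ : Rep K A e d}
    {U : Set (A →ₗ[K] Module.End K (Vec K d))} (hU : Nb K ρ₀.lin U) :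
    ∃ O : Set (Rep K A e d), IsOpen O ∧ ρ₀ ∈ O ∧ ∀ ρ ∈ O, ρ.lin ∈ U := by
  obtain ⟨h, hh, h1, h2⟩ := hU
  exact ⟨_, isZ_coordRing.isOpen_ne (coordRing_poly hh), h1, fun ρ hρ => h2 _ hρ⟩

/-- Regular maps to `Rep(A, d)` are those whose action map is a regular vector-valued map. -/
theorem regMap_iff [FiniteDimensional K A] {W : Type} [AddCommGroup W] [Module K W] {U : Set W}
    {F : W → Rep K A e d} :
    RegMap (coordRing K e d) U F ↔ RegV (K := K) U (fun x => (F x).lin) := by
  constructor
  · intro h φ
    exact h _ (coordRing_lin φ)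
  · intro h g hg
    induction hg using Algebra.adjoin_induction with
    | mem f hf =>
      obtain ⟨a, v, φ, rfl⟩ := hf
      exact h (φ ∘ₗ (LinearMap.applyₗ v) ∘ₗ (LinearMap.applyₗ a))
    | algebraMap c => exact regOn_const c
    | add f f' _ _ h h' => exact (regOn K U).add_mem h h'
    | mul f f' _ _ h h' => exact (regOn K U).mul_mem h h'

theorem RegMap.of_apply [FiniteDimensional K A] {W : Type} [AddCommGroup W] [Module K W]
    {U : Set W} {F : W → Rep K A e d}
    (h : ∀ a v, RegV (K := K) U (fun x => (F x).act a v)) : RegMap (coordRing K e d) U F := by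
  rw [regMap_iff]
  exact RegV.of_apply fun a => RegV.of_apply fun v => h a v

/-- The points of `Rep(A, d)` which have a presentation by the projectives `P₁`, `P₀`. -/
def presSet (e : Fin n → A) (d : Fin n → ℕ) (P₁ P₀ : Type) [AddCommGroup P₁] [Module A P₁]
    [AddCommGroup P₀] [Module A P₀] : Set (Rep K A e d) :=
  {ρ | ∃ (f : P₁ →ₗ[A] P₀) (q : P₀ →ₗ[A] ρ.Mod), Function.Surjective q ∧
    LinearMap.range f = LinearMap.ker q}

/-- Graded endomorphisms of the underlying space: those commuting with the block projections. -/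
def endGr (K : Type) [Field K] {n : ℕ} (d : Fin n → ℕ) : Submodule K (Module.End K (Vec K d)) where
  carrier := {g | ∀ i (v : Vec K d), g (Pi.single i (v i)) = Pi.single i ((g v) i)}
  add_mem' := by
    intro g h hg hh i v
    rw [LinearMap.add_apply, hg, hh, LinearMap.add_apply, Pi.add_apply, Pi.single_add]
  zero_mem' := by
    intro i v
    simp
  smul_mem' := by
    intro c g hg i v
    rw [LinearMap.smul_apply, hg, LinearMap.smul_apply, Pi.smul_apply, Pi.single_smul]

theorem mem_endGr {g : Module.End K (Vec K d)} :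
    g ∈ endGr K d ↔ ∀ i (v : Vec K d), g (Pi.single i (v i)) = Pi.single i ((g v) i) := Iff.rfl

theorem endGr_comm {g : Module.End K (Vec K d)} (hg : g ∈ endGr K d) (ρ : Rep K A e d)
    (i : Fin n) (v : Vec K d) : g (ρ.act (e i) v) = ρ.act (e i) (g v) := by
  rw [ρ.act_e, ρ.act_e, hg i v]

theorem endGr_one : (1 : Module.End K (Vec K d)) ∈ endGr K d := fun _ _ => rfl

theorem endGr_mul {g h : Module.End K (Vec K d)} (hg : g ∈ endGr K d) (hh : h ∈ endGr K d) :
    g * h ∈ endGr K d := by
  intro i v
  rw [Module.End.mul_apply, hh, hg, Module.End.mul_apply]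

theorem endGr_inv {g g' : Module.End K (Vec K d)} (hg : g ∈ endGr K d) (h1 : g * g' = 1)
    (h2 : g' * g = 1) : g' ∈ endGr K d := by
  intro i v
  have h3 : g (g' v) = v := LinearMap.congr_fun h1 v
  have h4 : g (Pi.single i ((g' v) i)) = Pi.single i (v i) := by rw [hg i (g' v), h3]
  rw [← h4]
  exact LinearMap.congr_fun h2 _

/-- Conjugation of a point of `Rep(A, d)` by an invertible graded endomorphism. -/
def Rep.conj (ρ : Rep K A e d) (g g' : Module.End K (Vec K d)) (hg : g ∈ endGr K d)
    (h1 : g * g' = 1) (h2 : g' * g = 1) : Rep K A e d where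
  act := AlgHom.ofLinearMap
    { toFun := fun a => g * ρ.act a * g'
      map_add' := fun a b => by rw [map_add, mul_add, add_mul]
      map_smul' := fun c a => by
        rw [map_smul, mul_smul_comm, smul_mul_assoc, RingHom.id_apply] }
    (by
      change g * ρ.act 1 * g' = 1
      rw [map_one, mul_one, h1])
    (fun a b => by
      change g * ρ.act (a * b) * g' = (g * ρ.act a * g') * (g * ρ.act b * g')
      rw [map_mul]
      calc g * (ρ.act a * ρ.act b) * g' = g * ρ.act a * 1 * ρ.act b * g' := by
            simp only [mul_assoc, one_mul]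
        _ = g * ρ.act a * (g' * g) * ρ.act b * g' := by rw [h2]
        _ = _ := by simp only [mul_assoc])
  act_e := by
    intro i v
    change g (ρ.act (e i) (g' v)) = _
    rw [endGr_comm hg, ρ.act_e]
    congr 1
    have h3 : g (g' v) = v := LinearMap.congr_fun h1 v
    rw [h3]

theorem Rep.conj_act (ρ : Rep K A e d) (g g' : Module.End K (Vec K d)) (hg : g ∈ endGr K d)
    (h1 : g * g' = 1) (h2 : g' * g = 1) (a : A) :
    (ρ.conj g g' hg h1 h2).act a = g * ρ.act a * g' := rfl

/-- Points related by an invertible endomorphism lie in the same orbit. -/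
theorem mem_orbit_of {ρ σ : Rep K A e d} {g g' : Module.End K (Vec K d)} (h1 : g * g' = 1)
    (h2 : g' * g = 1) (h : ∀ a, σ.act a * g = g * ρ.act a) : σ ∈ orbit ρ := by
  exact ⟨{
    toFun := fun v => g v
    invFun := fun v => g' v
    map_add' := fun v w => map_add g v w
    map_smul' := fun a v => (LinearMap.congr_fun (h a) v).symm
    left_inv := fun v => LinearMap.congr_fun h2 v
    right_inv := fun v => LinearMap.congr_fun h1 v }⟩

theorem exists_of_mem_orbit {ρ σ : Rep K A e d} (h : σ ∈ orbit ρ) :
    ∃ g g' : Module.End K (Vec K d), g ∈ endGr K d ∧ g * g' = 1 ∧ g' * g = 1 ∧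
      ∀ a, σ.act a * g = g * ρ.act a := by
  obtain ⟨φ⟩ := h
  have hK : ∀ (c : K) (v : ρ.Mod), φ (c • v) = c • φ v := by
    intro c v
    rw [← algebraMap_smul A c v, map_smul, algebraMap_smul]
  have hK' : ∀ (c : K) (v : σ.Mod), φ.symm (c • v) = c • φ.symm v := by
    intro c v
    rw [← algebraMap_smul A c v, map_smul, algebraMap_smul]
  let g : Module.End K (Vec K d) :=
    { toFun := fun v => φ v
      map_add' := fun v w => φ.map_add v w
      map_smul' := hK }
  let g' : Module.End K (Vec K d) :=
    { toFun := fun v => φ.symm v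
      map_add' := fun v w => φ.symm.map_add v w
      map_smul' := hK' }
  have hact : ∀ a, σ.act a * g = g * ρ.act a := fun a =>
    LinearMap.ext fun v => (φ.map_smul a v).symm
  refine ⟨g, g', ?_, LinearMap.ext fun v => φ.apply_symm_apply v,
    LinearMap.ext fun v => φ.symm_apply_apply v, hact⟩
  intro i v
  have h1 := LinearMap.congr_fun (hact (e i)) v
  rw [Module.End.mul_apply, Module.End.mul_apply, σ.act_e, ρ.act_e] at h1
  exact h1.symm

/-- Conjugation of a regular family by a regular family of graded automorphisms. -/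
theorem exists_conj_family [FiniteDimensional K A] {W : Type} [AddCommGroup W] [Module K W]
    {U : Set W} {F : W → Rep K A e d} (hF : RegMap (coordRing K e d) U F)
    {g : W → Module.End K (Vec K d)} (hg : RegV (K := K) U g) (hgr : ∀ x ∈ U, g x ∈ endGr K d)
    (hdet : ∀ x ∈ U, LinearMap.det (g x) ≠ 0) :
    ∃ F' : W → Rep K A e d, RegMap (coordRing K e d) U F' ∧
      ∀ x ∈ U, F' x ∈ orbit (F x) ∧ ∀ a, (F' x).act a * g x = g x * (F x).act a := by
  classical
  obtain ⟨g', hg', hinv⟩ := hg.exists_inverse hdet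
  let F' : W → Rep K A e d := fun x =>
    if hx : x ∈ U then (F x).conj (g x) (g' x) (hgr x hx) (hinv x hx).2 (hinv x hx).1 else F x
  have hF' : ∀ x ∈ U, ∀ a, (F' x).act a = g x * (F x).act a * g' x := by
    intro x hx a
    simp only [F', dif_pos hx]
    rfl
  refine ⟨F', ?_, fun x hx => ?_⟩
  · refine RegMap.of_apply fun a v => ?_
    have h1 : RegV (K := K) U (fun x => (F x).lin) := regMap_iff.mp hF
    have h2 : RegV (K := K) U (fun x => (F x).lin a) := h1.lin (LinearMap.applyₗ a)
    have h3 : RegV (K := K) U (fun x => g x ((F x).lin a (g' x v))) :=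
      hg.apply (h2.apply (hg'.lin (LinearMap.applyₗ v)))
    refine h3.congr fun x hx => ?_
    rw [hF' x hx a]
    rfl
  · have h4 : ∀ a, (F' x).act a * g x = g x * (F x).act a := by
      intro a
      rw [hF' x hx a, mul_assoc, (hinv x hx).1, mul_one]
    exact ⟨mem_orbit_of (hinv x hx).2 (hinv x hx).1 h4, h4⟩

theorem mem_orbit_self (ρ : Rep K A e d) : ρ ∈ orbit ρ := ⟨LinearEquiv.refl A _⟩

theorem mem_orbit_symm {ρ σ : Rep K A e d} (h : σ ∈ orbit ρ) : ρ ∈ orbit σ := by
  obtain ⟨φ⟩ := h
  exact ⟨φ.symm⟩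

theorem mem_orbit_trans {ρ σ τ : Rep K A e d} (h : σ ∈ orbit ρ) (h' : τ ∈ orbit σ) :
    τ ∈ orbit ρ := by
  obtain ⟨φ⟩ := h
  obtain ⟨ψ⟩ := h'
  exact ⟨φ.trans ψ⟩

/-- The commutant of a point of `Rep(A, d)`, i.e. the endomorphism algebra of the module. -/
def Rep.comm (ρ : Rep K A e d) : Submodule K (Module.End K (Vec K d)) where
  carrier := {g | ∀ a, g * ρ.act a = ρ.act a * g}
  add_mem' := by
    intro g h hg hh a
    rw [add_mul, mul_add, hg a, hh a]
  zero_mem' := by
    intro a
    rw [zero_mul, mul_zero]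
  smul_mem' := by
    intro c g hg a
    rw [smul_mul_assoc, mul_smul_comm, hg a]

theorem Rep.mem_comm {ρ : Rep K A e d} {g : Module.End K (Vec K d)} :
    g ∈ ρ.comm ↔ ∀ a, g * ρ.act a = ρ.act a * g := Iff.rfl

theorem Rep.one_mem_comm (ρ : Rep K A e d) : 1 ∈ ρ.comm := fun a => by rw [one_mul, mul_one]

theorem Rep.comm_le_endGr (ρ : Rep K A e d) : ρ.comm ≤ endGr K d := by
  intro g hg i v
  have h := LinearMap.congr_fun (hg (e i)) v
  rw [Module.End.mul_apply, Module.End.mul_apply, ρ.act_e, ρ.act_e] at h
  exact h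

theorem Rep.finrank_comm (ρ : Rep K A e d) :
    finrank K ρ.comm = hd K (A := A) ρ.Mod ρ.Mod := by
  have hK : ∀ (φ : ρ.Mod →ₗ[A] ρ.Mod) (c : K) (v : ρ.Mod), φ (c • v) = c • φ v := by
    intro φ c v
    rw [← algebraMap_smul A c v, map_smul, algebraMap_smul]
  let T : ρ.comm ≃ₗ[K] (ρ.Mod →ₗ[A] ρ.Mod) :=
    { toFun := fun g =>
        { toFun := fun v => g.1 v
          map_add' := fun v w => map_add g.1 v w
          map_smul' := fun a v => LinearMap.congr_fun (g.2 a) v }
      map_add' := fun g h => rfl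
      map_smul' := fun c g => rfl
      invFun := fun φ => ⟨
        { toFun := fun v => φ v
          map_add' := fun v w => φ.map_add v w
          map_smul' := fun c v => hK φ c v },
        fun a => LinearMap.ext fun v => φ.map_smul a v⟩
      left_inv := fun g => rfl
      right_inv := fun φ => rfl }
  exact T.finrank_eq

end Pool.Agent.Helper343_Tau
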