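import Mathlib
import Pool.Agent.Helper343_Tau.RepBasic

set_option autoImplicit false

open Module Pool.Agent.Helper793Bricks

namespace Pool.Agent.Helper343_Tau

variable {K : Type} [Field K] {A : Type} [Ring A] [Algebra K A] {n : ℕ} {e : Fin n → A}
  {d : Fin n → ℕ}

/-- evaluation at `y`, as a linear map -/
def chartEv {P₁ P₀ : Type} [AddCommGroup P₁] [Module A P₁] [AddCommGroup P₀] [Module A P₀]
    [Module K P₀] [IsScalarTower K A P₀] (y : P₁) : (P₁ →ₗ[A] P₀) →ₗ[K] P₀ where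
  toFun f := f y
  map_add' _ _ := rfl
  map_smul' _ _ := rfl

/-- the range over `K` -/
def chartRange {P₁ P₀ : Type} [AddCommGroup P₁] [Module A P₁] [Module K P₁] [IsScalarTower K A P₁]
    [AddCommGroup P₀] [Module A P₀] [Module K P₀] [IsScalarTower K A P₀] (f : P₁ →ₗ[A] P₀) :
    LinearMap.range f ≃ₗ[K] LinearMap.range (f.restrictScalars K) where
  toFun x := ⟨x.1, x.2⟩
  invFun x := ⟨x.1, x.2⟩
  left_inv _ := rfl
  right_inv _ := rfl
  map_add' _ _ := rfl
  map_smul' _ _ := rfl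

theorem exists_chart_section (he : CompleteOrthogonalIdempotents e)
    {P₀ : Type} [AddCommGroup P₀] [Module A P₀] [Module K P₀] [IsScalarTower K A P₀]
    (ρ₁ : Rep K A e d) (q₁ : P₀ →ₗ[A] ρ₁.Mod) (hq : Function.Surjective q₁) :
    ∃ s : Vec K d →ₗ[K] P₀, (∀ v, q₁ (s v) = v) ∧
      ∀ i v, e i • s v = s (Pi.single i (v i)) := by
  obtain ⟨s', hs'⟩ := (show P₀ →ₗ[K] Vec K d from q₁.restrictScalars K).exists_rightInverse_of_surjective
    (LinearMap.range_eq_top.2 hq)
  have hs'' : ∀ v : Vec K d, q₁ (s' v) = v := fun v => LinearMap.congr_fun hs' v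
  set s : Vec K d →ₗ[K] P₀ := ∑ i, (Algebra.lsmul K K P₀ (e i)) ∘ₗ s' ∘ₗ
    (LinearMap.single K (fun i => Fin (d i) → K) i) ∘ₗ (LinearMap.proj i) with hs
  have hsa : ∀ v : Vec K d, s v = ∑ i, e i • s' (Pi.single i (v i)) := by
    intro v
    rw [hs, LinearMap.sum_apply]
    rfl
  refine ⟨s, ?_, ?_⟩
  · intro v
    rw [hsa, map_sum]
    have : ∀ i, q₁ (e i • s' (Pi.single i (v i))) = (Pi.single i (v i) : Vec K d) := by
      intro i
      rw [map_smul, hs'', Rep.smul_def, ρ₁.act_e, Pi.single_eq_same]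
    rw [Finset.sum_congr rfl (fun i _ => this i)]
    exact Finset.univ_sum_single v
  · intro i v
    rw [hsa, hsa, Finset.smul_sum, Finset.sum_eq_single i, Finset.sum_eq_single i]
    · rw [smul_smul, (he.idem i).eq, Pi.single_eq_same]
    · intro j _ hj
      rw [Pi.single_eq_of_ne hj, Pi.single_zero, map_zero, smul_zero]
    · intro h; exact absurd (Finset.mem_univ i) h
    · intro j _ hj
      rw [smul_smul, he.ortho (Ne.symm hj), zero_smul]
    · intro h; exact absurd (Finset.mem_univ i) h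

theorem exists_chart_rep
    {P₀ : Type} [AddCommGroup P₀] [Module A P₀] [Module K P₀] [IsScalarTower K A P₀]
    (s : Vec K d →ₗ[K] P₀) (hse : ∀ i v, e i • s v = s (Pi.single i (v i)))
    (Q : P₀ →ₗ[K] Vec K d) (hQs : ∀ v, Q (s v) = v) (N : Submodule A P₀)
    (hN : ∀ x, Q x = 0 ↔ x ∈ N) :
    ∃ σ : Rep K A e d, (∀ a v, σ.act a v = Q (a • s v)) ∧ ∀ a x, Q (a • x) = σ.act a (Q x) := by
  have key : ∀ (a : A) (x : P₀), Q (a • x) = Q (a • s (Q x)) := by
    intro a x
    have h1 : x - s (Q x) ∈ N := by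
      rw [← hN, map_sub, hQs, sub_self]
    have h2 : a • (x - s (Q x)) ∈ N := N.smul_mem a h1
    rw [← hN, smul_sub, map_sub, sub_eq_zero] at h2
    exact h2
  let T : A →ₗ[K] Module.End K (Vec K d) :=
    { toFun := fun a => Q ∘ₗ (Algebra.lsmul K K P₀ a) ∘ₗ s
      map_add' := fun a b => by
        refine LinearMap.ext fun v => ?_
        simp
      map_smul' := fun c a => by
        refine LinearMap.ext fun v => ?_
        simp }
  have hT : ∀ a v, T a v = Q (a • s v) := fun a v => rfl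
  have h1 : T 1 = 1 := by
    refine LinearMap.ext fun v => ?_
    rw [hT, one_smul, hQs]
    rfl
  have hmul : ∀ a b, T (a * b) = T a * T b := by
    intro a b
    refine LinearMap.ext fun v => ?_
    rw [hT, mul_smul, key, Module.End.mul_apply, hT, hT]
  refine ⟨⟨AlgHom.ofLinearMap T h1 hmul, ?_⟩, fun a v => rfl, fun a x => ?_⟩
  · intro i v
    change Q (e i • s v) = _
    rw [hse, hQs]
  · rw [key]
    rfl

/-- TARGET -/
theorem exists_chart [FiniteDimensional K A] (he : CompleteOrthogonalIdempotents e)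
    {P₁ P₀ : Type} [AddCommGroup P₁] [Module A P₁] [Module K P₁] [IsScalarTower K A P₁]
    [FiniteDimensional K P₁] [AddCommGroup P₀] [Module A P₀] [Module K P₀] [IsScalarTower K A P₀]
    [FiniteDimensional K P₀] (ρ₁ : Rep K A e d) (f₁ : P₁ →ₗ[A] P₀) (q₁ : P₀ →ₗ[A] ρ₁.Mod)
    (hq : Function.Surjective q₁) (hex : LinearMap.range f₁ = LinearMap.ker q₁)
    (hmax : ∀ f : P₁ →ₗ[A] P₀,
      finrank K (LinearMap.range f) + finrank K (Vec K d) ≤ finrank K P₀) :
    ∃ (U : Set (P₁ →ₗ[A] P₀)) (Ψ : (P₁ →ₗ[A] P₀) → Rep K A e d) (s : Vec K d →ₗ[K] P₀)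
      (Q : (P₁ →ₗ[A] P₀) → (P₀ →ₗ[K] Vec K d)),
      (∀ f ∈ U, Nb K f U) ∧ f₁ ∈ U ∧ RegMap (coordRing K e d) U Ψ ∧ RegV (K := K) U Q ∧
      Ψ f₁ = ρ₁ ∧ (∀ x, Q f₁ x = q₁ x) ∧
      ∀ f ∈ U, (∀ a x, Q f (a • x) = (Ψ f).act a (Q f x)) ∧ (∀ v, Q f (s v) = v) ∧
        ∀ x, Q f x = 0 ↔ x ∈ LinearMap.range f := by
  classical
  obtain ⟨s, hqs, hse⟩ := exists_chart_section he ρ₁ q₁ hq
  set f₁K : P₁ →ₗ[K] P₀ := f₁.restrictScalars K with hf₁K
  obtain ⟨g, hg⟩ := f₁K.rangeRestrict.exists_rightInverse_of_surjective f₁K.range_rangeRestrict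
  have hg' : ∀ x : LinearMap.range f₁K, f₁ (g x) = x := fun x =>
    congrArg Subtype.val (LinearMap.congr_fun hg x)
  set B : (P₁ →ₗ[A] P₀) → ((Vec K d × LinearMap.range f₁K) →ₗ[K] P₀) :=
    fun f => s.coprod ((f.restrictScalars K) ∘ₗ g) with hB
  have hBa : ∀ f p, B f p = s p.1 + f (g p.2) := fun f p => rfl
  have hqr : ∀ x : LinearMap.range f₁K, q₁ (x : P₀) = 0 := by
    intro x
    have : (x : P₀) ∈ LinearMap.range f₁ := x.2
    rw [hex] at this
    exact this
  have hB₁q : ∀ p, q₁ (B f₁ p) = p.1 := by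
    intro p
    rw [hBa, map_add, hqs, hg', hqr]
    exact add_zero _
  have hbij : Function.Bijective (B f₁) := by
    constructor
    · rw [injective_iff_map_eq_zero]
      intro p hp
      have h1 := hB₁q p
      rw [hp, map_zero] at h1
      have h2 : (p.2 : P₀) = 0 := by
        have h3 := hBa f₁ p
        rw [hp, hg', ← h1] at h3
        rw [h3]
        change (p.2 : P₀) = s 0 + p.2
        rw [map_zero, zero_add]
      exact Prod.ext h1.symm (Subtype.ext h2)
    · intro y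
      have h1 : y - s (q₁ y) ∈ LinearMap.range f₁ := by
        rw [hex, LinearMap.mem_ker, map_sub, hqs, sub_self]
      refine ⟨(q₁ y, ⟨y - s (q₁ y), h1⟩), ?_⟩
      rw [hBa, hg']
      exact add_sub_cancel _ _
  set B₁ : (Vec K d × LinearMap.range f₁K) ≃ₗ[K] P₀ := LinearEquiv.ofBijective (B f₁) hbij with hB₁
  have hB₁a : ∀ p, B₁ p = B f₁ p := fun p => rfl
  set C : (P₁ →ₗ[A] P₀) → Module.End K (Vec K d × LinearMap.range f₁K) :=
    fun f => (B₁.symm : P₀ →ₗ[K] _) ∘ₗ B f with hC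
  have hCa : ∀ f p, C f p = B₁.symm (B f p) := fun f p => rfl
  have hCreg : RegV (K := K) Set.univ C := by
    refine RegV.of_apply fun p => ?_
    have h1 : RegV (K := K) Set.univ (fun f : P₁ →ₗ[A] P₀ => s p.1 + chartEv (K := K) (g p.2) f) :=
      (RegV.const (s p.1)).add (RegV.linear (chartEv (K := K) (g p.2)))
    exact h1.lin (B₁.symm : P₀ →ₗ[K] (Vec K d × LinearMap.range f₁K))
  set U : Set (P₁ →ₗ[A] P₀) := {f | LinearMap.det (C f) ≠ 0} with hU
  have hUnb : ∀ f ∈ U, Nb K f U := by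
    intro f hf
    exact (Nb.of_reg (Nb.univ f) (regOn_lmdet hCreg) hf).mono fun y hy => hy.2
  have hC₁ : C f₁ = 1 := by
    refine LinearMap.ext fun p => ?_
    rw [hCa, ← hB₁a, LinearEquiv.symm_apply_apply]
    rfl
  have hf₁U : f₁ ∈ U := by
    change LinearMap.det (C f₁) ≠ 0
    rw [hC₁, map_one]
    exact one_ne_zero
  obtain ⟨G, hG, hGinv⟩ := RegV.exists_inverse (hCreg.mono (Set.subset_univ U)) (fun f hf => hf)
  set Q : (P₁ →ₗ[A] P₀) → (P₀ →ₗ[K] Vec K d) := fun f =>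
    (LinearMap.fst K (Vec K d) (LinearMap.range f₁K)) ∘ₗ (G f) ∘ₗ (B₁.symm : P₀ →ₗ[K] _) with hQ
  have hQa : ∀ f x, Q f x = (G f (B₁.symm x)).1 := fun f x => rfl
  have hQB : ∀ f ∈ U, ∀ p, Q f (B f p) = p.1 := by
    intro f hf p
    rw [hQa, ← hCa]
    have := LinearMap.congr_fun (hGinv f hf).1 p
    rw [Module.End.mul_apply] at this
    rw [this]
    rfl
  have hQs : ∀ f ∈ U, ∀ v, Q f (s v) = v := by
    intro f hf v
    have h1 : B f (v, 0) = s v := by rw [hBa]; simp
    rw [← h1, hQB f hf]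
  have hBG : ∀ f ∈ U, ∀ x, B f (G f (B₁.symm x)) = x := by
    intro f hf x
    have := LinearMap.congr_fun (hGinv f hf).2 (B₁.symm x)
    rw [Module.End.mul_apply, hCa, Module.End.one_apply] at this
    exact B₁.symm.injective this
  have hdim : finrank K P₀ = finrank K (Vec K d) + finrank K (LinearMap.range f₁K) := by
    rw [← B₁.finrank_eq, Module.finrank_prod]
  have hker : ∀ f ∈ U, ∀ x, Q f x = 0 ↔ x ∈ LinearMap.range f := by
    intro f hf x
    have h1 : Function.Injective ((f.restrictScalars K) ∘ₗ g) := by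
      rw [injective_iff_map_eq_zero]
      intro y hy
      have h2 : B f (0, y) = 0 := by
        rw [hBa]
        change s 0 + ((f.restrictScalars K) ∘ₗ g) y = 0
        rw [hy, map_zero, add_zero]
      have h3 : C f (0, y) = 0 := by rw [hCa, h2, map_zero]
      have h4 := LinearMap.congr_fun (hGinv f hf).1 ((0 : Vec K d), y)
      rw [Module.End.mul_apply, h3, map_zero] at h4
      exact (congrArg Prod.snd h4).symm
    have h2 : LinearMap.range ((f.restrictScalars K) ∘ₗ g) = LinearMap.range (f.restrictScalars K) := by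
      refine Submodule.eq_of_le_of_finrank_le (LinearMap.range_comp_le_range _ _) ?_
      rw [LinearMap.finrank_range_of_inj h1, ← (chartRange (K := K) f).finrank_eq]
      have := hmax f
      omega
    constructor
    · intro h0
      have h3 := hBG f hf x
      rw [hBa, ← hQa, h0, map_zero, zero_add] at h3
      exact ⟨_, h3⟩
    · rintro ⟨z, rfl⟩
      have h3 : f z ∈ LinearMap.range (f.restrictScalars K) := ⟨z, rfl⟩
      rw [← h2] at h3
      obtain ⟨y, hy⟩ := h3
      have h4 : B f (0, y) = f z := by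
        rw [hBa]
        change s 0 + ((f.restrictScalars K) ∘ₗ g) y = f z
        rw [hy, map_zero, zero_add]
      rw [← h4, hQB f hf]
  have hΨ : ∀ f : P₁ →ₗ[A] P₀, ∃ σ : Rep K A e d, f ∈ U →
      (∀ a v, σ.act a v = Q f (a • s v)) ∧ ∀ a x, Q f (a • x) = σ.act a (Q f x) := by
    intro f
    by_cases hf : f ∈ U
    · obtain ⟨σ, h1⟩ := exists_chart_rep s hse (Q f) (hQs f hf) (LinearMap.range f) (hker f hf)
      exact ⟨σ, fun _ => h1⟩
    · exact ⟨ρ₁, fun h => absurd h hf⟩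
  choose Ψ hΨ using hΨ
  have hQ₁ : ∀ x, Q f₁ x = q₁ x := by
    intro x
    have h1 := hBG f₁ hf₁U x
    have h2 := hB₁q (G f₁ (B₁.symm x))
    rw [h1] at h2
    rw [h2]
    rfl
  refine ⟨U, Ψ, s, Q, hUnb, hf₁U, ?_, ?_, ?_, hQ₁, fun f hf => ⟨(hΨ f hf).2, hQs f hf, hker f hf⟩⟩
  · refine RegMap.of_apply fun a v => ?_
    have hQreg : RegV (K := K) U Q :=
      RegV.comp (RegV.comp (RegV.const _) hG) (RegV.const _)
    have h1 : RegV (K := K) U (fun f => Q f (a • s v)) := hQreg.apply (RegV.const _)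
    exact h1.congr fun f hf => ((hΨ f hf).1 a v).symm
  · exact RegV.comp (RegV.comp (RegV.const _) hG) (RegV.const _)
  · refine Rep.ext' (LinearMap.ext fun a => LinearMap.ext fun v => ?_)
    rw [Rep.lin_apply, Rep.lin_apply, (hΨ f₁ hf₁U).1, hQ₁, map_smul, hqs]
    rfl

end Pool.Agent.Helper343_Tau
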