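import Mathlib
import Pool.Agent.Helper343_Tau.Basic

/-!
Finitely generated projective modules over a basic algebra have finitely many decompositions
up to automorphisms.
-/

set_option autoImplicit false

open Module Pool.Agent.Helper793Bricks

namespace Pool.Agent.Helper343_Tau

section aux

variable {K : Type} [Field K] {A : Type} [Ring A] [Algebra K A]

/-- An ideal of nilpotent elements is in the Jacobson radical. -/
theorem le_jacobson_of_nil (J : Ideal A) (hJ : ∀ a ∈ J, IsNilpotent a) :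
    J ≤ Ring.jacobson A := by
  intro x hx
  rw [Ring.jacobson_eq_sInf_isMaximal, Submodule.mem_sInf]
  intro m hm
  have hm' : Ideal.IsMaximal m := hm
  by_contra hxm
  have hlt : m < m ⊔ Ideal.span {x} := by
    refine lt_of_le_of_ne le_sup_left fun h => hxm ?_
    rw [h]
    exact (le_sup_right : Ideal.span {x} ≤ m ⊔ Ideal.span {x})
      (Ideal.subset_span (Set.mem_singleton x))
  have htop := hm'.out.2 _ hlt
  have h1 : (1 : A) ∈ m ⊔ Ideal.span {x} := htop ▸ Submodule.mem_top
  obtain ⟨y, hy, z, hz, hyz⟩ := Submodule.mem_sup.1 h1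
  obtain ⟨a, rfl⟩ := Ideal.mem_span_singleton'.1 hz
  have hax : a * x ∈ J := J.mul_mem_left a hx
  have hu : IsUnit (1 - a * x) := (hJ _ hax).isUnit_one_sub
  have hy1 : y = 1 - a * x := by rw [← hyz]; abel
  rw [← hy1] at hu
  exact hm'.ne_top (Ideal.eq_top_of_isUnit_mem m hy hu)

/-- Nakayama. -/
theorem eq_top_of_sup_smul (J : Ideal A) (hJ : J ≤ Ring.jacobson A) {M : Type} [AddCommGroup M]
    [Module A M] [IsNoetherian A M] (N : Submodule A M)
    (h : N ⊔ J • (⊤ : Submodule A M) = ⊤) : N = ⊤ := by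
  rcases eq_top_or_exists_le_coatom N with h1 | ⟨m, hm, hNm⟩
  · exact h1
  · exfalso
    have h2 : J • (⊤ : Submodule A M) ≤ m :=
      (Submodule.smul_mono_left hJ).trans ((Ring.jacobson_smul_top_le A M).trans (sInf_le hm))
    exact hm.1 (top_le_iff.1 (h ▸ sup_le hNm h2))

end aux

section comp

variable (K : Type) [Field K] {A : Type} [Ring A] [Algebra K A]

/-- Multiplication by `a` as a `K`-linear map. -/
def mulK (a : A) (M : Type) [AddCommGroup M] [Module A M] [Module K M] [IsScalarTower K A M] :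
    M →ₗ[K] M where
  toFun m := a • m
  map_add' := smul_add a
  map_smul' c m := by
    rw [RingHom.id_apply, ← algebraMap_smul A c m, ← algebraMap_smul A c (a • m), smul_smul,
      smul_smul, Algebra.commutes]

/-- The `K`-space `a M`. -/
abbrev compK (a : A) (M : Type) [AddCommGroup M] [Module A M] [Module K M]
    [IsScalarTower K A M] : Submodule K M := LinearMap.range (mulK K a M)

variable {K}

/-- Modules killed by the radical with a componentwise surjection. -/
theorem exists_surj_of_killed {n : ℕ} (e : Fin n → A) (he : CompleteOrthogonalIdempotents e)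
    (c : A → Fin n → K) (M N : Type) [AddCommGroup M] [Module A M] [Module K M]
    [IsScalarTower K A M] [AddCommGroup N] [Module A N] [Module K N] [IsScalarTower K A N]
    (hM : ∀ a i (m : M), (e i * a) • m = c a i • e i • m)
    (hN : ∀ a i (m : N), (a * e i) • m = c a i • e i • m)
    (hiso : ∀ i, Nonempty (compK K (e i) M ≃ₗ[K] compK K (e i) N)) :
    ∃ θ : M →ₗ[A] N, Function.Surjective θ := by
  classical
  have g : ∀ i, compK K (e i) M ≃ₗ[K] compK K (e i) N := fun i => Classical.choice (hiso i)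
  let θK : M →ₗ[K] N := ∑ i, (compK K (e i) N).subtype ∘ₗ (g i).toLinearMap ∘ₗ
    (mulK K (e i) M).rangeRestrict
  have hθ : ∀ m, θK m = ∑ i, ((g i) ⟨e i • m, ⟨m, rfl⟩⟩ : N) := by
    intro m
    simp only [θK, LinearMap.sum_apply]
    rfl
  have hfix : ∀ i (y : N), y ∈ compK K (e i) N → e i • y = y := by
    rintro i _ ⟨z, rfl⟩
    change e i • e i • z = e i • z
    rw [smul_smul, (he.idem i).eq]
  have hfixM : ∀ i (y : M), y ∈ compK K (e i) M → e i • y = y := by
    rintro i _ ⟨z, rfl⟩
    change e i • e i • z = e i • z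
    rw [smul_smul, (he.idem i).eq]
  have hort : ∀ i j (y : M), i ≠ j → y ∈ compK K (e j) M → e i • y = 0 := by
    rintro i j _ hij ⟨z, rfl⟩
    change e i • e j • z = 0
    rw [smul_smul, he.ortho hij, zero_smul]
  refine ⟨{ toFun := θK, map_add' := θK.map_add, map_smul' := ?_ }, ?_⟩
  · intro a m
    rw [RingHom.id_apply, hθ, hθ, Finset.smul_sum]
    refine Finset.sum_congr rfl fun i _ => ?_
    have h1 : (⟨e i • a • m, ⟨a • m, rfl⟩⟩ : compK K (e i) M) =
        c a i • ⟨e i • m, ⟨m, rfl⟩⟩ := by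
      apply Subtype.ext
      change e i • a • m = c a i • e i • m
      rw [smul_smul, hM]
    rw [h1, map_smul]
    set y := (g i) ⟨e i • m, ⟨m, rfl⟩⟩ with hy
    have h2 : e i • (y : N) = y := hfix i y y.2
    rw [Submodule.coe_smul, ← h2, smul_smul, hN, h2]
  · intro y
    refine ⟨∑ i, ((g i).symm ⟨e i • y, ⟨y, rfl⟩⟩ : M), ?_⟩
    change θK _ = y
    rw [hθ]
    have h3 : ∀ j, (⟨e j • ∑ i, ((g i).symm ⟨e i • y, ⟨y, rfl⟩⟩ : M),
        ⟨_, rfl⟩⟩ : compK K (e j) M) = (g j).symm ⟨e j • y, ⟨y, rfl⟩⟩ := by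
      intro j
      apply Subtype.ext
      change e j • ∑ i, ((g i).symm ⟨e i • y, ⟨y, rfl⟩⟩ : M) = _
      rw [Finset.smul_sum, Finset.sum_eq_single j]
      · exact hfixM j _ ((g j).symm ⟨e j • y, ⟨y, rfl⟩⟩).2
      · intro i _ hij
        exact hort j i _ (Ne.symm hij) ((g i).symm ⟨e i • y, ⟨y, rfl⟩⟩).2
      · intro h; exact absurd (Finset.mem_univ j) h
    simp_rw [h3, LinearEquiv.apply_symm_apply]
    rw [← Finset.sum_smul, he.complete, one_smul]

end comp


section top

variable {K : Type} [Field K] {A : Type} [Ring A] [Algebra K A]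

theorem exists_surj_of_top {n : ℕ} (e : Fin n → A) (he : CompleteOrthogonalIdempotents e)
    (π : A →ₐ[K] (Fin n → K)) (hπ : ∀ i, π (e i) = Pi.single i 1)
    (hnil : ∀ a, π a = 0 → IsNilpotent a) (X Y : Type) [AddCommGroup X] [Module A X] [Module K X]
    [IsScalarTower K A X] [AddCommGroup Y] [Module A Y] [Module K Y] [IsScalarTower K A Y]
    [Module.Projective A X] [IsNoetherian A Y] [FiniteDimensional K X] [FiniteDimensional K Y]
    (hdim : ∀ i, finrank K (compK K (e i) (X ⧸ (RingHom.ker π • ⊤ : Submodule A X))) =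
      finrank K (compK K (e i) (Y ⧸ (RingHom.ker π • ⊤ : Submodule A Y)))) :
    ∃ φ : X →ₗ[A] Y, Function.Surjective φ := by
  classical
  have hcomm : ∀ (a : A) (i : Fin n), e i * a - (π a i) • e i ∈ RingHom.ker π := by
    intro a i
    rw [RingHom.mem_ker, map_sub, map_mul, map_smul, hπ]
    funext j
    by_cases hj : j = i
    · subst hj; simp
    · simp [hj]
  have hcomm' : ∀ (a : A) (i : Fin n), a * e i - (π a i) • e i ∈ RingHom.ker π := by
    intro a i
    rw [RingHom.mem_ker, map_sub, map_mul, map_smul, hπ]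
    funext j
    by_cases hj : j = i
    · subst hj; simp
    · simp [hj]
  have hkill : ∀ (Z : Type) [AddCommGroup Z] [Module A Z] (a : A) (_ : a ∈ RingHom.ker π)
      (z : Z ⧸ (RingHom.ker π • ⊤ : Submodule A Z)), a • z = 0 := by
    intro Z _ _ a ha z
    obtain ⟨z, rfl⟩ := Submodule.Quotient.mk_surjective _ z
    rw [← Submodule.Quotient.mk_smul, Submodule.Quotient.mk_eq_zero]
    exact Submodule.smul_mem_smul ha Submodule.mem_top
  obtain ⟨θ, hθ⟩ := exists_surj_of_killed (K := K) e he (fun a i => π a i)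
    (X ⧸ (RingHom.ker π • ⊤ : Submodule A X)) (Y ⧸ (RingHom.ker π • ⊤ : Submodule A Y))
    (by
      intro a i m
      have := hkill X _ (hcomm a i) m
      rw [sub_smul, sub_eq_zero, smul_assoc] at this
      exact this)
    (by
      intro a i m
      have := hkill Y _ (hcomm' a i) m
      rw [sub_smul, sub_eq_zero, smul_assoc] at this
      exact this)
    (fun i => ⟨LinearEquiv.ofFinrankEq _ _ (hdim i)⟩)
  obtain ⟨φ, hφ⟩ := Module.projective_lifting_property
    (Submodule.mkQ (RingHom.ker π • ⊤ : Submodule A Y))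
    (θ ∘ₗ Submodule.mkQ (RingHom.ker π • ⊤ : Submodule A X)) (Submodule.mkQ_surjective _)
  refine ⟨φ, LinearMap.range_eq_top.1 ?_⟩
  refine eq_top_of_sup_smul (RingHom.ker π)
    (le_jacobson_of_nil _ fun a ha => hnil a ((RingHom.mem_ker).1 ha)) _ ?_
  rw [eq_top_iff]
  intro y _
  obtain ⟨x', hx'⟩ := hθ (Submodule.Quotient.mk y)
  obtain ⟨x, rfl⟩ := Submodule.Quotient.mk_surjective _ x'
  have h1 : (Submodule.Quotient.mk (φ x) : Y ⧸ (RingHom.ker π • ⊤ : Submodule A Y)) =
      Submodule.Quotient.mk y := by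
    rw [← hx']
    exact congrArg (fun f => f x) hφ
  rw [Submodule.Quotient.eq] at h1
  have : y = φ x + (-(φ x - y)) := by abel
  rw [this]
  exact Submodule.add_mem_sup ⟨x, rfl⟩ (neg_mem h1)

/-- Finitely generated projectives with the same top are isomorphic. -/
theorem nonempty_equiv_of_top {n : ℕ} (e : Fin n → A) (he : CompleteOrthogonalIdempotents e)
    (π : A →ₐ[K] (Fin n → K)) (hπ : ∀ i, π (e i) = Pi.single i 1)
    (hnil : ∀ a, π a = 0 → IsNilpotent a) (X Y : Type) [AddCommGroup X] [Module A X] [Module K X]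
    [IsScalarTower K A X] [AddCommGroup Y] [Module A Y] [Module K Y] [IsScalarTower K A Y]
    [Module.Projective A X] [Module.Projective A Y] [IsNoetherian A X] [IsNoetherian A Y]
    [FiniteDimensional K X] [FiniteDimensional K Y]
    (hdim : ∀ i, finrank K (compK K (e i) (X ⧸ (RingHom.ker π • ⊤ : Submodule A X))) =
      finrank K (compK K (e i) (Y ⧸ (RingHom.ker π • ⊤ : Submodule A Y)))) :
    Nonempty (X ≃ₗ[A] Y) := by
  obtain ⟨φ, hφ⟩ := exists_surj_of_top e he π hπ hnil X Y hdim
  obtain ⟨ψ, hψ⟩ := exists_surj_of_top e he π hπ hnil Y X fun i => (hdim i).symm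
  have hinj : Function.Injective (ψ ∘ₗ φ) :=
    IsNoetherian.injective_of_surjective_endomorphism _ (by
      rw [LinearMap.coe_comp]; exact hψ.comp hφ)
  rw [LinearMap.coe_comp] at hinj
  exact ⟨LinearEquiv.ofBijective φ ⟨hinj.of_comp, hφ⟩⟩

theorem finrank_compK_quot_le' (a : A) (Y : Type) [AddCommGroup Y] [Module A Y]
    [Module K Y] [IsScalarTower K A Y] [FiniteDimensional K Y] (N : Submodule A Y) :
    finrank K (compK K a (Y ⧸ N)) ≤ finrank K Y := by
  have hs : Function.Surjective ((Submodule.mkQ N).restrictScalars K) :=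
    Submodule.mkQ_surjective N
  have : FiniteDimensional K (Y ⧸ N) := Module.Finite.of_surjective _ hs
  exact (Submodule.finrank_le _).trans (LinearMap.finrank_le_finrank_of_surjective hs)

theorem finrank_compK_quot_le (a : A) (P : Type) [AddCommGroup P] [Module A P]
    [Module K P] [IsScalarTower K A P] [FiniteDimensional K P] (Y : Submodule A P)
    (N : Submodule A Y) : finrank K (compK K a (Y ⧸ N)) ≤ finrank K P := by
  have : FiniteDimensional K Y :=
    inferInstanceAs (FiniteDimensional K (Y.restrictScalars K))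
  exact (finrank_compK_quot_le' a Y N).trans (Submodule.finrank_le (Y.restrictScalars K))

theorem projective_of_isCompl {P : Type} [AddCommGroup P] [Module A P] [Module.Projective A P]
    {Z Z' : Submodule A P} (hZ : IsCompl Z Z') : Module.Projective A Z :=
  Module.Projective.of_split Z.subtype (Submodule.projectionOnto Z Z' hZ)
    (LinearMap.ext fun z => Submodule.projectionOnto_apply_left hZ z)

theorem nonempty_equiv_submodule {n : ℕ} (e : Fin n → A) (he : CompleteOrthogonalIdempotents e)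
    (π : A →ₐ[K] (Fin n → K)) (hπ : ∀ i, π (e i) = Pi.single i 1)
    (hnil : ∀ a, π a = 0 → IsNilpotent a) (P : Type) [AddCommGroup P] [Module A P]
    [Module K P] [IsScalarTower K A P] [FiniteDimensional K P] [Module.Projective A P]
    {X X' Y Y' : Submodule A P} (hX : IsCompl X X') (hY : IsCompl Y Y')
    (hdim : ∀ i, finrank K (compK K (e i) (X ⧸ (RingHom.ker π • ⊤ : Submodule A X))) =
      finrank K (compK K (e i) (Y ⧸ (RingHom.ker π • ⊤ : Submodule A Y)))) :
    Nonempty (X ≃ₗ[A] Y) := by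
  have : IsNoetherian A P := isNoetherian_of_tower K inferInstance
  have : FiniteDimensional K Y :=
    inferInstanceAs (FiniteDimensional K (Y.restrictScalars K))
  have : FiniteDimensional K X :=
    inferInstanceAs (FiniteDimensional K (X.restrictScalars K))
  have := projective_of_isCompl hX
  have := projective_of_isCompl hY
  exact nonempty_equiv_of_top e he π hπ hnil X Y hdim

end top

theorem exists_auto {A : Type} [Ring A] {P : Type} [AddCommGroup P] [Module A P]
    {X X' Y Y' : Submodule A P} (hX : IsCompl X X') (hY : IsCompl Y Y') (f : Y ≃ₗ[A] X)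
    (g : Y' ≃ₗ[A] X') : ∃ a : P ≃ₗ[A] P, Y.map a.toLinearMap = X ∧ Y'.map a.toLinearMap = X' := by
  let a : P ≃ₗ[A] P := (Submodule.prodEquivOfIsCompl Y Y' hY).symm ≪≫ₗ
    (f.prodCongr g) ≪≫ₗ (Submodule.prodEquivOfIsCompl X X' hX)
  have ha1 : ∀ y : Y, a y = f y := by
    intro y
    simp [a]
  have ha2 : ∀ y : Y', a y = g y := by
    intro y
    simp [a]
  refine ⟨a, ?_, ?_⟩
  · ext x
    constructor
    · rintro ⟨y, hy, rfl⟩
      have := ha1 ⟨y, hy⟩
      change a y ∈ X
      rw [this]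
      exact (f ⟨y, hy⟩).2
    · intro hx
      refine ⟨f.symm ⟨x, hx⟩, (f.symm ⟨x, hx⟩).2, ?_⟩
      change a (f.symm ⟨x, hx⟩) = x
      rw [ha1, LinearEquiv.apply_symm_apply]
  · ext x
    constructor
    · rintro ⟨y, hy, rfl⟩
      have := ha2 ⟨y, hy⟩
      change a y ∈ X'
      rw [this]
      exact (g ⟨y, hy⟩).2
    · intro hx
      refine ⟨g.symm ⟨x, hx⟩, (g.symm ⟨x, hx⟩).2, ?_⟩
      change a (g.symm ⟨x, hx⟩) = x
      rw [ha2, LinearEquiv.apply_symm_apply]

/-- TARGET -/
theorem exists_finite_decomps (K : Type) [Field K] {A : Type} [Ring A] [Algebra K A]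
    [FiniteDimensional K A] {n : ℕ} (e : Fin n → A) (he : IsBasic K A e)
    (P : Type) [AddCommGroup P] [Module A P] [Module.Finite A P] [Module.Projective A P] :
    ∃ S : Set (Submodule A P × Submodule A P), S.Finite ∧ (∀ X ∈ S, IsCompl X.1 X.2) ∧
      ∀ Y Y' : Submodule A P, IsCompl Y Y' → ∃ X ∈ S, ∃ a : P ≃ₗ[A] P,
        Y.map a.toLinearMap = X.1 ∧ Y'.map a.toLinearMap = X.2 := by
  classical
  obtain ⟨π, hπ, hnil⟩ := he.exists_pi
  let : Module K P := Module.compHom P (algebraMap K A)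
  have : IsScalarTower K A P := ⟨fun c a x => by
    change (c • a) • x = (algebraMap K A c) • (a • x)
    rw [smul_smul, Algebra.smul_def]⟩
  have : FiniteDimensional K P := Module.Finite.trans A P
  obtain ⟨t, ht⟩ : ∃ t : Submodule A P → Fin n → ℕ, t = fun (Y : Submodule A P) (i : Fin n) =>
    finrank K (compK K (e i) (Y ⧸ (RingHom.ker π • ⊤ : Submodule A Y))) := ⟨_, rfl⟩
  have hle : ∀ Y, t Y ≤ fun _ => finrank K P := by
    intro Y i
    rw [ht]
    exact finrank_compK_quot_le _ P Y _
  have hiso : ∀ X X' Y Y' : Submodule A P, IsCompl X X' → IsCompl Y Y' → t X = t Y →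
      Nonempty (X ≃ₗ[A] Y) := by
    intro X X' Y Y' hX hY h
    rw [ht] at h
    exact nonempty_equiv_submodule e he.coi π hπ hnil P hX hY fun i => congrFun h i
  clear ht
  obtain ⟨T, hT⟩ : ∃ T : {q : Submodule A P × Submodule A P // IsCompl q.1 q.2} →
    (Fin n → ℕ) × (Fin n → ℕ), T = fun q => (t q.1.1, t q.1.2) := ⟨_, rfl⟩
  have hfin : (Set.range T).Finite := by
    refine (Set.finite_Iic ((fun _ => finrank K P, fun _ => finrank K P) :
      (Fin n → ℕ) × (Fin n → ℕ))).subset ?_
    rintro _ ⟨q, rfl⟩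
    rw [hT]
    exact ⟨hle _, hle _⟩
  have hch : ∀ s : Set.range T, ∃ q : {q : Submodule A P × Submodule A P // IsCompl q.1 q.2},
      T q = s := fun s => s.2
  choose ch hch using hch
  have := hfin.to_subtype
  refine ⟨Set.range fun s => (ch s).1, Set.finite_range _, ?_, ?_⟩
  · rintro _ ⟨s, rfl⟩
    exact (ch s).2
  · intro Y Y' hY
    refine ⟨(ch ⟨T ⟨(Y, Y'), hY⟩, ⟨_, rfl⟩⟩).1, ⟨_, rfl⟩, ?_⟩
    have h := hch ⟨T ⟨(Y, Y'), hY⟩, ⟨_, rfl⟩⟩
    generalize ch ⟨T ⟨(Y, Y'), hY⟩, ⟨_, rfl⟩⟩ = q at h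
    obtain ⟨⟨X, X'⟩, hX⟩ := q
    simp only [hT, Prod.mk.injEq] at h
    obtain ⟨h1, h2⟩ := h
    obtain ⟨f⟩ := hiso Y Y' X X' hY hX h1.symm
    obtain ⟨g⟩ := hiso Y' Y X' X hY.symm hX.symm h2.symm
    exact exists_auto hX hY f g

end Pool.Agent.Helper343_Tau
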