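import Mathlib
import Pool.Agent.Helper343_Tau.RepBasic

/-
JOB S7 (for MP_50148c_al, owner helper343): density of the orbits of a transversal slice in
Hom_A(P₁, P₀).
All definitions are in Pool/Agent/Helper343_Tau/{Defs,Basic,Reg,Geom,RepBasic}.lean,
Pool/Agent/Helper793_Bricks/*.lean and Pool/Agent/Helper819/Zar.lean on origin/main (copy them to
the same paths in /workdir/pool and run: lake build Pool.Agent.Helper343_Tau.RepBasic).
Read Reg.lean (polyFun, Nb, ZDense, regOn, RegV and its closure properties RegV.lin / bilin / apply /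
comp / of_apply / exists_inverse, regOn_lmdet, Nb.of_reg, regOn_eq_zero), Geom.lean (RegMap,
RegMap.mem_closure, zDense_of_curves, le_krullDim) and RepBasic.lean first: they contain the tools.
PROOF in words. Use zDense_of_curves with y₀ = f₀. For h = α f₀ + w + f₀ β take the curve
c(t) = (1 + tα)(f₀ + t w)(1 + tβ) = f₀ + t (h + t(...)) where (...) =
α f₀ β + α w + w β + t α w β, a polynomial in t with coefficients in Hom_A(P₁, P₀). S = set of t
with det(1 + tα) ≠ 0, det(1 + tβ) ≠ 0 (as K-linear maps; nonzero at t = 0), f₀ + t w ∈ N: this is a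
neighbourhood of 0 in K (Nb.comap, regOn_lmdet, Nb.of_reg, Nb.inter). For t ∈ S, 1 + tα and 1 + tβ
are A-linear bijections.
-/

set_option autoImplicit false

open Module Pool.Agent.Helper793Bricks

namespace Pool.Agent.Helper343_Tau

variable {K : Type} [Field K] {A : Type} [Ring A] [Algebra K A]

/-- An endomorphism with nonzero determinant over `K` is an automorphism. -/
theorem exists_equiv_of_det {P : Type} [AddCommGroup P] [Module A P] [Module K P]
    [IsScalarTower K A P] [FiniteDimensional K P] (g : P →ₗ[A] P)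
    (h : LinearMap.det (g.restrictScalars K) ≠ 0) : ∃ a : P ≃ₗ[A] P, a.toLinearMap = g := by
  have hb : Function.Bijective g := (LinearMap.equivOfDetNeZero (g.restrictScalars K) h).bijective
  exact ⟨LinearEquiv.ofBijective g hb, LinearMap.ext fun x => rfl⟩

/-- The set of the `t` for which `1 + t α` is invertible. -/
theorem nb_one_add {P : Type} [AddCommGroup P] [Module A P] [Module K P]
    [IsScalarTower K A P] [FiniteDimensional K P] (α : P →ₗ[A] P) :
    Nb K (0 : K) {t | LinearMap.det ((LinearMap.id + t • α : P →ₗ[A] P).restrictScalars K) ≠ 0} := by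
  have h1 : RegV (K := K) (Set.univ : Set K)
      (fun t : K => (1 : Module.End K P) + LinearMap.toSpanSingleton K (Module.End K P)
        (α.restrictScalars K) t) := (RegV.const _).add (RegV.linear _)
  have h2 := regOn_lmdet h1
  have h3 := Nb.of_reg (Nb.univ (0 : K)) h2 (by simp)
  refine h3.mono ?_
  rintro t ⟨-, ht⟩
  exact ht

/-- TARGET 1 -/
theorem zDense_orbit_slice [Infinite K] {P₁ P₀ : Type} [AddCommGroup P₁] [Module A P₁]
    [Module K P₁] [IsScalarTower K A P₁] [FiniteDimensional K P₁] [AddCommGroup P₀] [Module A P₀]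
    [Module K P₀] [IsScalarTower K A P₀] [FiniteDimensional K P₀] (f₀ : P₁ →ₗ[A] P₀)
    (W : Submodule K (P₁ →ₗ[A] P₀))
    (hW : ∀ h : P₁ →ₗ[A] P₀, ∃ (α : P₀ →ₗ[A] P₀) (β : P₁ →ₗ[A] P₁), ∃ w ∈ W,
      h = α ∘ₗ f₀ + w + f₀ ∘ₗ β)
    (N : Set (P₁ →ₗ[A] P₀)) (hN : Nb K f₀ N) :
    ZDense K {h : P₁ →ₗ[A] P₀ | ∃ (a : P₀ ≃ₗ[A] P₀) (b : P₁ ≃ₗ[A] P₁), ∃ w ∈ W, f₀ + w ∈ N ∧
      h = a.toLinearMap ∘ₗ (f₀ + w) ∘ₗ b.toLinearMap} := by
  refine zDense_of_curves _ f₀ fun h => ?_
  obtain ⟨α, β, w, hw, hh⟩ := hW h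
  refine ⟨fun t => h + t • ((α ∘ₗ f₀ ∘ₗ β + α ∘ₗ w + w ∘ₗ β) + t • (α ∘ₗ w ∘ₗ β)),
    ({t | LinearMap.det ((LinearMap.id + t • α : P₀ →ₗ[A] P₀).restrictScalars K) ≠ 0} ∩
      {t | LinearMap.det ((LinearMap.id + t • β : P₁ →ₗ[A] P₁).restrictScalars K) ≠ 0}) ∩
      {t | f₀ + LinearMap.toSpanSingleton K (P₁ →ₗ[A] P₀) w t ∈ N}, ?_, ?_, ?_, ?_⟩
  · refine ((nb_one_add α).inter (nb_one_add β)).inter (Nb.comap f₀ _ ?_)
    rw [map_zero, add_zero]
    exact hN
  · have ht : (fun t : K => t) ∈ regOn K (({t | LinearMap.det ((LinearMap.id + t • α :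
        P₀ →ₗ[A] P₀).restrictScalars K) ≠ 0} ∩
      {t | LinearMap.det ((LinearMap.id + t • β : P₁ →ₗ[A] P₁).restrictScalars K) ≠ 0}) ∩
      {t | f₀ + LinearMap.toSpanSingleton K (P₁ →ₗ[A] P₀) w t ∈ N}) := regOn_poly polyFun_id
    exact (RegV.const _).add (RegV.smul ht ((RegV.const _).add (RegV.smul ht (RegV.const _))))
  · simp
  · rintro t ⟨⟨h1, h2⟩, h3⟩ -
    obtain ⟨a, ha⟩ := exists_equiv_of_det _ h1
    obtain ⟨b, hb⟩ := exists_equiv_of_det _ h2
    refine ⟨a, b, t • w, W.smul_mem t hw, h3, ?_⟩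
    rw [ha, hb, hh]
    refine LinearMap.ext fun x => ?_
    have hK : ∀ {P Q : Type} [AddCommGroup P] [Module A P] [Module K P] [IsScalarTower K A P]
        [AddCommGroup Q] [Module A Q] [Module K Q] [IsScalarTower K A Q] (g : P →ₗ[A] Q) (c : K)
        (v : P), g (c • v) = c • g v := by
      intro P Q _ _ _ _ _ _ _ _ g c v
      rw [← algebraMap_smul A c v, map_smul, algebraMap_smul]
    simp only [LinearMap.add_apply, LinearMap.smul_apply, LinearMap.comp_apply,
      LinearMap.id_apply, map_add, hK, smul_add]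
    abel

/-- TARGET 2 (the case W = ⊥ of target 1) -/
theorem zDense_orbit_of_rigid [Infinite K] {P₁ P₀ : Type} [AddCommGroup P₁] [Module A P₁]
    [Module K P₁] [IsScalarTower K A P₁] [FiniteDimensional K P₁] [AddCommGroup P₀] [Module A P₀]
    [Module K P₀] [IsScalarTower K A P₀] [FiniteDimensional K P₀] (f₀ : P₁ →ₗ[A] P₀)
    (h₀ : E2 f₀ f₀) :
    ZDense K {h : P₁ →ₗ[A] P₀ | ∃ (a : P₀ ≃ₗ[A] P₀) (b : P₁ ≃ₗ[A] P₁),
      h = a.toLinearMap ∘ₗ f₀ ∘ₗ b.toLinearMap} := by
  refine (zDense_orbit_slice f₀ ⊥ (fun h => ?_) Set.univ (Nb.univ _)).mono ?_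
  · obtain ⟨α, β, h1⟩ := h₀ h
    exact ⟨α, β, 0, Submodule.zero_mem _, by rw [add_zero]; exact h1⟩
  · rintro h ⟨a, b, w, hw, -, h1⟩
    rw [(Submodule.mem_bot K).1 hw, add_zero] at h1
    exact ⟨a, b, h1⟩

/-- TARGET 3: a product of dense sets is dense. (For f ∈ polyFun on V × W vanishing on D ×ˢ D': for
y ∈ D', x ↦ f (x, y) is a polynomial function on V vanishing on D, so it is 0; then for every x,
y ↦ f (x, y) vanishes on D', so it is 0.) -/
theorem ZDense.prod {V W : Type} [AddCommGroup V] [Module K V] [AddCommGroup W] [Module K W]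
    {D : Set V} {D' : Set W} (hD : ZDense K D) (hD' : ZDense K D') : ZDense K (D ×ˢ D') := by
  intro f hf h0
  have h1 : ∀ y ∈ D', ∀ x, f (x, y) = 0 := by
    intro y hy x
    have h2 := hD _ (polyFun_comp_affine hf ((0, y) : V × W) (LinearMap.inl K V W)) (by
      intro x hx
      have := h0 (x, y) ⟨hx, hy⟩
      simpa using this)
    have h3 := congrFun h2 x
    simpa using h3
  funext p
  obtain ⟨x, y⟩ := p
  have h2 := hD' _ (polyFun_comp_affine hf ((x, 0) : V × W) (LinearMap.inr K V W)) (by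
    intro y hy
    have := h1 y hy x
    simpa using this)
  have h3 := congrFun h2 y
  simpa using h3

end Pool.Agent.Helper343_Tau
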