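import Mathlib
import Pool.Agent.Helper343_Tau.RepBasic
import Pool.Agent.Helper343_Tau.Chart

/-
JOB IR (for MP_50148c_al, owner helper343): orbits are irreducible and so is the set of points of
Rep(A, d) with a presentation by P₁, P₀ (of maximal rank).
All definitions are in Pool/Agent/Helper343_Tau/{Defs,Basic,Reg,Geom,RepBasic}.lean,
Pool/Agent/Helper793_Bricks/*.lean and Pool/Agent/Helper819/Zar.lean on origin/main (copy them to
the same paths in /workdir/pool and run: lake build Pool.Agent.Helper343_Tau.RepBasic).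
Read Reg.lean (polyFun, Nb, ZDense, regOn, RegV and its closure properties RegV.lin / bilin / apply /
comp / of_apply / exists_inverse, regOn_lmdet, Nb.of_reg, regOn_eq_zero), Geom.lean (RegMap,
RegMap.mem_closure, zDense_of_curves, le_krullDim) and RepBasic.lean first: they contain the tools.
PROOF in words. (1) Orbits: let W = endGr K d (a submodule of End(V), as a type), U = {g | det g ≠ 0}
(neighbourhood of each of its points: regOn_lmdet, Nb.of_reg), and F : W → Rep the family of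
exists_conj_family for the constant family ρ: (F g).act a * g = g * ρ.act a on U. Every element of
orbit ρ is F g for some g ∈ U (exists_of_mem_orbit, Rep.ext'), and F g ∈ orbit ρ. So orbit ρ = F '' U
is irreducible by RegMap.isIrreducible.
(2) presSet: let O₁, O₂ be open with ρ₁ ∈ O₁, ρ₂ ∈ O₂, ρ_i ∈ presSet with f_i, q_i. exists_chart
(given below) gives U_i ∋ f_i, Ψ_i with Ψ_i f_i = ρ_i. The set {f ∈ U_i | Ψ_i f ∈ O_i} is a
neighbourhood of f_i: O_i contains a basic open set {g ≠ 0} ∋ ρ_i, and g ∘ Ψ_i ∈ regOn U_i, use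
Nb.of_reg. By Nb.inter_of_ne there is f in both. Ψ₁ f and Ψ₂ f are both isomorphic to the cokernel
of f (from the last clause of exists_chart: Q f is A-linear onto with kernel range f), so
Ψ₂ f ∈ orbit (Ψ₁ f), and all points of this orbit are in presSet. The orbit is irreducible by (1) and
meets O₁ and O₂, so it meets O₁ ∩ O₂.
-/

set_option autoImplicit false

open Module Pool.Agent.Helper793Bricks

namespace Pool.Agent.Helper343_Tau

variable {K : Type} [Field K] {A : Type} [Ring A] [Algebra K A] {n : ℕ} {e : Fin n → A}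
  {d : Fin n → ℕ}


/-- the invertible graded endomorphisms -/
def UU (K : Type) [Field K] {n : ℕ} (d : Fin n → ℕ) : Set (endGr K d) :=
  {g | LinearMap.det (g : Module.End K (Vec K d)) ≠ 0}

theorem regV_sub {E : Type} [AddCommGroup E] [Module K E] (W : Submodule K E) (S : Set W) :
    RegV (K := K) S (fun g : W => (g : E)) := by
  intro φ
  have h := polyFun_lin (K := K) (φ ∘ₗ W.subtype)
  exact regOn_poly h

theorem regV_val (S : Set (endGr K d)) :
    RegV (K := K) S (fun g : endGr K d => (g : Module.End K (Vec K d))) :=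
  regV_sub (endGr K d) S

theorem nb_UU : Nb K (⟨1, endGr_one⟩ : endGr K d) (UU K d) := by
  have h1 := Nb.of_reg (Nb.univ (K := K) (⟨1, endGr_one⟩ : endGr K d))
    (regOn_lmdet (regV_val Set.univ)) (by
      change LinearMap.det (1 : Module.End K (Vec K d)) ≠ 0
      rw [map_one]
      exact one_ne_zero)
  exact h1.mono fun g hg => hg.2

theorem orbit_family [FiniteDimensional K A] (ρ : Rep K A e d) :
    ∃ F : endGr K d → Rep K A e d, RegMap (coordRing K e d) (UU K d) F ∧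
      ∀ x ∈ UU K d, F x ∈ orbit ρ ∧ ∀ a, (F x).act a * (x : Module.End K (Vec K d)) =
        (x : Module.End K (Vec K d)) * ρ.act a := by
  have hconst : RegMap (coordRing K e d) (UU K d) (fun _ : endGr K d => ρ) :=
    fun g _ => regOn_const (g ρ)
  exact exists_conj_family hconst (regV_val (UU K d)) (fun x _ => x.2) (fun x hx => hx)

theorem orbit_eq_image {ρ : Rep K A e d} {F : endGr K d → Rep K A e d}
    (hF : ∀ x ∈ UU K d, F x ∈ orbit ρ ∧ ∀ a, (F x).act a * (x : Module.End K (Vec K d)) =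
        (x : Module.End K (Vec K d)) * ρ.act a) : orbit ρ = F '' (UU K d) := by
  refine Set.Subset.antisymm ?_ ?_
  · intro σ hσ
    obtain ⟨g, g', hgr, h1, h2, hact⟩ := exists_of_mem_orbit hσ
    have hdet : LinearMap.det g ≠ 0 := by
      intro h0
      have h3 := congrArg LinearMap.det h1
      rw [map_mul, h0, zero_mul, map_one] at h3
      exact zero_ne_one h3
    have hmem : (⟨g, hgr⟩ : endGr K d) ∈ UU K d := hdet
    refine ⟨⟨g, hgr⟩, hmem, ?_⟩
    refine Rep.ext' (LinearMap.ext fun a => ?_)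
    rw [Rep.lin_apply, Rep.lin_apply]
    have h3 := (hF ⟨g, hgr⟩ hmem).2 a
    have h4 : (F ⟨g, hgr⟩).act a * g = σ.act a * g := h3.trans (hact a).symm
    calc (F ⟨g, hgr⟩).act a = (F ⟨g, hgr⟩).act a * g * g' := by rw [mul_assoc, h1, mul_one]
      _ = σ.act a * g * g' := by rw [h4]
      _ = σ.act a := by rw [mul_assoc, h1, mul_one]
  · rintro _ ⟨x, hx, rfl⟩
    exact (hF x hx).1

/-- TARGET 1 -/
theorem isIrreducible_orbit [Infinite K] [FiniteDimensional K A] (ρ : Rep K A e d) :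
    IsIrreducible (orbit ρ) := by
  obtain ⟨F, hF, hF2⟩ := orbit_family ρ
  rw [orbit_eq_image hF2]
  exact RegMap.isIrreducible isZ_coordRing nb_UU hF

section chart_aux

variable {P₁ P₀ : Type} [AddCommGroup P₁] [Module A P₁] [AddCommGroup P₀] [Module A P₀]
  [Module K P₀]

/-- Two cokernels of the same map are isomorphic. -/
theorem mem_orbit_of_coker {f : P₁ →ₗ[A] P₀} {ρ σ : Rep K A e d} {s s' : Vec K d →ₗ[K] P₀}
    {Q Q' : P₀ →ₗ[K] Vec K d}
    (h1 : ∀ a x, Q (a • x) = ρ.act a (Q x)) (h2 : ∀ v, Q (s v) = v)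
    (h3 : ∀ x, Q x = 0 ↔ x ∈ LinearMap.range f)
    (h1' : ∀ a x, Q' (a • x) = σ.act a (Q' x)) (h2' : ∀ v, Q' (s' v) = v)
    (h3' : ∀ x, Q' x = 0 ↔ x ∈ LinearMap.range f) : σ ∈ orbit ρ := by
  have k1 : ∀ x, Q' (s (Q x)) = Q' x := by
    intro x
    have h4 : Q (s (Q x) - x) = 0 := by rw [map_sub, h2, sub_self]
    rw [h3, ← h3', map_sub, sub_eq_zero] at h4
    exact h4
  have k2 : ∀ x, Q (s' (Q' x)) = Q x := by
    intro x
    have h4 : Q' (s' (Q' x) - x) = 0 := by rw [map_sub, h2', sub_self]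
    rw [h3', ← h3, map_sub, sub_eq_zero] at h4
    exact h4
  refine mem_orbit_of (g := Q' ∘ₗ s) (g' := Q ∘ₗ s') ?_ ?_ ?_
  · refine LinearMap.ext fun v => ?_
    change Q' (s (Q (s' v))) = v
    rw [k1, h2']
  · refine LinearMap.ext fun v => ?_
    change Q (s' (Q' (s v))) = v
    rw [k2, h2]
  · intro a
    refine LinearMap.ext fun v => ?_
    change σ.act a (Q' (s v)) = Q' (s (ρ.act a v))
    have h5 : ρ.act a v = Q (a • s v) := by rw [h1, h2]
    rw [h5, k1, h1']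

theorem mem_presSet_of_coker {f : P₁ →ₗ[A] P₀} {ρ : Rep K A e d} {s : Vec K d →ₗ[K] P₀}
    {Q : P₀ →ₗ[K] Vec K d}
    (h1 : ∀ a x, Q (a • x) = ρ.act a (Q x)) (h2 : ∀ v, Q (s v) = v)
    (h3 : ∀ x, Q x = 0 ↔ x ∈ LinearMap.range f) {σ : Rep K A e d} (hσ : σ ∈ orbit ρ) :
    σ ∈ (presSet e d P₁ P₀ : Set (Rep K A e d)) := by
  obtain ⟨φ⟩ := hσ
  let q : P₀ →ₗ[A] ρ.Mod :=
    { toFun := fun x => Q x
      map_add' := fun x y => map_add Q x y
      map_smul' := fun a x => h1 a x }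
  have hqs : Function.Surjective q := fun v => ⟨s v, h2 v⟩
  have hqk : LinearMap.range f = LinearMap.ker q := by
    ext x
    rw [LinearMap.mem_ker]
    exact (h3 x).symm
  refine ⟨f, φ.toLinearMap ∘ₗ q, ?_, ?_⟩
  · exact φ.surjective.comp hqs
  · rw [LinearEquiv.ker_comp]
    exact hqk

end chart_aux

/-- TARGET 2 -/
theorem isIrreducible_presSet [Infinite K] [FiniteDimensional K A]
    (he : CompleteOrthogonalIdempotents e)
    {P₁ P₀ : Type} [AddCommGroup P₁] [Module A P₁] [Module K P₁] [IsScalarTower K A P₁]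
    [FiniteDimensional K P₁] [AddCommGroup P₀] [Module A P₀] [Module K P₀] [IsScalarTower K A P₀]
    [FiniteDimensional K P₀]
    (hmax : ∀ f : P₁ →ₗ[A] P₀,
      finrank K (LinearMap.range f) + finrank K (Vec K d) ≤ finrank K P₀)
    (hne : (presSet e d P₁ P₀ : Set (Rep K A e d)).Nonempty) :
    IsIrreducible (presSet e d P₁ P₀ : Set (Rep K A e d)) := by
  refine ⟨hne, ?_⟩
  rintro O₁ O₂ hO₁ hO₂ ⟨ρ₁, ⟨f₁, q₁, hq₁, hex₁⟩, hρ₁⟩ ⟨ρ₂, ⟨f₂, q₂, hq₂, hex₂⟩, hρ₂⟩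
  obtain ⟨U₁, Ψ₁, s₁, Q₁, hU₁, hf₁, hreg₁, -, hΨ₁, -, hch₁⟩ :=
    exists_chart he ρ₁ f₁ q₁ hq₁ hex₁ hmax
  obtain ⟨U₂, Ψ₂, s₂, Q₂, hU₂, hf₂, hreg₂, -, hΨ₂, -, hch₂⟩ :=
    exists_chart he ρ₂ f₂ q₂ hq₂ hex₂ hmax
  obtain ⟨_, ⟨g₁, hg₁, rfl⟩, hg₁ρ, hg₁O⟩ :=
    isZ_coordRing.isTopologicalBasis.exists_subset_of_mem_open hρ₁ hO₁
  obtain ⟨_, ⟨g₂, hg₂, rfl⟩, hg₂ρ, hg₂O⟩ :=
    isZ_coordRing.isTopologicalBasis.exists_subset_of_mem_open hρ₂ hO₂
  have hN₁ := Nb.of_reg (hU₁ f₁ hf₁) (hreg₁ g₁ hg₁) (by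
    rw [hΨ₁]
    exact hg₁ρ)
  have hN₂ := Nb.of_reg (hU₂ f₂ hf₂) (hreg₂ g₂ hg₂) (by
    rw [hΨ₂]
    exact hg₂ρ)
  obtain ⟨f, hf⟩ := Nb.inter_of_ne hN₁ hN₂
  obtain ⟨⟨hfU₁, hgf₁⟩, hfU₂, hgf₂⟩ := hf.mem
  obtain ⟨a1, a2, a3⟩ := hch₁ f hfU₁
  obtain ⟨b1, b2, b3⟩ := hch₂ f hfU₂
  have horb : Ψ₂ f ∈ orbit (Ψ₁ f) := mem_orbit_of_coker a1 a2 a3 b1 b2 b3
  obtain ⟨σ, hσ, hσO⟩ := (isIrreducible_orbit (Ψ₁ f)).isPreirreducible O₁ O₂ hO₁ hO₂
    ⟨Ψ₁ f, mem_orbit_self _, hg₁O hgf₁⟩ ⟨Ψ₂ f, horb, hg₂O hgf₂⟩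
  exact ⟨σ, mem_presSet_of_coker a1 a2 a3 hσ, hσO⟩

end Pool.Agent.Helper343_Tau

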