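import Mathlib
import Pool.Agent.Helper343_Tau.RepBasic

/-
JOB S9 (for MP_50148c_al, owner helper343): linear algebra of a presentation.
PROOF in words. (1) The sequence 0 → Hom(M, M) → Hom(P₀, M) → Hom(P₁, M) → ECoker → 0 is exact
(φ ↦ φ q is injective as q is onto, its image is the kernel of preC K f M because ker q = range f),
so eDim + hd P₀ = hd P₁ + hd M M. Rank-nullity twice.
(2) h ↦ class of q ∘ h is a K-linear map Hom_A(P₁, P₀) → ECoker K f M, onto because P₁ is projective
and q onto; its kernel is {α f + f β}: if q h = ψ f, lift ψ to α : P₀ → P₀ with q α = ψ (P₀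
projective), then q (h - α f) = 0, so h - α f maps into ker q = range f and is f β (P₁ projective).
Take for W a complement of the kernel.
-/

set_option autoImplicit false

open Module Pool.Agent.Helper793Bricks

namespace Pool.Agent.Helper343_Tau

variable {K : Type} [Field K] {A : Type} [Ring A] [Algebra K A]

/-- TARGET 1 -/
theorem eDim_add_hd {P₁ P₀ M : Type} [AddCommGroup P₁] [Module A P₁] [Module.Finite A P₁]
    [AddCommGroup P₀] [Module A P₀] [Module.Finite A P₀] [AddCommGroup M] [Module A M]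
    [Module K M] [IsScalarTower K A M] [FiniteDimensional K M] (f : P₁ →ₗ[A] P₀)
    (q : P₀ →ₗ[A] M) (hq : Function.Surjective q) (hex : LinearMap.range f = LinearMap.ker q) :
    eDim K f M + hd K (A := A) P₀ M = hd K (A := A) P₁ M + hd K (A := A) M M := by
  have i1 : FiniteDimensional K (P₁ →ₗ[A] M) := finDimHom K
  have i0 : FiniteDimensional K (P₀ →ₗ[A] M) := finDimHom K
  have h1 : finrank K (ECoker K f M) + finrank K (LinearMap.range (preC K f M)) =
      finrank K (P₁ →ₗ[A] M) :=
    Submodule.finrank_quotient_add_finrank (LinearMap.range (preC K f M))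
  have h2 := LinearMap.finrank_range_add_finrank_ker (preC K f M)
  have hinj : Function.Injective (preC K q M) := by
    intro ψ ψ' h
    ext m
    obtain ⟨y, rfl⟩ := hq m
    exact LinearMap.congr_fun h y
  have hran : LinearMap.range (preC K q M) = LinearMap.ker (preC K f M) := by
    ext φ
    constructor
    · rintro ⟨ψ, rfl⟩
      rw [LinearMap.mem_ker]
      ext x
      change ψ (q (f x)) = 0
      have : q (f x) = 0 := by
        rw [← LinearMap.mem_ker, ← hex]
        exact ⟨x, rfl⟩
      rw [this, map_zero]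
    · intro h
      rw [LinearMap.mem_ker] at h
      have hle : LinearMap.ker q ≤ LinearMap.ker φ := by
        rw [← hex]
        rintro _ ⟨x, rfl⟩
        exact LinearMap.congr_fun h x
      refine ⟨((LinearMap.ker q).liftQ φ hle) ∘ₗ
        (q.quotKerEquivOfSurjective hq).symm.toLinearMap, ?_⟩
      ext x
      change ((LinearMap.ker q).liftQ φ hle) ((q.quotKerEquivOfSurjective hq).symm (q x)) = φ x
      have h3 : (q.quotKerEquivOfSurjective hq).symm (q x) = (LinearMap.ker q).mkQ x := by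
        rw [LinearEquiv.symm_apply_eq]
        rfl
      rw [h3]
      rfl
  have h3 := LinearMap.finrank_range_of_inj hinj
  rw [hran] at h3
  unfold eDim hd
  omega

/-- TARGET 2 -/
theorem exists_transversal {P₁ P₀ M : Type} [AddCommGroup P₁] [Module A P₁] [Module K P₁]
    [IsScalarTower K A P₁] [FiniteDimensional K P₁] [Module.Projective A P₁] [Module.Finite A P₁]
    [AddCommGroup P₀] [Module A P₀] [Module K P₀] [IsScalarTower K A P₀]
    [FiniteDimensional K P₀] [Module.Projective A P₀] [Module.Finite A P₀]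
    [AddCommGroup M] [Module A M]
    [Module K M] [IsScalarTower K A M] [FiniteDimensional K M] (f : P₁ →ₗ[A] P₀)
    (q : P₀ →ₗ[A] M) (hq : Function.Surjective q) (hex : LinearMap.range f = LinearMap.ker q) :
    ∃ W : Submodule K (P₁ →ₗ[A] P₀), finrank K W = eDim K f M ∧
      (∀ h : P₁ →ₗ[A] P₀, ∃ (α : P₀ →ₗ[A] P₀) (β : P₁ →ₗ[A] P₁), ∃ w ∈ W,
        h = α ∘ₗ f + w + f ∘ₗ β) ∧
      ∀ w ∈ W, ∀ (α : P₀ →ₗ[A] P₀) (β : P₁ →ₗ[A] P₁), w = α ∘ₗ f + f ∘ₗ β → w = 0 := by
  have hqf : ∀ x, q (f x) = 0 := by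
    intro x
    rw [← LinearMap.mem_ker, ← hex]
    exact ⟨x, rfl⟩
  let T : (P₁ →ₗ[A] P₀) →ₗ[K] ECoker K f M :=
    (LinearMap.range (preC K f M)).mkQ ∘ₗ postC K q P₁
  have hT : Function.Surjective T := by
    intro c
    obtain ⟨φ, rfl⟩ := Submodule.mkQ_surjective _ c
    obtain ⟨h, hh⟩ := Module.projective_lifting_property q φ hq
    refine ⟨h, ?_⟩
    change (LinearMap.range (preC K f M)).mkQ (q ∘ₗ h) = _
    rw [hh]
  have hker : ∀ h : P₁ →ₗ[A] P₀, h ∈ LinearMap.ker T ↔
      ∃ (α : P₀ →ₗ[A] P₀) (β : P₁ →ₗ[A] P₁), h = α ∘ₗ f + f ∘ₗ β := by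
    intro h
    have e1 : h ∈ LinearMap.ker T ↔ ∃ ψ : P₀ →ₗ[A] M, ψ ∘ₗ f = q ∘ₗ h := by
      rw [LinearMap.mem_ker]
      change (LinearMap.range (preC K f M)).mkQ (q ∘ₗ h) = 0 ↔ _
      rw [← LinearMap.mem_ker, Submodule.ker_mkQ]
      exact Iff.rfl
    rw [e1]
    constructor
    · rintro ⟨ψ, hψ⟩
      obtain ⟨α, hα⟩ := Module.projective_lifting_property q ψ hq
      have h0 : ∀ x, (h - α ∘ₗ f) x ∈ LinearMap.range f := by
        intro x
        rw [hex, LinearMap.mem_ker]
        have h1 : ψ (f x) = q (h x) := LinearMap.congr_fun hψ x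
        have h2 : q (α (f x)) = ψ (f x) := LinearMap.congr_fun hα (f x)
        change q (h x - α (f x)) = 0
        rw [map_sub, h2, h1, sub_self]
      obtain ⟨β, hβ⟩ := Module.projective_lifting_property f.rangeRestrict
        ((h - α ∘ₗ f).codRestrict (LinearMap.range f) h0) f.surjective_rangeRestrict
      refine ⟨α, β, ?_⟩
      ext x
      have h3 := congrArg Subtype.val (LinearMap.congr_fun hβ x)
      change f (β x) = h x - α (f x) at h3
      change h x = α (f x) + f (β x)
      rw [h3]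
      abel
    · rintro ⟨α, β, rfl⟩
      refine ⟨q ∘ₗ α, ?_⟩
      ext x
      change q (α (f x)) = q (α (f x) + f (β x))
      rw [map_add, hqf, add_zero]
  obtain ⟨W, hW⟩ := Submodule.exists_isCompl (LinearMap.ker T)
  refine ⟨W, ?_, ?_, ?_⟩
  · exact ((Submodule.quotientEquivOfIsCompl _ W hW).symm.trans
      (T.quotKerEquivOfSurjective hT)).finrank_eq
  · intro h
    have h1 : h ∈ LinearMap.ker T ⊔ W := by
      rw [hW.sup_eq_top]
      exact Submodule.mem_top
    obtain ⟨k, hk, w, hw, hkw⟩ := Submodule.mem_sup.mp h1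
    obtain ⟨α, β, hαβ⟩ := (hker k).mp hk
    refine ⟨α, β, w, hw, ?_⟩
    rw [← hkw, hαβ]
    abel
  · intro w hw α β h
    have h1 : w ∈ LinearMap.ker T := (hker w).mpr ⟨α, β, h⟩
    have h2 : w ∈ LinearMap.ker T ⊓ W := ⟨h1, hw⟩
    rw [hW.inf_eq_bot] at h2
    exact (Submodule.mem_bot K).mp h2

end Pool.Agent.Helper343_Tau
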