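import Mathlib
import Pool.Agent.Helper343_Tau.RepBasic

/-
JOB LB (for MP_50148c_al, owner helper343): lower bound for the Krull dimension of a set containing
the image of a regular map with injective differential at 0.
PROOF in words. (1) Derivatives. For f ∈ polyFun K W there is a linear form l such that for every v
there is a polynomial function P of t with f (t • v) = f 0 + t * (l v + t * P t). For f ∈ regOn K U,
Nb K 0 U, f = p / q near 0, so with l = (dp - f(0) dq)/q(0): for every v there is r ∈ regOn K S,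
S = {t | t • v ∈ U}, with f (t • v) = f 0 + t * r t on S and r 0 = l v.
For a regular vector-valued map Φ = lin ∘ F : W → E use coordinates: there is a linear map
D : W → E such that for every v there is r, RegV S r, with
lin (F (t • v)) = lin (F 0) + t • r t for t ∈ S, and r 0 = D v.
(2) hinj says that D is injective. Choose a linear left inverse L : E → W of D and apply le_krullDim
with G = L ∘ lin: the curve for v is t ↦ L (r t), and L (r 0) = L (D v) = v.
-/

set_option autoImplicit false

open Module Pool.Agent.Helper793Bricks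

namespace Pool.Agent.Helper343_Tau

section deriv

variable {K : Type} [Field K] {W : Type} [AddCommGroup W] [Module K W]

/-- First order expansion of a polynomial function at `0` along lines. -/
theorem polyFun_deriv {f : W → K} (hf : f ∈ polyFun K W) :
    ∃ l : Module.Dual K W, ∀ v : W, ∃ P ∈ polyFun K K, ∀ t : K,
      f (t • v) = f 0 + t * (l v + t * P t) := by
  induction hf using Algebra.adjoin_induction with
  | mem f hf =>
    obtain ⟨l, rfl⟩ := hf
    refine ⟨l, fun v => ⟨fun _ => 0, polyFun_const 0, fun t => ?_⟩⟩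
    simp
  | algebraMap c =>
    refine ⟨0, fun v => ⟨fun _ => 0, polyFun_const 0, fun t => ?_⟩⟩
    simp
  | add f f' _ _ h h' =>
    obtain ⟨l, h⟩ := h
    obtain ⟨l', h'⟩ := h'
    refine ⟨l + l', fun v => ?_⟩
    obtain ⟨P, hP, e⟩ := h v
    obtain ⟨P', hP', e'⟩ := h' v
    refine ⟨P + P', (polyFun K K).add_mem hP hP', fun t => ?_⟩
    simp only [Pi.add_apply, LinearMap.add_apply]
    rw [e t, e' t]
    ring
  | mul f f' _ _ h h' =>
    obtain ⟨l, h⟩ := h
    obtain ⟨l', h'⟩ := h'
    refine ⟨f 0 • l' + f' 0 • l, fun v => ?_⟩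
    obtain ⟨P, hP, e⟩ := h v
    obtain ⟨P', hP', e'⟩ := h' v
    have ht : (fun t : K => t) ∈ polyFun K K := polyFun_id
    refine ⟨(fun _ => f' 0) * P + (fun _ => f 0) * P' +
      ((fun _ => l v) + (fun t => t) * P) * ((fun _ => l' v) + (fun t => t) * P'), ?_, fun t => ?_⟩
    · refine (polyFun K K).add_mem ((polyFun K K).add_mem
        ((polyFun K K).mul_mem (polyFun_const _) hP)
        ((polyFun K K).mul_mem (polyFun_const _) hP')) ?_
      exact (polyFun K K).mul_mem
        ((polyFun K K).add_mem (polyFun_const _) ((polyFun K K).mul_mem ht hP))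
        ((polyFun K K).add_mem (polyFun_const _) ((polyFun K K).mul_mem ht hP'))
    · simp only [Pi.add_apply, Pi.mul_apply, LinearMap.add_apply, LinearMap.smul_apply,
        smul_eq_mul]
      rw [e t, e' t]
      ring

/-- First order expansion of a regular function at `0` along lines. -/
theorem regOn_deriv {U : Set W} (h0 : (0 : W) ∈ U) {f : W → K} (hf : f ∈ regOn K U) :
    ∃ l : Module.Dual K W, ∀ v : W, ∃ r ∈ regOn K {t : K | t • v ∈ U},
      (∀ t : K, t • v ∈ U → f (t • v) = f 0 + t * r t) ∧ r 0 = l v := by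
  obtain ⟨p, hp, q, hq, h⟩ := hf
  obtain ⟨lp, hlp⟩ := polyFun_deriv hp
  obtain ⟨lq, hlq⟩ := polyFun_deriv hq
  refine ⟨(q 0)⁻¹ • (lp - f 0 • lq), fun v => ?_⟩
  obtain ⟨P, hP, eP⟩ := hlp v
  obtain ⟨Q, hQ, eQ⟩ := hlq v
  have ht : (fun t : K => t) ∈ regOn K {t : K | t • v ∈ U} := regOn_poly polyFun_id
  have hqv : (fun t : K => q (t • v)) ∈ polyFun K K := by
    have := polyFun_comp_affine hq 0 (LinearMap.toSpanSingleton K W v)
    simpa using this
  have hqi : (fun t : K => (q (t • v))⁻¹) ∈ regOn K {t : K | t • v ∈ U} :=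
    regOn_inv (regOn_poly hqv) fun t htU => (h _ htU).1
  refine ⟨((fun _ => lp v - f 0 * lq v) + (fun t => t) * (P - (fun _ => f 0) * Q)) *
    (fun t : K => (q (t • v))⁻¹), ?_, fun t htU => ?_, ?_⟩
  · refine (regOn K _).mul_mem ((regOn K _).add_mem (regOn_const _)
      ((regOn K _).mul_mem ht ((regOn K _).sub_mem (regOn_poly hP)
        ((regOn K _).mul_mem (regOn_const _) (regOn_poly hQ))))) hqi
  · have h1 := h _ htU
    have h2 := h _ h0
    simp only [Pi.add_apply, Pi.mul_apply, Pi.sub_apply]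
    have h3 : f (t • v) = p (t • v) * (q (t • v))⁻¹ := by
      rw [← h1.2, mul_inv_cancel_right₀ h1.1]
    have h4 : f 0 = f 0 * q (t • v) * (q (t • v))⁻¹ := by
      rw [mul_inv_cancel_right₀ h1.1]
    have h5 : p (t • v) = f 0 * q (t • v) +
        t * ((lp v - f 0 * lq v) + t * (P t - f 0 * Q t)) := by
      rw [eP t, eQ t, ← h2.2]
      ring
    have h6 : f (t • v) = (f 0 * q (t • v) +
        t * ((lp v - f 0 * lq v) + t * (P t - f 0 * Q t))) * (q (t • v))⁻¹ := by
      rw [h3, h5]
    rw [h6, add_mul, ← h4]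
    ring
  · simp only [Pi.add_apply, Pi.mul_apply, Pi.sub_apply, zero_smul, zero_mul, add_zero,
      LinearMap.smul_apply, LinearMap.sub_apply, smul_eq_mul]
    ring

/-- First order expansion of a regular vector-valued map at `0` along lines. -/
theorem RegV.deriv {U : Set W} (h0 : (0 : W) ∈ U) {E : Type} [AddCommGroup E] [Module K E]
    [FiniteDimensional K E] {Φ : W → E} (hΦ : RegV (K := K) U Φ) :
    ∃ D : W →ₗ[K] E, ∀ v : W, ∃ r : K → E, RegV (K := K) {t : K | t • v ∈ U} r ∧
      (∀ t : K, t • v ∈ U → Φ (t • v) = Φ 0 + t • r t) ∧ r 0 = D v := by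
  let b := Module.finBasis K E
  choose l hl using fun i => regOn_deriv h0 (hΦ (b.coord i))
  refine ⟨∑ i, (l i).smulRight (b i), fun v => ?_⟩
  choose r hr hrt hr0 using fun i => hl i v
  refine ⟨fun t => ∑ i, r i t • b i, ?_, fun t htU => ?_, ?_⟩
  · exact RegV.sum _ fun i _ => RegV.smul (hr i) (RegV.const _)
  · have h1 : ∀ x : W, Φ x = ∑ i, b.coord i (Φ x) • b i := fun x => (b.sum_repr (Φ x)).symm
    rw [h1 (t • v), h1 0, Finset.smul_sum, ← Finset.sum_add_distrib]
    refine Finset.sum_congr rfl fun i _ => ?_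
    rw [hrt i t htU, add_smul, mul_smul]
  · rw [LinearMap.sum_apply]
    refine Finset.sum_congr rfl fun i _ => ?_
    rw [hr0 i]
    rfl

end deriv

/-- TARGET -/
theorem le_krullDim_of_injective {K : Type} [Field K] [Infinite K] {X : Type} [TopologicalSpace X]
    {R : Subalgebra K (X → K)} (hX : IsZ R) {W E : Type} [AddCommGroup W] [Module K W]
    [FiniteDimensional K W] [AddCommGroup E] [Module K E] [FiniteDimensional K E]
    (lin : X → E) (hlin : ∀ l : Module.Dual K E, (fun x => l (lin x)) ∈ R)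
    {U : Set W} (hU : Nb K 0 U) {F : W → X} (hF : RegMap R U F) {T : Set X}
    (hT : ∀ x ∈ U, F x ∈ T)
    (hinj : ∀ (v : W) (r : K → E) (S : Set K), Nb K 0 S → RegV (K := K) S r →
      (∀ t ∈ S, t • v ∈ U ∧ lin (F (t • v)) = lin (F 0) + t • r t) → r 0 = 0 → v = 0) :
    (finrank K W : WithBot ℕ∞) ≤ topologicalKrullDim T := by
  have hΦ : RegV (K := K) U (fun x => lin (F x)) := fun φ => hF _ (hlin φ)
  obtain ⟨D, hD⟩ := hΦ.deriv hU.mem
  have hS : ∀ v : W, Nb K (0 : K) {t : K | t • v ∈ U} := by
    intro v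
    have h1 : Nb K (0 + LinearMap.toSpanSingleton K W v 0) U := by
      rw [map_zero, add_zero]
      exact hU
    refine (Nb.comap 0 (LinearMap.toSpanSingleton K W v) h1).mono ?_
    intro t ht
    have : 0 + LinearMap.toSpanSingleton K W v t ∈ U := ht
    simpa using this
  have hDker : LinearMap.ker D = ⊥ := by
    rw [LinearMap.ker_eq_bot']
    intro v hv
    obtain ⟨r, hr, hrt, hr0⟩ := hD v
    exact hinj v r _ (hS v) hr (fun t ht => ⟨ht, hrt t ht⟩) (hr0.trans hv)
  obtain ⟨L, hL⟩ := LinearMap.exists_leftInverse_of_injective D hDker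
  refine le_krullDim hX hU hF hT (fun x => L (lin x)) (fun l => hlin (l ∘ₗ L)) fun v => ?_
  obtain ⟨r, hr, hrt, hr0⟩ := hD v
  refine ⟨fun t => L (r t), _, hS v, hr.lin L, ?_, fun t ht => ⟨ht, ?_⟩⟩
  · change L (r 0) = v
    rw [hr0]
    exact LinearMap.congr_fun hL v
  · change L (lin (F (t • v))) = L (lin (F 0)) + t • L (r t)
    rw [hrt t ht, map_add, map_smul]

end Pool.Agent.Helper343_Tau
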