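import Mathlib
import Pool.Agent.Helper343_Tau.RepBasic
import Pool.Agent.Helper343_Tau.LowerB
import Pool.Agent.Helper343_Tau.Chart

/-
JOB S6 (for MP_50148c_al, owner helper343): lower bounds for the dimension of an orbit and of the
closure of a family of orbits.
All definitions are in Pool/Agent/Helper343_Tau/{Defs,Basic,Reg,Geom,RepBasic}.lean,
Pool/Agent/Helper793_Bricks/*.lean and Pool/Agent/Helper819/Zar.lean on origin/main (copy them to
the same paths in /workdir/pool and run: lake build Pool.Agent.Helper343_Tau.RepBasic).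
Read Reg.lean (polyFun, Nb, ZDense, regOn, RegV and its closure properties RegV.lin / bilin / apply /
comp / of_apply / exists_inverse, regOn_lmdet, Nb.of_reg, regOn_eq_zero), Geom.lean (RegMap,
RegMap.mem_closure, zDense_of_curves, le_krullDim) and RepBasic.lean first: they contain the tools.
PROOF in words. Auxiliary fact (Q): if w is regular on S ⊆ K, Nb K 0 S, then there is a regular w'
on S with w t = w 0 + t • w' t on S. (For f = p/q in regOn: f t - f 0 = (p t - f 0 * q t)/q t and the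
numerator is a polynomial in t (polyFun_line with x = 0, y = 1) vanishing at 0, so divisible by t.
For vector-valued w use Module.finBasis.) Also: a regular identity on S \ {0} holds at 0
(regOn_eq_zero with nb_ne_zero).
TARGET 1: family F : C → Rep from exists_conj_family (constant family ρ, g c = 1 + c,
U = {c | det(1 + c) ≠ 0}); F 0 = ρ. Apply le_krullDim_of_injective (lin = Rep.lin). If
(F (t c)).lin = ρ.lin + t • r t with r 0 = 0 then (ρ(a) + t r_t(a))(1 + tc) = (1 + tc) ρ(a); divide by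
t and put t = 0: ρ(a) c = c ρ(a). So c ∈ C ⊓ ρ.comm = ⊥.
TARGET 2: take the chart U', Ψ, s, Q of exists_chart at (ρ₀, f₀, q₀). Parameter space C × W,
U = {(c, w) | det(1 + c) ≠ 0 and f₀ + w ∈ U'}, F from exists_conj_family applied to
(c, w) ↦ Ψ (f₀ + w) and g = 1 + c; F(c, w) lies in the orbit of Ψ (f₀ + w), which is in presSet, hence
in T. F 0 = ρ₀. Let v = (c, w) and (F (t v)).lin = ρ₀.lin + t • r t, r 0 = 0. Write Q_t = Q (f₀ + t w) =
q₀ + t Q'_t with Q' regular (Q). Then
(i) Q_t s = 1 gives Q'_t s = 0 for t ≠ 0, so Q'_0 s = 0;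
(ii) Q_t (f₀ + t w) = 0 and q₀ f₀ = 0 give Q'_t f₀ + Q_t w = 0 for t ≠ 0, so Q'_0 f₀ = - q₀ w;
(iii) Ψ_t(a) v = Q_t (a • s v) = ρ₀(a) v + t Q'_t (a • s v) and
(ρ₀(a) + t r_t(a))(1 + tc) = (1 + tc) Ψ_t(a); divide by t, t = 0: Q'_0 (a • s v) = ρ₀(a) c v - c ρ₀(a) v.
(iv) λ = Q'_0 + c ∘ q₀ : P₀ → V is A-linear to ρ₀.Mod: P₀ = s V + range f₀ (x - s (q₀ x) ∈ ker q₀);
λ(a • s v) = ρ₀(a) c v = ρ₀(a) λ(s v), λ(a • f₀ y) = - q₀ w (a y) = ρ₀(a) λ(f₀ y). Lift λ = q₀ α
(P₀ projective). q₀ (w + α f₀) = 0, so w + α f₀ = f₀ β (P₁ projective), w = (-α) f₀ + f₀ β, so w = 0 by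
hW. Then Q'_0 vanishes on s V and on range f₀, Q'_0 = 0, and (iii) gives c ∈ ρ₀.comm, so c = 0.
-/

set_option autoImplicit false

open Module Pool.Agent.Helper793Bricks

namespace Pool.Agent.Helper343_Tau


variable {K : Type} [Field K] {A : Type} [Ring A] [Algebra K A] {n : ℕ} {e : Fin n → A}
  {d : Fin n → ℕ}


/-! Auxiliary facts on regular curves. -/

theorem polyFun_eval' (P : Polynomial K) : (fun t : K => P.eval t) ∈ polyFun K K := by
  induction P using Polynomial.induction_on' with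
  | add p q hp hq =>
    have := (polyFun K K).add_mem hp hq
    convert this using 1
    funext t
    simp
  | monomial n a =>
    have := (polyFun K K).mul_mem (polyFun_const (V := K) a)
      ((polyFun K K).pow_mem (polyFun_id (K := K)) n)
    convert this using 1
    funext t
    simp

theorem regOn_quot {S : Set K} (hS : Nb K 0 S) {f : K → K} (hf : f ∈ regOn K S) :
    ∃ f' ∈ regOn K S, ∀ t ∈ S, f t = f 0 + t * f' t := by
  obtain ⟨p, hp, q, hq, h⟩ := hf
  obtain ⟨P, hP⟩ := polyFun_line hp (0 : K) 1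
  obtain ⟨Q, hQ⟩ := polyFun_line hq (0 : K) 1
  have hP' : ∀ t, p t = P.eval t := fun t => by
    have := hP t
    simpa using this
  have hQ' : ∀ t, q t = Q.eval t := fun t => by
    have := hQ t
    simpa using this
  have h0 := h 0 hS.mem
  have hroot : (P - Polynomial.C (f 0) * Q).eval 0 = 0 := by
    rw [Polynomial.eval_sub, Polynomial.eval_mul, Polynomial.eval_C, ← hP', ← hQ', ← h0.2, sub_self]
  obtain ⟨N, hN⟩ := Polynomial.dvd_iff_isRoot.2 hroot
  refine ⟨fun t => N.eval t * (q t)⁻¹, ?_, ?_⟩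
  · exact (regOn K S).mul_mem (regOn_poly (polyFun_eval' N))
      (regOn_inv (regOn_poly hq) fun x hx => (h x hx).1)
  · intro t ht
    have h1 : (P - Polynomial.C (f 0) * Q).eval t = t * N.eval t := by
      rw [hN, Polynomial.eval_mul]
      simp
    rw [Polynomial.eval_sub, Polynomial.eval_mul, Polynomial.eval_C, ← hP', ← hQ',
      ← (h t ht).2] at h1
    have h2 := (h t ht).1
    field_simp
    linear_combination h1

theorem RegV.quot {E : Type} [AddCommGroup E] [Module K E] [FiniteDimensional K E] {S : Set K}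
    (hS : Nb K 0 S) {w : K → E} (hw : RegV (K := K) S w) :
    ∃ w' : K → E, RegV (K := K) S w' ∧ ∀ t ∈ S, w t = w 0 + t • w' t := by
  let b := Module.finBasis K E
  have h1 : ∀ i, ∃ f' ∈ regOn K S, ∀ t ∈ S, b.coord i (w t) = b.coord i (w 0) + t * f' t :=
    fun i => regOn_quot hS (hw (b.coord i))
  choose f' hf' h2 using h1
  refine ⟨fun t => ∑ i, f' i t • b i, RegV.sum _ fun i _ => RegV.smul (hf' i) (RegV.const _), ?_⟩
  intro t ht
  apply b.ext_elem
  intro i
  have h3 := h2 i t ht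
  simp only [Basis.coord_apply] at h3
  rw [h3]
  simp [Finsupp.single_apply]

theorem RegV.eq_zero_of_ne [Infinite K] {E : Type} [AddCommGroup E] [Module K E] {S : Set K}
    (hS : Nb K 0 S) {w : K → E} (hw : RegV (K := K) S w) (h : ∀ t ∈ S, t ≠ 0 → w t = 0) :
    w 0 = 0 := by
  rw [← Module.forall_dual_apply_eq_zero_iff K]
  intro φ
  exact regOn_eq_zero (hw φ) hS nb_ne_zero (fun t ht htS => by rw [h t htS ht, map_zero]) hS.mem

theorem RegV.line {E : Type} [AddCommGroup E] [Module K E] {S : Set K} (x : E) :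
    RegV (K := K) S (fun t : K => t • x) :=
  RegV.linear (LinearMap.toSpanSingleton K E x)

theorem RegV.comp_line {E E' : Type} [AddCommGroup E] [Module K E] [AddCommGroup E'] [Module K E']
    {S : Set K} {U : Set E} {w : E → E'} (hw : RegV (K := K) U w) (x y : E)
    (h : ∀ t ∈ S, x + t • y ∈ U) : RegV (K := K) S (fun t : K => w (x + t • y)) := by
  intro φ
  exact regOn_comp (hw φ) (fun t : K => x + t • y)
    (fun l => ((RegV.const (K := K) (U := S) x).add (RegV.line y)) l) h

/-- TARGET 1 -/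
theorem orbit_lower_bound [Infinite K] [FiniteDimensional K A] (ρ : Rep K A e d)
    (C : Submodule K (Module.End K (Vec K d))) (hC : C ≤ endGr K d) (hC2 : C ⊓ ρ.comm = ⊥) :
    (finrank K C : WithBot ℕ∞) ≤ topologicalKrullDim (orbit ρ) := by
  let U : Set C := {c | LinearMap.det ((1 : Module.End K (Vec K d)) + c.1) ≠ 0}
  have hg : ∀ U : Set C, RegV (K := K) U (fun c : C => (1 : Module.End K (Vec K d)) + c.1) :=
    fun U => by
      have h := (RegV.const (K := K) (U := U) (1 : Module.End K (Vec K d))).add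
        (RegV.linear (U := U) C.subtype)
      exact h
  have hU : Nb K 0 U := by
    refine ((Nb.univ (K := K) (0 : C)).of_reg (regOn_lmdet (hg Set.univ)) ?_).mono ?_
    · simp
    · rintro c ⟨-, hc⟩
      exact hc
  obtain ⟨F, hF, hF'⟩ := exists_conj_family (U := U) (F := fun _ => ρ)
    (regMap_iff.mpr (RegV.const _)) (hg U) (fun c _ => (endGr K d).add_mem endGr_one (hC c.2))
    (fun c hc => hc)
  refine le_krullDim_of_injective isZ_coordRing Rep.lin coordRing_lin hU hF
    (fun x hx => (hF' x hx).1) ?_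
  intro v r S hS hr h hr0
  have hF0 : (F 0).lin = ρ.lin := by
    refine LinearMap.ext fun a => ?_
    have h1 := (hF' 0 hU.mem).2 a
    have h2 : (F 0).act a = ρ.act a := by simpa using h1
    exact h2
  have key : ∀ a, ρ.act a * v.1 = v.1 * ρ.act a := by
    intro a
    have hw : RegV (K := K) S (fun t : K => ρ.act a * v.1 +
        (r t a) * ((1 : Module.End K (Vec K d)) + t • v.1) - v.1 * ρ.act a) := by
      refine ((RegV.const _).add ?_).sub (RegV.const _)
      exact (hr.lin (LinearMap.applyₗ a)).bilin ((RegV.const _).add (RegV.line v.1))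
        (LinearMap.mul K (Module.End K (Vec K d)))
    have h1 := hw.eq_zero_of_ne hS (by
      intro t ht ht0
      have h2 := (hF' (t • v) (h t ht).1).2 a
      have h3 : (F (t • v)).act a = ρ.act a + t • r t a := by
        have := LinearMap.congr_fun (h t ht).2 a
        rw [hF0] at this
        exact this
      rw [h3] at h2
      have h4 : ((t • v : C) : Module.End K (Vec K d)) = t • v.1 := rfl
      rw [h4] at h2
      have h5 : t • (ρ.act a * v.1 + (r t a) * ((1 : Module.End K (Vec K d)) + t • v.1) -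
          v.1 * ρ.act a) = 0 := by
        rw [smul_sub, smul_add]
        have e1 : (ρ.act a + t • r t a) * (1 + t • v.1) = ρ.act a + t • (ρ.act a * v.1) +
            t • ((r t a) * (1 + t • v.1)) := by
          rw [add_mul, mul_add, mul_one, mul_smul_comm, smul_mul_assoc]
        have e2 : (1 + t • v.1) * ρ.act a = ρ.act a + t • (v.1 * ρ.act a) := by
          rw [add_mul, one_mul, smul_mul_assoc]
        rw [e1, e2, add_assoc] at h2
        have h6 := add_left_cancel h2
        rw [h6, sub_self]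
      exact (smul_eq_zero.1 h5).resolve_left ht0)
    rw [hr0] at h1
    simp only [LinearMap.zero_apply, zero_mul, add_zero, sub_eq_zero] at h1
    exact h1
  have h7 : v.1 ∈ C ⊓ ρ.comm := ⟨v.2, fun a => (key a).symm⟩
  rw [hC2] at h7
  exact Subtype.ext ((Submodule.mem_bot K).1 h7)

theorem presSet_orbit {P₁ P₀ : Type} [AddCommGroup P₁] [Module A P₁] [AddCommGroup P₀]
    [Module A P₀] {ρ σ : Rep K A e d} (h : ρ ∈ presSet e d P₁ P₀) (hσ : σ ∈ orbit ρ) :
    σ ∈ presSet e d P₁ P₀ := by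
  obtain ⟨f, q, hq, hf⟩ := h
  obtain ⟨φ⟩ := hσ
  refine ⟨f, φ.toLinearMap ∘ₗ q, φ.surjective.comp hq, ?_⟩
  rw [hf]
  ext x
  simp

/-- TARGET 2 -/
theorem family_lower_bound [Infinite K] [FiniteDimensional K A]
    (he : CompleteOrthogonalIdempotents e)
    {P₁ P₀ : Type} [AddCommGroup P₁] [Module A P₁] [Module K P₁] [IsScalarTower K A P₁]
    [FiniteDimensional K P₁] [Module.Projective A P₁] [AddCommGroup P₀] [Module A P₀]
    [Module K P₀] [IsScalarTower K A P₀] [FiniteDimensional K P₀] [Module.Projective A P₀]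
    (ρ₀ : Rep K A e d) (f₀ : P₁ →ₗ[A] P₀) (q₀ : P₀ →ₗ[A] ρ₀.Mod)
    (hq : Function.Surjective q₀) (hex : LinearMap.range f₀ = LinearMap.ker q₀)
    (hmax : ∀ f : P₁ →ₗ[A] P₀,
      finrank K (LinearMap.range f) + finrank K (Vec K d) ≤ finrank K P₀)
    (C : Submodule K (Module.End K (Vec K d))) (hC : C ≤ endGr K d) (hC2 : C ⊓ ρ₀.comm = ⊥)
    (W : Submodule K (P₁ →ₗ[A] P₀))
    (hW : ∀ w ∈ W, ∀ (α : P₀ →ₗ[A] P₀) (β : P₁ →ₗ[A] P₁), w = α ∘ₗ f₀ + f₀ ∘ₗ β → w = 0)
    (T : Set (Rep K A e d)) (hT : presSet e d P₁ P₀ ⊆ T) :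
    ((finrank K C + finrank K W : ℕ) : WithBot ℕ∞) ≤ topologicalKrullDim T := by
  haveI hfd : FiniteDimensional K (P₁ →ₗ[A] P₀) :=
    FiniteDimensional.of_injective (LinearMap.restrictScalarsₗ K A P₁ P₀ K)
      (LinearMap.restrictScalars_injective K)
  obtain ⟨U', Ψ, s, Q, hU', hf₀, hΨ, hQ, hΨ0, hQ0, hch⟩ :=
    exists_chart he ρ₀ f₀ q₀ hq hex hmax
  let U : Set (C × W) :=
    {x | LinearMap.det ((1 : Module.End K (Vec K d)) + x.1.1) ≠ 0 ∧ f₀ + x.2.1 ∈ U'}
  have hg : ∀ U : Set (C × W), RegV (K := K) U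
      (fun x : C × W => (1 : Module.End K (Vec K d)) + x.1.1) :=
    fun U => by
      have h := (RegV.const (K := K) (U := U) (1 : Module.End K (Vec K d))).add
        (RegV.linear (U := U) (C.subtype ∘ₗ LinearMap.fst K C W))
      exact h
  have hU : Nb K 0 U := by
    have h1 := ((Nb.univ (K := K) (0 : C × W)).of_reg (regOn_lmdet (hg Set.univ)) (by simp))
    have h2 : Nb K (0 : C × W) {x : C × W | f₀ + (W.subtype ∘ₗ LinearMap.snd K C W) x ∈ U'} := by
      apply Nb.comap
      rw [map_zero, add_zero]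
      exact hU' f₀ hf₀
    refine (h1.inter h2).mono ?_
    rintro x ⟨⟨-, hx1⟩, hx2⟩
    exact ⟨hx1, hx2⟩
  have hreg : RegMap (coordRing K e d) U (fun x : C × W => Ψ (f₀ + x.2.1)) := by
    intro g hgR
    refine regOn_comp (hΨ g hgR) (fun x : C × W => f₀ + x.2.1) (fun l => ?_) fun x hx => hx.2
    exact ((RegV.const (K := K) (U := U) f₀).add
      (RegV.linear (W.subtype ∘ₗ LinearMap.snd K C W))) l
  obtain ⟨F, hF, hF'⟩ := exists_conj_family hreg (hg U)
    (fun x _ => (endGr K d).add_mem endGr_one (hC x.1.2)) (fun x hx => hx.1)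
  have hpres : ∀ f ∈ U', Ψ f ∈ presSet e d P₁ P₀ := by
    intro f hf
    obtain ⟨h1, h2, h3⟩ := hch f hf
    refine ⟨f, { toFun := fun x => Q f x, map_add' := fun x y => map_add (Q f) x y,
                 map_smul' := fun a x => h1 a x }, fun v => ⟨s v, h2 v⟩, ?_⟩
    ext x
    exact (h3 x).symm
  haveI : Module.Free K C := Module.Free.of_divisionRing K C
  haveI : Module.Free K W := Module.Free.of_divisionRing K W
  have hdim : finrank K C + finrank K W = finrank K (C × W) := Module.finrank_prod.symm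
  rw [hdim]
  refine le_krullDim_of_injective isZ_coordRing Rep.lin coordRing_lin hU hF
    (fun x hx => hT (presSet_orbit (hpres _ hx.2) (hF' x hx).1)) ?_
  rintro ⟨c, w⟩ r S hS hr h hr0
  have hF0 : (F 0).lin = ρ₀.lin := by
    refine LinearMap.ext fun a => ?_
    have h1 := (hF' 0 hU.mem).2 a
    have h2 : f₀ + ((0 : C × W).2 : P₁ →ₗ[A] P₀) = f₀ := add_zero _
    rw [h2, hΨ0] at h1
    have h3 : (F 0).act a = ρ₀.act a := by simpa using h1
    exact h3
  have hSU : ∀ t ∈ S, f₀ + t • w.1 ∈ U' := fun t ht => (h t ht).1.2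
  have hf0' : f₀ + (0 : K) • w.1 = f₀ := by rw [zero_smul, add_zero]
  obtain ⟨Q', hQ', hQQ⟩ := (hQ.comp_line f₀ w.1 hSU).quot hS
  simp only [hf0'] at hQQ
  -- (i)
  have i1 : ∀ u, Q' 0 (s u) = 0 := by
    intro u
    refine (hQ'.lin (LinearMap.applyₗ (s u))).eq_zero_of_ne hS ?_
    intro t ht ht0
    have h1 := LinearMap.congr_fun (hQQ t ht) (s u)
    rw [(hch _ (hSU t ht)).2.1 u, LinearMap.add_apply, (hch _ hf₀).2.1 u,
      LinearMap.smul_apply] at h1
    have h2 : t • Q' t (s u) = 0 := by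
      have := sub_eq_zero.2 h1
      rw [sub_add_cancel_left, neg_eq_zero] at this
      exact this
    exact (smul_eq_zero.1 h2).resolve_left ht0
  -- (ii)
  have i2 : ∀ y, Q' 0 (f₀ y) = - q₀ (w.1 y) := by
    intro y
    have hw : RegV (K := K) S (fun t : K => Q' t (f₀ y) + Q (f₀ + t • w.1) (w.1 y)) :=
      (hQ'.lin (LinearMap.applyₗ (f₀ y))).add
        ((hQ.comp_line f₀ w.1 hSU).lin (LinearMap.applyₗ (w.1 y)))
    have h1 := hw.eq_zero_of_ne hS (by
      intro t ht ht0
      have h2 : Q (f₀ + t • w.1) ((f₀ + t • w.1) y) = 0 :=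
        ((hch _ (hSU t ht)).2.2 _).2 ⟨y, rfl⟩
      have h3 : Q f₀ (f₀ y) = 0 := ((hch _ hf₀).2.2 _).2 ⟨y, rfl⟩
      have h4 : (f₀ + t • w.1) y = f₀ y + t • w.1 y := rfl
      rw [h4, map_add, map_smul] at h2
      have h5 := LinearMap.congr_fun (hQQ t ht) (f₀ y)
      rw [LinearMap.add_apply, h3, zero_add, LinearMap.smul_apply] at h5
      rw [h5, ← smul_add] at h2
      exact (smul_eq_zero.1 h2).resolve_left ht0)
    rw [hf0', hQ0] at h1
    exact eq_neg_of_add_eq_zero_left h1
  -- (iii)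
  have i0 : ∀ a u, Q f₀ (a • s u) = ρ₀.act a u := by
    intro a u
    rw [(hch _ hf₀).1, (hch _ hf₀).2.1, hΨ0]
  have i3 : ∀ a u, Q' 0 (a • s u) = ρ₀.act a (c.1 u) - c.1 (ρ₀.act a u) := by
    intro a u
    have hra : RegV (K := K) S (fun t : K => r t a) := hr.lin (LinearMap.applyₗ a)
    have hlin : RegV (K := K) S (fun t : K => u + t • c.1 u) := (RegV.const _).add (RegV.line _)
    have hq1 : RegV (K := K) S (fun t : K => Q' t (a • s u)) :=
      hQ'.lin (LinearMap.applyₗ (a • s u))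
    have hid : (fun t : K => t) ∈ regOn K S := regOn_poly polyFun_id
    have hw : RegV (K := K) S (fun t : K => (ρ₀.act a (c.1 u) + r t a (u + t • c.1 u)) -
        (Q' t (a • s u) + (c.1 (ρ₀.act a u) + t • c.1 (Q' t (a • s u))))) :=
      ((RegV.const _).add (hra.apply hlin)).sub
        (hq1.add ((RegV.const _).add (RegV.smul hid (hq1.lin c.1))))
    have h1 := hw.eq_zero_of_ne hS (by
      intro t ht ht0
      have h2 := LinearMap.congr_fun ((hF' (t • (c, w)) (h t ht).1).2 a) u
      have h3 : (F (t • (c, w))).act a = ρ₀.act a + t • r t a := by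
        have := LinearMap.congr_fun (h t ht).2 a
        rw [hF0] at this
        exact this
      have h4 : ((t • (c, w) : C × W).1 : Module.End K (Vec K d)) = t • c.1 := rfl
      have h4' : ((t • (c, w) : C × W).2 : P₁ →ₗ[A] P₀) = t • w.1 := rfl
      rw [h3, h4, h4'] at h2
      have h5 : (Ψ (f₀ + t • w.1)).act a u = ρ₀.act a u + t • Q' t (a • s u) := by
        have e1 := (hch _ (hSU t ht)).1 a (s u)
        rw [(hch _ (hSU t ht)).2.1] at e1
        rw [← e1, hQQ t ht, LinearMap.add_apply, i0, LinearMap.smul_apply]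
      rw [Module.End.mul_apply, Module.End.mul_apply, h5] at h2
      have h6 : t • ((ρ₀.act a (c.1 u) + r t a (u + t • c.1 u)) -
          (Q' t (a • s u) + (c.1 (ρ₀.act a u) + t • c.1 (Q' t (a • s u))))) = 0 := by
        have e2 : (ρ₀.act a + t • r t a) ((1 + t • c.1) u) =
            ρ₀.act a u + t • (ρ₀.act a (c.1 u) + r t a (u + t • c.1 u)) := by
          simp only [LinearMap.add_apply, LinearMap.smul_apply, Module.End.one_apply, map_add,
            map_smul, smul_add]
          abel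
        have e3 : (1 + t • c.1) (ρ₀.act a u + t • Q' t (a • s u)) = ρ₀.act a u +
            t • (Q' t (a • s u) + (c.1 (ρ₀.act a u) + t • c.1 (Q' t (a • s u)))) := by
          simp only [LinearMap.add_apply, LinearMap.smul_apply, Module.End.one_apply, map_add,
            map_smul, smul_add]
          abel
        rw [e2, e3] at h2
        rw [smul_sub, add_left_cancel h2, sub_self]
      exact (smul_eq_zero.1 h6).resolve_left ht0)
    rw [hr0] at h1
    simp only [LinearMap.zero_apply, add_zero, zero_smul] at h1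
    have h7 := sub_eq_zero.1 h1
    rw [h7]
    simp
  -- (iv)
  obtain ⟨qv, hqv⟩ : ∃ qv : P₀ → Vec K d, ∀ x, qv x = q₀ x := ⟨fun x => q₀ x, fun x => rfl⟩
  have qv_add : ∀ x y, qv (x + y) = qv x + qv y := fun x y => by
    rw [hqv, hqv, hqv]; exact map_add q₀ x y
  have qv_smul : ∀ (a : A) x, qv (a • x) = ρ₀.act a (qv x) := fun a x => by
    rw [hqv, hqv]; exact map_smul q₀ a x
  have qv_s : ∀ u, qv (s u) = u := fun u => by
    rw [hqv, ← hQ0]; exact (hch _ hf₀).2.1 u
  have qv_f : ∀ y, qv (f₀ y) = 0 := by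
    intro y
    have : f₀ y ∈ LinearMap.ker q₀ := by rw [← hex]; exact ⟨y, rfl⟩
    rw [hqv]
    exact this
  have i2' : ∀ y, Q' 0 (f₀ y) = - qv (w.1 y) := fun y => by rw [i2, hqv]; rfl
  have hdec : ∀ x : P₀, ∃ u y, x = s u + f₀ y := by
    intro x
    have h1 : x - s (qv x) ∈ LinearMap.ker q₀ := by
      rw [LinearMap.mem_ker, map_sub, sub_eq_zero, ← hqv, ← hqv, qv_s]
    rw [← hex] at h1
    obtain ⟨y, hy⟩ := h1
    exact ⟨qv x, y, by rw [hy]; abel⟩
  let lam : P₀ →ₗ[A] ρ₀.Mod :=
    { toFun := fun x => (Q' 0 x + c.1 (qv x) : Vec K d)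
      map_add' := fun x y => by
        change Q' 0 (x + y) + c.1 (qv (x + y)) = (Q' 0 x + c.1 (qv x)) + (Q' 0 y + c.1 (qv y))
        rw [map_add, qv_add, map_add]
        abel
      map_smul' := fun a x => by
        change Q' 0 (a • x) + c.1 (qv (a • x)) = ρ₀.act a (Q' 0 x + c.1 (qv x))
        obtain ⟨u, y, rfl⟩ := hdec x
        have e0 : Q' 0 (s u + f₀ y) = - qv (w.1 y) := by rw [map_add, i1, i2', zero_add]
        rw [qv_smul, qv_add, qv_s, qv_f, add_zero, e0, smul_add, map_add, ← map_smul f₀, i3, i2',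
          map_smul w.1, qv_smul, map_add, map_neg]
        abel }
  obtain ⟨α, hα⟩ := Module.projective_lifting_property q₀ lam hq
  have hα' : ∀ x, qv (α x) = Q' 0 x + c.1 (qv x) := fun x => by
    rw [hqv]; exact LinearMap.congr_fun hα x
  have hker : ∀ y, (w.1 + α ∘ₗ f₀) y ∈ LinearMap.range f₀ := by
    intro y
    rw [hex, LinearMap.mem_ker, ← hqv, LinearMap.add_apply, qv_add, LinearMap.comp_apply, hα',
      i2', qv_f, map_zero, add_zero]
    exact add_neg_cancel (qv (w.1 y))
  obtain ⟨β, hβ⟩ := Module.projective_lifting_property f₀.rangeRestrict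
    (LinearMap.codRestrict (LinearMap.range f₀) (w.1 + α ∘ₗ f₀) hker)
    f₀.surjective_rangeRestrict
  have hβ' : ∀ y, f₀ (β y) = w.1 y + α (f₀ y) := fun y =>
    congrArg Subtype.val (LinearMap.congr_fun hβ y)
  have hw0 : w.1 = 0 := by
    refine hW w.1 w.2 (-α) β (LinearMap.ext fun y => ?_)
    rw [LinearMap.add_apply, LinearMap.comp_apply, LinearMap.comp_apply, hβ', LinearMap.neg_apply]
    abel
  have hQ0' : ∀ x, Q' 0 x = 0 := by
    intro x
    obtain ⟨u, y, rfl⟩ := hdec x
    have e1 : qv 0 = 0 := by have := qv_f 0; rwa [map_zero] at this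
    rw [map_add, i1, i2', hw0, LinearMap.zero_apply, e1, neg_zero, add_zero]
  have hc : c.1 ∈ C ⊓ ρ₀.comm := by
    refine ⟨c.2, fun a => LinearMap.ext fun u => ?_⟩
    have := i3 a u
    rw [hQ0'] at this
    exact (sub_eq_zero.1 this.symm).symm
  rw [hC2] at hc
  have hc0 : c = 0 := Subtype.ext ((Submodule.mem_bot K).1 hc)
  have hw0' : w = 0 := Subtype.ext hw0
  rw [hc0, hw0']
  rfl

end Pool.Agent.Helper343_Tau
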