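import Mathlib
import Pool.Agent.Helper343_Tau.RepBasic

set_option autoImplicit false

open Module Pool.Agent.Helper793Bricks

namespace Pool.Agent.Helper343_Tau

variable {K : Type} [Field K] {A : Type} [Ring A] [Algebra K A] {n : ℕ} {e : Fin n → A}
  {d : Fin n → ℕ}

section aux

variable {P₁ P₀ : Type} [AddCommGroup P₁] [Module A P₁] [Module K P₁] [IsScalarTower K A P₁]
  [AddCommGroup P₀] [Module A P₀] [Module K P₀] [IsScalarTower K A P₀]

theorem isOpen_presSet_summand [Module.Projective A P₀] [Module.Finite A P₀] :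
    ∃ (m : ℕ) (p : (Fin m → A) →ₗ[A] P₀) (i : P₀ →ₗ[A] (Fin m → A)), ∀ x, p (i x) = x := by
  obtain ⟨m, p, hp⟩ := Module.Finite.exists_fin' A P₀
  obtain ⟨i, hi⟩ := Module.projective_lifting_property p LinearMap.id hp
  exact ⟨m, p, i, fun x => LinearMap.congr_fun hi x⟩

/-- a linear map out of a free module -/
theorem isOpen_presSet_expand {M : Type} [AddCommGroup M] [Module A M] {m : ℕ}
    (g : (Fin m → A) →ₗ[A] M) (y : Fin m → A) : g y = ∑ j, y j • g (Pi.single j 1) := by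
  conv_lhs => rw [← Finset.univ_sum_single y]
  rw [map_sum]
  refine Finset.sum_congr rfl fun j _ => ?_
  rw [← map_smul]
  congr 1
  funext i
  by_cases h : i = j
  · subst h; simp
  · simp [h]

/-- the map `x ↦ Σ_j T (i x j) (v j)`, linear in `T` -/
noncomputable def isOpen_presSet_qL {m : ℕ} (i : P₀ →ₗ[A] (Fin m → A)) (v : Fin m → Vec K d) :
    (A →ₗ[K] Module.End K (Vec K d)) →ₗ[K] (P₀ →ₗ[K] Vec K d) where
  toFun T :=
    { toFun := fun x => ∑ j, T (i x j) (v j)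
      map_add' := fun x y => by
        simp only [map_add, Pi.add_apply, LinearMap.add_apply, Finset.sum_add_distrib]
      map_smul' := fun c x => by
        have h : i (c • x) = c • i x := by
          rw [← algebraMap_smul A c x, map_smul, algebraMap_smul]
        simp only [h, Pi.smul_apply, map_smul, LinearMap.smul_apply, RingHom.id_apply,
          Finset.smul_sum] }
  map_add' S T := by
    refine LinearMap.ext fun x => ?_
    simp only [LinearMap.add_apply, LinearMap.coe_mk, AddHom.coe_mk, Finset.sum_add_distrib]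
  map_smul' c T := by
    refine LinearMap.ext fun x => ?_
    simp only [LinearMap.smul_apply, LinearMap.coe_mk, AddHom.coe_mk, RingHom.id_apply,
      Finset.smul_sum]

theorem isOpen_presSet_qL_apply {m : ℕ} (i : P₀ →ₗ[A] (Fin m → A)) (v : Fin m → Vec K d)
    (T : A →ₗ[K] Module.End K (Vec K d)) (x : P₀) :
    isOpen_presSet_qL i v T x = ∑ j, T (i x j) (v j) := rfl

/-- the map `y ↦ (i y j) • w`, linear in `w` -/
noncomputable def isOpen_presSet_phi {m : ℕ} (i : P₁ →ₗ[A] (Fin m → A)) (j : Fin m) :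
    P₀ →ₗ[K] (P₁ →ₗ[K] P₀) where
  toFun w :=
    { toFun := fun y => i y j • w
      map_add' := fun x y => by rw [map_add, Pi.add_apply, add_smul]
      map_smul' := fun c x => by
        have h : i (c • x) = c • i x := by
          rw [← algebraMap_smul A c x, map_smul, algebraMap_smul]
        rw [h, Pi.smul_apply, smul_assoc, RingHom.id_apply] }
  map_add' w w' := by
    refine LinearMap.ext fun x => ?_
    exact smul_add _ _ _
  map_smul' c w := by
    refine LinearMap.ext fun x => ?_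
    change i x j • c • w = c • i x j • w
    rw [← algebraMap_smul A c w, ← algebraMap_smul A c (i x j • w), smul_smul, smul_smul,
      Algebra.commutes]

theorem isOpen_presSet_phi_apply {m : ℕ} (i : P₁ →ₗ[A] (Fin m → A)) (j : Fin m) (w : P₀)
    (y : P₁) : isOpen_presSet_phi (K := K) i j w y = i y j • w := rfl

end aux

/-- TARGET -/
theorem isOpen_presSet [FiniteDimensional K A]
    {P₁ P₀ : Type} [AddCommGroup P₁] [Module A P₁] [Module K P₁] [IsScalarTower K A P₁]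
    [FiniteDimensional K P₁] [Module.Projective A P₁] [Module.Finite A P₁]
    [AddCommGroup P₀] [Module A P₀] [Module K P₀] [IsScalarTower K A P₀]
    [FiniteDimensional K P₀] [Module.Projective A P₀] [Module.Finite A P₀] :
    IsOpen (presSet e d P₁ P₀ : Set (Rep K A e d)) := by
  rw [isOpen_iff_forall_mem_open]
  intro ρ₀ hρ₀
  obtain ⟨f₀, q₀, hsurj, hex⟩ := hρ₀
  obtain ⟨m, p₀, i₀, hi₀⟩ := isOpen_presSet_summand (A := A) (P₀ := P₀)
  obtain ⟨l, p₁, i₁, hi₁⟩ := isOpen_presSet_summand (A := A) (P₀ := P₁)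
  obtain ⟨v, hv⟩ : ∃ v : Fin m → Vec K d, ∀ j, v j = q₀ (p₀ (Pi.single j 1)) :=
    ⟨fun j => q₀ (p₀ (Pi.single j 1)), fun _ => rfl⟩
  obtain ⟨Q, hQ⟩ : ∃ Q : (A →ₗ[K] Module.End K (Vec K d)) →ₗ[K] (P₀ →ₗ[K] Vec K d),
      ∀ T x, Q T x = ∑ j, T (i₀ x j) (v j) :=
    ⟨isOpen_presSet_qL (K := K) (d := d) i₀ v, fun _ _ => rfl⟩
  have hQ0 : ∀ x, Q ρ₀.lin x = q₀ x := by
    intro x
    have h1 := isOpen_presSet_expand (q₀ ∘ₗ p₀) (i₀ x)
    rw [LinearMap.comp_apply, hi₀] at h1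
    rw [h1, hQ]
    refine Finset.sum_congr rfl fun j _ => ?_
    rw [hv]
    rfl
  have hQs : Function.Surjective (Q ρ₀.lin) := by
    intro y
    obtain ⟨x, hx⟩ := hsurj y
    exact ⟨x, (hQ0 x).trans hx⟩
  obtain ⟨s, hs⟩ := (Q ρ₀.lin).exists_rightInverse_of_surjective (LinearMap.range_eq_top.2 hQs)
  have hQreg : ∀ U : Set (A →ₗ[K] Module.End K (Vec K d)), RegV (K := K) U (fun T => Q T) :=
    fun U => RegV.linear (K := K) (V := A →ₗ[K] Module.End K (Vec K d))
      (E := P₀ →ₗ[K] Vec K d) Q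
  -- the first neighbourhood
  have hB1 : ∀ U : Set (A →ₗ[K] Module.End K (Vec K d)), RegV (K := K) U (fun T => Q T ∘ₗ s) :=
    fun U => RegV.comp (RegV.const s) (hQreg U)
  set N₁ : Set (A →ₗ[K] Module.End K (Vec K d)) :=
    {T | T ∈ Set.univ ∧ LinearMap.det (Q T ∘ₗ s) ≠ 0} with hN₁
  have hN₁nb : Nb K ρ₀.lin N₁ := by
    refine Nb.of_reg (Nb.univ _) (regOn_lmdet (hB1 _)) ?_
    change LinearMap.det (Q ρ₀.lin ∘ₗ s) ≠ 0
    rw [hs, LinearMap.det_id]
    exact one_ne_zero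
  obtain ⟨G, hG, hGinv⟩ := (hB1 N₁).exists_inverse (fun T hT => hT.2)
  obtain ⟨κ, hκ, hκ_apply⟩ : ∃ κ : (A →ₗ[K] Module.End K (Vec K d)) → (P₀ →ₗ[K] P₀),
      RegV (K := K) N₁ κ ∧ ∀ T x, κ T x = x - s (G T (Q T x)) :=
    ⟨fun T => LinearMap.id - s ∘ₗ (G T ∘ₗ Q T),
      (RegV.const _).sub (((hQreg N₁).comp hG).comp (RegV.const s)), fun T x => rfl⟩
  have hBG : ∀ T ∈ N₁, ∀ y, Q T (s (G T y)) = y := fun T hT y =>
    LinearMap.congr_fun (hGinv T hT).2 y
  have hQκ : ∀ T ∈ N₁, ∀ x, Q T (κ T x) = 0 := by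
    intro T hT x
    rw [hκ_apply, map_sub, hBG T hT, sub_self]
  -- the maps `P₁ → P₀`
  obtain ⟨u, hu⟩ : ∃ u : Fin l → P₀, ∀ j, u j = f₀ (p₁ (Pi.single j 1)) :=
    ⟨fun j => f₀ (p₁ (Pi.single j 1)), fun _ => rfl⟩
  obtain ⟨FL, hFL, hFL_apply⟩ : ∃ FL : (A →ₗ[K] Module.End K (Vec K d)) → (P₁ →ₗ[K] P₀),
      RegV (K := K) N₁ FL ∧ ∀ T y, FL T y = ∑ j, i₁ y j • κ T (u j) := by
    refine ⟨fun T => ∑ j, isOpen_presSet_phi (K := K) i₁ j (κ T (u j)),
      RegV.sum _ fun j _ => (hκ.lin (LinearMap.applyₗ (u j))).lin _, ?_⟩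
    intro T y
    simp only [LinearMap.sum_apply, isOpen_presSet_phi_apply]
  have hFL0 : ∀ y, FL ρ₀.lin y = f₀ y := by
    intro y
    have h1 := isOpen_presSet_expand (f₀ ∘ₗ p₁) (i₁ y)
    rw [LinearMap.comp_apply, hi₁] at h1
    rw [h1, hFL_apply]
    refine Finset.sum_congr rfl fun j _ => ?_
    have h2 : Q ρ₀.lin (u j) = 0 := by
      rw [hQ0]
      have : u j ∈ LinearMap.ker q₀ := by
        rw [← hex, hu]
        exact ⟨_, rfl⟩
      exact this
    rw [hκ_apply, h2, map_zero, map_zero, sub_zero, hu]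
    rfl
  have hQs' : ∀ T ∈ N₁, Function.Surjective (Q T) := fun T hT y => ⟨_, hBG T hT y⟩
  have hfin : ∀ T ∈ N₁, finrank K (LinearMap.ker (Q T)) + finrank K (Vec K d) =
      finrank K P₀ := by
    intro T hT
    have h1 := LinearMap.finrank_range_add_finrank_ker (Q T)
    rw [LinearMap.range_eq_top.2 (hQs' T hT), finrank_top] at h1
    omega
  have hlin : ∀ (ρ : Rep K A e d) (a : A) (x : P₀),
      Q ρ.lin (a • x) = ρ.act a (Q ρ.lin x) := by
    intro ρ a x
    rw [hQ, hQ, map_sum]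
    refine Finset.sum_congr rfl fun j _ => ?_
    rw [map_smul, Pi.smul_apply, smul_eq_mul, Rep.lin_apply, Rep.lin_apply, map_mul]
    rfl
  have hFQ : ∀ T ∈ N₁, ∀ ρ : Rep K A e d, ρ.lin = T → ∀ y, Q T (FL T y) = 0 := by
    rintro T hT ρ rfl y
    rw [hFL_apply, map_sum]
    refine Finset.sum_eq_zero fun j _ => ?_
    rw [hlin, hQκ _ hT, map_zero]
  -- the second neighbourhood
  obtain ⟨R, hRdef⟩ : ∃ R, R = LinearMap.range (FL ρ₀.lin) := ⟨_, rfl⟩
  obtain ⟨r, hr⟩ : ∃ r : R →ₗ[K] P₁, ∀ x : R, FL ρ₀.lin (r x) = (x : P₀) := by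
    subst hRdef
    obtain ⟨r, hr⟩ := (FL ρ₀.lin).rangeRestrict.exists_rightInverse_of_surjective
      (LinearMap.range_rangeRestrict _)
    exact ⟨r, fun x => congrArg Subtype.val (LinearMap.congr_fun hr x)⟩
  obtain ⟨t, ht⟩ := R.subtype.exists_leftInverse_of_injective (Submodule.ker_subtype R)
  have hD : RegV (K := K) N₁ (fun T => t ∘ₗ (FL T ∘ₗ r)) :=
    ((RegV.const r).comp hFL).comp (RegV.const t)
  have hD0 : t ∘ₗ (FL ρ₀.lin ∘ₗ r) = LinearMap.id := by
    refine LinearMap.ext fun x => ?_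
    have h1 : (FL ρ₀.lin) (r x) = (x : P₀) := hr x
    have h4 := LinearMap.congr_fun ht x
    rw [LinearMap.comp_apply, LinearMap.comp_apply, h1]
    exact h4
  have hN : Nb K ρ₀.lin {T | T ∈ N₁ ∧ LinearMap.det (t ∘ₗ (FL T ∘ₗ r)) ≠ 0} := by
    refine Nb.of_reg hN₁nb (regOn_lmdet hD) ?_
    change LinearMap.det (t ∘ₗ (FL ρ₀.lin ∘ₗ r)) ≠ 0
    rw [hD0, LinearMap.det_id]
    exact one_ne_zero
  obtain ⟨O, hO, hO0, hOs⟩ := exists_open_of_nb hN
  refine ⟨O, ?_, hO, hO0⟩
  intro ρ hρ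
  obtain ⟨hρ1, hρ2⟩ := hOs ρ hρ
  -- equality of range and kernel
  have hinj : Function.Injective (FL ρ.lin ∘ₗ r) := by
    have h1 : IsUnit (t ∘ₗ (FL ρ.lin ∘ₗ r) : Module.End K R) :=
      (LinearMap.isUnit_iff_isUnit_det _).2 hρ2.isUnit
    have h2 : Function.Injective (t ∘ₗ (FL ρ.lin ∘ₗ r)) :=
      ((Module.End.isUnit_iff _).1 h1).1
    exact Function.Injective.of_comp h2
  have hRk : finrank K R = finrank K (LinearMap.ker (Q ρ₀.lin)) := by
    have h1 : R = LinearMap.ker (Q ρ₀.lin) := by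
      rw [hRdef]
      ext x
      constructor
      · rintro ⟨y, rfl⟩
        rw [LinearMap.mem_ker, hQ0, hFL0]
        have : f₀ y ∈ LinearMap.ker q₀ := by
          rw [← hex]
          exact ⟨_, rfl⟩
        exact this
      · intro hx
        rw [LinearMap.mem_ker, hQ0] at hx
        have h2 : x ∈ LinearMap.ker q₀ := hx
        rw [← hex] at h2
        obtain ⟨y, hy⟩ := h2
        exact ⟨y, (hFL0 y).trans hy⟩
    rw [h1]
  have hrank : finrank K R ≤ finrank K (LinearMap.range (FL ρ.lin)) := by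
    have h1 : finrank K R = finrank K (LinearMap.range (FL ρ.lin ∘ₗ r)) :=
      (LinearMap.finrank_range_of_inj hinj).symm
    rw [h1]
    exact Submodule.finrank_mono (LinearMap.range_comp_le_range _ _)
  have hle : LinearMap.range (FL ρ.lin) ≤ LinearMap.ker (Q ρ.lin) := by
    rintro _ ⟨y, rfl⟩
    exact hFQ _ hρ1 ρ rfl y
  have heq : LinearMap.range (FL ρ.lin) = LinearMap.ker (Q ρ.lin) := by
    apply Submodule.eq_of_le_of_finrank_le hle
    have h1 := hfin _ hρ1
    have h2 := hfin _ hN₁nb.mem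
    omega
  refine ⟨{ toFun := fun y => FL ρ.lin y
            map_add' := fun x y => map_add _ x y
            map_smul' := fun a y => ?_ },
    { toFun := fun x => Q ρ.lin x
      map_add' := fun x y => map_add (Q ρ.lin) x y
      map_smul' := fun a x => ?_ }, ?_, ?_⟩
  · rw [hFL_apply, hFL_apply, RingHom.id_apply, Finset.smul_sum]
    refine Finset.sum_congr rfl fun j _ => ?_
    rw [map_smul, Pi.smul_apply, smul_eq_mul, mul_smul]
  · exact hlin ρ a x
  · exact hQs' _ hρ1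
  · ext x
    constructor
    · rintro ⟨y, hy⟩
      have h1 : x ∈ LinearMap.range (FL ρ.lin) := ⟨y, hy⟩
      rw [heq] at h1
      exact h1
    · intro hx
      have h1 : x ∈ LinearMap.ker (Q ρ.lin) := hx
      rw [← heq] at h1
      obtain ⟨y, hy⟩ := h1
      exact ⟨y, hy⟩

end Pool.Agent.Helper343_Tau
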