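import Mathlib
import Pool.Agent.Helper343_Tau.RepBasic

/-
JOB RE (for MP_50148c_al, owner helper343): every finite-dimensional module is a point of some
Rep(A, d); two points presented by the same map are in the same orbit; complements.
-/

set_option autoImplicit false

open Module Pool.Agent.Helper793Bricks

namespace Pool.Agent.Helper343_Tau

/-- TARGET 1 -/
theorem exists_rep_equiv {K : Type} [Field K] {A : Type} [Ring A] [Algebra K A] {n : ℕ}
    {e : Fin n → A} (he : CompleteOrthogonalIdempotents e) (M : Type) [AddCommGroup M]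
    [Module A M] [Module K M] [IsScalarTower K A M] [FiniteDimensional K M] :
    ∃ (d : Fin n → ℕ) (ρ : Rep K A e d), Nonempty (M ≃ₗ[A] ρ.Mod) := by
  classical
  let L : A →ₐ[K] Module.End K M := Algebra.lsmul K K M
  have hL : ∀ a v, L a v = a • v := fun a v => rfl
  let N : Fin n → Submodule K M := fun i => LinearMap.range (L (e i))
  let d : Fin n → ℕ := fun i => finrank K (N i)
  let β : ∀ i, N i ≃ₗ[K] (Fin (d i) → K) := fun i => (Module.finBasis K (N i)).equivFun
  have hfix : ∀ i (m : N i), e i • (m : M) = m := by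
    rintro i ⟨m, v, rfl⟩
    change e i • e i • v = e i • v
    rw [← mul_smul, (he.idem i).eq]
  have hzero : ∀ i j (m : N i), j ≠ i → e j • (m : M) = 0 := by
    rintro i j ⟨m, v, rfl⟩ hij
    change e j • e i • v = 0
    rw [← mul_smul, he.ortho hij, zero_smul]
  let Φ : M ≃ₗ[K] (∀ i, Fin (d i) → K) :=
    { toFun := fun v i => β i ⟨e i • v, ⟨v, rfl⟩⟩
      map_add' := by
        intro v w
        funext i
        rw [Pi.add_apply, ← map_add]
        congr 1
        exact Subtype.ext (smul_add _ _ _)
      map_smul' := by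
        intro c v
        funext i
        rw [RingHom.id_apply, Pi.smul_apply, ← map_smul]
        congr 1
        exact Subtype.ext (smul_comm _ _ _)
      invFun := fun w => ∑ i, ((β i).symm (w i) : M)
      left_inv := by
        intro v
        change ∑ i, ((β i).symm (β i ⟨e i • v, ⟨v, rfl⟩⟩) : M) = v
        simp only [LinearEquiv.symm_apply_apply]
        rw [← Finset.sum_smul, he.complete, one_smul]
      right_inv := by
        intro w
        funext j
        have h1 : e j • ∑ i, ((β i).symm (w i) : M) = (β j).symm (w j) := by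
          rw [Finset.smul_sum, Finset.sum_eq_single j]
          · exact hfix j _
          · intro i _ hij
            exact hzero i j _ hij.symm
          · simp
        have h2 : (⟨e j • ∑ i, ((β i).symm (w i) : M), ⟨_, rfl⟩⟩ : N j) = (β j).symm (w j) :=
          Subtype.ext h1
        change β j ⟨e j • ∑ i, ((β i).symm (w i) : M), ⟨_, rfl⟩⟩ = w j
        rw [h2, LinearEquiv.apply_symm_apply] }
  have hΦ : ∀ v i, Φ v i = β i ⟨e i • v, ⟨v, rfl⟩⟩ := fun v i => rfl
  let act : A →ₐ[K] Module.End K (∀ i, Fin (d i) → K) :=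
    AlgHom.ofLinearMap
      { toFun := fun a => Φ.toLinearMap ∘ₗ L a ∘ₗ Φ.symm.toLinearMap
        map_add' := by
          intro a b
          refine LinearMap.ext fun v => ?_
          simp [add_smul, hL]
        map_smul' := by
          intro c a
          refine LinearMap.ext fun v => ?_
          simp [hL] }
      (by
        refine LinearMap.ext fun v => ?_
        simp [hL])
      (by
        intro a b
        refine LinearMap.ext fun v => ?_
        simp [hL, mul_smul])
  have hact : ∀ a v, act a v = Φ (a • Φ.symm v) := fun a v => rfl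
  refine ⟨d, ⟨act, ?_⟩, ⟨?_⟩⟩
  · intro i v
    rw [hact]
    funext j
    rw [hΦ]
    by_cases hij : j = i
    · subst hij
      rw [Pi.single_eq_same]
      have h1 : (⟨e j • e j • Φ.symm v, ⟨_, rfl⟩⟩ : N j) = ⟨e j • Φ.symm v, ⟨_, rfl⟩⟩ := by
        apply Subtype.ext
        change e j • e j • Φ.symm v = e j • Φ.symm v
        rw [← mul_smul, (he.idem j).eq]
      rw [h1, ← hΦ, LinearEquiv.apply_symm_apply]
    · rw [Pi.single_eq_of_ne hij]
      have h1 : (⟨e j • e i • Φ.symm v, ⟨_, rfl⟩⟩ : N j) = 0 := by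
        apply Subtype.ext
        change e j • e i • Φ.symm v = 0
        rw [← mul_smul, he.ortho hij, zero_smul]
      rw [h1, map_zero]
  · exact
      { toFun := fun v => Φ v
        map_add' := fun v w => Φ.map_add v w
        map_smul' := by
          intro a v
          change Φ (a • v) = act a (Φ v)
          rw [hact, LinearEquiv.symm_apply_apply]
        invFun := fun w => Φ.symm w
        left_inv := fun v => Φ.symm_apply_apply v
        right_inv := fun w => Φ.apply_symm_apply w }

variable {K : Type} [Field K] {A : Type} [Ring A] [Algebra K A] {n : ℕ} {e : Fin n → A}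
  {d : Fin n → ℕ}

/-- TARGET 2 -/
theorem mem_orbit_of_ker_eq {P₀ : Type} [AddCommGroup P₀] [Module A P₀] {ρ σ : Rep K A e d}
    (q : P₀ →ₗ[A] ρ.Mod) (q' : P₀ →ₗ[A] σ.Mod) (hq : Function.Surjective q)
    (hq' : Function.Surjective q') (h : LinearMap.ker q = LinearMap.ker q') : σ ∈ orbit ρ :=
  ⟨((q.quotKerEquivOfSurjective hq).symm.trans (Submodule.quotEquivOfEq _ _ h)).trans
    (q'.quotKerEquivOfSurjective hq')⟩

/-- TARGET 3 -/
theorem exists_compl_comm (ρ : Rep K A e d) :
    ∃ C : Submodule K (Module.End K (Vec K d)), C ≤ endGr K d ∧ C ⊓ ρ.comm = ⊥ ∧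
      (∀ g ∈ endGr K d, ∃ c ∈ C, ∃ x ∈ ρ.comm, g = c + x) ∧
      finrank K C + finrank K ρ.comm = finrank K (endGr K d) := by
  obtain ⟨C', hC'⟩ := exists_isCompl ρ.comm
  have h1 : (C' ⊓ endGr K d) ⊓ ρ.comm = ⊥ := by
    rw [eq_bot_iff]
    intro g hg
    have : g ∈ ρ.comm ⊓ C' := ⟨hg.2, hg.1.1⟩
    rwa [hC'.inf_eq_bot] at this
  have h2 : ∀ g ∈ endGr K d, ∃ c ∈ C' ⊓ endGr K d, ∃ x ∈ ρ.comm, g = c + x := by
    intro g hg
    have h3 : g ∈ ρ.comm ⊔ C' := by rw [hC'.sup_eq_top]; trivial
    obtain ⟨x, hx, c, hc, hxc⟩ := Submodule.mem_sup.1 h3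
    refine ⟨c, ⟨hc, ?_⟩, x, hx, by rw [← hxc, add_comm]⟩
    have h4 : c = g - x := by rw [← hxc]; abel
    rw [h4]
    exact Submodule.sub_mem _ hg (ρ.comm_le_endGr hx)
  refine ⟨C' ⊓ endGr K d, inf_le_right, h1, h2, ?_⟩
  have h5 : (C' ⊓ endGr K d) ⊔ ρ.comm = endGr K d := by
    apply le_antisymm
    · exact sup_le inf_le_right ρ.comm_le_endGr
    · intro g hg
      obtain ⟨c, hc, x, hx, rfl⟩ := h2 g hg
      exact Submodule.add_mem_sup hc hx
  have h6 := Submodule.finrank_sup_add_finrank_inf_eq (C' ⊓ endGr K d) ρ.comm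
  rw [h5, h1, finrank_bot, add_zero] at h6
  exact h6.symm

end Pool.Agent.Helper343_Tau
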