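import Mathlib
import Pool.Agent.Helper343_Tau.RepBasic

/-!
Semicontinuity of kernels and of the dimension of the endomorphism algebra (job 1848 of helper343,
MP_50148c_al).
-/

set_option autoImplicit false

open Module Pool.Agent.Helper793Bricks

namespace Pool.Agent.Helper343_Tau

/-- TARGET 1 -/
theorem nb_finrank_ker_le {K : Type} [Field K] {W E₁ E₂ : Type} [AddCommGroup W] [Module K W]
    [AddCommGroup E₁] [Module K E₁] [FiniteDimensional K E₁]
    [AddCommGroup E₂] [Module K E₂] [FiniteDimensional K E₂] {U : Set W} {x₀ : W}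
    (hU : Nb K x₀ U) {B : W → (E₁ →ₗ[K] E₂)} (hB : RegV (K := K) U B) :
    Nb K x₀ {x | x ∈ U ∧ finrank K (LinearMap.ker (B x)) ≤ finrank K (LinearMap.ker (B x₀))} := by
  obtain ⟨C, hC⟩ := Submodule.exists_isCompl (LinearMap.ker (B x₀))
  have hinj : LinearMap.ker ((B x₀) ∘ₗ C.subtype) = ⊥ := by
    rw [LinearMap.ker_eq_bot']
    intro c hc
    have h1 : (c : E₁) ∈ LinearMap.ker (B x₀) := hc
    exact Subtype.ext ((Submodule.disjoint_def.mp hC.disjoint) c h1 c.2)
  obtain ⟨χ, hχ⟩ := LinearMap.exists_leftInverse_of_injective ((B x₀) ∘ₗ C.subtype) hinj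
  let L : (E₁ →ₗ[K] E₂) →ₗ[K] Module.End K C :=
    { toFun := fun T => χ ∘ₗ (T ∘ₗ C.subtype)
      map_add' := fun T S => by
        refine LinearMap.ext fun c => ?_
        simp
      map_smul' := fun r T => by
        refine LinearMap.ext fun c => ?_
        simp }
  have hR : RegV (K := K) U (fun x => L (B x)) := hB.lin L
  have hdet := regOn_lmdet hR
  have hx : LinearMap.det (L (B x₀)) ≠ 0 := by
    have : L (B x₀) = LinearMap.id := hχ
    rw [this, LinearMap.det_id]
    exact one_ne_zero
  refine (hU.of_reg hdet hx).mono ?_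
  rintro x ⟨hxU, hx⟩
  refine ⟨hxU, ?_⟩
  have hk : LinearMap.ker (L (B x)) = ⊥ := by
    by_contra hne
    exact hx (LinearMap.det_eq_zero_iff_ker_ne_bot.mpr hne)
  have hdis : Disjoint (LinearMap.ker (B x)) C := by
    rw [Submodule.disjoint_def]
    intro c hc1 hc2
    have h1 : L (B x) ⟨c, hc2⟩ = 0 := by
      change χ (B x c) = 0
      rw [LinearMap.mem_ker.mp hc1, map_zero]
    have h2 := (LinearMap.ker_eq_bot'.mp hk) _ h1
    exact congrArg Subtype.val h2
  have h3 := Submodule.finrank_add_finrank_le_of_disjoint hdis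
  have h4 := Submodule.finrank_add_eq_of_isCompl hC
  omega

section comm648

variable {K : Type} [Field K] {A : Type} [AddCommGroup A] [Module K A]
  {V : Type} [AddCommGroup V] [Module K V]

/-- The endomorphisms commuting with all `T a`. -/
def commOf (T : A →ₗ[K] Module.End K V) : Submodule K (Module.End K V) where
  carrier := {g | ∀ a, g * T a = T a * g}
  add_mem' := by
    intro g h hg hh a
    rw [add_mul, mul_add, hg a, hh a]
  zero_mem' := by
    intro a
    rw [zero_mul, mul_zero]
  smul_mem' := by
    intro c g hg a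
    rw [smul_mul_assoc, mul_smul_comm, hg a]

theorem nb_commOf_le [FiniteDimensional K A] [FiniteDimensional K V]
    (T₀ : A →ₗ[K] Module.End K V) :
    Nb K T₀ {T | finrank K (commOf T) ≤ finrank K (commOf T₀)} := by
  let Φ : (A →ₗ[K] Module.End K V) →ₗ[K]
      (Module.End K V →ₗ[K] (A →ₗ[K] Module.End K V)) :=
    LinearMap.mk₂ K (fun T g => (LinearMap.mulLeft K g) ∘ₗ T - (LinearMap.mulRight K g) ∘ₗ T)
      (fun T S g => by
        refine LinearMap.ext fun a => ?_
        simp only [LinearMap.sub_apply, LinearMap.comp_apply, LinearMap.add_apply, map_add]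
        abel)
      (fun c T g => by
        refine LinearMap.ext fun a => ?_
        simp only [LinearMap.sub_apply, LinearMap.comp_apply, LinearMap.smul_apply, map_smul,
          smul_sub])
      (fun T g h => by
        refine LinearMap.ext fun a => ?_
        simp only [LinearMap.sub_apply, LinearMap.comp_apply, LinearMap.add_apply,
          LinearMap.mulLeft_apply, LinearMap.mulRight_apply, add_mul, mul_add]
        abel)
      (fun c T g => by
        refine LinearMap.ext fun a => ?_
        simp only [LinearMap.sub_apply, LinearMap.comp_apply, LinearMap.smul_apply,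
          LinearMap.mulLeft_apply, LinearMap.mulRight_apply, smul_mul_assoc, mul_smul_comm,
          smul_sub])
  have hker : ∀ T : A →ₗ[K] Module.End K V, commOf T = LinearMap.ker (Φ T) := by
    intro T
    ext g
    rw [LinearMap.mem_ker]
    constructor
    · intro h
      refine LinearMap.ext fun a => ?_
      change g * T a - T a * g = 0
      rw [h a, sub_self]
    · intro h a
      have h1 := LinearMap.congr_fun h a
      change g * T a - T a * g = 0 at h1
      exact sub_eq_zero.mp h1
  have hreg : RegV (K := K) (Set.univ : Set (A →ₗ[K] Module.End K V))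
      (fun T => Φ T) := by
    intro φ
    exact regOn_poly (polyFun_lin (φ ∘ₗ Φ))
  refine (nb_finrank_ker_le (Nb.univ T₀) hreg).mono ?_
  rintro T ⟨-, hT⟩
  change finrank K (commOf T) ≤ finrank K (commOf T₀)
  rw [hker, hker]
  exact hT

end comm648

variable {K : Type} [Field K] {A : Type} [Ring A] [Algebra K A] {n : ℕ} {e : Fin n → A}
  {d : Fin n → ℕ}

/-- TARGET 2 -/
theorem exists_open_comm_le [FiniteDimensional K A] (ρ₀ : Rep K A e d) :
    ∃ O : Set (Rep K A e d), IsOpen O ∧ ρ₀ ∈ O ∧
      ∀ ρ ∈ O, finrank K ρ.comm ≤ finrank K ρ₀.comm :=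
  exists_open_of_nb (nb_commOf_le ρ₀.lin)

end Pool.Agent.Helper343_Tau
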