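import Mathlib
import Pool.Agent.Helper343_Tau.RepBasic

/-
JOB SL (for MP_50148c_al, owner helper343): the orbit of a module lies in the closure of a slice.
All definitions are in Pool/Agent/Helper343_Tau/{Defs,Basic,Reg,Geom,RepBasic}.lean,
Pool/Agent/Helper793_Bricks/*.lean and Pool/Agent/Helper819/Zar.lean on origin/main (copy them to
the same paths in /workdir/pool and run: lake build Pool.Agent.Helper343_Tau.RepBasic).
Read Reg.lean (polyFun, Nb, ZDense, regOn, RegV and its closure properties RegV.lin / bilin / apply /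
comp / of_apply / exists_inverse, regOn_lmdet, Nb.of_reg, regOn_eq_zero), Geom.lean (RegMap,
RegMap.mem_closure, zDense_of_curves, le_krullDim) and RepBasic.lean first: they contain the tools.
PROOF in words. Let σ ∈ orbit ρ, with g, g' from exists_of_mem_orbit (g graded, invertible,
σ.act a * g = g * ρ.act a). Put g_t = 1 + t • (g - 1) ∈ endGr, g_0 = 1, g_1 = g. By
exists_conj_family (constant family ρ, on U = {t | det g_t ≠ 0}, which contains 0 and 1 and is the
nonvanishing locus of a regular function on K) there is F' : K → Rep regular on U with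
(F' t).act a * g_t = g_t * ρ.act a. F' 1 = σ (g is invertible, Rep.ext').
It is enough to show F' t ∈ T for all t in a neighbourhood S of 0 (then S is ZDense by Nb.zDense
and RegMap.mem_closure gives σ = F' 1 ∈ closure (F' '' (S ∩ U)) ⊆ closure T).
Let L : C × ρ.comm ≃ endGr K d, (c, x) ↦ x - c (injective by hC2, surjective by hC1 (replace c by
-c)). Let B_t : endGr → endGr, B_t (L (c, x)) = g_t * x - c; it is affine in t, B_0 = id. On a
neighbourhood of 0 it has a regular inverse G_t. Put (c_t, x_t) = L⁻¹ (G_t 1), regular in t near 0,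
so g_t * x_t = 1 + c_t; at t = 0: L (c_0, x_0) = 1 = L (0, 1), so x_0 = 1. det x_t ≠ 0 near 0.
So near 0: 1 + c_t = g_t * x_t is invertible, and (F' t).act a * (1 + c_t) = (F' t).act a * g_t * x_t
= g_t * ρ.act a * x_t = g_t * x_t * ρ.act a = (1 + c_t) * ρ.act a. By hT, F' t ∈ T.
-/

set_option autoImplicit false

open Module Pool.Agent.Helper793Bricks

namespace Pool.Agent.Helper343_Tau

variable {K : Type} [Field K] {A : Type} [Ring A] [Algebra K A] {n : ℕ} {e : Fin n → A}
  {d : Fin n → ℕ}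

/-- Solving `y + t N y = v` near `t = 0`. -/
theorem slice_solve {G : Type} [AddCommGroup G] [Module K G] [FiniteDimensional K G]
    (N : G →ₗ[K] G) (v : G) :
    ∃ (U1 : Set K) (y : K → G), Nb K (0 : K) U1 ∧ RegV (K := K) U1 y ∧ y 0 = v ∧
      ∀ t ∈ U1, y t + t • N (y t) = v := by
  let B : K → Module.End K G := fun t => 1 + t • N
  have hid : ∀ S : Set K, (fun t : K => t) ∈ regOn K S := fun S => regOn_poly polyFun_id
  have hB : ∀ S : Set K, RegV (K := K) S B := fun S =>
    (RegV.const 1).add (RegV.smul (hid S) (RegV.const N))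
  have hB0 : B 0 = 1 := by
    change 1 + (0 : K) • N = 1
    rw [zero_smul, add_zero]
  let U1 : Set K := {t | t ∈ Set.univ ∧ LinearMap.det (B t) ≠ 0}
  have hU1 : Nb K (0 : K) U1 :=
    Nb.of_reg (Nb.univ 0) (regOn_lmdet (hB Set.univ)) (by
      change LinearMap.det (B 0) ≠ 0
      rw [hB0, map_one]
      exact one_ne_zero)
  obtain ⟨Gi, hGi, hinv⟩ := (hB U1).exists_inverse (fun t ht => ht.2)
  refine ⟨U1, fun t => Gi t v, hU1, hGi.lin (LinearMap.applyₗ v), ?_, ?_⟩
  · have := (hinv 0 hU1.mem).1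
    rw [hB0, mul_one] at this
    change Gi 0 v = v
    rw [this]; rfl
  · intro t ht
    exact LinearMap.congr_fun (hinv t ht).2 v

/-- The slice equation in an abstract endomorphism algebra. -/
theorem slice_abs {V : Type} [AddCommGroup V] [Module K V] [FiniteDimensional K V]
    (G C D : Submodule K (Module.End K V)) (hC : C ≤ G) (hD : D ≤ G)
    (h1D : (1 : Module.End K V) ∈ D)
    (hC1 : ∀ g ∈ G, ∃ c ∈ C, ∃ x ∈ D, g = c + x) (hC2 : C ⊓ D = ⊥)
    (h : Module.End K V) (hh : ∀ x ∈ D, h * x ∈ G) :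
    ∃ (U2 : Set K) (cc xx : K → Module.End K V), Nb K (0 : K) U2 ∧ ∀ t ∈ U2, cc t ∈ C ∧
      xx t ∈ D ∧ LinearMap.det (xx t) ≠ 0 ∧ 1 + cc t = (1 + t • h) * xx t := by
  let L : (C × D) →ₗ[K] G :=
    { toFun := fun p => ⟨p.2.1 - p.1.1, G.sub_mem (hD p.2.2) (hC p.1.2)⟩
      map_add' := fun p q => Subtype.ext (by
        change (p.2.1 + q.2.1) - (p.1.1 + q.1.1) = (p.2.1 - p.1.1) + (q.2.1 - q.1.1)
        abel)
      map_smul' := fun c p => Subtype.ext (by
        change c • p.2.1 - c • p.1.1 = c • (p.2.1 - p.1.1)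
        rw [smul_sub]) }
  have hLinj : Function.Injective L := by
    rw [← LinearMap.ker_eq_bot, LinearMap.ker_eq_bot']
    rintro ⟨c, x⟩ h
    have h3 : x.1 - c.1 = 0 := congrArg Subtype.val h
    have h4 : x.1 = c.1 := sub_eq_zero.1 h3
    have h5 : c.1 ∈ C ⊓ D := ⟨c.2, h4 ▸ x.2⟩
    rw [hC2, Submodule.mem_bot] at h5
    exact Prod.ext (Subtype.ext h5) (Subtype.ext (h4.trans h5))
  have hLsurj : Function.Surjective L := by
    rintro ⟨y, hy⟩
    obtain ⟨c, hc, x, hx, rfl⟩ := hC1 y hy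
    exact ⟨(⟨-c, C.neg_mem hc⟩, ⟨x, hx⟩), Subtype.ext (by change x - -c = c + x; abel)⟩
  let Le : (C × D) ≃ₗ[K] G := LinearEquiv.ofBijective L ⟨hLinj, hLsurj⟩
  have hLe : ∀ y : G, (Le.symm y).2.1 - (Le.symm y).1.1 = y.1 := fun y =>
    congrArg Subtype.val (Le.apply_symm_apply y)
  let N : G →ₗ[K] G :=
    { toFun := fun y => ⟨h * (Le.symm y).2.1, hh _ (Le.symm y).2.2⟩
      map_add' := fun y z => Subtype.ext (by
        change h * (Le.symm (y + z)).2.1 = h * (Le.symm y).2.1 + h * (Le.symm z).2.1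
        rw [map_add, ← mul_add]
        rfl)
      map_smul' := fun c y => Subtype.ext (by
        change h * (Le.symm (c • y)).2.1 = c • (h * (Le.symm y).2.1)
        rw [map_smul, ← mul_smul_comm]
        rfl) }
  let one' : G := ⟨1, hD h1D⟩
  obtain ⟨U1, y, hU1, hy, hy0, hyt⟩ := slice_solve N one'
  let cc : K → Module.End K V := fun t => (Le.symm (y t)).1.1
  let xx : K → Module.End K V := fun t => (Le.symm (y t)).2.1
  have hxx : RegV (K := K) U1 xx :=
    hy.lin (D.subtype ∘ₗ LinearMap.snd K C D ∘ₗ Le.symm.toLinearMap)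
  have hx0 : xx 0 = 1 := by
    have e1 : Le (0, ⟨1, h1D⟩) = one' := Subtype.ext (by
      change (1 : Module.End K V) - 0 = 1
      rw [sub_zero])
    change (Le.symm (y 0)).2.1 = 1
    rw [hy0, ← e1, Le.symm_apply_apply]
  refine ⟨{t | t ∈ U1 ∧ LinearMap.det (xx t) ≠ 0}, cc, xx,
    Nb.of_reg hU1 (regOn_lmdet hxx) (by rw [hx0, map_one]; exact one_ne_zero), ?_⟩
  rintro t ⟨ht1, ht2⟩
  refine ⟨(Le.symm (y t)).1.2, (Le.symm (y t)).2.2, ht2, ?_⟩
  have e2 : (y t).1 + t • (h * xx t) = 1 := congrArg Subtype.val (hyt t ht1)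
  have e3 : xx t - cc t = (y t).1 := hLe (y t)
  rw [add_mul, one_mul, smul_mul_assoc, ← e2, ← e3]
  abel

/-- TARGET -/
theorem orbit_subset_closure_slice [Infinite K] [FiniteDimensional K A] (ρ : Rep K A e d)
    (C : Submodule K (Module.End K (Vec K d))) (hC : C ≤ endGr K d)
    (hC1 : ∀ g ∈ endGr K d, ∃ c ∈ C, ∃ x ∈ ρ.comm, g = c + x) (hC2 : C ⊓ ρ.comm = ⊥)
    (T : Set (Rep K A e d))
    (hT : ∀ c ∈ C, ∀ σ : Rep K A e d, LinearMap.det (1 + c) ≠ 0 →
      (∀ a, σ.act a * (1 + c) = (1 + c) * ρ.act a) → σ ∈ T) :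
    orbit ρ ⊆ closure T := by
  classical
  intro σ hσ
  obtain ⟨g, g', hg, h1, h2, hact⟩ := exists_of_mem_orbit hσ
  have hg1 : g - 1 ∈ endGr K d := (endGr K d).sub_mem hg endGr_one
  obtain ⟨U2, cc, xx, hU2, hsol⟩ := slice_abs (endGr K d) C ρ.comm hC ρ.comm_le_endGr
    ρ.one_mem_comm hC1 hC2 (g - 1) (fun x hx => endGr_mul hg1 (ρ.comm_le_endGr hx))
  have hid : ∀ S : Set K, (fun t : K => t) ∈ regOn K S := fun S => regOn_poly polyFun_id
  -- the family of conjugations
  let gt : K → Module.End K (Vec K d) := fun t => 1 + t • (g - 1)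
  have hgt : ∀ S : Set K, RegV (K := K) S gt := fun S =>
    (RegV.const 1).add (RegV.smul (hid S) (RegV.const (g - 1)))
  let U : Set K := {t | t ∈ Set.univ ∧ LinearMap.det (gt t) ≠ 0}
  have hgt0 : gt 0 = 1 := by
    change 1 + (0 : K) • (g - 1) = 1
    rw [zero_smul, add_zero]
  have hgt1 : gt 1 = g := by
    change 1 + (1 : K) • (g - 1) = g
    rw [one_smul]; abel
  have hU : Nb K (0 : K) U :=
    Nb.of_reg (Nb.univ 0) (regOn_lmdet (hgt Set.univ)) (by
      change LinearMap.det (gt 0) ≠ 0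
      rw [hgt0, map_one]
      exact one_ne_zero)
  have h1U : (1 : K) ∈ U := by
    refine ⟨trivial, ?_⟩
    rw [hgt1]
    have := congrArg LinearMap.det h1
    rw [map_mul, map_one] at this
    exact left_ne_zero_of_mul (by rw [this]; exact one_ne_zero)
  have hconst : RegMap (coordRing K e d) U (fun _ : K => ρ) := fun f _ => regOn_const (f ρ)
  obtain ⟨F', hF', hF⟩ := exists_conj_family hconst (hgt U)
    (fun t _ => (endGr K d).add_mem endGr_one ((endGr K d).smul_mem t hg1)) (fun t ht => ht.2)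
  have hσ' : F' 1 = σ := by
    refine Rep.ext' (LinearMap.ext fun a => ?_)
    have e1 := (hF 1 h1U).2 a
    rw [hgt1, ← hact a] at e1
    have e2 := congrArg (fun z => z * g') e1
    simp only [mul_assoc, h1, mul_one] at e2
    exact e2
  have hmem : F' '' (U2 ∩ U) ⊆ T := by
    rintro _ ⟨t, ⟨ht2, htU⟩, rfl⟩
    obtain ⟨s1, s2, s3, s4⟩ := hsol t ht2
    have e4 : 1 + cc t = gt t * xx t := s4
    refine hT (cc t) s1 _ ?_ ?_
    · rw [e4, map_mul]
      exact mul_ne_zero htU.2 s3
    · intro a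
      have e5 : xx t * ρ.act a = ρ.act a * xx t := s2 a
      rw [e4, ← mul_assoc, (hF t htU).2 a, mul_assoc, mul_assoc, e5]
  rw [← hσ']
  exact closure_mono hmem
    (RegMap.mem_closure isZ_coordRing hU hF' hU2.zDense h1U)

end Pool.Agent.Helper343_Tau
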