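import Mathlib
import Pool.Agent.Helper343_Tau.RepBasic
import Pool.Agent.Helper343_Tau.Decomps
import Pool.Agent.Helper343_Tau.DenseSlice
import Pool.Agent.Helper343_Tau.Chart

/-
JOB S8 (for MP_50148c_al, owner helper343): the points of Rep(A, d) presented by decomposable maps
P₁ → P₀ lie in finitely many orbit closures, if smaller pairs of projectives have rigid maps.
All definitions are in Pool/Agent/Helper343_Tau/{Defs,Basic,Reg,Geom,RepBasic}.lean,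
Pool/Agent/Helper793_Bricks/*.lean and Pool/Agent/Helper819/Zar.lean on origin/main (copy them to
the same paths in /workdir/pool and run: lake build Pool.Agent.Helper343_Tau.RepBasic).
Read Reg.lean (polyFun, Nb, ZDense, regOn, RegV and its closure properties RegV.lin / bilin / apply /
comp / of_apply / exists_inverse, regOn_lmdet, Nb.of_reg, regOn_eq_zero), Geom.lean (RegMap,
RegMap.mem_closure, zDense_of_curves, le_krullDim) and RepBasic.lean first: they contain the tools.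
PROOF in words. Let S₀, S₁ be finite sets of decompositions of P₀, P₁ as in
exists_finite_decomps. For X = ((X₀, X₀'), (X₁, X₁')) ∈ S₀ × S₁ with (X₀, X₁) ≠ (0, 0) and
(X₀', X₁') ≠ (0, 0), hrig gives rigid maps r : X₁ → X₀, r' : X₁' → X₀' (hrig is applied to (X₀, X₀', X₁, X₁') and to
(X₀', X₀, X₁', X₁), IsCompl.symm). Let J_X : Hom(X₁, X₀) × Hom(X₁', X₀') → Hom(P₁, P₀) be the K-linear
map (g, g') ↦ g ⊕ g' and f_X = J_X (r, r'). Let Σ contain for every such X one point σ_X presented by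
f_X (i.e. with a surjection P₀ → σ_X.Mod with kernel range f_X), if there is one. Σ is finite.
Let ρ, f, q be as in the statement, MapDec f with (Y₀, Y₀', Y₁, Y₁'). There are X as above and
a : P₀ ≃ P₀, b : P₁ ≃ P₁ moving Y to X, so a f b⁻¹ = J_X (g, g') for some (g, g').
(X₀ = ⊥ iff Y₀ = ⊥ etc.) Take the chart U, Ψ, s, Q at (ρ, f, q) (exists_chart). The affine
(linear) map L : (y, y') ↦ a⁻¹ J_X(y, y') b is K-linear with L (g, g') = f, so L⁻¹(U) is a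
neighbourhood of (g, g') (Nb.comap) and Ψ ∘ L is regular there (regOn_comp). The set
D = {(α r β, α' r' β')} (α, β, ... automorphisms) is ZDense (zDense_orbit_of_rigid,
ZDense.prod). So ρ = Ψ (L (g, g')) is in the closure of Ψ (L (D ∩ L⁻¹ U)) (RegMap.mem_closure).
For y ∈ D with L y ∈ U, Ψ (L y) is presented by L y = a⁻¹ (α ⊕ α') f_X (β ⊕ β') b, hence also by f_X
(compose Q with the automorphisms of P₀); so σ_X exists and Ψ (L y) ∈ orbit σ_X (both are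
isomorphic to P₀ / range f_X). Hence ρ ∈ closure (orbit σ_X).
-/

set_option autoImplicit false

open Module Pool.Agent.Helper793Bricks

namespace Pool.Agent.Helper343_Tau




variable {K : Type} [Field K] {A : Type} [Ring A] [Algebra K A] {n : ℕ} {e : Fin n → A}
  {d : Fin n → ℕ}

namespace S8aux

section dirsum

variable {P₁ P₀ X₁ X₁' X₀ X₀' : Type} [AddCommGroup P₁] [Module A P₁]
  [AddCommGroup P₀] [Module A P₀] [Module K P₀] [IsScalarTower K A P₀]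
  [AddCommGroup X₁] [Module A X₁] [AddCommGroup X₁'] [Module A X₁']
  [AddCommGroup X₀] [Module A X₀] [Module K X₀] [IsScalarTower K A X₀]
  [AddCommGroup X₀'] [Module A X₀'] [Module K X₀'] [IsScalarTower K A X₀']

/-- The direct sum of two maps, moved to `P₁ → P₀`. -/
noncomputable def J (K : Type) [Field K] {A : Type} [Ring A] [Algebra K A]
    {P₁ P₀ X₁ X₁' X₀ X₀' : Type} [AddCommGroup P₁] [Module A P₁]
    [AddCommGroup P₀] [Module A P₀] [Module K P₀] [IsScalarTower K A P₀]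
    [AddCommGroup X₁] [Module A X₁] [AddCommGroup X₁'] [Module A X₁']
    [AddCommGroup X₀] [Module A X₀] [Module K X₀] [IsScalarTower K A X₀]
    [AddCommGroup X₀'] [Module A X₀'] [Module K X₀'] [IsScalarTower K A X₀']
    (ψ₁ : P₁ ≃ₗ[A] (X₁ × X₁')) (ψ₀ : P₀ ≃ₗ[A] (X₀ × X₀')) :
    ((X₁ →ₗ[A] X₀) × (X₁' →ₗ[A] X₀')) →ₗ[K] (P₁ →ₗ[A] P₀) where
  toFun w := ψ₀.symm.toLinearMap ∘ₗ (LinearMap.prodMap w.1 w.2) ∘ₗ ψ₁.toLinearMap
  map_add' := by
    intro w w'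
    refine LinearMap.ext fun x => ?_
    simp only [LinearMap.comp_apply, LinearMap.add_apply, LinearEquiv.coe_coe,
      LinearMap.prodMap_apply, Prod.fst_add, Prod.snd_add]
    rw [← map_add]
    rfl
  map_smul' := by
    intro c w
    refine LinearMap.ext fun x => ?_
    change ψ₀.symm (c • w.1 (ψ₁ x).1, c • w.2 (ψ₁ x).2) =
      c • ψ₀.symm (w.1 (ψ₁ x).1, w.2 (ψ₁ x).2)
    have h1 : ((c • w.1 (ψ₁ x).1, c • w.2 (ψ₁ x).2) : X₀ × X₀') =
        algebraMap K A c • ((w.1 (ψ₁ x).1, w.2 (ψ₁ x).2) : X₀ × X₀') :=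
      Prod.ext (algebraMap_smul A c _).symm (algebraMap_smul A c _).symm
    rw [h1, ψ₀.symm.map_smul, algebraMap_smul]

theorem J_apply (ψ₁ : P₁ ≃ₗ[A] (X₁ × X₁')) (ψ₀ : P₀ ≃ₗ[A] (X₀ × X₀'))
    (w : (X₁ →ₗ[A] X₀) × (X₁' →ₗ[A] X₀')) (x : P₁) :
    J K ψ₁ ψ₀ w x = ψ₀.symm (w.1 (ψ₁ x).1, w.2 (ψ₁ x).2) := rfl

end dirsum

/-- The points presented by a given map. -/
def TX {P₁ P₀ : Type} [AddCommGroup P₁] [Module A P₁] [AddCommGroup P₀] [Module A P₀]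
    (K : Type) [Field K] [Algebra K A] {n : ℕ} (e : Fin n → A) (d : Fin n → ℕ)
    (f : P₁ →ₗ[A] P₀) : Set (Rep K A e d) :=
  {σ | ∃ q : P₀ →ₗ[A] σ.Mod, Function.Surjective q ∧ LinearMap.range f = LinearMap.ker q}

theorem TX_orbit {P₁ P₀ : Type} [AddCommGroup P₁] [Module A P₁] [AddCommGroup P₀] [Module A P₀]
    {f : P₁ →ₗ[A] P₀} {σ σ' : Rep K A e d} (h : σ ∈ TX K e d f) (h' : σ' ∈ TX K e d f) :
    σ' ∈ orbit σ := by
  obtain ⟨q, hq, hk⟩ := h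
  obtain ⟨q', hq', hk'⟩ := h'
  exact ⟨(q.quotKerEquivOfSurjective hq).symm.trans
    ((Submodule.quotEquivOfEq _ _ (hk.symm.trans hk')).trans
      (q'.quotKerEquivOfSurjective hq'))⟩

/-- If a map is equivalent to `f` then it presents the same points. -/
theorem TX_congr {P₁ P₀ : Type} [AddCommGroup P₁] [Module A P₁] [AddCommGroup P₀] [Module A P₀]
    {f h : P₁ →ₗ[A] P₀} (a : P₀ ≃ₗ[A] P₀) (b : P₁ ≃ₗ[A] P₁)
    (hh : ∀ x, h x = a (f (b x))) {σ : Rep K A e d} (hσ : σ ∈ TX K e d h) :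
    σ ∈ TX K e d f := by
  obtain ⟨q, hq, hk⟩ := hσ
  refine ⟨q ∘ₗ a.toLinearMap, hq.comp a.surjective, ?_⟩
  ext y
  rw [LinearMap.mem_ker, LinearMap.comp_apply, LinearEquiv.coe_coe, ← LinearMap.mem_ker, ← hk]
  constructor
  · rintro ⟨x, rfl⟩
    refine ⟨b.symm x, ?_⟩
    rw [hh, b.apply_symm_apply]
  · rintro ⟨x, hx⟩
    rw [hh] at hx
    exact ⟨b x, a.injective hx⟩

theorem key [Infinite K] [FiniteDimensional K A]
    (he : CompleteOrthogonalIdempotents e)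
    {P₁ P₀ : Type} [AddCommGroup P₁] [Module A P₁] [Module K P₁] [IsScalarTower K A P₁]
    [FiniteDimensional K P₁]
    [AddCommGroup P₀] [Module A P₀] [Module K P₀] [IsScalarTower K A P₀]
    [FiniteDimensional K P₀]
    (hmax : ∀ f : P₁ →ₗ[A] P₀,
      finrank K (LinearMap.range f) + finrank K (Vec K d) ≤ finrank K P₀)
    {X₁ X₁' X₀ X₀' : Type}
    [AddCommGroup X₁] [Module A X₁] [Module K X₁] [IsScalarTower K A X₁] [FiniteDimensional K X₁]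
    [AddCommGroup X₁'] [Module A X₁'] [Module K X₁'] [IsScalarTower K A X₁']
    [FiniteDimensional K X₁']
    [AddCommGroup X₀] [Module A X₀] [Module K X₀] [IsScalarTower K A X₀] [FiniteDimensional K X₀]
    [AddCommGroup X₀'] [Module A X₀'] [Module K X₀'] [IsScalarTower K A X₀']
    [FiniteDimensional K X₀']
    (φ₁ : P₁ ≃ₗ[A] (X₁ × X₁')) (φ₀ : P₀ ≃ₗ[A] (X₀ × X₀'))
    (r : X₁ →ₗ[A] X₀) (hr : E2 r r) (r' : X₁' →ₗ[A] X₀') (hr' : E2 r' r')
    (ρ : Rep K A e d) (f : P₁ →ₗ[A] P₀) (q : P₀ →ₗ[A] ρ.Mod) (hq : Function.Surjective q)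
    (hex : LinearMap.range f = LinearMap.ker q)
    (ψ₁ : P₁ ≃ₗ[A] (X₁ × X₁')) (ψ₀ : P₀ ≃ₗ[A] (X₀ × X₀'))
    (g : X₁ →ₗ[A] X₀) (g' : X₁' →ₗ[A] X₀') (hf : f = J K ψ₁ ψ₀ (g, g')) :
    ρ ∈ closure (TX K e d (J K φ₁ φ₀ (r, r'))) := by
  obtain ⟨U, Ψ, s, Q, hU, hfU, hΨ, -, hΨf, -, hQ⟩ := exists_chart he ρ f q hq hex hmax
  let L := J K ψ₁ ψ₀
  let U' : Set ((X₁ →ₗ[A] X₀) × (X₁' →ₗ[A] X₀')) := {w | 0 + L w ∈ U}
  have hU' : Nb K ((g, g') : (X₁ →ₗ[A] X₀) × (X₁' →ₗ[A] X₀')) U' := by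
    refine Nb.comap 0 L ?_
    rw [zero_add]
    change Nb K (J K ψ₁ ψ₀ (g, g')) U
    rw [← hf]
    exact hU f hfU
  have hreg : RegMap (coordRing K e d) U' (fun w => Ψ (L w)) := by
    intro p hp
    refine regOn_comp (hΨ p hp) L (fun l => regOn_poly (polyFun_lin (l ∘ₗ L))) ?_
    intro w hw
    have : 0 + L w ∈ U := hw
    rwa [zero_add] at this
  have hD := (zDense_orbit_of_rigid (K := K) r hr).prod
    (zDense_orbit_of_rigid (K := K) r' hr')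
  have hcl := RegMap.mem_closure isZ_coordRing hU' hreg hD hU'.mem
  have h1 : Ψ (L (g, g')) = ρ := by
    change Ψ (J K ψ₁ ψ₀ (g, g')) = ρ
    rw [← hf]
    exact hΨf
  rw [← h1]
  refine closure_mono ?_ hcl
  rintro _ ⟨⟨w, w'⟩, ⟨⟨⟨α, β, hw⟩, ⟨α', β', hw'⟩⟩, hwU⟩, rfl⟩
  change w = _ at hw
  change w' = _ at hw'
  have hwU2 : L (w, w') ∈ U := by
    have : 0 + L (w, w') ∈ U := hwU
    rwa [zero_add] at this
  obtain ⟨hQ1, hQ2, hQ3⟩ := hQ _ hwU2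
  -- the presentation of the point
  have hσ : Ψ (L (w, w')) ∈ TX K e d (L (w, w')) := by
    let q₂ : P₀ →ₗ[A] (Ψ (L (w, w'))).Mod :=
      { toFun := fun x => Q (L (w, w')) x
        map_add' := fun x y => map_add _ x y
        map_smul' := fun a x => hQ1 a x }
    refine ⟨q₂, fun v => ⟨s v, hQ2 v⟩, ?_⟩
    ext x
    rw [LinearMap.mem_ker]
    exact (hQ3 x).symm
  refine TX_congr ((φ₀.trans (LinearEquiv.prodCongr α α')).trans ψ₀.symm)
    ((ψ₁.trans (LinearEquiv.prodCongr β β')).trans φ₁.symm) ?_ hσ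
  intro x
  change J K ψ₁ ψ₀ (w, w') x = _
  rw [J_apply, hw, hw']
  simp only [LinearEquiv.trans_apply, J_apply, LinearEquiv.apply_symm_apply,
    LinearMap.comp_apply, LinearEquiv.coe_coe, LinearEquiv.prodCongr_apply]

theorem finDim_sub {P : Type} [AddCommGroup P] [Module A P] [Module K P] [IsScalarTower K A P]
    [FiniteDimensional K P] (X : Submodule A P) : FiniteDimensional K X :=
  Module.Finite.of_injective (X.subtype.restrictScalars K) X.injective_subtype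

theorem fixed [Infinite K] [FiniteDimensional K A]
    (he : CompleteOrthogonalIdempotents e)
    {P₁ P₀ : Type} [AddCommGroup P₁] [Module A P₁] [Module K P₁] [IsScalarTower K A P₁]
    [FiniteDimensional K P₁]
    [AddCommGroup P₀] [Module A P₀] [Module K P₀] [IsScalarTower K A P₀]
    [FiniteDimensional K P₀]
    (hmax : ∀ f : P₁ →ₗ[A] P₀,
      finrank K (LinearMap.range f) + finrank K (Vec K d) ≤ finrank K P₀)
    (hrig : ∀ (X₀ X₀' : Submodule A P₀) (X₁ X₁' : Submodule A P₁), IsCompl X₀ X₀' →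
      IsCompl X₁ X₁' → ¬(X₀' = ⊥ ∧ X₁' = ⊥) → ∃ r : X₁ →ₗ[A] X₀, E2 r r)
    (X₀ X₀' : Submodule A P₀) (X₁ X₁' : Submodule A P₁) :
    ∃ Sg : Set (Rep K A e d), Sg.Finite ∧ ∀ (ρ : Rep K A e d) (f : P₁ →ₗ[A] P₀)
      (q : P₀ →ₗ[A] ρ.Mod), Function.Surjective q → LinearMap.range f = LinearMap.ker q →
      IsCompl X₀ X₀' → IsCompl X₁ X₁' →
      ¬(X₀ = ⊥ ∧ X₁ = ⊥) → ¬(X₀' = ⊥ ∧ X₁' = ⊥) →
      ∀ (a : P₀ ≃ₗ[A] P₀) (b : P₁ ≃ₗ[A] P₁),
        (∀ x ∈ X₁, a (f (b.symm x)) ∈ X₀) → (∀ x ∈ X₁', a (f (b.symm x)) ∈ X₀') →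
      ∃ σ ∈ Sg, ρ ∈ closure (orbit σ) := by
  by_cases hc : IsCompl X₀ X₀' ∧ IsCompl X₁ X₁' ∧ ¬(X₀ = ⊥ ∧ X₁ = ⊥) ∧ ¬(X₀' = ⊥ ∧ X₁' = ⊥)
  · obtain ⟨h0, h1, hn, hn'⟩ := hc
    have := finDim_sub (K := K) X₀
    have := finDim_sub (K := K) X₀'
    have := finDim_sub (K := K) X₁
    have := finDim_sub (K := K) X₁'
    obtain ⟨r, hr⟩ := hrig X₀ X₀' X₁ X₁' h0 h1 hn'
    obtain ⟨r', hr'⟩ := hrig X₀' X₀ X₁' X₁ h0.symm h1.symm hn
    let φ₁ : P₁ ≃ₗ[A] (X₁ × X₁') := (Submodule.prodEquivOfIsCompl X₁ X₁' h1).symm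
    let φ₀ : P₀ ≃ₗ[A] (X₀ × X₀') := (Submodule.prodEquivOfIsCompl X₀ X₀' h0).symm
    have main : ∀ (ρ : Rep K A e d) (f : P₁ →ₗ[A] P₀)
        (q : P₀ →ₗ[A] ρ.Mod), Function.Surjective q → LinearMap.range f = LinearMap.ker q →
        ∀ (a : P₀ ≃ₗ[A] P₀) (b : P₁ ≃ₗ[A] P₁),
          (∀ x ∈ X₁, a (f (b.symm x)) ∈ X₀) → (∀ x ∈ X₁', a (f (b.symm x)) ∈ X₀') →
        ρ ∈ closure (TX K e d (J K φ₁ φ₀ (r, r'))) := by
      intro ρ f q hq hex a b ha hb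
      let F : P₁ →ₗ[A] P₀ := a.toLinearMap ∘ₗ f ∘ₗ b.symm.toLinearMap
      let g : X₁ →ₗ[A] X₀ := F.restrict (p := X₁) (q := X₀) ha
      let g' : X₁' →ₗ[A] X₀' := F.restrict (p := X₁') (q := X₀') hb
      refine key he hmax φ₁ φ₀ r hr r' hr' ρ f q hq hex (b.trans φ₁) (a.trans φ₀) g g' ?_
      refine LinearMap.ext fun x => ?_
      rw [J_apply]
      have e1 : b x = ((φ₁ (b x)).1 : P₁) + ((φ₁ (b x)).2 : P₁) := by
        conv_lhs => rw [← φ₁.symm_apply_apply (b x)]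
        exact Submodule.coe_prodEquivOfIsCompl' X₁ X₁' h1 (φ₁ (b x))
      have e2 : φ₀.symm (g (φ₁ (b x)).1, g' (φ₁ (b x)).2) = a (f x) := by
        have e3 : φ₀.symm (g (φ₁ (b x)).1, g' (φ₁ (b x)).2) =
            ((g (φ₁ (b x)).1 : X₀) : P₀) + ((g' (φ₁ (b x)).2 : X₀') : P₀) :=
          Submodule.coe_prodEquivOfIsCompl' X₀ X₀' h0 _
        rw [e3]
        change F ((φ₁ (b x)).1 : P₁) + F ((φ₁ (b x)).2 : P₁) = _
        rw [← map_add, ← e1]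
        change a (f (b.symm (b x))) = _
        rw [b.symm_apply_apply]
      change f x = a.symm (φ₀.symm (g (φ₁ (b x)).1, g' (φ₁ (b x)).2))
      rw [e2, a.symm_apply_apply]
    by_cases hne : (TX K e d (J K φ₁ φ₀ (r, r'))).Nonempty
    · obtain ⟨σ, hσ⟩ := hne
      refine ⟨{σ}, Set.finite_singleton _, ?_⟩
      intro ρ f q hq hex _ _ _ _ a b ha hb
      refine ⟨σ, rfl, closure_mono ?_ (main ρ f q hq hex a b ha hb)⟩
      intro σ' hσ'
      exact TX_orbit hσ hσ'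
    · refine ⟨∅, Set.finite_empty, ?_⟩
      intro ρ f q hq hex _ _ _ _ a b ha hb
      exfalso
      have h2 := main ρ f q hq hex a b ha hb
      rw [Set.not_nonempty_iff_eq_empty.mp hne, closure_empty] at h2
      exact h2
  · refine ⟨∅, Set.finite_empty, ?_⟩
    intro ρ f q hq hex h0 h1 hn hn'
    exact absurd ⟨h0, h1, hn, hn'⟩ hc

end S8aux

/-- TARGET -/
theorem exists_finite_closure_of_mapDec [Infinite K] [FiniteDimensional K A]
    (he : IsBasic K A e)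
    {P₁ P₀ : Type} [AddCommGroup P₁] [Module A P₁] [Module K P₁] [IsScalarTower K A P₁]
    [FiniteDimensional K P₁] [Module.Projective A P₁] [Module.Finite A P₁]
    [AddCommGroup P₀] [Module A P₀] [Module K P₀] [IsScalarTower K A P₀]
    [FiniteDimensional K P₀] [Module.Projective A P₀] [Module.Finite A P₀]
    (hmax : ∀ f : P₁ →ₗ[A] P₀,
      finrank K (LinearMap.range f) + finrank K (Vec K d) ≤ finrank K P₀)
    (hrig : ∀ (X₀ X₀' : Submodule A P₀) (X₁ X₁' : Submodule A P₁), IsCompl X₀ X₀' →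
      IsCompl X₁ X₁' → ¬(X₀' = ⊥ ∧ X₁' = ⊥) → ∃ r : X₁ →ₗ[A] X₀, E2 r r) :
    ∃ Sg : Set (Rep K A e d), Sg.Finite ∧ ∀ (ρ : Rep K A e d) (f : P₁ →ₗ[A] P₀)
      (q : P₀ →ₗ[A] ρ.Mod), Function.Surjective q → LinearMap.range f = LinearMap.ker q →
      MapDec f → ∃ σ ∈ Sg, ρ ∈ closure (orbit σ) := by
  obtain ⟨S₀, hS₀, hS₀c, hS₀e⟩ := exists_finite_decomps K e he P₀
  obtain ⟨S₁, hS₁, hS₁c, hS₁e⟩ := exists_finite_decomps K e he P₁
  choose Sg hSg hSg2 using fun (X : (Submodule A P₀ × Submodule A P₀) ×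
    (Submodule A P₁ × Submodule A P₁)) => S8aux.fixed (K := K) (e := e) (d := d) he.coi hmax hrig
      X.1.1 X.1.2 X.2.1 X.2.2
  refine ⟨⋃ X ∈ S₀ ×ˢ S₁, Sg X, (hS₀.prod hS₁).biUnion fun X _ => hSg X, ?_⟩
  rintro ρ f q hq hex ⟨Y₀, Y₀', Y₁, Y₁', hY₀, hY₁, hf, hf', hn, hn'⟩
  obtain ⟨X₀, hX₀, a, ha, ha'⟩ := hS₀e Y₀ Y₀' hY₀
  obtain ⟨X₁, hX₁, b, hb, hb'⟩ := hS₁e Y₁ Y₁' hY₁
  have hbot₀ : ∀ (Y : Submodule A P₀), Y.map a.toLinearMap = ⊥ → Y = ⊥ := by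
    intro Y hY
    rw [Submodule.eq_bot_iff] at hY ⊢
    intro y hy
    exact (LinearEquiv.map_eq_zero_iff a).mp (hY _ ⟨y, hy, rfl⟩)
  have hbot₁ : ∀ (Y : Submodule A P₁), Y.map b.toLinearMap = ⊥ → Y = ⊥ := by
    intro Y hY
    rw [Submodule.eq_bot_iff] at hY ⊢
    intro y hy
    exact (LinearEquiv.map_eq_zero_iff b).mp (hY _ ⟨y, hy, rfl⟩)
  obtain ⟨σ, hσ, hρ⟩ := hSg2 (X₀, X₁) ρ f q hq hex (hS₀c _ hX₀) (hS₁c _ hX₁)
    (fun h => hn ⟨hbot₀ _ (ha.trans h.1), hbot₁ _ (hb.trans h.2)⟩)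
    (fun h => hn' ⟨hbot₀ _ (ha'.trans h.1), hbot₁ _ (hb'.trans h.2)⟩) a b
    (by
      intro x hx
      change x ∈ X₁.1 at hx
      change _ ∈ X₀.1
      rw [← hb] at hx
      obtain ⟨y, hy, rfl⟩ := hx
      rw [← ha]
      refine ⟨f y, hf ⟨y, hy, rfl⟩, ?_⟩
      change a (f y) = a (f (b.symm (b y)))
      rw [b.symm_apply_apply])
    (by
      intro x hx
      change x ∈ X₁.2 at hx
      change _ ∈ X₀.2
      rw [← hb'] at hx
      obtain ⟨y, hy, rfl⟩ := hx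
      rw [← ha']
      refine ⟨f y, hf' ⟨y, hy, rfl⟩, ?_⟩
      change a (f y) = a (f (b.symm (b y)))
      rw [b.symm_apply_apply])
  exact ⟨σ, Set.mem_biUnion (x := (X₀, X₁)) ⟨hX₀, hX₁⟩ hσ, hρ⟩


end Pool.Agent.Helper343_Tau

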