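import Mathlib
import Pool.Agent.Helper343_Tau.Chart
import Pool.Agent.Helper343_Tau.OpenPres
import Pool.Agent.Helper343_Tau.Semi
import Pool.Agent.Helper343_Tau.LowerB
import Pool.Agent.Helper343_Tau.DenseSlice
import Pool.Agent.Helper343_Tau.Slice
import Pool.Agent.Helper343_Tau.Irred
import Pool.Agent.Helper343_Tau.LinPres
import Pool.Agent.Helper343_Tau.LowerFam
import Pool.Agent.Helper343_Tau.Types
import Pool.Agent.Helper343_Tau.Realize
import Pool.Agent.Helper343_Tau.Decomps

/-!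
Upper bounds for the dimension of orbit closures and of the closure of the set of modules with a
given type of presentation.
-/

set_option autoImplicit false

open Module Pool.Agent.Helper793Bricks

namespace Pool.Agent.Helper343_Tau

variable {K : Type} [Field K] {A : Type} [Ring A] [Algebra K A] {n : ℕ} {e : Fin n → A}
  {d : Fin n → ℕ}

/-- A subspace as the image of an injective linear map from `K ^ m`. -/
theorem exists_param {E : Type} [AddCommGroup E] [Module K E] [FiniteDimensional K E]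
    (C : Submodule K E) : ∃ L : (Fin (finrank K C) → K) →ₗ[K] E, Function.Injective L ∧
      ∀ x, x ∈ C ↔ ∃ y, L y = x := by
  let b := Module.finBasis K C
  refine ⟨C.subtype ∘ₗ b.equivFun.symm.toLinearMap,
    (Submodule.subtype_injective C).comp b.equivFun.symm.injective, fun x => ⟨fun hx => ?_, ?_⟩⟩
  · refine ⟨b.equivFun ⟨x, hx⟩, ?_⟩
    simp
  · rintro ⟨y, rfl⟩
    exact (b.equivFun.symm y).2

/-- Openness of the condition that no nonzero element of a space of endomorphisms commutes with a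
family of operators. -/
theorem nb_comm_inj {W' E C' : Type} [AddCommGroup W'] [Module K W'] [AddCommGroup E]
    [Module K E] [FiniteDimensional K E] [FiniteDimensional K A] [AddCommGroup C'] [Module K C']
    [FiniteDimensional K C'] {U : Set W'} {x₀ : W'} (hU : Nb K x₀ U)
    (T : W' → (A →ₗ[K] Module.End K E)) (hT : RegV (K := K) U T)
    (L : C' →ₗ[K] Module.End K E)
    (h0 : ∀ c, (∀ a, L c * T x₀ a = T x₀ a * L c) → c = 0) :
    Nb K x₀ {x | x ∈ U ∧ ∀ c, (∀ a, L c * T x a = T x a * L c) → c = 0} := by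
  let B : W' → (C' →ₗ[K] (A →ₗ[K] Module.End K E)) := fun f =>
    { toFun := fun c =>
        { toFun := fun a => L c * T f a - T f a * L c
          map_add' := fun a b => by rw [map_add, mul_add, add_mul]; abel
          map_smul' := fun k a => by
            rw [map_smul, mul_smul_comm, smul_mul_assoc, RingHom.id_apply, smul_sub] }
      map_add' := fun c c' => by
        ext a : 1
        change L (c + c') * T f a - T f a * L (c + c') =
          (L c * T f a - T f a * L c) + (L c' * T f a - T f a * L c')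
        rw [map_add, mul_add, add_mul]
        abel
      map_smul' := fun k c => by
        ext a : 1
        change L (k • c) * T f a - T f a * L (k • c) = k • (L c * T f a - T f a * L c)
        rw [map_smul, mul_smul_comm, smul_mul_assoc, smul_sub] }
  have hB : RegV (K := K) U B := by
    refine RegV.of_apply fun c => RegV.of_apply fun a => ?_
    have h2 : RegV (K := K) U (fun f => T f a) := hT.lin (LinearMap.applyₗ a)
    exact (h2.lin (LinearMap.mulLeft K (L c))).sub (h2.lin (LinearMap.mulRight K (L c)))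
  have hker : ∀ f, ∀ c : C', c ∈ LinearMap.ker (B f) ↔ ∀ a, L c * T f a = T f a * L c := by
    intro f c
    rw [LinearMap.mem_ker]
    constructor
    · intro h a
      have := LinearMap.congr_fun h a
      exact sub_eq_zero.mp this
    · intro h
      ext a : 1
      exact sub_eq_zero.mpr (h a)
  have hk0 : LinearMap.ker (B x₀) = ⊥ := by
    rw [eq_bot_iff]
    intro c hc
    rw [hker] at hc
    rw [Submodule.mem_bot]
    exact h0 c hc
  refine (nb_finrank_ker_le hU hB).mono ?_
  rintro x ⟨hx, hx2⟩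
  rw [hk0, finrank_bot, Nat.le_zero, Submodule.finrank_eq_zero] at hx2
  refine ⟨hx, fun c hc => ?_⟩
  rw [← hker, hx2, Submodule.mem_bot] at hc
  exact hc

theorem exists_inv_of_det {E : Type} [AddCommGroup E] [Module K E] [FiniteDimensional K E]
    {g : Module.End K E} (h : LinearMap.det g ≠ 0) : ∃ g' : Module.End K E, g * g' = 1 ∧
      g' * g = 1 := by
  let φ := LinearMap.equivOfDetNeZero g h
  refine ⟨φ.symm.toLinearMap, ?_, ?_⟩
  · ext x
    exact φ.apply_symm_apply x
  · ext x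
    exact φ.symm_apply_apply x

theorem Rep.eq_of_mul {σ τ : Rep K A e d} {g : Module.End K (Vec K d)}
    (h : LinearMap.det g ≠ 0) (hg : ∀ a, σ.act a * g = τ.act a * g) : σ = τ := by
  obtain ⟨g', h1, -⟩ := exists_inv_of_det h
  refine Rep.ext' (LinearMap.ext fun a => ?_)
  have h2 := congrArg (fun x => x * g') (hg a)
  simp only [mul_assoc, h1, mul_one] at h2
  exact h2

/-- Upper bound for the dimension of an orbit closure. -/
theorem orbit_upper_bound [Infinite K] [FiniteDimensional K A] (ρ : Rep K A e d)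
    (C : Submodule K (Module.End K (Vec K d))) (hC : C ≤ endGr K d)
    (hC1 : ∀ g ∈ endGr K d, ∃ c ∈ C, ∃ x ∈ ρ.comm, g = c + x) (hC2 : C ⊓ ρ.comm = ⊥)
    {T : Set (Rep K A e d)} (hT : T ⊆ closure (orbit ρ)) :
    topologicalKrullDim T ≤ finrank K C := by
  obtain ⟨L, -, hLC⟩ := exists_param (E := Module.End K (Vec K d)) C
  let m : ℕ := finrank K C
  change (Fin m → K) →ₗ[K] Module.End K (Vec K d) at L
  let g : (Fin m → K) → Module.End K (Vec K d) := fun c => 1 + L c
  have hg : ∀ U : Set (Fin m → K), RegV (K := K) U g := fun U => by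
    have h1 : RegV (K := K) U (fun c => L c) := RegV.linear L
    exact (RegV.const 1).add h1
  let U : Set (Fin m → K) := {c | LinearMap.det (g c) ≠ 0}
  have hU : Nb K (0 : Fin m → K) U := by
    refine ((Nb.univ (K := K) (0 : Fin m → K)).of_reg
      (regOn_lmdet (hg Set.univ)) ?_).mono fun c hc => hc.2
    simp [g]
  obtain ⟨F, hF, hF2⟩ := exists_conj_family (F := fun _ : Fin m → K => ρ) (U := U)
    (fun h _ => regOn_const (h ρ)) (hg U)
    (fun c _ => (endGr K d).add_mem endGr_one (hC ((hLC _).mpr ⟨c, rfl⟩))) (fun c hc => hc)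
  have hfr : finrank K (Fin m → K) = m := by simp
  have hgoal : topologicalKrullDim T ≤ finrank K (Fin m → K) := by
    refine RegMap.krullDim_le isZ_coordRing hU hF (hT.trans ?_)
    refine closure_minimal ?_ isClosed_closure
    refine orbit_subset_closure_slice ρ C hC hC1 hC2 _ ?_
    intro c hc σ hdet hσ
    obtain ⟨y, rfl⟩ := (hLC c).mp hc
    have hcU : y ∈ U := hdet
    refine ⟨y, hcU, ?_⟩
    refine Rep.eq_of_mul (g := g y) hcU fun a => ?_
    rw [(hF2 _ hcU).2 a]
    exact (hσ a).symm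
  rw [hfr] at hgoal
  exact hgoal

/-- Upper bound for the dimension of the closure of `presSet`. -/
theorem family_upper_bound [Infinite K] [FiniteDimensional K A]
    (he : CompleteOrthogonalIdempotents e)
    {P₁ P₀ : Type} [AddCommGroup P₁] [Module A P₁] [Module K P₁] [IsScalarTower K A P₁]
    [FiniteDimensional K P₁] [AddCommGroup P₀] [Module A P₀]
    [Module K P₀] [IsScalarTower K A P₀] [FiniteDimensional K P₀]
    (ρ₀ : Rep K A e d) (f₀ : P₁ →ₗ[A] P₀) (q₀ : P₀ →ₗ[A] ρ₀.Mod)
    (hq : Function.Surjective q₀) (hex : LinearMap.range f₀ = LinearMap.ker q₀)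
    (hmax : ∀ f : P₁ →ₗ[A] P₀,
      finrank K (LinearMap.range f) + finrank K (Vec K d) ≤ finrank K P₀)
    (C : Submodule K (Module.End K (Vec K d))) (hC : C ≤ endGr K d) (hC2 : C ⊓ ρ₀.comm = ⊥)
    (hC3 : finrank K C + finrank K ρ₀.comm = finrank K (endGr K d))
    (W : Submodule K (P₁ →ₗ[A] P₀))
    (hW : ∀ h : P₁ →ₗ[A] P₀, ∃ (α : P₀ →ₗ[A] P₀) (β : P₁ →ₗ[A] P₁), ∃ w ∈ W,
      h = α ∘ₗ f₀ + w + f₀ ∘ₗ β)
    (hmin : ∀ ρ ∈ (presSet e d P₁ P₀ : Set (Rep K A e d)),
      finrank K ρ₀.comm ≤ finrank K ρ.comm)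
    {T : Set (Rep K A e d)} (hT : T ⊆ closure (presSet e d P₁ P₀)) :
    topologicalKrullDim T ≤ ((finrank K C + finrank K W : ℕ) : WithBot ℕ∞) := by
  obtain ⟨U', Ψ, s, Q, hU', hf₀, hΨ, hQ, hΨ₀, hQ₀, hprop⟩ :=
    exists_chart he ρ₀ f₀ q₀ hq hex hmax
  -- points of the chart are in presSet
  have hpres : ∀ f ∈ U', ∃ q : P₀ →ₗ[A] (Ψ f).Mod, Function.Surjective q ∧
      LinearMap.range f = LinearMap.ker q := by
    intro f hf
    obtain ⟨h1, h2, h3⟩ := hprop f hf
    refine ⟨{ toFun := fun x => Q f x, map_add' := map_add (Q f), map_smul' := fun a x => h1 a x },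
      fun v => ⟨s v, h2 v⟩, ?_⟩
    ext x
    exact (h3 x).symm
  -- the family
  obtain ⟨LC, hLCinj, hLC⟩ := exists_param (E := Module.End K (Vec K d)) C
  let m : ℕ := finrank K C
  change (Fin m → K) →ₗ[K] Module.End K (Vec K d) at LC
  let L : ((Fin m → K) × W) →ₗ[K] (P₁ →ₗ[A] P₀) := W.subtype ∘ₗ LinearMap.snd K (Fin m → K) W
  let M : ((Fin m → K) × W) →ₗ[K] Module.End K (Vec K d) := LC ∘ₗ LinearMap.fst K (Fin m → K) W
  let g : (Fin m → K) × W → Module.End K (Vec K d) := fun x => 1 + M x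
  have hg : ∀ U : Set ((Fin m → K) × W), RegV (K := K) U g := fun U => by
    have h1 : RegV (K := K) U (fun x : (Fin m → K) × W => M x) := RegV.linear M
    exact (RegV.const 1).add h1
  let U : Set ((Fin m → K) × W) := {x | LinearMap.det (g x) ≠ 0 ∧ f₀ + L x ∈ U'}
  have hU : Nb K (0 : (Fin m → K) × W) U := by
    have h1 : Nb K (0 : (Fin m → K) × W) {x | f₀ + L x ∈ U'} := by
      refine Nb.comap f₀ L ?_
      rw [map_zero, add_zero]
      exact hU' f₀ hf₀
    have h2 : Nb K (0 : (Fin m → K) × W) {x | x ∈ Set.univ ∧ LinearMap.det (g x) ≠ 0} := by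
      refine (Nb.univ (K := K) (0 : (Fin m → K) × W)).of_reg (regOn_lmdet (hg Set.univ)) ?_
      simp [g]
    exact (h2.inter h1).mono fun x hx => ⟨hx.1.2, hx.2⟩
  have hF₁ : RegMap (coordRing K e d) U (fun x => Ψ (f₀ + L x)) := by
    intro h hh
    refine regOn_comp (hΨ h hh) (fun x => f₀ + L x) ?_ (fun x hx => hx.2)
    have h1 : RegV (K := K) U (fun x : (Fin m → K) × W => L x) := RegV.linear L
    exact (RegV.const f₀).add h1
  obtain ⟨F, hF, hF2⟩ := exists_conj_family hF₁ (hg U)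
    (fun x _ => (endGr K d).add_mem endGr_one (hC ((hLC _).mpr ⟨x.1, rfl⟩))) (fun x hx => hx.1)
  have hfin : finrank K ((Fin m → K) × W) = m + finrank K W := by
    rw [Module.finrank_prod]
    simp
  change topologicalKrullDim T ≤ ((m + finrank K W : ℕ) : WithBot ℕ∞)
  rw [← hfin]
  refine RegMap.krullDim_le isZ_coordRing hU hF (hT.trans ?_)
  refine closure_minimal ?_ isClosed_closure
  -- the neighbourhood where C is a complement of the commutant
  have hN : Nb K f₀ {f | f ∈ U' ∧ ∀ c, (∀ a, LC c * (Ψ f).lin a = (Ψ f).lin a * LC c) → c = 0} := by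
    refine nb_comm_inj (hU' f₀ hf₀) (fun f => (Ψ f).lin) (regMap_iff.mp hΨ) LC fun c hc => ?_
    have h1 : LC c ∈ C ⊓ ρ₀.comm := by
      refine ⟨(hLC _).mpr ⟨c, rfl⟩, fun a => ?_⟩
      have := hc a
      rw [hΨ₀] at this
      exact this
    rw [hC2, Submodule.mem_bot] at h1
    exact hLCinj (h1.trans (map_zero LC).symm)
  -- orbits of points in the slice are in the closure
  have hslice : ∀ w ∈ W, f₀ + w ∈ {f | f ∈ U' ∧ ∀ c, (∀ a, LC c * (Ψ f).lin a =
      (Ψ f).lin a * LC c) → c = 0} → orbit (Ψ (f₀ + w)) ⊆ closure (F '' U) := by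
    rintro w hw ⟨hwU, hwk⟩
    have hd1 : C ⊓ (Ψ (f₀ + w)).comm = ⊥ := by
      rw [eq_bot_iff]
      rintro _ ⟨hc, hc'⟩
      obtain ⟨y, rfl⟩ := (hLC _).mp hc
      have h1 : y = 0 := hwk y hc'
      rw [h1, map_zero]
      exact Submodule.zero_mem _
    have hd2 : C ⊔ (Ψ (f₀ + w)).comm = endGr K d := by
      have hle : C ⊔ (Ψ (f₀ + w)).comm ≤ endGr K d := sup_le hC (Rep.comm_le_endGr _)
      refine Submodule.eq_of_le_of_finrank_le hle ?_
      have h1 := Submodule.finrank_sup_add_finrank_inf_eq C (Ψ (f₀ + w)).comm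
      rw [hd1, finrank_bot, add_zero] at h1
      obtain ⟨q, hqs, hqe⟩ := hpres _ hwU
      have h2 := hmin (Ψ (f₀ + w)) ⟨f₀ + w, q, hqs, hqe⟩
      omega
    refine orbit_subset_closure_slice (Ψ (f₀ + w)) C hC ?_ hd1 _ ?_
    · intro x hx
      rw [← hd2, Submodule.mem_sup] at hx
      obtain ⟨c, hc, y, hy, rfl⟩ := hx
      exact ⟨c, hc, y, hy, rfl⟩
    · intro c hc σ hdet hσ
      obtain ⟨y, rfl⟩ := (hLC c).mp hc
      have hcU : ((y, ⟨w, hw⟩) : (Fin m → K) × W) ∈ U := ⟨hdet, hwU⟩
      refine ⟨(y, ⟨w, hw⟩), hcU, ?_⟩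
      refine Rep.eq_of_mul (g := g (y, ⟨w, hw⟩)) hdet fun a => ?_
      rw [(hF2 _ hcU).2 a]
      exact (hσ a).symm
  -- density in presSet
  have hdense := zDense_orbit_slice f₀ W hW _ hN
  rintro ρ ⟨f, q, hfq, hfe⟩
  obtain ⟨U'', Ψ'', s'', Q'', hU'', hf'', hΨ'', -, hΨ₀'', -, hprop''⟩ :=
    exists_chart he ρ f q hfq hfe hmax
  have h1 := RegMap.mem_closure isZ_coordRing (hU'' f hf'') hΨ'' hdense hf''
  rw [hΨ₀''] at h1
  refine (closure_minimal ?_ isClosed_closure) h1
  rintro _ ⟨h, ⟨⟨a, b, w, hw, hwN, hh⟩, hhU⟩, rfl⟩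
  refine hslice w hw hwN ?_
  obtain ⟨p1, p2, p3⟩ := hprop'' h hhU
  obtain ⟨q', hq's, hq'e⟩ := hpres _ hwN.1
  -- Ψ'' h is presented by h = a (f₀ + w) b
  let qh : P₀ →ₗ[A] (Ψ'' h).Mod :=
    { toFun := fun x => Q'' h x, map_add' := map_add (Q'' h), map_smul' := fun a x => p1 a x }
  have hqh : Function.Surjective qh := fun v => ⟨s'' v, p2 v⟩
  refine mem_orbit_of_ker_eq q' (qh ∘ₗ a.toLinearMap) hq's (hqh.comp a.surjective) ?_
  rw [← hq'e]
  ext x
  rw [LinearMap.mem_ker]
  change x ∈ LinearMap.range (f₀ + w) ↔ Q'' h (a x) = 0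
  rw [p3, hh]
  constructor
  · rintro ⟨y, rfl⟩
    exact ⟨b.symm y, by simp⟩
  · rintro ⟨y, hy⟩
    refine ⟨b y, a.injective ?_⟩
    exact hy

end Pool.Agent.Helper343_Tau
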