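import Mathlib
import Pool.Agent.Helper343_Tau.Upper
import Pool.Agent.Helper343_Tau.ARFormula
import Pool.Agent.Helper343_Tau.ExistsMinPres
import Pool.Agent.Helper343_Tau.MinLe
import Pool.Agent.Helper343_Tau.MinIndec
import Pool.Agent.Helper343_Tau.HdRep

/-!
The component of `Rep(A, d)` attached to a pair of projectives without rigid map.
-/

set_option autoImplicit false

open Module Pool.Agent.Helper793Bricks

namespace Pool.Agent.Helper343_Tau

theorem closure_mem_irreducibleComponents {X : Type} [TopologicalSpace X] {N : Set X}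
    (hN : IsOpen N) (hirr : IsIrreducible N) : closure N ∈ irreducibleComponents X := by
  refine ⟨hirr.closure, fun T hT hle => ?_⟩
  intro x hx
  rw [_root_.mem_closure_iff]
  intro O hO hxO
  obtain ⟨y, hy⟩ := hirr.nonempty
  obtain ⟨z, -, hz⟩ := hT.isPreirreducible O N hO hN ⟨x, hx, hxO⟩
    ⟨y, hle (subset_closure hy), hy⟩
  exact ⟨z, hz⟩

theorem exists_max_of_bdd {α : Type} [Nonempty α] (r : α → ℕ) (N : ℕ) (h : ∀ a, r a ≤ N) :
    ∃ a, ∀ b, r b ≤ r a := by
  have hS : (Set.range r).Finite := (Set.finite_Iic N).subset (by rintro _ ⟨a, rfl⟩; exact h a)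
  obtain ⟨_, ⟨a, rfl⟩, ha⟩ := Set.exists_max_image (Set.range r) id hS (Set.range_nonempty r)
  exact ⟨a, fun b => ha _ ⟨b, rfl⟩⟩

theorem exists_min_of_nonempty {α : Type} {S : Set α} (hS : S.Nonempty) (r : α → ℕ) :
    ∃ a ∈ S, ∀ b ∈ S, r a ≤ r b := by
  obtain ⟨x, hx⟩ := hS
  have hex : ∃ k, ∃ a ∈ S, r a = k := ⟨_, x, hx, rfl⟩
  classical
  obtain ⟨a, ha, hak⟩ := Nat.find_spec hex
  exact ⟨a, ha, fun b hb => by rw [hak]; exact Nat.find_min' hex ⟨b, hb, rfl⟩⟩

variable {K : Type} [Field K] {A : Type} [Ring A] [Algebra K A] {n : ℕ} {e : Fin n → A}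
  {d : Fin n → ℕ}

/-- `HomTauDim` in terms of `eDim`. -/
theorem HomTauDim.exists_eDim {ρ : Rep K A e d} {k : ℕ} (h : HomTauDim K A ρ.Mod k) :
    ∃ (P₁ P₀ : Type) (_ : AddCommGroup P₁) (_ : Module A P₁) (_ : AddCommGroup P₀)
      (_ : Module A P₀) (f : P₁ →ₗ[A] P₀) (q : P₀ →ₗ[A] ρ.Mod),
      IsMinPres f q ∧ eDim K f ρ.Mod = k := by
  obtain ⟨P₁, P₀, i1, i2, i3, i4, f, q, hf, hk⟩ := h
  refine ⟨P₁, P₀, i1, i2, i3, i4, f, q, hf, ?_⟩
  have := hf.proj₁
  have := hf.fin₁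
  have := hf.proj₀
  have := hf.fin₀
  obtain ⟨φ⟩ := ar_formula K f ρ.Mod
  rw [← hk, φ.finrank_eq, Subspace.dual_finrank_eq]
  rfl

theorem homTauDim_of_minPres {ρ : Rep K A e d} {P₁ P₀ : Type} [AddCommGroup P₁] [Module A P₁]
    [AddCommGroup P₀] [Module A P₀] {f : P₁ →ₗ[A] P₀} {q : P₀ →ₗ[A] ρ.Mod}
    (hf : IsMinPres f q) : HomTauDim K A ρ.Mod (eDim K f ρ.Mod) := by
  refine ⟨P₁, P₀, _, _, _, _, f, q, hf, ?_⟩
  have := hf.proj₁
  have := hf.fin₁
  have := hf.proj₀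
  have := hf.fin₀
  obtain ⟨φ⟩ := ar_formula K f ρ.Mod
  rw [φ.finrank_eq, Subspace.dual_finrank_eq]
  rfl

/-- **The geometric core.** If no map `P₁ → P₀` is rigid, but smaller pairs have rigid maps, then
there is a generically indecomposable, generically tau-reduced component with `c_A ≥ 1`. -/
theorem geometric_core [Infinite K] [FiniteDimensional K A] (he : IsBasic K A e)
    {P₁ P₀ : Type} [AddCommGroup P₁] [Module A P₁] [Module K P₁] [IsScalarTower K A P₁]
    [FiniteDimensional K P₁] [Module.Projective A P₁] [Module.Finite A P₁]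
    [AddCommGroup P₀] [Module A P₀] [Module K P₀] [IsScalarTower K A P₀]
    [FiniteDimensional K P₀] [Module.Projective A P₀] [Module.Finite A P₀]
    (hno : ∀ f : P₁ →ₗ[A] P₀, ¬ E2 f f)
    (hrig : ∀ (X₀ X₀' : Submodule A P₀) (X₁ X₁' : Submodule A P₁), IsCompl X₀ X₀' →
      IsCompl X₁ X₁' → ¬(X₀' = ⊥ ∧ X₁' = ⊥) → ∃ r : X₁ →ₗ[A] X₀, E2 r r) :
    ∃ (d : Fin n → ℕ) (Z : Set (Rep K A e d)), Z ∈ irreducibleComponents (Rep K A e d) ∧
      GenIndec Z ∧ cA Z = homTau Z ∧ 1 ≤ cA Z := by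
  -- a map of maximal rank
  obtain ⟨g, hg⟩ := exists_max_of_bdd
    (fun f : P₁ →ₗ[A] P₀ => finrank K (LinearMap.range f)) (finrank K P₀)
    (fun f => Submodule.finrank_le ((LinearMap.range f).restrictScalars K))
  have hfdq : FiniteDimensional K (P₀ ⧸ LinearMap.range g) :=
    Module.Finite.of_surjective ((LinearMap.range g).mkQ.restrictScalars K)
      (LinearMap.range g).mkQ_surjective
  obtain ⟨d, ρ', ⟨φ⟩⟩ := exists_rep_equiv (K := K) he.coi (P₀ ⧸ LinearMap.range g)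
  have hdim : finrank K (LinearMap.range g) + finrank K (Vec K d) = finrank K P₀ := by
    have h1 : finrank K (P₀ ⧸ LinearMap.range g) = finrank K (Vec K d) :=
      (φ.restrictScalars K).finrank_eq
    have h2 := Submodule.finrank_quotient_add_finrank ((LinearMap.range g).restrictScalars K)
    have h3 : finrank K (P₀ ⧸ (LinearMap.range g).restrictScalars K) =
        finrank K (P₀ ⧸ LinearMap.range g) := rfl
    have h4 : finrank K ((LinearMap.range g).restrictScalars K) =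
        finrank K (LinearMap.range g) := rfl
    omega
  have hmax : ∀ f : P₁ →ₗ[A] P₀,
      finrank K (LinearMap.range f) + finrank K (Vec K d) ≤ finrank K P₀ := by
    intro f
    have := hg f
    omega
  -- the set N and its closure Z
  let N : Set (Rep K A e d) := presSet e d P₁ P₀
  have hNne : N.Nonempty := by
    refine ⟨ρ', g, φ.toLinearMap ∘ₗ (LinearMap.range g).mkQ,
      φ.surjective.comp (LinearMap.range g).mkQ_surjective, ?_⟩
    rw [LinearMap.ker_comp, LinearEquiv.ker, Submodule.comap_bot, Submodule.ker_mkQ]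
  have hNo : IsOpen N := isOpen_presSet
  have hNi : IsIrreducible N := isIrreducible_presSet he.coi hmax hNne
  have hNorb : ∀ ρ ∈ N, ∀ σ ∈ orbit ρ, σ ∈ N := by
    rintro ρ ⟨f, q, hq, hex⟩ σ ⟨ψ⟩
    refine ⟨f, ψ.toLinearMap ∘ₗ q, ψ.surjective.comp hq, ?_⟩
    rw [LinearMap.ker_comp, LinearEquiv.ker, Submodule.comap_bot, hex]
  -- a point with minimal endomorphism algebra
  obtain ⟨ρ₀, hρ₀, hmin⟩ := exists_min_of_nonempty hNne (fun ρ => finrank K ρ.comm)
  obtain ⟨f₀, q₀, hq₀, hex₀⟩ := hρ₀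
  have hρ₀N : ρ₀ ∈ N := ⟨f₀, q₀, hq₀, hex₀⟩
  have hminZ : ∀ ρ ∈ closure N, finrank K ρ₀.comm ≤ finrank K ρ.comm := by
    intro ρ hρ
    obtain ⟨O, hO, hρO, hOle⟩ := exists_open_comm_le ρ
    rw [_root_.mem_closure_iff] at hρ
    obtain ⟨τ, hτO, hτN⟩ := hρ O hO hρO
    exact (hmin τ hτN).trans (hOle τ hτO)
  obtain ⟨W, hWe, hW1, hW2⟩ := exists_transversal (K := K) f₀ q₀ hq₀ hex₀
  obtain ⟨C, hC, hC2, hC1, hC3⟩ := exists_compl_comm ρ₀
  -- E(f₀, f₀) is positive
  have hpos : 1 ≤ eDim K f₀ ρ₀.Mod := by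
    by_contra hlt
    have h0 : finrank K W = 0 := by omega
    have hW0 : W = ⊥ := by
      rwa [Submodule.finrank_eq_zero] at h0
    refine hno f₀ fun h => ?_
    obtain ⟨α, β, w, hw, hh⟩ := hW1 h
    rw [hW0, Submodule.mem_bot] at hw
    refine ⟨α, β, ?_⟩
    rw [hh, hw, add_zero]
  -- dimensions
  have hZlow : ((finrank K C + finrank K W : ℕ) : WithBot ℕ∞) ≤ topologicalKrullDim (closure N) :=
    family_lower_bound he.coi ρ₀ f₀ q₀ hq₀ hex₀ hmax C hC hC2 W hW2 _ subset_closure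
  have hZup : topologicalKrullDim (closure N) ≤ ((finrank K C + finrank K W : ℕ) : WithBot ℕ∞) :=
    family_upper_bound he.coi ρ₀ f₀ q₀ hq₀ hex₀ hmax C hC hC2 hC3 W hW1 hmin subset_rfl
  have hZdim : topologicalKrullDim (closure N) = ((finrank K C + finrank K W : ℕ) : WithBot ℕ∞) :=
    le_antisymm hZup hZlow
  have horb : ∀ ρ : Rep K A e d, ∃ c : ℕ, c + finrank K ρ.comm = finrank K (endGr K d) ∧
      topologicalKrullDim (orbit ρ) = (c : WithBot ℕ∞) ∧
      topologicalKrullDim (closure (orbit ρ)) ≤ (c : WithBot ℕ∞) := by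
    intro ρ
    obtain ⟨C', hC', hC2', hC1', hC3'⟩ := exists_compl_comm ρ
    refine ⟨finrank K C', hC3', le_antisymm ?_ ?_, ?_⟩
    · exact orbit_upper_bound ρ C' hC' hC1' hC2' subset_closure
    · exact orbit_lower_bound ρ C' hC' hC2'
    · exact orbit_upper_bound ρ C' hC' hC1' hC2' subset_rfl
  -- the open set of good points
  obtain ⟨Sg, hSg, hdec⟩ := exists_finite_closure_of_mapDec he hmax hrig
  let G : Set (Rep K A e d) := N ∩ ⋂ σ ∈ Sg, (closure (orbit σ))ᶜ
  have hGo : IsOpen G :=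
    hNo.inter (hSg.isOpen_biInter fun σ _ => isClosed_closure.isOpen_compl)
  have hGne : G.Nonempty := by
    by_contra hemp
    rw [Set.not_nonempty_iff_eq_empty] at hemp
    have hcov : N ⊆ ⋃ σ ∈ Sg, closure (orbit σ) := by
      intro ρ hρ
      by_contra hcon
      have : ρ ∈ G := by
        refine ⟨hρ, ?_⟩
        simp only [Set.mem_iInter, Set.mem_compl_iff]
        intro σ hσ hc
        exact hcon (Set.mem_biUnion hσ hc)
      rw [hemp] at this
      exact this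
    obtain ⟨t, ht, hNt⟩ : ∃ t ∈ (fun σ => closure (orbit σ)) '' Sg, N ⊆ t := by
      refine (isIrreducible_iff_sUnion_isClosed.mp hNi) (hSg.image _).toFinset ?_ ?_ |>.imp
        fun t ht => ⟨by simpa using ht.1, ht.2⟩
      · intro t ht
        simp only [Set.Finite.mem_toFinset, Set.mem_image] at ht
        obtain ⟨σ, -, rfl⟩ := ht
        exact isClosed_closure
      · intro ρ hρ
        obtain ⟨σ, hσ, hρσ⟩ := Set.mem_iUnion₂.mp (hcov hρ)
        simp only [Set.Finite.coe_toFinset, Set.sUnion_image]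
        exact Set.mem_biUnion hσ hρσ
    obtain ⟨σ, hσ, rfl⟩ := ht
    -- σ is in N
    obtain ⟨ρ, hρN⟩ := hNne
    have hρσ := hNt hρN
    simp only at hρσ
    rw [_root_.mem_closure_iff] at hρσ
    obtain ⟨τ, hτN, hτσ⟩ := hρσ N hNo hρN
    have hσN : σ ∈ N := hNorb τ hτN σ (mem_orbit_symm hτσ)
    obtain ⟨c, hc, -, hc3⟩ := horb σ
    have h1 : topologicalKrullDim (closure N) ≤ (c : WithBot ℕ∞) := by
      refine le_trans ?_ hc3
      have hsub : closure N ⊆ closure (orbit σ) := closure_minimal hNt isClosed_closure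
      exact (Topology.IsEmbedding.inclusion hsub).isInducing.topologicalKrullDim_le
    rw [hZdim] at h1
    have h2 : finrank K C + finrank K W ≤ c := by exact_mod_cast h1
    have h3 := hmin σ hσN
    omega
  -- properties of the good points
  have hGood : ∀ ρ ∈ G, ∃ (f : P₁ →ₗ[A] P₀) (q : P₀ →ₗ[A] ρ.Mod), IsMinPres f q ∧
      Indec A ρ.Mod := by
    rintro ρ ⟨⟨f, q, hq, hex⟩, hρ⟩
    have hdec' : ¬ MapDec f := by
      intro hd
      obtain ⟨σ, hσ, hρσ⟩ := hdec ρ f q hq hex hd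
      simp only [Set.mem_iInter, Set.mem_compl_iff] at hρ
      exact hρ σ hσ hρσ
    have hnt : Nontrivial ρ.Mod := by
      by_contra hnt
      rw [not_nontrivial_iff_subsingleton] at hnt
      have hsurj : Function.Surjective f := by
        rw [← LinearMap.range_eq_top, hex]
        rw [eq_top_iff]
        intro x _
        exact Subsingleton.elim _ _
      refine hno f fun h => ?_
      obtain ⟨β, hβ⟩ := Module.projective_lifting_property f h hsurj
      exact ⟨0, β, by rw [LinearMap.zero_comp, zero_add, hβ]⟩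
    have hpres : IsPres f q := ⟨inferInstance, inferInstance, inferInstance, inferInstance, hq, hex⟩
    exact ⟨f, q, isMinPres_and_indec_of_not_mapDec K f q hpres hdec'⟩
  have hG_dense : closure N ⊆ closure G := by
    have hGN : G ⊆ N := Set.inter_subset_left
    refine closure_minimal ?_ isClosed_closure
    intro ρ hρ
    rw [_root_.mem_closure_iff]
    intro O hO hρO
    obtain ⟨γ, hγ⟩ := hGne
    obtain ⟨τ, -, hτO, hτG⟩ := hNi.isPreirreducible O G hO hGo ⟨ρ, hρ, hρO⟩ ⟨γ, hGN hγ, hγ⟩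
    exact ⟨τ, hτO, hτG⟩
  -- numerical facts
  have hnum : ∀ (Q₁ Q₀ : Type) [AddCommGroup Q₁] [Module A Q₁] [Module.Finite A Q₁]
      [Module.Projective A Q₁] [AddCommGroup Q₀] [Module A Q₀] [Module.Finite A Q₀]
      [Module.Projective A Q₀] (ρ σ : Rep K A e d) (f : Q₁ →ₗ[A] Q₀) (q : Q₀ →ₗ[A] ρ.Mod)
      (f' : Q₁ →ₗ[A] Q₀) (q' : Q₀ →ₗ[A] σ.Mod), Function.Surjective q →
      LinearMap.range f = LinearMap.ker q → Function.Surjective q' →
      LinearMap.range f' = LinearMap.ker q' →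
      eDim K f ρ.Mod + finrank K σ.comm = eDim K f' σ.Mod + finrank K ρ.comm := by
    intro Q₁ Q₀ _ _ _ _ _ _ _ _ ρ σ f q f' q' h1 h2 h3 h4
    have e1 := eDim_add_hd (K := K) f q h1 h2
    have e2 := eDim_add_hd (K := K) f' q' h3 h4
    have e3 := hd_rep_eq K e he d Q₁ ρ σ
    have e4 := hd_rep_eq K e he d Q₀ ρ σ
    have e5 := ρ.finrank_comm
    have e6 := σ.finrank_comm
    omega
  -- lower bound for hom^τ on Z
  have htau : ∀ ρ ∈ closure N, ∀ k, HomTauDim K A ρ.Mod k → eDim K f₀ ρ₀.Mod ≤ k := by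
    intro ρ hρ k hk
    obtain ⟨Q₁, Q₀, _, _, _, _, g₁, p, hg₁, hk'⟩ := hk.exists_eDim
    have := hg₁.proj₁
    have := hg₁.fin₁
    have := hg₁.proj₀
    have := hg₁.fin₀
    let _ : Module K Q₁ := Module.compHom Q₁ (algebraMap K A)
    let _ : Module K Q₀ := Module.compHom Q₀ (algebraMap K A)
    have : IsScalarTower K A Q₁ := ⟨fun c a x => by
      change (c • a) • x = algebraMap K A c • (a • x)
      rw [Algebra.smul_def, mul_smul]⟩
    have : IsScalarTower K A Q₀ := ⟨fun c a x => by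
      change (c • a) • x = algebraMap K A c • (a • x)
      rw [Algebra.smul_def, mul_smul]⟩
    have : FiniteDimensional K Q₁ := Module.Finite.trans A Q₁
    have : FiniteDimensional K Q₀ := Module.Finite.trans A Q₀
    have hopen : IsOpen (presSet e d Q₁ Q₀ : Set (Rep K A e d)) := isOpen_presSet
    obtain ⟨O, hO, hρO, hOle⟩ := exists_open_comm_le ρ
    have hρ' := hG_dense hρ
    rw [_root_.mem_closure_iff] at hρ'
    obtain ⟨τ, ⟨hτO, g₂, p₂, hp₂, hgp₂⟩, hτG⟩ := hρ' (O ∩ presSet e d Q₁ Q₀) (hO.inter hopen)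
      ⟨hρO, g₁, p, hg₁.surj, hg₁.exact⟩
    obtain ⟨f₂, q₂, hf₂, -⟩ := hGood τ hτG
    have h1 := hnum Q₁ Q₀ ρ τ g₁ p g₂ p₂ hg₁.surj hg₁.exact hp₂ hgp₂
    have h2 := hOle τ hτO
    have h3 : eDim K f₂ τ.Mod ≤ eDim K g₂ τ.Mod :=
      eDim_le_of_isMinPres K f₂ q₂ hf₂ g₂ p₂
        ⟨inferInstance, inferInstance, inferInstance, inferInstance, hp₂, hgp₂⟩ τ.Mod
    have h4 := hnum P₁ P₀ ρ₀ τ f₀ q₀ f₂ q₂ hq₀ hex₀ hf₂.surj hf₂.exact
    have h5 := hmin τ hτG.1
    omega
  -- hom^τ(ρ₀)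
  have htau₀ : HomTauDim K A ρ₀.Mod (eDim K f₀ ρ₀.Mod) := by
    have hfin : Module.Finite A ρ₀.Mod := Module.Finite.of_surjective q₀ hq₀
    obtain ⟨Q₁, Q₀, _, _, _, _, g₁, p, hg₁⟩ := exists_minPres K (A := A) ρ₀.Mod
    have h1 := homTauDim_of_minPres hg₁
    have h2 := htau ρ₀ (subset_closure hρ₀N) _ h1
    have h3 : eDim K g₁ ρ₀.Mod ≤ eDim K f₀ ρ₀.Mod :=
      eDim_le_of_isMinPres K g₁ p hg₁ f₀ q₀
        ⟨inferInstance, inferInstance, inferInstance, inferInstance, hq₀, hex₀⟩ ρ₀.Mod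
    have h4 : eDim K g₁ ρ₀.Mod = eDim K f₀ ρ₀.Mod := le_antisymm h3 h2
    rw [← h4]
    exact h1
  -- c_A(Z)
  have hcA : cA (closure N) = eDim K f₀ ρ₀.Mod := by
    unfold cA
    apply le_antisymm
    · refine Nat.sInf_le ⟨ρ₀, subset_closure hρ₀N, ?_⟩
      obtain ⟨c, hc, hc2, -⟩ := horb ρ₀
      rw [hZdim, hc2]
      have : finrank K C + finrank K W = c + eDim K f₀ ρ₀.Mod := by omega
      rw [this]
      push_cast
      rfl
    · refine le_csInf ⟨eDim K f₀ ρ₀.Mod, ρ₀, subset_closure hρ₀N, ?_⟩ ?_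
      · obtain ⟨c, hc, hc2, -⟩ := horb ρ₀
        rw [hZdim, hc2]
        have : finrank K C + finrank K W = c + eDim K f₀ ρ₀.Mod := by omega
        rw [this]
        push_cast
        rfl
      · rintro k ⟨ρ, hρ, hk⟩
        obtain ⟨c, hc, hc2, -⟩ := horb ρ
        rw [hZdim, hc2] at hk
        have h1 : finrank K C + finrank K W = c + k := by exact_mod_cast hk
        have h2 := hminZ ρ hρ
        omega
  have hhT : homTau (closure N) = eDim K f₀ ρ₀.Mod := by
    unfold homTau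
    apply le_antisymm
    · exact Nat.sInf_le ⟨ρ₀, subset_closure hρ₀N, htau₀⟩
    · refine le_csInf ⟨_, ρ₀, subset_closure hρ₀N, htau₀⟩ ?_
      rintro k ⟨ρ, hρ, hk⟩
      exact htau ρ hρ k hk
  refine ⟨d, closure N, closure_mem_irreducibleComponents hNo hNi, ?_, ?_, ?_⟩
  · refine ⟨G, hGo, ?_, ?_⟩
    · have hGN : G ⊆ closure N := Set.inter_subset_left.trans subset_closure
      rw [Set.inter_eq_right.mpr hGN]
      exact hG_dense
    · rintro ρ ⟨-, hρ⟩
      obtain ⟨f, q, -, h⟩ := hGood ρ hρ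
      exact h
  · rw [hcA, hhT]
  · rw [hcA]
    exact hpos

end Pool.Agent.Helper343_Tau
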