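import Mathlib
import Pool.Agent.Helper343_Tau.Basic
import Pool.Agent.Helper793_Bricks.Rank2

set_option autoImplicit false

open Module Pool.Agent.Helper793Bricks

namespace Pool.Agent.Helper343_Tau

section dij

variable {A : Type} [Ring A] {M : Type} [AddCommGroup M] [Module A M]

/-- Fitting -/
theorem dij_fitting [IsArtinian A M] [IsNoetherian A M] (hM : Indec A M) (x : Module.End A M) :
    Function.Bijective x ∨ IsNilpotent x := by
  obtain ⟨n, hn1, hn2⟩ := ((LinearMap.eventually_isCompl_ker_pow_range_pow x).and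
    (Filter.eventually_ge_atTop 1)).exists
  rcases hM.2 _ _ hn1 with h | h
  · left
    apply IsArtinian.bijective_of_injective_endomorphism
    rw [← LinearMap.ker_eq_bot, eq_bot_iff, ← h]
    intro y hy
    obtain ⟨m, rfl⟩ : ∃ m, n = m + 1 := ⟨n - 1, by omega⟩
    rw [LinearMap.mem_ker] at hy ⊢
    rw [pow_succ, Module.End.mul_apply, hy, map_zero]
  · right
    exact ⟨n, LinearMap.range_eq_bot.1 h⟩

theorem dij_nil [IsArtinian A M] [IsNoetherian A M] (hM : Indec A M)
    [IsArtinianRing (Module.End A M)] :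
    ∃ n, ∀ l : List (Module.End A M), l.length = n → (∀ x ∈ l, ¬ Function.Bijective x) →
      l.prod = 0 := by
  have hJ : IsNilpotent (Ring.jacobson (Module.End A M)) := IsSemiprimaryRing.isNilpotent
  have hmem : ∀ x : Module.End A M, ¬ Function.Bijective x → x ∈ Ring.jacobson (Module.End A M) := by
    intro x hx
    rw [← Ideal.jacobson_bot, Ideal.mem_jacobson_iff]
    intro y
    have h1 : ¬ Function.Bijective (y * x : Module.End A M) := by
      intro h
      apply hx
      apply IsArtinian.bijective_of_injective_endomorphism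
      exact Function.Injective.of_comp h.1
    have h2 := (dij_fitting hM (y * x)).resolve_left h1
    obtain ⟨u, hu⟩ := h2.isUnit_add_one
    refine ⟨(u⁻¹ : (Module.End A M)ˣ), ?_⟩
    have h3 : ((u⁻¹ : (Module.End A M)ˣ) : Module.End A M) * (y * x + 1) = 1 := by
      rw [← hu, Units.inv_mul]
    rw [mul_add, mul_one, ← mul_assoc] at h3
    rw [h3, sub_self]
    exact Submodule.zero_mem _
  obtain ⟨n, hn⟩ := hJ
  refine ⟨n, ?_⟩
  have key : ∀ (n : ℕ) (l : List (Module.End A M)), l.length = n →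
      (∀ x ∈ l, ¬ Function.Bijective x) → l.prod ∈ (Ring.jacobson (Module.End A M)) ^ n := by
    intro n
    induction n with
    | zero =>
      intro l hl _
      rw [List.length_eq_zero_iff] at hl
      subst hl
      rw [Submodule.pow_zero, List.prod_nil, Ideal.one_eq_top]
      trivial
    | succ n ih =>
      intro l hl hx
      obtain ⟨x, l', rfl⟩ := List.exists_cons_of_length_eq_add_one hl
      rw [List.prod_cons, Ideal.IsTwoSided.pow_succ]
      apply Ideal.mul_mem_mul
      · exact hmem x (hx x (by simp))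
      · apply ih
        · simpa using hl
        · intro y hy
          exact hx y (by simp [hy])
  intro l hl hx
  have := key n l hl hx
  rw [hn] at this
  exact this

variable (A M) in
/-- the sum of the ranges of the non-bijective endomorphisms -/
def NN : Submodule A M := ⨆ x : {x : Module.End A M // ¬ Function.Bijective x},
  LinearMap.range x.1

theorem range_le_NN (x : Module.End A M) (hx : ¬ Function.Bijective x) :
    LinearMap.range x ≤ NN A M :=
  le_iSup (fun x : {x : Module.End A M // ¬ Function.Bijective x} => LinearMap.range x.1) ⟨x, hx⟩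

/-- a nonzero map killing `NN` -/
theorem dij_exists [IsArtinian A M] [IsNoetherian A M] (hM : Indec A M)
    [IsArtinianRing (Module.End A M)] (L : Submodule A M) (hL : L ≠ ⊤) :
    ∃ x : Module.End A M, ¬ LinearMap.range x ≤ L ∧ (NN A M).map x ≤ L := by
  obtain ⟨n, hn⟩ := dij_nil hM
  let Pr : ℕ → Prop := fun j => ∀ l : List (Module.End A M), l.length = j →
    (∀ x ∈ l, ¬ Function.Bijective x) → LinearMap.range l.prod ≤ L
  have hex : ∃ j, Pr j := ⟨n, fun l hl hx => by
    rw [hn l hl hx, LinearMap.range_zero]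
    exact bot_le⟩
  classical
  have h1 := Nat.find_spec hex
  have h2 : Nat.find hex ≠ 0 := by
    intro h0
    rw [h0] at h1
    apply hL
    have h3 := h1 [] rfl (by simp)
    rw [List.prod_nil] at h3
    rw [eq_top_iff]
    intro y _
    exact h3 ⟨y, rfl⟩
  obtain ⟨i, hi⟩ := Nat.exists_eq_succ_of_ne_zero h2
  have h3 := Nat.find_min hex (m := i) (by omega)
  simp only [Pr] at h3
  push Not at h3
  obtain ⟨l, hl, hx, hr⟩ := h3
  refine ⟨l.prod, hr, ?_⟩
  unfold NN
  rw [Submodule.map_iSup]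
  apply iSup_le
  rintro ⟨x, hx'⟩
  have h4 := h1 (l ++ [x]) (by rw [hi]; simp [hl]) (by
    intro y hy
    rw [List.mem_append, List.mem_singleton] at hy
    rcases hy with hy | rfl
    · exact hx y hy
    · exact hx')
  rw [List.prod_append, List.prod_singleton] at h4
  rintro _ ⟨_, ⟨z, rfl⟩, rfl⟩
  exact h4 ⟨z, rfl⟩

theorem NN_ne_top [IsArtinian A M] [IsNoetherian A M] (hM : Indec A M)
    [IsArtinianRing (Module.End A M)] : NN A M ≠ ⊤ := by
  intro h
  have := hM.1
  obtain ⟨x, h1, h2⟩ := dij_exists hM ⊥ bot_ne_top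
  apply h1
  rw [h, Submodule.map_top] at h2
  exact h2

/-- Lifting maps -/
theorem dij_lift {P₁ P₀ : Type} [AddCommGroup P₁] [Module A P₁] [AddCommGroup P₀] [Module A P₀]
    (f : P₁ →ₗ[A] P₀) (q : P₀ →ₗ[A] M) (hp : IsPres f q) (hE : E0 f M)
    {Z : Type} [AddCommGroup Z] [Module A Z] [IsNoetherian A Z] (Y : Set (M →ₗ[A] Z))
    (L : Submodule A Z) (hL : L = ⨆ y : Y, LinearMap.range y.1) (g : M →ₗ[A] Z ⧸ L) :
    ∃ x : M →ₗ[A] Z, L.mkQ ∘ₗ x = g := by
  classical
  have := hp.proj₀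
  have := hp.proj₁
  obtain ⟨h, hh⟩ := Module.projective_lifting_property L.mkQ (g ∘ₗ q) L.mkQ_surjective
  have hqf : q ∘ₗ f = 0 := by
    refine LinearMap.ext fun x => ?_
    have : f x ∈ LinearMap.range f := ⟨x, rfl⟩
    rw [hp.exact] at this
    exact this
  have hfg : L.FG := IsNoetherian.noetherian L
  obtain ⟨s, hs⟩ := CompleteLattice.IsCompactElement.exists_finset_of_le_iSup _
    ((Submodule.fg_iff_compact L).1 hfg) (fun y : Y => LinearMap.range y.1) hL.le
  let Φ : (s → M) →ₗ[A] Z := ∑ y : s, (y.1.1 : M →ₗ[A] Z) ∘ₗ LinearMap.proj y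
  have hΦ : ∀ m, Φ m = ∑ y : s, (y.1.1 : M →ₗ[A] Z) (m y) := by
    intro m
    simp [Φ]
  have hΦle : ∀ m, Φ m ∈ L := by
    intro m
    rw [hΦ, hL]
    apply Submodule.sum_mem
    intro y _
    exact (le_iSup (fun y : Y => LinearMap.range y.1) y.1) ⟨_, rfl⟩
  have hΦge : ∀ z ∈ L, ∃ m, Φ m = z := by
    have : L ≤ LinearMap.range Φ := by
      refine hs.trans ?_
      apply iSup₂_le
      rintro y hy _ ⟨m, rfl⟩
      refine ⟨Pi.single ⟨y, hy⟩ m, ?_⟩
      rw [hΦ, Finset.sum_eq_single ⟨y, hy⟩]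
      · simp
      · intro b _ hb
        rw [Pi.single_eq_of_ne hb, map_zero]
      · intro h
        exact absurd (Finset.mem_univ _) h
    exact this
  let Φ' : (s → M) →ₗ[A] L := Φ.codRestrict L hΦle
  have hΦ's : Function.Surjective Φ' := by
    rintro ⟨z, hz⟩
    obtain ⟨m, hm⟩ := hΦge z hz
    exact ⟨m, Subtype.ext hm⟩
  have hhf : ∀ p, (h ∘ₗ f) p ∈ L := by
    intro p
    rw [← Submodule.ker_mkQ L, LinearMap.mem_ker]
    have h1 := LinearMap.congr_fun hh (f p)
    have h2 := LinearMap.congr_fun hqf p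
    simp only [LinearMap.comp_apply] at h1 h2 ⊢
    rw [h1, h2]
    simp
  obtain ⟨C, hC⟩ := Module.projective_lifting_property Φ' ((h ∘ₗ f).codRestrict L hhf) hΦ's
  have hfac : ∀ y : s, ∃ c : P₀ →ₗ[A] M, c ∘ₗ f = LinearMap.proj y ∘ₗ C := fun y => hE _
  choose c hc using hfac
  let C' : P₀ →ₗ[A] (s → M) := LinearMap.pi c
  have hC' : C' ∘ₗ f = C := by
    refine LinearMap.ext fun p => ?_
    funext y
    exact LinearMap.congr_fun (hc y) p
  have hker : LinearMap.ker q ≤ LinearMap.ker (h - Φ ∘ₗ C') := by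
    rw [← hp.exact]
    rintro _ ⟨p, rfl⟩
    rw [LinearMap.mem_ker, LinearMap.sub_apply, LinearMap.comp_apply]
    have h1 : C' (f p) = C p := LinearMap.congr_fun hC' p
    have h2 : Φ (C p) = h (f p) := congrArg Subtype.val (LinearMap.congr_fun hC p)
    rw [h1, h2, sub_self]
  let x : M →ₗ[A] Z := (LinearMap.ker q).liftQ (h - Φ ∘ₗ C') hker ∘ₗ
    (q.quotKerEquivOfSurjective hp.surj).symm.toLinearMap
  have hx : ∀ p, x (q p) = h p - Φ (C' p) := by
    intro p
    have h5 : (q.quotKerEquivOfSurjective hp.surj).symm (q p) = (LinearMap.ker q).mkQ p := by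
      rw [LinearEquiv.symm_apply_eq]
      rfl
    change (LinearMap.ker q).liftQ _ hker ((q.quotKerEquivOfSurjective hp.surj).symm (q p)) = _
    rw [h5]
    rfl
  refine ⟨x, LinearMap.ext fun m => ?_⟩
  obtain ⟨p, rfl⟩ := hp.surj m
  have h1 : L.mkQ (h p) = g (q p) := LinearMap.congr_fun hh p
  have h2 : L.mkQ (Φ (C' p)) = 0 := by
    rw [← LinearMap.mem_ker, Submodule.ker_mkQ]
    exact hΦle _
  rw [LinearMap.comp_apply, hx, map_sub, h1, h2, sub_zero]

theorem dij_brick [IsArtinian A M] [IsNoetherian A M] (hM : Indec A M)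
    [IsArtinianRing (Module.End A M)]
    {P₁ P₀ : Type} [AddCommGroup P₁] [Module A P₁] [AddCommGroup P₀] [Module A P₀]
    (f : P₁ →ₗ[A] P₀) (q : P₀ →ₗ[A] M) (hp : IsPres f q) (hE : E0 f M) :
    IsBrick A (M ⧸ NN A M) := by
  refine ⟨Submodule.Quotient.nontrivial_iff.2 (NN_ne_top hM), fun b hb => ?_⟩
  have hL : NN A M = ⨆ y : {x : Module.End A M | ¬ Function.Bijective x}, LinearMap.range y.1 := rfl
  obtain ⟨x, hx⟩ := dij_lift f q hp hE _ (NN A M) hL (b ∘ₗ (NN A M).mkQ)
  have hxb : Function.Bijective x := by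
    by_contra hcon
    apply hb
    have h1 := range_le_NN x hcon
    refine LinearMap.ext fun z => ?_
    obtain ⟨m, rfl⟩ := (NN A M).mkQ_surjective z
    have h2 := LinearMap.congr_fun hx m
    simp only [LinearMap.comp_apply] at h2
    rw [← h2, LinearMap.zero_apply, ← LinearMap.mem_ker, Submodule.ker_mkQ]
    exact h1 ⟨m, rfl⟩
  have hs : Function.Surjective b := by
    intro z
    obtain ⟨m, rfl⟩ := (NN A M).mkQ_surjective z
    obtain ⟨m', rfl⟩ := hxb.2 m
    exact ⟨(NN A M).mkQ m', (LinearMap.congr_fun hx m').symm⟩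
  exact ⟨IsNoetherian.injective_of_surjective_endomorphism b hs, hs⟩

variable {M' : Type} [AddCommGroup M'] [Module A M']

/-- the trace -/
theorem dij_trace [IsArtinian A M] [IsNoetherian A M] (hM : Indec A M)
    [IsArtinianRing (Module.End A M)] [IsArtinian A M'] [IsNoetherian A M'] (hM' : Indec A M')
    [IsArtinianRing (Module.End A M')]
    {P₁ P₀ : Type} [AddCommGroup P₁] [Module A P₁] [AddCommGroup P₀] [Module A P₀]
    (f : P₁ →ₗ[A] P₀) (q : P₀ →ₗ[A] M) (hp : IsPres f q) (hE : E0 f M)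
    (e : (M ⧸ NN A M) ≃ₗ[A] (M' ⧸ NN A M')) :
    (⨆ u : M →ₗ[A] M', LinearMap.range u) = ⊤ := by
  by_contra hcon
  set L : Submodule A M' := ⨆ u : M →ₗ[A] M', LinearMap.range u with hL
  obtain ⟨x, hx1, hx2⟩ := dij_exists hM' L hcon
  have hk : NN A M' ≤ LinearMap.ker (L.mkQ ∘ₗ x) := by
    intro y hy
    rw [LinearMap.mem_ker, LinearMap.comp_apply, ← LinearMap.mem_ker, Submodule.ker_mkQ]
    exact hx2 ⟨y, hy, rfl⟩
  let b' : (M' ⧸ NN A M') →ₗ[A] (M' ⧸ L) := (NN A M').liftQ (L.mkQ ∘ₗ x) hk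
  have hb' : ∀ y, b' ((NN A M').mkQ y) = L.mkQ (x y) := fun y => rfl
  obtain ⟨z, hz⟩ := dij_lift f q hp hE (Set.univ : Set (M →ₗ[A] M')) L (by
    rw [hL]
    apply le_antisymm
    · exact iSup_le fun u => le_iSup (fun y : (Set.univ : Set (M →ₗ[A] M')) =>
        LinearMap.range y.1) ⟨u, trivial⟩
    · exact iSup_le fun u => le_iSup (fun y : (M →ₗ[A] M') => LinearMap.range y) u.1)
    (b' ∘ₗ e.toLinearMap ∘ₗ (NN A M).mkQ)
  apply hx1
  rintro _ ⟨y, rfl⟩
  rw [← Submodule.ker_mkQ L, LinearMap.mem_ker, ← hb']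
  obtain ⟨w, hw⟩ := e.surjective ((NN A M').mkQ y)
  obtain ⟨m, rfl⟩ := (NN A M).mkQ_surjective w
  rw [← hw]
  have h1 := LinearMap.congr_fun hz m
  have h2 : L.mkQ (z m) = 0 := by
    rw [← LinearMap.mem_ker, Submodule.ker_mkQ]
    exact (le_iSup (fun y : (M →ₗ[A] M') => LinearMap.range y) z) ⟨m, rfl⟩
  rw [LinearMap.comp_apply, h2] at h1
  exact h1.symm

theorem dij_iso [IsArtinian A M] [IsNoetherian A M] (hM : Indec A M)
    [IsArtinianRing (Module.End A M)] [IsArtinian A M'] [IsNoetherian A M'] (hM' : Indec A M')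
    [IsArtinianRing (Module.End A M')]
    {P₁ P₀ : Type} [AddCommGroup P₁] [Module A P₁] [AddCommGroup P₀] [Module A P₀]
    (f : P₁ →ₗ[A] P₀) (q : P₀ →ₗ[A] M) (hp : IsPres f q) (hE : E0 f M)
    {P₁' P₀' : Type} [AddCommGroup P₁'] [Module A P₁'] [AddCommGroup P₀'] [Module A P₀']
    (f' : P₁' →ₗ[A] P₀') (q' : P₀' →ₗ[A] M') (hp' : IsPres f' q') (hE' : E0 f' M')
    (e : (M ⧸ NN A M) ≃ₗ[A] (M' ⧸ NN A M')) : Nonempty (M ≃ₗ[A] M') := by
  have h1 := dij_trace hM hM' f q hp hE e
  have h2 := dij_trace hM' hM f' q' hp' hE' e.symm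
  have h3 : ∃ (u : M →ₗ[A] M') (v : M' →ₗ[A] M), Function.Bijective (v ∘ₗ u) := by
    by_contra hcon
    push Not at hcon
    apply NN_ne_top hM
    rw [eq_top_iff, ← h2]
    apply iSup_le
    intro v
    rw [LinearMap.range_eq_map, ← h1, Submodule.map_iSup]
    apply iSup_le
    rintro u _ ⟨_, ⟨z, rfl⟩, rfl⟩
    exact range_le_NN (v ∘ₗ u) (hcon u v) ⟨z, rfl⟩
  obtain ⟨u, v, huv⟩ := h3
  have hui : Function.Injective u := Function.Injective.of_comp huv.1
  have hvs : Function.Surjective v := Function.Surjective.of_comp huv.2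
  have hc : IsCompl (LinearMap.range u) (LinearMap.ker v) := by
    constructor
    · rw [Submodule.disjoint_def]
      rintro _ ⟨m, rfl⟩ hm
      have : (v ∘ₗ u) m = (v ∘ₗ u) 0 := by
        rw [map_zero]
        exact hm
      rw [huv.1 this, map_zero]
    · rw [codisjoint_iff, eq_top_iff]
      intro y _
      obtain ⟨m, hm⟩ := huv.2 (v y)
      rw [Submodule.mem_sup]
      refine ⟨u m, ⟨m, rfl⟩, y - u m, ?_, by abel⟩
      rw [LinearMap.mem_ker, map_sub, ← hm]
      simp
  rcases hM'.2 _ _ hc with h | h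
  · exfalso
    obtain ⟨a, ha⟩ := (nontrivial_iff_exists_ne (0 : M)).1 hM.1
    apply ha
    apply hui
    rw [map_zero]
    have : u a ∈ LinearMap.range u := ⟨a, rfl⟩
    rw [h] at this
    exact this
  · exact ⟨(LinearEquiv.ofBijective v ⟨LinearMap.ker_eq_bot.1 h, hvs⟩).symm⟩

end dij

/-- TARGET -/
theorem allBr_infinite (K : Type) [Field K] {A : Type} [Ring A] [Algebra K A]
    [FiniteDimensional K A] (M : ℕ → ModuleCat.{0} A)
    (hM : ∀ i, Module.Finite A (M i) ∧ Indec A (M i) ∧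
      ∃ (P₁ P₀ : Type) (_ : AddCommGroup P₁) (_ : Module A P₁) (_ : AddCommGroup P₀)
        (_ : Module A P₀) (f : P₁ →ₗ[A] P₀) (q : P₀ →ₗ[A] M i), IsPres f q ∧ E0 f (M i))
    (hne : ∀ i j, i ≠ j → IsEmpty (M i ≃ₗ[A] M j)) : (allBr A).Infinite := by
  have hart : IsArtinianRing A := isArtinian_of_tower K inferInstance
  have hfin : ∀ i, Module.Finite A (M i) := fun i => (hM i).1
  have hind : ∀ i, Indec A (M i) := fun i => (hM i).2.1
  have hEnd : ∀ i, IsArtinianRing (Module.End A (M i)) := by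
    intro i
    let _ : Module K (M i) := Module.compHom _ (algebraMap K A)
    have : IsScalarTower K A (M i) := ⟨fun x y z => by
      rw [Algebra.smul_def, mul_smul]; rfl⟩
    have : FiniteDimensional K (M i) := Module.Finite.trans A (M i)
    have : FiniteDimensional K (Module.End A (M i)) := finDimHom K
    exact isArtinian_of_tower K inferInstance
  apply Set.infinite_of_injective_forall_mem
    (f := fun i => (Quotient.mk (isoSetoid A) (ModuleCat.of A (M i ⧸ NN A (M i))) : Cls.{0, 0} A))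
  · intro i j hij
    by_contra hcon
    obtain ⟨e⟩ : (isoSetoid A).r _ _ := Quotient.exact hij
    obtain ⟨P₁, P₀, _, _, _, _, f, q, hp, hE⟩ := (hM i).2.2
    obtain ⟨P₁', P₀', _, _, _, _, f', q', hp', hE'⟩ := (hM j).2.2
    obtain ⟨e'⟩ := dij_iso (hind i) (hind j) f q hp hE f' q' hp' hE' e
    exact (hne i j hcon).false e'
  · intro i
    obtain ⟨P₁, P₀, _, _, _, _, f, q, hp, hE⟩ := (hM i).2.2
    exact ⟨_, rfl, inferInstanceAs (Module.Finite A (M i ⧸ NN A (M i))),
      dij_brick (hind i) f q hp hE⟩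

end Pool.Agent.Helper343_Tau
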