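import Mathlib
import Pool.Agent.Helper343_Tau.Basic
import Pool.Agent.Helper793_Bricks.Rank2

set_option autoImplicit false

open Module Pool.Agent.Helper793Bricks

namespace Pool.Agent.Helper343_Tau

section simples

variable {K : Type} [Field K] {A : Type} [Ring A] [Algebra K A] {n : ℕ}

/-- the simple module attached to a character of `A` -/
noncomputable def charMod (χ : A →+* K) : ModuleCat.{0} A :=
  @ModuleCat.of A _ K _ (Module.compHom K χ)

/-- elements whose multiples are nilpotent kill simple modules -/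
theorem kill_simple {T : Type} [AddCommGroup T] [Module A T] [IsSimpleModule A T] (x : A)
    (hx : ∀ a : A, IsNilpotent (a * x)) (t : T) : x • t = 0 := by
  by_contra hne
  have h1 : Submodule.span A {x • t} = ⊤ := by
    rcases eq_bot_or_eq_top (Submodule.span A {x • t}) with h | h
    · rw [Submodule.span_singleton_eq_bot] at h
      exact absurd h hne
    · exact h
  have h2 : t ∈ Submodule.span A {x • t} := by rw [h1]; trivial
  obtain ⟨a, ha⟩ := Submodule.mem_span_singleton.1 h2
  obtain ⟨m, hm⟩ := hx a
  have h3 : ∀ k : ℕ, (a * x) ^ k • t = t := by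
    intro k
    induction k with
    | zero => rw [pow_zero, one_smul]
    | succ k ih => rw [pow_succ, mul_smul, mul_smul, ha, ih]
  have h4 := h3 m
  rw [hm, zero_smul] at h4
  apply hne
  rw [← h4, smul_zero]

theorem simple_iso {e : Fin n → A} (he : CompleteOrthogonalIdempotents e)
    (π : A →ₐ[K] (Fin n → K)) (hπ : ∀ i, π (e i) = Pi.single i 1)
    (hnil : ∀ a, π a = 0 → IsNilpotent a) {T : Type} [AddCommGroup T] [Module A T]
    [IsSimpleModule A T] :
    ∃ i : Fin n, Nonempty (T ≃ₗ[A] charMod ((Pi.evalRingHom (fun _ => K) i).comp (π : A →+* (Fin n → K)))) := by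
  have hT : Nontrivial T := IsSimpleModule.nontrivial A T
  obtain ⟨t, ht⟩ := exists_ne (0 : T)
  obtain ⟨i, hi⟩ : ∃ i, e i • t ≠ 0 := by
    by_contra hcon
    push Not at hcon
    apply ht
    have h1 : (∑ i, e i) • t = 0 := by
      rw [Finset.sum_smul]
      exact Finset.sum_eq_zero fun i _ => hcon i
    rw [he.complete, one_smul] at h1
    exact h1
  have key : ∀ a : A, a • (e i • t) = algebraMap K A (π a i) • (e i • t) := by
    intro a
    rw [← mul_smul, ← mul_smul, ← sub_eq_zero, ← sub_smul]
    apply kill_simple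
    intro b
    apply hnil
    rw [map_mul, map_sub, map_mul, map_mul, hπ, AlgHom.commutes]
    have h2 : π a * Pi.single i 1 - algebraMap K (Fin n → K) (π a i) * Pi.single i 1 = 0 := by
      funext j
      by_cases hj : j = i
      · subst hj
        simp
      · simp [hj]
    rw [h2, mul_zero]
  let χ : A →+* K := (Pi.evalRingHom (fun _ => K) i).comp (π : A →+* (Fin n → K))
  let φ : charMod χ →ₗ[A] T :=
    { toFun := fun c => algebraMap K A (show K from c) • (e i • t)
      map_add' := fun c c' => by
        rw [← add_smul, ← map_add]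
        rfl
      map_smul' := fun a c => by
        have h1 : algebraMap K A (show K from a • c) =
            algebraMap K A (show K from c) * algebraMap K A (π a i) := by
          rw [← map_mul, mul_comm]
          rfl
        rw [h1, mul_smul, ← key, ← mul_smul, RingHom.id_apply, ← mul_smul, ← mul_smul,
          Algebra.commutes, ← mul_smul] }
  have hφ : ∀ c : charMod χ, φ c = algebraMap K A (show K from c) • (e i • t) := fun _ => rfl
  have hinj : Function.Injective φ := by
    rw [injective_iff_map_eq_zero]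
    intro c hc
    rw [hφ] at hc
    by_contra hne
    have hne' : (show K from c) ≠ 0 := hne
    apply hi
    have h1 : algebraMap K A (show K from c)⁻¹ • algebraMap K A (show K from c) • (e i • t) = 0 := by
      rw [hc, smul_zero]
    rw [← mul_smul, ← map_mul, inv_mul_cancel₀ hne', map_one, one_smul] at h1
    exact h1
  have hsurj : Function.Surjective φ := by
    rw [← LinearMap.range_eq_top]
    rcases eq_bot_or_eq_top (LinearMap.range φ) with h | h
    · exfalso
      apply hi
      have h1 : φ (show charMod χ from (1 : K)) ∈ LinearMap.range φ := ⟨_, rfl⟩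
      rw [h] at h1
      have h2 : φ (show charMod χ from (1 : K)) = 0 := h1
      rw [hφ] at h2
      have h3 : (show K from (show charMod χ from (1 : K))) = 1 := rfl
      rw [h3, map_one, one_smul] at h2
      exact h2
    · exact h
  exact ⟨i, ⟨(LinearEquiv.ofBijective φ ⟨hinj, hsurj⟩).symm⟩⟩

theorem two_simples (hn : n ≤ 2) {e : Fin n → A} (he : IsBasic K A e) :
    ∃ S₁ S₂ : ModuleCat.{0} A, ∀ (T : Type) [AddCommGroup T] [Module A T] [IsSimpleModule A T],
      Nonempty (T ≃ₗ[A] S₁) ∨ Nonempty (T ≃ₗ[A] S₂) := by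
  obtain ⟨π, hπ, hnil⟩ := he.exists_pi
  let S : Fin n → ModuleCat.{0} A := fun i =>
    charMod ((Pi.evalRingHom (fun _ => K) i).comp (π : A →+* (Fin n → K)))
  refine ⟨if h : 0 < n then S ⟨0, h⟩ else ModuleCat.of A PUnit,
    if h : 1 < n then S ⟨1, h⟩ else ModuleCat.of A PUnit, ?_⟩
  intro T _ _ _
  obtain ⟨i, hi⟩ := simple_iso he.coi π hπ hnil (T := T)
  have hlt := i.2
  have hi2 : i.val = 0 ∨ i.val = 1 := by omega
  rcases hi2 with h | h
  · left
    have h0 : 0 < n := by omega
    have h1 : i = ⟨0, h0⟩ := Fin.ext h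
    rw [dif_pos h0, ← h1]
    exact hi
  · right
    have h0 : 1 < n := by omega
    have h1 : i = ⟨1, h0⟩ := Fin.ext h
    rw [dif_pos h0, ← h1]
    exact hi

end simples

theorem exists_R_of_rigid {K A : Type} [Field K] [Ring A] [Algebra K A] [FiniteDimensional K A]
    (D : R2Data K A)
    (hR : ∀ P₁ P₀ : ModuleCat.{0} A, Module.Finite A P₁ → Module.Projective A P₁ →
      Module.Finite A P₀ → Module.Projective A P₀ → ∃ f : P₁ →ₗ[A] P₀, E2 f f) :
    ∃ R : ∀ a b : ℕ, (Fin b → D.Q) →ₗ[A] (Fin a → D.P), ∀ a b, E2 (R a b) (R a b) := by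
  have := D.finP
  have := D.finQ
  have := D.projP
  have := D.projQ
  have h1 : ∀ a b : ℕ, ∃ f : (Fin b → D.Q) →ₗ[A] (Fin a → D.P), E2 f f := by
    intro a b
    have i1 : Module.Projective A (ModuleCat.of A (Fin b → D.Q)) := projPi b
    have i2 : Module.Projective A (ModuleCat.of A (Fin a → D.P)) := projPi a
    have i3 : Module.Finite A (ModuleCat.of A (Fin b → D.Q)) :=
      inferInstanceAs (Module.Finite A (Fin b → D.Q))
    have i4 : Module.Finite A (ModuleCat.of A (Fin a → D.P)) :=
      inferInstanceAs (Module.Finite A (Fin a → D.P))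
    exact hR (ModuleCat.of A (Fin b → D.Q)) (ModuleCat.of A (Fin a → D.P)) i3 i1 i4 i2
  choose R hR' using h1
  exact ⟨R, hR'⟩

/-- TARGET -/
theorem allBr_finite_of_rigid (K : Type) [Field K] {A : Type} [Ring A] [Algebra K A]
    [FiniteDimensional K A] {n : ℕ} (hn : n ≤ 2) (e : Fin n → A) (he : IsBasic K A e)
    (hR : ∀ P₁ P₀ : ModuleCat.{0} A, Module.Finite A P₁ → Module.Projective A P₁ →
      Module.Finite A P₀ → Module.Projective A P₀ → ∃ f : P₁ →ₗ[A] P₀, E2 f f) :
    (allBr A).Finite := by
  obtain ⟨S₁, S₂, hS⟩ := two_simples hn he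
  have : IsArtinianRing A := isArtinian_of_tower K inferInstance
  by_cases h1 : IsSimpleModule A S₁
  · by_cases h2 : IsSimpleModule A S₂
    · by_cases h3 : Nonempty (S₁ ≃ₗ[A] S₂)
      · obtain ⟨e⟩ := h3
        have h4 : ∀ (T : Type) [AddCommGroup T] [Module A T] [IsSimpleModule A T],
            Nonempty (T ≃ₗ[A] S₁) := by
          intro T _ _ _
          rcases hS T with h | ⟨⟨e'⟩⟩
          · exact h
          · exact ⟨e'.trans e.symm⟩
        refine (Set.finite_singleton (Quotient.mk (isoSetoid A) S₁)).subset ?_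
        rintro c ⟨M, rfl, hMf, hM⟩
        exact Quotient.sound (brick_of_one_simple S₁ h4 M hM)
      · rw [not_nonempty_iff] at h3
        obtain ⟨P, hP1, hP2, hP3, hP4⟩ := exists_proj h3
        obtain ⟨Q, hQ1, hQ2, hQ3, hQ4⟩ := exists_proj (A := A) (S₁ := S₂) (S₂ := S₁)
          ⟨fun e => h3.false e.symm⟩
        let D : R2Data K A :=
          { P := P, Q := Q, S₁ := S₁, S₂ := S₂, finP := hP1, finQ := hQ1, projP := hP2,
            projQ := hQ2, simple₁ := h1, simple₂ := h2, PS₁ := hP3, PS₂ := hP4, QS₂ := hQ3,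
            QS₁ := hQ4, all := hS }
        obtain ⟨R, hR1⟩ := exists_R_of_rigid D hR
        obtain ⟨R', hR2⟩ := exists_R_of_rigid D.swap hR
        refine Set.Finite.subset ?_ D.allBr_subset
        exact Set.Finite.union (Set.toFinite _) (Set.Finite.union (D.FacP_finite R hR1)
          (D.swap.FacP_finite R' hR2))
    · have h4 : ∀ (T : Type) [AddCommGroup T] [Module A T] [IsSimpleModule A T],
          Nonempty (T ≃ₗ[A] S₁) := by
        intro T _ _ hT
        rcases hS T with h | ⟨⟨e'⟩⟩
        · exact h
        · exact absurd (IsSimpleModule.congr e'.symm) h2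
      refine (Set.finite_singleton (Quotient.mk (isoSetoid A) S₁)).subset ?_
      rintro c ⟨M, rfl, hMf, hM⟩
      exact Quotient.sound (brick_of_one_simple S₁ h4 M hM)
  · have h4 : ∀ (T : Type) [AddCommGroup T] [Module A T] [IsSimpleModule A T],
        Nonempty (T ≃ₗ[A] S₂) := by
      intro T _ _ hT
      rcases hS T with ⟨⟨e'⟩⟩ | h
      · exact absurd (IsSimpleModule.congr e'.symm) h1
      · exact h
    refine (Set.finite_singleton (Quotient.mk (isoSetoid A) S₂)).subset ?_
    rintro c ⟨M, rfl, hMf, hM⟩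
    exact Quotient.sound (brick_of_one_simple S₂ h4 M hM)

end Pool.Agent.Helper343_Tau
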