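import Mathlib
import Pool.Agent.Helper343_Tau.Main
import Pool.Agent.Helper343_Tau.ManyBricks
import Pool.Agent.Helper343_Tau.Rank2Fin

/-!
The component attached to a non-rigid lattice point, and the case of at most two simple modules.
-/

set_option autoImplicit false

open Module Pool.Agent.Helper793Bricks

namespace Pool.Agent.Helper343_Tau

variable {K : Type} [Field K] {A : Type} [Ring A] [Algebra K A] {n : ℕ} {e : Fin n → A}

/-- The `K`-structure of a module over a `K`-algebra. -/
@[reducible] noncomputable def kMod (K : Type) [Field K] (A : Type) [Ring A] [Algebra K A]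
    (M : Type) [AddCommGroup M] [Module A M] : Module K M := Module.compHom M (algebraMap K A)

theorem kMod_tower (K : Type) [Field K] (A : Type) [Ring A] [Algebra K A]
    (M : Type) [AddCommGroup M] [Module A M] : @IsScalarTower K A M _ _ (kMod K A M).toSMul :=
  letI := kMod K A M
  ⟨fun c a x => by
    change (c • a) • x = algebraMap K A c • (a • x)
    rw [Algebra.smul_def, mul_smul]⟩

theorem projective_of_isCompl' {P : Type} [AddCommGroup P] [Module A P] [Module.Projective A P]
    {X X' : Submodule A P} (hc : IsCompl X X') : Module.Projective A X :=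
  Module.Projective.of_split X.subtype (X.projectionOnto X' hc)
    (LinearMap.ext fun x => Submodule.projectionOnto_apply_left hc x)

/-- **Non-rigid lattice points give components.** -/
theorem exists_component_of_nonrigid [Infinite K] [FiniteDimensional K A] (he : IsBasic K A e)
    (h : ∃ P₁ P₀ : ModuleCat.{0} A, Module.Finite A P₁ ∧ Module.Projective A P₁ ∧
      Module.Finite A P₀ ∧ Module.Projective A P₀ ∧ ∀ f : P₁ →ₗ[A] P₀, ¬ E2 f f) :
    ∃ (d : Fin n → ℕ) (Z : Set (Rep K A e d)), Z ∈ irreducibleComponents (Rep K A e d) ∧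
      GenIndec Z ∧ cA Z = homTau Z ∧ 1 ≤ cA Z := by
  classical
  have hart : IsArtinianRing A := isArtinian_of_tower K inferInstance
  let Pr : ℕ → Prop := fun N => ∃ P₁ P₀ : ModuleCat.{0} A, Module.Finite A P₁ ∧
      Module.Projective A P₁ ∧ Module.Finite A P₀ ∧ Module.Projective A P₀ ∧
      (∀ f : P₁ →ₗ[A] P₀, ¬ E2 f f) ∧ len A P₁ + len A P₀ = N
  have hex : ∃ N, Pr N := by
    obtain ⟨P₁, P₀, h1, h2, h3, h4, h5⟩ := h
    exact ⟨_, P₁, P₀, h1, h2, h3, h4, h5, rfl⟩
  obtain ⟨P₁, P₀, hf1, hp1, hf0, hp0, hno, hN⟩ := Nat.find_spec hex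
  let k1 : Module K P₁ := kMod K A P₁
  let k0 : Module K P₀ := kMod K A P₀
  have : IsScalarTower K A P₁ := kMod_tower K A P₁
  have : IsScalarTower K A P₀ := kMod_tower K A P₀
  have : FiniteDimensional K P₁ := Module.Finite.trans A P₁
  have : FiniteDimensional K P₀ := Module.Finite.trans A P₀
  refine geometric_core he hno ?_
  intro X₀ X₀' X₁ X₁' hc₀ hc₁ hne
  by_contra hcon
  push Not at hcon
  have hlt : len A X₁ + len A X₀ < len A P₁ + len A P₀ := by
    have e1 : len A X₁ ≤ len A P₁ := len_le_of_injective X₁.subtype (Submodule.subtype_injective _)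
    have e0 : len A X₀ ≤ len A P₀ := len_le_of_injective X₀.subtype (Submodule.subtype_injective _)
    by_cases h0 : X₀ = ⊤
    · have h1 : X₁ ≠ ⊤ := by
        intro h1
        apply hne
        rw [h0] at hc₀
        rw [h1] at hc₁
        exact ⟨by simpa using hc₀.disjoint, by simpa using hc₁.disjoint⟩
      have := len_submodule_lt h1
      omega
    · have := len_submodule_lt h0
      omega
  refine Nat.find_min hex (m := len A X₁ + len A X₀) (by omega) ?_
  refine ⟨ModuleCat.of A X₁, ModuleCat.of A X₀, inferInstanceAs (Module.Finite A X₁),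
    projective_of_isCompl' hc₁, inferInstanceAs (Module.Finite A X₀),
    projective_of_isCompl' hc₀, hcon, rfl⟩

/-- `Hom_A(M, τ M) = 0` says that every map `P₁ → M` factors through the presentation. -/
theorem e0_of_tauRigid {P₁ P₀ M : Type} [AddCommGroup P₁] [Module A P₁] [AddCommGroup P₀]
    [Module A P₀] [AddCommGroup M] [Module A M] [Module.Finite A M] [FiniteDimensional K A]
    (f : P₁ →ₗ[A] P₀) (q : P₀ →ₗ[A] M) (hf : IsMinPres f q)
    (h : ∀ β : M →ₗ[A] Tau K f, β = 0) : E0 f M := by
  have := hf.proj₁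
  have := hf.fin₁
  have := hf.proj₀
  have := hf.fin₀
  let _ : Module K M := kMod K A M
  have : IsScalarTower K A M := kMod_tower K A M
  have : FiniteDimensional K M := Module.Finite.trans A M
  obtain ⟨φ⟩ := ar_formula K f M
  have hd : ∀ ξ : Module.Dual K (ECoker K f M), ξ = 0 := by
    intro ξ
    rw [← φ.apply_symm_apply ξ, h (φ.symm ξ), map_zero]
  have hz : ∀ x : ECoker K f M, x = 0 := by
    intro x
    rw [← Module.forall_dual_apply_eq_zero_iff K]
    intro ξ
    rw [hd ξ]
    rfl
  intro ψ
  have h1 := hz (Submodule.Quotient.mk ψ)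
  rw [Submodule.Quotient.mk_eq_zero] at h1
  obtain ⟨φ', hφ'⟩ := h1
  exact ⟨φ', hφ'⟩

/-- A tau-tilting infinite basic algebra with at most two simple modules has a pair of projectives
without rigid map. -/
theorem exists_nonrigid_of_le_two [Infinite K] [FiniteDimensional K A] (hn : n ≤ 2)
    (he : IsBasic K A e) (hinf : TauTiltingInfinite K A) :
    ∃ P₁ P₀ : ModuleCat.{0} A, Module.Finite A P₁ ∧ Module.Projective A P₁ ∧
      Module.Finite A P₀ ∧ Module.Projective A P₀ ∧ ∀ f : P₁ →ₗ[A] P₀, ¬ E2 f f := by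
  by_contra hcon
  push Not at hcon
  have hfin := allBr_finite_of_rigid K hn e he (fun P₁ P₀ h1 h2 h3 h4 => hcon P₁ P₀ h1 h2 h3 h4)
  obtain ⟨M, hM, hne⟩ := hinf
  refine allBr_infinite K M (fun i => ?_) hne hfin
  obtain ⟨h1, h2, P₁, P₀, i1, i2, i3, i4, f, q, hf, hβ⟩ := hM i
  exact ⟨h1, h2, P₁, P₀, i1, i2, i3, i4, f, q, hf.toIsPres, e0_of_tauRigid f q hf hβ⟩

end Pool.Agent.Helper343_Tau
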